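import Pool.Agent.Run7.h328.SEP.TrF

/-! # The curves `y² = x³ + a x + (b + t)`, `t` a rational integer -/

set_option autoImplicit false

namespace Run7.h328.SEP

open NumberField IsDedekindDomain Finset Filter
open Pool.Agent.H921R2.TatePole (nm two_le_nm nm_summable below deg nm_eq kerPrime kerPrime_bijective)
open Pool.Agent.H341R2.EC (trc csum IsMinAt)
open Pool.Agent.Y722.HS (box IH EM red PR mem_PR EM_const EM_mono p_pos)
open Pool.Agent.Y722.LS (bb EM_add EM_mul Fam)
open Pool.Agent.N534.EC (TrFam Nf Bf dK dK_nonneg EM_shift six_ne csum_sum trc_short loc_of lamV)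
open Pool.Agent.N534.LF (Loc)

section
variable {K : Type} [Field K] [NumberField K] (a b : 𝓞 K)

/-- the curve `y² = x³ + a x + (b + t)` -/
noncomputable def crv (t : ℤ) : WeierstrassCurve K where
  a₁ := 0
  a₂ := 0
  a₃ := 0
  a₄ := (a : K)
  a₆ := ((b + (t : 𝓞 K) : 𝓞 K) : K)

/-- the direction -/
def oneU (p : ℕ) : Unit → ZMod p := fun _ => 1

theorem shift_apply (p : ℕ) (r : Unit → ZMod p) (s : ZMod p) : (r + s • oneU p) () = r () + s := by
  simp [oneU]

/-- the trace -/
noncomputable def S1 (p : ℕ) [Fact p.Prime] (φ : 𝓞 K →+* ZMod p) (r : Unit → ZMod p) : ℝ :=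
  -(csum (-48 * φ a) (-864 * (φ b + r ())) : ℝ)

/-- bad reduction -/
def D1 (p : ℕ) [Fact p.Prime] (φ : 𝓞 K →+* ZMod p) (r : Unit → ZMod p) : Prop :=
  4 * φ a ^ 3 + 27 * (φ b + r ()) ^ 2 = 0

theorem trFam_one : TrFam (S1 a b) (D1 a b) 2 5 where
  C0 := by norm_num
  five := le_rfl
  mean := by
    intro p hp h5 φ
    rw [EM_shift p (oneU p)]
    have h1 : (fun r : Unit → ZMod p => (∑ s : ZMod p, S1 a b p φ (r + s • oneU p)) / (p : ℝ)) =
        fun _ => 0 := by
      funext r
      have h2 : ∑ s : ZMod p, S1 a b p φ (r + s • oneU p) = 0 := by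
        unfold S1
        have h3 := csum_sum (six_ne hp.out h5) (-48 * φ a) (φ b + r ())
        simp only [shift_apply, ← add_assoc]
        rw [Finset.sum_neg_distrib, ← Int.cast_sum, h3]
        simp
      rw [h2, zero_div]
    rw [h1, EM_const]
  bd := by
    intro p hp h5 φ r
    unfold S1
    rw [abs_neg]
    have := Pool.Agent.N534.EC.csum_le (six_ne hp.out h5) (-48 * φ a) (-864 * (φ b + r ()))
    rwa [ZMod.card] at this
  bad := by
    intro p hp h5 φ
    classical
    have hp0 := p_pos (p := p)
    rw [EM_shift p (oneU p)]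
    have h1 : EM p (fun r : Unit → ZMod p =>
        (∑ s : ZMod p, if D1 a b p φ (r + s • oneU p) then (1 : ℝ) else 0) / (p : ℝ)) ≤
        EM p (fun _ : Unit → ZMod p => (2 : ℝ) / p) := by
      apply EM_mono
      intro r
      refine div_le_div_of_nonneg_right ?_ hp0.le
      rw [Finset.sum_ite, Finset.sum_const_zero, add_zero, Finset.sum_const, nsmul_eq_mul, mul_one]
      have h2 : (Finset.univ.filter fun s : ZMod p => D1 a b p φ (r + s • oneU p)) ⊆
          ((Polynomial.C 27 * (Polynomial.X + Polynomial.C (φ b + r ())) ^ 2 +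
            Polynomial.C (4 * φ a ^ 3) : Polynomial (ZMod p))).roots.toFinset := by
        intro s hs
        rw [Finset.mem_filter] at hs
        have h3 := hs.2
        unfold D1 at h3
        rw [shift_apply] at h3
        have h27 : (27 : ZMod p) ≠ 0 := by
          intro h
          apply six_ne hp.out h5
          have h4 : (3 : ZMod p) ^ 3 = 0 := by
            have : (27 : ZMod p) = 3 ^ 3 := by norm_num
            rw [← this]; exact h
          have h5 : (3 : ZMod p) = 0 := by
            exact pow_eq_zero_iff (by norm_num) |>.mp h4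
          have : (6 : ZMod p) = 2 * 3 := by norm_num
          rw [this, h5, mul_zero]
        rw [Multiset.mem_toFinset, Polynomial.mem_roots']
        constructor
        · intro h0
          have h4 := congrArg (fun q : Polynomial (ZMod p) => q.coeff 2) h0
          have h5 : (Polynomial.C 27 * (Polynomial.X + Polynomial.C (φ b + r ())) ^ 2 +
            Polynomial.C (4 * φ a ^ 3) : Polynomial (ZMod p)) =
              Polynomial.C 27 * Polynomial.X ^ 2 + Polynomial.C (54 * (φ b + r ())) * Polynomial.X +
              Polynomial.C (27 * (φ b + r ()) ^ 2 + 4 * φ a ^ 3) := by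
            simp only [map_mul, map_add, map_pow]
            have : (Polynomial.C (54 : ZMod p)) = 2 * Polynomial.C 27 := by
              rw [← Polynomial.C_ofNat, ← Polynomial.C_mul]
              congr 1
              norm_num
            rw [this]
            ring
          rw [h5] at h4
          simp only [Polynomial.coeff_add, Polynomial.coeff_C_mul, Polynomial.coeff_X_pow,
            Polynomial.coeff_zero, Polynomial.coeff_X, Polynomial.coeff_C] at h4
          norm_num at h4
          exact h27 h4
        · simp only [Polynomial.IsRoot, Polynomial.eval_add, Polynomial.eval_mul, Polynomial.eval_C,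
            Polynomial.eval_pow, Polynomial.eval_X]
          rw [← h3]
          ring
      have h3 := Finset.card_le_card h2
      have h4 : ((Polynomial.C 27 * (Polynomial.X + Polynomial.C (φ b + r ())) ^ 2 +
            Polynomial.C (4 * φ a ^ 3) : Polynomial (ZMod p))).roots.toFinset.card ≤ 2 := by
        refine (Multiset.toFinset_card_le _).trans ((Polynomial.card_roots' _).trans ?_)
        compute_degree
      exact_mod_cast h3.trans h4
    refine h1.trans ?_
    rw [EM_const]

theorem loc_one (t : ℤ) (V : HeightOneSpectrum (𝓞 K) → WeierstrassCurve (𝓞 K))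
    (hV : ∀ v, IsMinAt (crv a b t) v (V v)) :
    Loc (200 * dK K) (Nf (S1 a b) 5) (Bf (D1 a b) 5) (fun _ : Unit => t) (lamV V) := by
  refine loc_of (trFam_one a b) (fun _ => t) V ?_
  intro p hp h5 φ hD
  have e : φ (b + (t : 𝓞 K)) = φ b + red (p : ℕ) (fun _ : Unit => t) () := by
    rw [map_add, map_intCast]
    rfl
  have h1 := trc_short a (b + (t : 𝓞 K)) (crv a b t) rfl V hV p h5 φ (by
    rw [e]
    exact hD)
  rw [h1, e]
  unfold S1
  push_cast
  rfl

end

end Run7.h328.SEP
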