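import Pool.Agent.Run7.h328.SEP.Engine

/-! # One parameter -/

set_option autoImplicit false

namespace Run7.h328.SEP

open Finset
open Pool.Agent.Y722.HS (box IH)

theorem mem_box_one (H : ℕ) (t : ℤ) : (fun _ : Unit => t) ∈ box Unit H ↔ t ∈ Finset.Icc (-(H : ℤ)) H := by
  unfold Pool.Agent.Y722.HS.box IH
  rw [Fintype.mem_piFinset]
  exact ⟨fun h => h (), fun h _ => h⟩

theorem card_box_one (H : ℕ) : ((box Unit H).card : ℝ) = 2 * H + 1 := by
  unfold Pool.Agent.Y722.HS.box IH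
  rw [Fintype.card_piFinset]
  simp only [Finset.univ_unique, Finset.prod_singleton, Int.card_Icc]
  have h3 : ((H : ℤ) + 1 - -(H : ℤ)).toNat = 2 * H + 1 := by omega
  rw [h3]
  push_cast
  ring

/-- from the box to the interval -/
theorem box_one (H : ℕ) (Ex : Finset (Unit → ℤ)) (hE1 : Ex ⊆ box Unit H) (κ : ℝ)
    (hE2 : (Ex.card : ℝ) ≤ κ * (box Unit H).card) :
    ∃ X ⊆ Finset.Icc (-(H : ℤ)) H, (X.card : ℝ) ≤ κ * (2 * H + 1) ∧
      ∀ t ∈ Finset.Icc (-(H : ℤ)) H \ X, (fun _ : Unit => t) ∈ box Unit H \ Ex := by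
  classical
  set ev : (Unit → ℤ) → ℤ := fun c => c () with hev
  have hinj : Function.Injective ev := by
    intro c c' h
    funext i
    exact h
  refine ⟨Ex.image ev, ?_, ?_, ?_⟩
  · intro t ht
    obtain ⟨c, hc, rfl⟩ := Finset.mem_image.mp ht
    rw [← mem_box_one]
    exact hE1 hc
  · rw [Finset.card_image_of_injective _ hinj, ← card_box_one]
    exact hE2
  · intro t ht
    rw [Finset.mem_sdiff] at ht
    obtain ⟨ht1, ht2⟩ := ht
    rw [Finset.mem_sdiff]
    exact ⟨(mem_box_one H t).mpr ht1, fun h => ht2 (Finset.mem_image.mpr ⟨_, h, rfl⟩)⟩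

end Run7.h328.SEP
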