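import Pool.Agent.Run7.h328.SEP.LocQ
import Pool.Agent.V11210.G2.Mean

/-! # The coefficients `a_1`, `a_2` of hyperelliptic curves of genus `g` -/

set_option autoImplicit false

namespace Run7.h328.SEP.Hyp

open Finset
open Pool.Agent.Y722.HS (box EM red PR mem_PR EM_const EM_mono)
open Pool.Agent.Y722.LS (EM_add EM_mul)
open Pool.Agent.Y57.FD.HM (tr pol tr_mod tr_le bad_card sum_box)
open Pool.Agent.V11210.G2 (A2 mm mean_joint A2_le A2_mod)
open Pool.Agent.TH894.NE (mean)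

/-- representatives -/
def rep (p : ℕ) {D : ℕ} (r : Fin D → ZMod p) : Fin D → ℕ := fun i => (r i).val

theorem cast_rep (p : ℕ) [NeZero p] {D : ℕ} (r : Fin D → ZMod p) : (fun i => ((rep p r i : ℕ) : ZMod p)) = r := by
  funext i
  exact ZMod.natCast_zmod_val (r i)

theorem EM_rep (p : ℕ) [hp : Fact p.Prime] {D : ℕ} (F : (Fin D → ℕ) → ℝ) :
    EM p (fun r : Fin D → ZMod p => F (rep p r)) = mean D p F := by
  unfold EM mean
  rw [Fintype.card_fin, ← sum_box p (fun u => F (rep p u)), one_div_mul_eq_div]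
  congr 1
  refine Finset.sum_congr rfl fun n hn => ?_
  congr 1
  funext i
  rw [Pool.Agent.TH894.NE.mem_box] at hn
  show ((n i : ZMod p)).val = n i
  rw [ZMod.val_natCast, Nat.mod_eq_of_lt (hn i)]

/-- good reduction at `p` -/
def Gd (p : ℕ) {D : ℕ} (r : Fin D → ZMod p) : Prop :=
  p ≠ 2 ∧ (Polynomial.X ^ D + ∑ i, Polynomial.C (r i) * Polynomial.X ^ (i : ℕ) : Polynomial (ZMod p)).Separable

theorem gd_iff (p : ℕ) [Fact p.Prime] {D : ℕ} (r : Fin D → ZMod p) : Gd p r ↔ p ≠ 2 ∧ (pol p r).Separable := Iff.rfl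

open Classical in
/-- the mean of the indicator of bad reduction -/
theorem EM_bad (g p : ℕ) [hp : Fact p.Prime] :
    EM p (fun r : Fin (2 * g + 1) → ZMod p => if Gd p r then (0 : ℝ) else 1) ≤ (2 * g + 2) / p := by
  have hp0 : (0 : ℝ) < p := by exact_mod_cast hp.out.pos
  by_cases h : p ≤ 2 * g + 2
  · have h1 : EM p (fun r : Fin (2 * g + 1) → ZMod p => if Gd p r then (0 : ℝ) else 1) ≤ 1 := by
      have := EM_mono p (fun r : Fin (2 * g + 1) → ZMod p => if Gd p r then (0 : ℝ) else 1) (fun _ => (1 : ℝ))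
        (fun r => by split_ifs <;> norm_num)
      rwa [EM_const] at this
    refine h1.trans ?_
    rw [le_div_iff₀ hp0, one_mul]
    exact_mod_cast h
  · push Not at h
    have hp2 : p ≠ 2 := by omega
    have e : (fun r : Fin (2 * g + 1) → ZMod p => if Gd p r then (0 : ℝ) else 1) =
        fun r => if ¬ (pol p r).Separable then (1 : ℝ) else 0 := by
      funext r
      by_cases h1 : (pol p r).Separable
      · rw [if_pos ((gd_iff p r).2 ⟨hp2, h1⟩), if_neg (by simpa using h1)]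
      · rw [if_neg (fun h2 => h1 ((gd_iff p r).1 h2).2), if_pos h1]
    rw [e]
    unfold EM
    rw [Finset.sum_boole, Fintype.card_fin]
    have h1 := bad_card p (g := g) (by omega)
    have h2 : (((univ : Finset (Fin (2 * g + 1) → ZMod p)).filter (fun u => ¬ (pol p u).Separable)).card : ℝ) ≤
        (2 * g + 1) * (p : ℝ) ^ (2 * g) := by exact_mod_cast h1
    rw [div_le_div_iff₀ (by positivity) hp0]
    calc _ ≤ (2 * g + 1) * (p : ℝ) ^ (2 * g) * p := by gcongr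
      _ = (2 * g + 1) * (p : ℝ) ^ (2 * g + 1) := by ring
      _ ≤ (2 * g + 2) * (p : ℝ) ^ (2 * g + 1) := by
        have : 0 < (p : ℝ) ^ (2 * g + 1) := by positivity
        nlinarith

/-- the condition on the exponents -/
def Ok (g i j : ℕ) : Prop := (j = 0 ∧ i ≤ 2 * g + 3) ∨ (j = 1 ∧ i + 2 ≤ 2 * g + 1) ∨ (j = 2 ∧ i + 4 ≤ 2 * g + 1)

open Classical in
/-- the pairs of exponents -/
noncomputable def II (g : ℕ) : Finset (ℕ × ℕ) := (range (2 * g + 4) ×ˢ range 3).filter fun k => Ok g k.1 k.2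

theorem mem_II {g : ℕ} {k : ℕ × ℕ} : k ∈ II g ↔ Ok g k.1 k.2 := by
  classical
  unfold II
  rw [mem_filter, mem_product, mem_range, mem_range]
  unfold Ok
  constructor
  · exact fun h => h.2
  · intro h
    refine ⟨⟨?_, ?_⟩, h⟩ <;> omega

open Classical in
/-- the local function -/
noncomputable def YY (g : ℕ) (k : ℕ × ℕ) (p : ℕ) (r : Fin (2 * g + 1) → ZMod p) : ℝ :=
  if Gd p r then tr g p (rep p r) ^ k.1 * A2 g p (rep p r) ^ k.2 - mm g k.1 k.2 else 0

theorem tr_bad (g p : ℕ) [hp : Fact p.Prime] (r : Fin (2 * g + 1) → ZMod p) (h : ¬ Gd p r) : tr g p (rep p r) = 0 := by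
  unfold tr
  by_cases h2 : p = 2
  · rw [dif_neg (fun h' => h'.2 h2)]
  · rw [dif_pos ⟨hp.out, h2⟩, cast_rep p r, if_neg]
    exact fun h' => h ⟨h2, h'⟩

theorem A2_bad (g p : ℕ) [hp : Fact p.Prime] (r : Fin (2 * g + 1) → ZMod p) (h : ¬ Gd p r) : A2 g p (rep p r) = 0 := by
  unfold A2
  by_cases h2 : p = 2
  · rw [dif_neg (fun h' => h'.2 h2)]
  · rw [dif_pos ⟨hp.out, h2⟩, cast_rep p r, if_neg]
    exact fun h' => h ⟨h2, h'⟩

/-- the size -/
noncomputable def MM (g : ℕ) (k : ℕ × ℕ) : ℝ :=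
  (2 * (g : ℝ)) ^ k.1 * (((2 * (g : ℝ)) ^ 2 + 2 * g) / 2) ^ k.2 + |mm g k.1 k.2|

theorem MM_nonneg (g : ℕ) (k : ℕ × ℕ) : 0 ≤ MM g k := by
  unfold MM
  positivity

theorem YY_le (g : ℕ) (k : ℕ × ℕ) (p : ℕ) (r : Fin (2 * g + 1) → ZMod p) : |YY g k p r| ≤ MM g k := by
  unfold YY
  split_ifs with h
  · refine (abs_sub _ _).trans (add_le_add ?_ le_rfl)
    rw [abs_mul, abs_pow, abs_pow]
    exact mul_le_mul (pow_le_pow_left₀ (abs_nonneg _) (tr_le g p _) _)
      (pow_le_pow_left₀ (abs_nonneg _) (A2_le g p _) _) (by positivity) (by positivity)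
  · rw [abs_zero]
    exact MM_nonneg g k

theorem YY_mean (g : ℕ) (k : ℕ × ℕ) (hk : Ok g k.1 k.2) : ∃ E : ℝ, 0 ≤ E ∧ ∀ (p : ℕ) [hp : Fact p.Prime],
    |EM p (YY g k p)| ≤ E / p := by
  classical
  obtain ⟨E, hE, h⟩ := mean_joint g k.1 k.2 hk
  set z : ℝ := (0 : ℝ) ^ (k.1 + k.2) - mm g k.1 k.2 with hz
  refine ⟨E + |z| * (2 * g + 2), by positivity, fun p hp => ?_⟩
  have hp0 : (0 : ℝ) < p := by exact_mod_cast hp.out.pos
  have h1 := h p hp.out
  set F : (Fin (2 * g + 1) → ℕ) → ℝ := fun n => tr g p n ^ k.1 * A2 g p n ^ k.2 with hF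
  rw [← EM_rep p F] at h1
  have e1 : YY g k p = fun r => (F (rep p r) + (- mm g k.1 k.2)) + (-z) * (if Gd p r then (0 : ℝ) else 1) := by
    funext r
    unfold YY
    by_cases hr : Gd p r
    · rw [if_pos hr, if_pos hr]
      show _ = (tr g p (rep p r) ^ k.1 * A2 g p (rep p r) ^ k.2 + _) + _
      ring
    · rw [if_neg hr, if_neg hr]
      show _ = (tr g p (rep p r) ^ k.1 * A2 g p (rep p r) ^ k.2 + _) + _
      rw [tr_bad g p r hr, A2_bad g p r hr, ← pow_add, hz]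
      ring
  have e2 : EM p (YY g k p) = (EM p (fun r => F (rep p r)) - mm g k.1 k.2) +
      (-z) * EM p (fun r : Fin (2 * g + 1) → ZMod p => if Gd p r then (0 : ℝ) else 1) := by
    rw [e1, EM_add p (fun r => F (rep p r) + (- mm g k.1 k.2)) (fun r => (-z) * (if Gd p r then (0 : ℝ) else 1)),
      EM_add p (fun r => F (rep p r)) (fun _ => - mm g k.1 k.2), EM_const,
      EM_mul p (-z) (fun r => if Gd p r then (0 : ℝ) else 1)]
    ring
  have h2 := EM_bad g p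
  have h3 : 0 ≤ EM p (fun r : Fin (2 * g + 1) → ZMod p => if Gd p r then (0 : ℝ) else 1) := by
    have := EM_mono p (fun _ => (0 : ℝ)) (fun r : Fin (2 * g + 1) → ZMod p => if Gd p r then (0 : ℝ) else 1)
        (fun r => by split_ifs <;> norm_num)
    rwa [EM_const] at this
  rw [e2]
  refine (abs_add_le _ _).trans ?_
  rw [abs_mul, abs_neg, abs_of_nonneg h3, add_div]
  refine add_le_add h1 ?_
  rw [mul_div_assoc]
  exact mul_le_mul_of_nonneg_left h2 (abs_nonneg _)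

/-- shifts -/
theorem EM_shift' {D : ℕ} (p : ℕ) [NeZero p] (s : Fin D → ZMod p) (f : (Fin D → ZMod p) → ℝ) :
    EM p (fun r => f (r + s)) = EM p f := by
  unfold EM
  congr 1
  exact Equiv.sum_comp (Equiv.addRight s) f

/-- **The moments.** -/
theorem hyp_main (g : ℕ) : ∃ C : ℝ, 0 < C ∧ ∀ ε : ℝ, 0 < ε → ε ≤ 1 → ∀ᶠ H : ℕ in Filter.atTop,
    ∀ a : Fin (2 * g + 1) → ℤ, ∀ W : Finset (ℕ → ℂ), (∀ w ∈ W, ∀ p, ‖w p‖ ≤ 1) → (W.card : ℝ) ≤ (H : ℝ) ^ (ε / 500) →
    ∃ Ex ⊆ box (Fin (2 * g + 1)) H, (Ex.card : ℝ) ≤ (H : ℝ) ^ (-(ε / 500)) * (box (Fin (2 * g + 1)) H).card ∧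
      ∀ c ∈ box (Fin (2 * g + 1)) H \ Ex, ∀ w ∈ W, ∀ k : ℕ × ℕ, Ok g k.1 k.2 →
        ∀ X : ℕ, (X : ℝ) ≤ (H : ℝ) ^ (ε / 200) → ∀ τ : ℝ, |τ| ≤ (H : ℝ) ^ (ε / 200) →
        ‖∑ p ∈ PR X, (p : ℂ) ^ (-((τ : ℂ) * Complex.I)) * (w p * (YY g k p (red p (a + c)) : ℂ))‖ ≤
          C * ((X : ℝ) ^ (1 / 2 + ε) + Real.log H ^ (4 / ε)) := by
  classical
  have hch : ∀ k : ℕ × ℕ, ∃ E : ℝ, 0 ≤ E ∧ (k ∈ II g → ∀ (p : ℕ) [hp : Fact p.Prime], |EM p (YY g k p)| ≤ E / p) := by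
    intro k
    by_cases hk : k ∈ II g
    · obtain ⟨E, hE, h⟩ := YY_mean g k (mem_II.1 hk)
      exact ⟨E, hE, fun _ => h⟩
    · exact ⟨0, le_rfl, fun h => absurd h hk⟩
  choose E hE0 hE using hch
  set A : ℝ := 1 + ∑ k ∈ II g, (MM g k + E k) with hA
  have hsum0 : 0 ≤ ∑ k ∈ II g, (MM g k + E k) := Finset.sum_nonneg fun k _ => add_nonneg (MM_nonneg g k) (hE0 k)
  have hA1 : 1 ≤ A := by
    rw [hA]
    linarith
  have hAk : ∀ k ∈ II g, MM g k + E k ≤ A := by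
    intro k hk
    have h1 : MM g k + E k ≤ ∑ k ∈ II g, (MM g k + E k) :=
      Finset.single_le_sum (f := fun k => MM g k + E k) (fun k _ => add_nonneg (MM_nonneg g k) (hE0 k)) hk
    rw [hA]
    linarith
  refine ⟨40 * A, by positivity, fun ε hε hε1 => ?_⟩
  filter_upwards [loc_w (2 * g + 1) A ε hA1 hε hε1 (II g).card] with H h
  intro a W hW hWc
  obtain ⟨Ex, hE1, hE2, hE3⟩ := h (Fin (2 * g + 1)) (Fintype.card_fin _) (ℕ × ℕ) (II g) le_rfl
    (fun k p r => YY g k p (r + red p a)) (by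
      intro k hk p _ r
      have h1 := YY_le g k p (r + red p a)
      have h2 := hAk k hk
      have h3 := hE0 k
      linarith)
    (by
      intro k hk p _ hp
      have := Fact.mk hp
      have hp1 : (1 : ℝ) ≤ p := by exact_mod_cast hp.one_lt.le
      have hp0 : (0 : ℝ) < p := by linarith
      rw [EM_shift' p (red p a) (YY g k p)]
      refine (hE k hk p).trans ?_
      have h2 := hAk k hk
      have h3 := MM_nonneg g k
      have h4 : Real.sqrt p ≤ p := by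
        rw [Real.sqrt_le_left hp0.le]
        nlinarith
      calc E k / (p : ℝ) ≤ A / p := div_le_div_of_nonneg_right (by linarith) hp0.le
        _ ≤ A / Real.sqrt p := div_le_div_of_nonneg_left (by linarith) (Real.sqrt_pos.2 hp0) h4) W hW hWc
  refine ⟨Ex, hE1, hE2, fun c hc w hw k hk X hX τ hτ => ?_⟩
  have h1 := hE3 c hc w hw k (mem_II.2 hk) X hX τ hτ
  have e : ∀ p : ℕ, red p c + red p a = red p (a + c) := by
    intro p
    funext i
    unfold red
    simp only [Pi.add_apply]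
    push_cast
    ring
  simp only [e] at h1
  exact h1

end Run7.h328.SEP.Hyp
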