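import Pool.Agent.Run7.h328.SEP.HypK

/-! # Tuples of hyperelliptic curves over number fields -/

set_option autoImplicit false

namespace Run7.h328.SEP.TupK

open NumberField IsDedekindDomain Finset Filter
open Pool.Agent.H921R2.TatePole (nm two_le_nm nm_summable below deg nm_eq below_le_nm kerPrime kerPrime_bijective)
open Pool.Agent.Y722.HS (box EM red PR mem_PR EM_const EM_mono)
open Pool.Agent.Y722.LS (EM_add EM_mul)
open Pool.Agent.Y57.FD.HM (tr tr_le)
open Pool.Agent.V11210.G2 (A2 mm A2_le)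
open Run7.h328.SEP.Hyp (rep cast_rep Gd YY YY_le YY_mean MM MM_nonneg Ok II mem_II EM_shift')
open Run7.h328.SEP.HypK (a1 a2 rv GoodK a1_le a2_le char_v prime_eq GG_le)

/-- the mean of a product of functions of different components -/
theorem EM_prod {n : ℕ} (D : Fin n → ℕ) (p : ℕ) [NeZero p] (F : ∀ l : Fin n, (Fin (D l) → ZMod p) → ℝ) :
    EM p (fun r : (Σ l : Fin n, Fin (D l)) → ZMod p => ∏ l, F l (fun i => r ⟨l, i⟩)) = ∏ l, EM p (F l) := by
  classical
  unfold EM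
  rw [Finset.prod_div_distrib]
  congr 1
  · rw [Finset.prod_univ_sum, Fintype.piFinset_univ]
    refine Fintype.sum_equiv (Equiv.piCurry fun (l : Fin n) (_ : Fin (D l)) => ZMod p) _ _ fun r => ?_
    rfl
  · rw [Fintype.card_sigma]
    simp only [Fintype.card_fin]
    rw [Finset.prod_pow_eq_pow_sum]

theorem EM_shift_gen {ι : Type} [Fintype ι] [DecidableEq ι] (p : ℕ) [NeZero p] (s : ι → ZMod p)
    (f : (ι → ZMod p) → ℝ) : EM p (fun r => f (r + s)) = EM p f := by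
  unfold EM
  congr 1
  exact Equiv.sum_comp (Equiv.addRight s) f

theorem prod_diff {κ : Type*} (s : Finset κ) (x y : κ → ℝ) (M : ℝ) (hM : 1 ≤ M) (hx : ∀ l ∈ s, |x l| ≤ M)
    (hy : ∀ l ∈ s, |y l| ≤ M) : |∏ l ∈ s, x l - ∏ l ∈ s, y l| ≤ M ^ s.card * ∑ l ∈ s, |x l - y l| := by
  classical
  induction s using Finset.induction_on with
  | empty => simp
  | insert a s ha ih =>
    rw [Finset.prod_insert ha, Finset.prod_insert ha, Finset.sum_insert ha, Finset.card_insert_of_notMem ha]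
    have h1 := ih (fun l hl => hx l (Finset.mem_insert_of_mem hl)) (fun l hl => hy l (Finset.mem_insert_of_mem hl))
    have h2 := hx a (Finset.mem_insert_self _ _)
    have h3 : |∏ l ∈ s, y l| ≤ M ^ s.card := by
      rw [Finset.abs_prod, ← Finset.prod_const]
      exact Finset.prod_le_prod (fun l _ => abs_nonneg _) (fun l hl => hy l (Finset.mem_insert_of_mem hl))
    have e : x a * ∏ l ∈ s, x l - y a * ∏ l ∈ s, y l =
        x a * (∏ l ∈ s, x l - ∏ l ∈ s, y l) + (x a - y a) * ∏ l ∈ s, y l := by ring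
    rw [e]
    refine (abs_add_le _ _).trans ?_
    rw [abs_mul, abs_mul]
    have h0 : 0 ≤ ∑ l ∈ s, |x l - y l| := Finset.sum_nonneg fun l _ => abs_nonneg _
    have hMs : 0 ≤ M ^ s.card := by positivity
    have h4 : |x a| * |∏ l ∈ s, x l - ∏ l ∈ s, y l| ≤ M * (M ^ s.card * ∑ l ∈ s, |x l - y l|) :=
      mul_le_mul h2 h1 (abs_nonneg _) (by linarith)
    have h5 : |x a - y a| * |∏ l ∈ s, y l| ≤ |x a - y a| * M ^ s.card :=
      mul_le_mul_of_nonneg_left h3 (abs_nonneg _)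
    have h6 : |x a - y a| * M ^ s.card ≤ |x a - y a| * M ^ (s.card + 1) := by
      apply mul_le_mul_of_nonneg_left _ (abs_nonneg _)
      exact pow_le_pow_right₀ hM (Nat.le_succ _)
    rw [pow_succ] at h6 ⊢
    nlinarith

section loc
variable {n : ℕ} (g : Fin n → ℕ)

/-- the indices of the coefficients -/
abbrev Ix : Type := Σ l : Fin n, Fin (2 * g l + 1)

/-- the component -/
def cp {R : Type*} (l : Fin n) (c : Ix g → R) : Fin (2 * g l + 1) → R := fun i => c ⟨l, i⟩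

open Classical in
/-- the local function -/
noncomputable def YT (k : Fin n → ℕ × ℕ) (p : ℕ) (r : Ix g → ZMod p) : ℝ :=
  if ∀ l, Gd p (cp g l r) then
    ∏ l, (tr (g l) p (rep p (cp g l r)) ^ (k l).1 * A2 (g l) p (rep p (cp g l r)) ^ (k l).2) -
      ∏ l, mm (g l) (k l).1 (k l).2 else 0

/-- the size -/
noncomputable def MT (k : Fin n → ℕ × ℕ) : ℝ := 2 * ∏ l, MM (g l) (k l)

theorem MT_nonneg (k : Fin n → ℕ × ℕ) : 0 ≤ MT g k := by
  unfold MT
  have := Finset.prod_nonneg (s := univ) (f := fun l => MM (g l) (k l)) fun l _ => MM_nonneg (g l) (k l)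
  linarith

theorem prod_mm_le (k : Fin n → ℕ × ℕ) : |∏ l, mm (g l) (k l).1 (k l).2| ≤ ∏ l, MM (g l) (k l) := by
  rw [Finset.abs_prod]
  refine Finset.prod_le_prod (fun l _ => abs_nonneg _) fun l _ => ?_
  unfold MM
  have : 0 ≤ (2 * (g l : ℝ)) ^ (k l).1 * (((2 * (g l : ℝ)) ^ 2 + 2 * (g l)) / 2) ^ (k l).2 := by positivity
  linarith

theorem YT_le (k : Fin n → ℕ × ℕ) (p : ℕ) (r : Ix g → ZMod p) : |YT g k p r| ≤ MT g k := by
  unfold YT
  split_ifs with h
  · refine (abs_sub _ _).trans ?_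
    unfold MT
    have h1 := prod_mm_le g k
    have h2 : |∏ l, (tr (g l) p (rep p (cp g l r)) ^ (k l).1 * A2 (g l) p (rep p (cp g l r)) ^ (k l).2)| ≤
        ∏ l, MM (g l) (k l) := by
      rw [Finset.abs_prod]
      refine Finset.prod_le_prod (fun l _ => abs_nonneg _) fun l _ => ?_
      rw [abs_mul, abs_pow, abs_pow]
      have h3 : |tr (g l) p (rep p (cp g l r))| ^ (k l).1 * |A2 (g l) p (rep p (cp g l r))| ^ (k l).2 ≤
          (2 * (g l : ℝ)) ^ (k l).1 * (((2 * (g l : ℝ)) ^ 2 + 2 * (g l)) / 2) ^ (k l).2 :=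
        mul_le_mul (pow_le_pow_left₀ (abs_nonneg _) (tr_le (g l) p _) _)
          (pow_le_pow_left₀ (abs_nonneg _) (A2_le (g l) p _) _) (by positivity) (by positivity)
      unfold MM
      have := abs_nonneg (mm (g l) (k l).1 (k l).2)
      linarith
    linarith
  · rw [abs_zero]
    exact MT_nonneg g k

open Classical in
/-- one factor -/
noncomputable def UU (g : ℕ) (k : ℕ × ℕ) (p : ℕ) (r : Fin (2 * g + 1) → ZMod p) : ℝ :=
  if Gd p r then tr g p (rep p r) ^ k.1 * A2 g p (rep p r) ^ k.2 else 0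

open Classical in
/-- one factor of the expected value -/
noncomputable def VV (g : ℕ) (k : ℕ × ℕ) (p : ℕ) (r : Fin (2 * g + 1) → ZMod p) : ℝ :=
  if Gd p r then mm g k.1 k.2 else 0

theorem UU_le (g : ℕ) (k : ℕ × ℕ) (p : ℕ) (r : Fin (2 * g + 1) → ZMod p) : |UU g k p r| ≤ MM g k := by
  unfold UU
  split_ifs with h
  · rw [abs_mul, abs_pow, abs_pow]
    have h3 : |tr g p (rep p r)| ^ k.1 * |A2 g p (rep p r)| ^ k.2 ≤
          (2 * (g : ℝ)) ^ k.1 * (((2 * (g : ℝ)) ^ 2 + 2 * g) / 2) ^ k.2 :=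
        mul_le_mul (pow_le_pow_left₀ (abs_nonneg _) (tr_le g p _) _)
          (pow_le_pow_left₀ (abs_nonneg _) (A2_le g p _) _) (by positivity) (by positivity)
    unfold MM
    have := abs_nonneg (mm g k.1 k.2)
    linarith
  · rw [abs_zero]
    exact MM_nonneg g k

theorem VV_le (g : ℕ) (k : ℕ × ℕ) (p : ℕ) (r : Fin (2 * g + 1) → ZMod p) : |VV g k p r| ≤ MM g k := by
  unfold VV
  split_ifs with h
  · unfold MM
    have : 0 ≤ (2 * (g : ℝ)) ^ k.1 * (((2 * (g : ℝ)) ^ 2 + 2 * g) / 2) ^ k.2 := by positivity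
    linarith
  · rw [abs_zero]
    exact MM_nonneg g k

theorem EM_abs {ι : Type*} [Fintype ι] [DecidableEq ι] (p : ℕ) [NeZero p] (f : (ι → ZMod p) → ℝ) (M : ℝ)
    (hf : ∀ r, |f r| ≤ M) : |EM p f| ≤ M := by
  rw [abs_le]
  constructor
  · have := EM_mono p (fun _ => -M) f (fun r => (abs_le.1 (hf r)).1)
    rwa [EM_const] at this
  · have := EM_mono p f (fun _ => M) (fun r => (abs_le.1 (hf r)).2)
    rwa [EM_const] at this

theorem YT_eq (k : Fin n → ℕ × ℕ) (p : ℕ) (r : Ix g → ZMod p) :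
    YT g k p r = ∏ l, UU (g l) (k l) p (cp g l r) + (-1) * ∏ l, VV (g l) (k l) p (cp g l r) := by
  classical
  unfold YT
  by_cases h : ∀ l, Gd p (cp g l r)
  · rw [if_pos h]
    have e1 : ∏ l, UU (g l) (k l) p (cp g l r) =
        ∏ l, (tr (g l) p (rep p (cp g l r)) ^ (k l).1 * A2 (g l) p (rep p (cp g l r)) ^ (k l).2) :=
      Finset.prod_congr rfl fun l _ => by
        unfold UU
        rw [if_pos (h l)]
    have e2 : ∏ l, VV (g l) (k l) p (cp g l r) = ∏ l, mm (g l) (k l).1 (k l).2 :=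
      Finset.prod_congr rfl fun l _ => by
        unfold VV
        rw [if_pos (h l)]
    rw [e1, e2]
    ring
  · rw [if_neg h]
    push Not at h
    obtain ⟨l, hl⟩ := h
    have e1 : ∏ l, UU (g l) (k l) p (cp g l r) = 0 :=
      Finset.prod_eq_zero (Finset.mem_univ l) (by
        unfold UU
        rw [if_neg hl])
    have e2 : ∏ l, VV (g l) (k l) p (cp g l r) = 0 :=
      Finset.prod_eq_zero (Finset.mem_univ l) (by
        unfold VV
        rw [if_neg hl])
    rw [e1, e2]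
    ring

/-- **The local means.** -/
theorem YT_mean (k : Fin n → ℕ × ℕ) (hk : ∀ l, Ok (g l) (k l).1 (k l).2) : ∃ E : ℝ, 0 ≤ E ∧
    ∀ (p : ℕ) [hp : Fact p.Prime], |EM p (YT g k p)| ≤ E / p := by
  classical
  have hch : ∀ l, ∃ E : ℝ, 0 ≤ E ∧ ∀ (p : ℕ) [hp : Fact p.Prime], |EM p (YY (g l) (k l) p)| ≤ E / p :=
    fun l => YY_mean (g l) (k l) (hk l)
  choose E hE0 hE using hch
  set M : ℝ := 1 + ∑ l, MM (g l) (k l) with hM
  have hM0 : 0 ≤ ∑ l, MM (g l) (k l) := Finset.sum_nonneg fun l _ => MM_nonneg (g l) (k l)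
  have hM1 : 1 ≤ M := by
    rw [hM]
    linarith
  have hMl : ∀ l, MM (g l) (k l) ≤ M := by
    intro l
    have := Finset.single_le_sum (f := fun l => MM (g l) (k l)) (fun l _ => MM_nonneg (g l) (k l)) (Finset.mem_univ l)
    rw [hM]
    linarith
  refine ⟨M ^ n * ∑ l, E l, mul_nonneg (by positivity) (Finset.sum_nonneg fun l _ => hE0 l), fun p hp => ?_⟩
  have hp0 : (0 : ℝ) < p := by exact_mod_cast hp.out.pos
  have e1 : EM p (YT g k p) = ∏ l, EM p (UU (g l) (k l) p) - ∏ l, EM p (VV (g l) (k l) p) := by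
    have e2 : YT g k p = fun r => ∏ l, UU (g l) (k l) p (cp g l r) + (-1) * ∏ l, VV (g l) (k l) p (cp g l r) := by
      funext r
      exact YT_eq g k p r
    rw [e2, EM_add p (fun r : Ix g → ZMod p => ∏ l, UU (g l) (k l) p (cp g l r))
      (fun r => (-1) * ∏ l, VV (g l) (k l) p (cp g l r)), EM_mul p (-1) (fun r : Ix g → ZMod p => ∏ l, VV (g l) (k l) p (cp g l r))]
    have e3 := EM_prod (fun l => 2 * g l + 1) p (fun l => UU (g l) (k l) p)
    have e4 := EM_prod (fun l => 2 * g l + 1) p (fun l => VV (g l) (k l) p)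
    unfold cp
    rw [e3, e4]
    ring
  rw [e1]
  refine (prod_diff univ _ _ M hM1 (fun l _ => (EM_abs p _ _ (UU_le (g l) (k l) p)).trans (hMl l))
    (fun l _ => (EM_abs p _ _ (VV_le (g l) (k l) p)).trans (hMl l))).trans ?_
  rw [Finset.card_univ, Fintype.card_fin, mul_div_assoc, Finset.sum_div]
  apply mul_le_mul_of_nonneg_left _ (by positivity)
  refine Finset.sum_le_sum fun l _ => ?_
  have e5 : EM p (UU (g l) (k l) p) - EM p (VV (g l) (k l) p) = EM p (YY (g l) (k l) p) := by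
    have e6 : YY (g l) (k l) p = fun r => UU (g l) (k l) p r + (-1) * VV (g l) (k l) p r := by
      funext r
      unfold YY UU VV
      split_ifs
      · ring
      · ring
    rw [e6, EM_add p (fun r => UU (g l) (k l) p r) (fun r => (-1) * VV (g l) (k l) p r), EM_mul p (-1) (VV (g l) (k l) p)]
    ring
  rw [e5]
  exact hE l p

end loc

section nf
variable {K : Type} [Field K] [NumberField K] {n : ℕ} (g : Fin n → ℕ)

open Classical in
/-- the local term -/
noncomputable def GT (k : Fin n → ℕ × ℕ) (c : Ix g → 𝓞 K) (v : HeightOneSpectrum (𝓞 K)) : ℝ :=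
  if ∀ l, GoodK v (cp g l c) then
    ∏ l, (a1 (𝓞 K ⧸ v.asIdeal) (rv v (cp g l c)) ^ (k l).1 * a2 (𝓞 K ⧸ v.asIdeal) (rv v (cp g l c)) ^ (k l).2) -
      ∏ l, mm (g l) (k l).1 (k l).2 else 0

theorem GT_le (k : Fin n → ℕ × ℕ) (c : Ix g → 𝓞 K) (v : HeightOneSpectrum (𝓞 K)) : |GT g k c v| ≤ MT g k := by
  unfold GT
  split_ifs with h
  · refine (abs_sub _ _).trans ?_
    unfold MT
    have h1 := prod_mm_le g k
    have h2 : |∏ l, (a1 (𝓞 K ⧸ v.asIdeal) (rv v (cp g l c)) ^ (k l).1 * a2 (𝓞 K ⧸ v.asIdeal) (rv v (cp g l c)) ^ (k l).2)| ≤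
        ∏ l, MM (g l) (k l) := by
      rw [Finset.abs_prod]
      refine Finset.prod_le_prod (fun l _ => abs_nonneg _) fun l _ => ?_
      rw [abs_mul, abs_pow, abs_pow]
      have hc := char_v v (h l).1
      have h3 : |a1 (𝓞 K ⧸ v.asIdeal) (rv v (cp g l c))| ^ (k l).1 * |a2 (𝓞 K ⧸ v.asIdeal) (rv v (cp g l c))| ^ (k l).2 ≤
          (2 * (g l : ℝ)) ^ (k l).1 * (((2 * (g l : ℝ)) ^ 2 + 2 * (g l)) / 2) ^ (k l).2 :=
        mul_le_mul (pow_le_pow_left₀ (abs_nonneg _) (a1_le _ hc _) _)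
          (pow_le_pow_left₀ (abs_nonneg _) (a2_le _ hc _) _) (by positivity) (by positivity)
      unfold MM
      have := abs_nonneg (mm (g l) (k l).1 (k l).2)
      linarith
    linarith
  · rw [abs_zero]
    exact MT_nonneg g k

theorem good_prime {D : ℕ} (c : Fin D → 𝓞 K) (p : Nat.Primes) [hp : Fact (p : ℕ).Prime] (φ : 𝓞 K →+* ZMod (p : ℕ)) :
    GoodK (kerPrime p φ).1.1 c ↔ Gd (p : ℕ) (fun i => φ (c i)) := by
  set v := (kerPrime p φ).1.1 with hv
  let e : (𝓞 K ⧸ v.asIdeal) ≃+* ZMod (p : ℕ) := RingHom.quotientKerEquivOfSurjective (ZMod.ringHom_surjective φ)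
  unfold GoodK Gd
  refine and_congr ?_ ?_
  · have h1 : (2 : 𝓞 K) ∈ v.asIdeal ↔ φ 2 = 0 := by
      have : v.asIdeal = RingHom.ker φ := rfl
      rw [this, RingHom.mem_ker]
    rw [h1, map_ofNat]
    apply not_congr
    constructor
    · intro h2
      have h3 : ((2 : ℕ) : ZMod (p : ℕ)) = 0 := by exact_mod_cast h2
      rw [ZMod.natCast_eq_zero_iff] at h3
      exact (Nat.prime_dvd_prime_iff_eq hp.out Nat.prime_two).mp h3
    · intro h2
      have h3 : ((2 : ℕ) : ZMod (p : ℕ)) = 0 := by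
        rw [ZMod.natCast_eq_zero_iff, h2]
      exact_mod_cast h3
  · rw [← Polynomial.separable_map (e : (𝓞 K ⧸ v.asIdeal) →+* ZMod (p : ℕ))]
    have h2 : Polynomial.map (e : (𝓞 K ⧸ v.asIdeal) →+* ZMod (p : ℕ))
        (Polynomial.X ^ D + ∑ i, Polynomial.C (rv v c i) * Polynomial.X ^ (i : ℕ)) =
        Polynomial.X ^ D + ∑ i, Polynomial.C (φ (c i)) * Polynomial.X ^ (i : ℕ) := by
      rw [Polynomial.map_add, Polynomial.map_pow, Polynomial.map_X, Polynomial.map_sum]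
      congr 1
      refine Finset.sum_congr rfl fun i _ => ?_
      rw [Polynomial.map_mul, Polynomial.map_C, Polynomial.map_pow, Polynomial.map_X]
      rfl
    rw [h2]

theorem GT_prime (k : Fin n → ℕ × ℕ) (c : Ix g → 𝓞 K) (p : Nat.Primes) [hp : Fact (p : ℕ).Prime]
    (φ : 𝓞 K →+* ZMod (p : ℕ)) : GT g k c (kerPrime p φ).1.1 = YT g k (p : ℕ) (fun i => φ (c i)) := by
  classical
  unfold GT YT
  have hg : (∀ l, GoodK (kerPrime p φ).1.1 (cp g l c)) ↔ ∀ l, Gd (p : ℕ) (cp g l (fun i => φ (c i))) :=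
    forall_congr' fun l => good_prime (cp g l c) p φ
  by_cases h : ∀ l, GoodK (kerPrime p φ).1.1 (cp g l c)
  · rw [if_pos h, if_pos (hg.1 h)]
    congr 1
    refine Finset.prod_congr rfl fun l _ => ?_
    obtain ⟨h1, h2⟩ := prime_eq (𝓞 K ⧸ (kerPrime p φ).1.1.asIdeal) (p : ℕ)
      (RingHom.quotientKerEquivOfSurjective (ZMod.ringHom_surjective φ)) (rv (kerPrime p φ).1.1 (cp g l c)) (hg.1 h l)
    rw [h1, h2]
    rfl
  · rw [if_neg h, if_neg (fun h' => h (hg.2 h'))]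

end nf

/-- **The joint moments of tuples over number fields.** -/
theorem hypT_main (n : ℕ) (g : Fin n → ℕ) (d : ℕ) : ∃ C : ℝ, 0 < C ∧ ∀ ε : ℝ, 0 < ε → ε ≤ 1 → ∀ᶠ H : ℕ in Filter.atTop,
    ∀ (K : Type) [Field K] [NumberField K], Module.finrank ℚ K = d → ∀ α : Ix g → 𝓞 K,
    ∀ W : Finset (HeightOneSpectrum (𝓞 K) → ℂ), (∀ w ∈ W, ∀ v, ‖w v‖ ≤ 1) → (W.card : ℝ) ≤ (H : ℝ) ^ (ε / 500) →
    ∃ Ex ⊆ box (Ix g) H, (Ex.card : ℝ) ≤ (H : ℝ) ^ (-(ε / 500)) * (box (Ix g) H).card ∧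
      ∀ c ∈ box (Ix g) H \ Ex, ∀ w ∈ W, ∀ k : Fin n → ℕ × ℕ, (∀ l, Ok (g l) (k l).1 (k l).2) →
        ∀ X : ℕ, (X : ℝ) ≤ (H : ℝ) ^ (ε / 200) → ∀ τ : ℝ, |τ| ≤ (H : ℝ) ^ (ε / 200) →
        ‖∑' v : HeightOneSpectrum (𝓞 K), if nm v ≤ X then
            w v * (GT g k (fun i => α i + (c i : 𝓞 K)) v : ℂ) * ((nm v : ℕ) : ℂ) ^ (-((τ : ℂ) * Complex.I)) else 0‖ ≤
          C * ((X : ℝ) ^ (1 / 2 + ε) + Real.log H ^ (4 / ε)) := by
  classical
  set I : Finset (Fin n → ℕ × ℕ) := Fintype.piFinset fun l => II (g l) with hI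
  have hmem : ∀ k : Fin n → ℕ × ℕ, k ∈ I ↔ ∀ l, Ok (g l) (k l).1 (k l).2 := by
    intro k
    rw [hI, Fintype.mem_piFinset]
    exact forall_congr' fun l => mem_II
  have hch : ∀ k : Fin n → ℕ × ℕ, ∃ E : ℝ, 0 ≤ E ∧ (k ∈ I → ∀ (p : ℕ) [hp : Fact p.Prime], |EM p (YT g k p)| ≤ E / p) := by
    intro k
    by_cases hk : k ∈ I
    · obtain ⟨E, hE, h⟩ := YT_mean g k ((hmem k).1 hk)
      exact ⟨E, hE, fun _ => h⟩
    · exact ⟨0, le_rfl, fun h => absurd h hk⟩
  choose E hE0 hE using hch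
  set A : ℝ := 1 + ∑ k ∈ I, (MT g k + E k) with hA
  have hsum0 : 0 ≤ ∑ k ∈ I, (MT g k + E k) := Finset.sum_nonneg fun k _ => add_nonneg (MT_nonneg g k) (hE0 k)
  have hA1 : 1 ≤ A := by
    rw [hA]
    linarith
  have hAk : ∀ k ∈ I, MT g k + E k ≤ A := by
    intro k hk
    have h1 : MT g k + E k ≤ ∑ k ∈ I, (MT g k + E k) :=
      Finset.single_le_sum (f := fun k => MT g k + E k) (fun k _ => add_nonneg (MT_nonneg g k) (hE0 k)) hk
    rw [hA]
    linarith
  have hd0 : (0 : ℝ) ≤ d := Nat.cast_nonneg _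
  refine ⟨50 * (d + 1) * A, by positivity, fun ε hε hε1 => ?_⟩
  filter_upwards [locK (Fintype.card (Ix g)) d I.card A ε hA1 hε hε1] with H h
  intro K _ _ hK α W hW hWc
  obtain ⟨Ex, hE1, hE2, hE3⟩ := h K hK (Ix g) rfl (Fin n → ℕ × ℕ) I le_rfl
    (fun k p _ φ r => YT g k p (r + fun i => φ (α i))) (by
      intro k hk p _ φ r
      have h1 := YT_le g k p (r + fun i => φ (α i))
      have h2 := hAk k hk
      have h3 := hE0 k
      linarith)
    (by
      intro k hk p hp φ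
      have hp1 : (1 : ℝ) ≤ p := by exact_mod_cast hp.out.one_lt.le
      have hp0 : (0 : ℝ) < p := by linarith
      have : NeZero p := ⟨hp.out.ne_zero⟩
      refine (le_of_eq (congrArg abs (EM_shift_gen p (fun i => φ (α i)) (YT g k p)))).trans ?_
      refine (hE k hk p).trans ?_
      have h2 := hAk k hk
      have h3 := MT_nonneg g k
      have h4 : Real.sqrt p ≤ p := by
        rw [Real.sqrt_le_left hp0.le]
        nlinarith
      calc E k / (p : ℝ) ≤ A / p := div_le_div_of_nonneg_right (by linarith) hp0.le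
        _ ≤ A / Real.sqrt p := div_le_div_of_nonneg_left (by linarith) (Real.sqrt_pos.2 hp0) h4) W hW hWc
  refine ⟨Ex, hE1, hE2, fun c hc w hw k hk X hX τ hτ => ?_⟩
  have h1 := hE3 c hc w hw k ((hmem k).2 hk) (GT g k (fun i => α i + (c i : 𝓞 K)))
    (fun v => (GT_le g k _ v).trans (by
      have h2 := hAk k ((hmem k).2 hk)
      have h3 := hE0 k
      linarith))
    (fun p _ φ => by
      rw [GT_prime]
      congr 1
      funext i
      rw [map_add, map_intCast, Pi.add_apply, add_comm]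
      rfl) X hX τ hτ
  refine h1.trans ?_
  have hX0 : (0 : ℝ) ≤ (X : ℝ) ^ (1 / 2 + ε) := by positivity
  have hL0 : 0 ≤ Real.log H ^ (4 / ε) := by
    have : 0 ≤ Real.log H := Real.log_natCast_nonneg H
    positivity
  have hA0 : 0 ≤ A := by linarith
  apply mul_le_mul_of_nonneg_right _ (by linarith)
  nlinarith

end Run7.h328.SEP.TupK
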