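import Pool.Agent.Run7.h328.SEP.DevH

/-! # Large deviations over all ranges -/

set_option autoImplicit false

namespace Run7.h328.SEP

open Finset Filter
open Pool.Agent.Y722.HS (box IH EM red PR mem_PR)

/-- the end of the short Euler product -/
noncomputable def y0 (H : ℕ) : ℕ := ⌈Real.log H ^ 5⌉₊

/-- the primes in `(a, b]` -/
def PI (a b : ℕ) : Finset ℕ := (PR b).filter (fun p => a < p)

theorem mem_PI {a b p : ℕ} : p ∈ PI a b ↔ p.Prime ∧ a < p ∧ p ≤ b := by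
  unfold PI
  rw [Finset.mem_filter, mem_PR]
  tauto

theorem PI_chain {M : Type*} [AddCommMonoid M] (f : ℕ → M) (y : ℕ → ℕ) (hy : Monotone y) (k : ℕ) :
    ∑ p ∈ PI (y 0) (y k), f p = ∑ i ∈ range k, ∑ p ∈ PI (y i) (y (i + 1)), f p := by
  induction k with
  | zero =>
    rw [Finset.sum_range_zero]
    apply Finset.sum_eq_zero
    intro p hp
    rw [mem_PI] at hp
    omega
  | succ k ih =>
    rw [Finset.sum_range_succ, ← ih]
    have h1 : PI (y 0) (y (k + 1)) = PI (y 0) (y k) ∪ PI (y k) (y (k + 1)) := by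
      ext p
      rw [Finset.mem_union, mem_PI, mem_PI, mem_PI]
      have h2 := hy (Nat.zero_le k)
      have h3 := hy (Nat.le_succ k)
      simp only [Nat.succ_eq_add_one] at h3
      constructor
      · rintro ⟨h4, h5, h6⟩
        by_cases h7 : p ≤ y k
        · exact Or.inl ⟨h4, h5, h7⟩
        · exact Or.inr ⟨h4, by omega, h6⟩
      · rintro (⟨h4, h5, h6⟩ | ⟨h4, h5, h6⟩)
        · exact ⟨h4, h5, by omega⟩
        · exact ⟨h4, by omega, h6⟩
    have h2 : Disjoint (PI (y 0) (y k)) (PI (y k) (y (k + 1))) := by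
      rw [Finset.disjoint_left]
      intro p hp hp'
      rw [mem_PI] at hp hp'
      omega
    rw [h1, Finset.sum_union h2]

/-- the thresholds -/
theorem sum_thr (y : ℕ) (hy : 256 ≤ y) (R : ℕ) :
    ∑ i ∈ range R, ((y ^ 2 ^ i : ℕ) : ℝ) ^ (-(1 / 8) : ℝ) ≤ 2 * (y : ℝ) ^ (-(1 / 8) : ℝ) := by
  have hy0 : (0 : ℝ) < y := by exact_mod_cast (by omega : 0 < y)
  have hy1 : (256 : ℝ) ≤ y := by exact_mod_cast hy
  have h1 : ∀ i ∈ range R, ((y ^ 2 ^ i : ℕ) : ℝ) ^ (-(1 / 8) : ℝ) ≤ (y : ℝ) ^ (-(1 / 8) : ℝ) * (1 / 2 : ℝ) ^ i := by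
    intro i _
    have h2 : (y : ℝ) * 256 ^ i ≤ ((y ^ 2 ^ i : ℕ) : ℝ) := by
      push_cast
      calc (y : ℝ) * 256 ^ i ≤ (y : ℝ) * (y : ℝ) ^ i := by gcongr
        _ = (y : ℝ) ^ (i + 1) := by ring
        _ ≤ (y : ℝ) ^ (2 ^ i) := by
            apply pow_le_pow_right₀ (by linarith)
            exact Nat.lt_two_pow_self
    refine (Real.rpow_le_rpow_of_nonpos (by positivity) h2 (by norm_num)).trans (le_of_eq ?_)
    rw [Real.mul_rpow hy0.le (by positivity)]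
    congr 1
    rw [← Real.rpow_natCast, ← Real.rpow_mul (by norm_num), mul_comm, Real.rpow_mul (by norm_num), Real.rpow_natCast]
    congr 1
    rw [show (256 : ℝ) = 2 ^ (8 : ℝ) by norm_num, ← Real.rpow_mul (by norm_num)]
    norm_num
  refine (Finset.sum_le_sum h1).trans ?_
  rw [← Finset.mul_sum, mul_comm 2]
  apply mul_le_mul_of_nonneg_left _ (by positivity)
  exact sum_geometric_two_le R

/-- **Large deviations over all the primes in `(y₀, Y]`.** -/
theorem dev_all (n : ℕ) (A : ℝ) (hA : 1 ≤ A) : ∀ᶠ H : ℕ in atTop, ∃ Y : ℕ, (H : ℝ) ^ (1 / 10 : ℝ) ≤ Y ∧ Y ≤ H ∧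
    y0 H ≤ Y ∧ ∀ (ι : Type) [Fintype ι] [DecidableEq ι],
    Fintype.card ι = n → ∀ X : ∀ p : ℕ, (ι → ZMod p) → ℝ,
    (∀ p ∈ PI (y0 H) Y, ∀ r, |X p r| ≤ A / p) → (∀ (p : ℕ) [NeZero p], p ∈ PI (y0 H) Y → EM p (X p) = 0) →
    (((box ι H).filter (fun c => 2 * ((y0 H : ℕ) : ℝ) ^ (-(1 / 8) : ℝ) <
      |∑ p ∈ PI (y0 H) Y, X p (red p c)|)).card : ℝ) ≤
      7 * Real.log H * (H : ℝ) ^ (-(1 / 80) : ℝ) * (box ι H).card := by
  have hlo : ∀ᶠ H : ℕ in atTop, (2 * Real.log H ^ 5) ^ 4 ≤ (H : ℝ) ^ (2 / 5 : ℝ) := by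
    have h1 := isLittleO_log_rpow_rpow_atTop (s := 2 / 5) 20 (by norm_num)
    have h2 := h1.bound (c := 1 / 16) (by norm_num)
    have h3 := tendsto_natCast_atTop_atTop (R := ℝ) |>.eventually h2
    filter_upwards [h3, ev_log 1, eventually_ge_atTop 1] with H hH hl hH1
    have hH0 : (0 : ℝ) < H := by exact_mod_cast hH1
    rw [Real.norm_of_nonneg (by positivity), Real.norm_of_nonneg (by positivity)] at hH
    have e1 : Real.log H ^ (20 : ℝ) = Real.log H ^ 20 := by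
      rw [← Real.rpow_natCast]
      norm_num
    rw [e1] at hH
    calc (2 * Real.log H ^ 5) ^ 4 = 16 * Real.log H ^ 20 := by ring
      _ ≤ 16 * (1 / 16 * (H : ℝ) ^ (2 / 5 : ℝ)) := by gcongr
      _ = _ := by ring
  filter_upwards [dev_H n A hA, hlo, ev_log 4, eventually_ge_atTop 3] with H hdev hlo hl4 hH3
  have hHr : (3 : ℝ) ≤ H := by exact_mod_cast hH3
  have hH0 : (0 : ℝ) < H := by linarith
  have hl5 : 1024 ≤ Real.log H ^ 5 := by
    have := pow_le_pow_left₀ (by norm_num) hl4 5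
    linarith
  have hy0l : Real.log H ^ 5 ≤ ((y0 H : ℕ) : ℝ) := Nat.le_ceil _
  have hy0u : ((y0 H : ℕ) : ℝ) ≤ 2 * Real.log H ^ 5 := by
    have h1 : ((y0 H : ℕ) : ℝ) < Real.log H ^ 5 + 1 := Nat.ceil_lt_add_one (by positivity)
    linarith
  have hy256r : (256 : ℝ) ≤ ((y0 H : ℕ) : ℝ) := by linarith
  have hy256 : 256 ≤ y0 H := by exact_mod_cast hy256r
  set y : ℕ → ℕ := fun i => y0 H ^ 2 ^ i with hy
  have hymono : Monotone y := by
    intro a b hab
    exact Nat.pow_le_pow_right (by omega) (Nat.pow_le_pow_right (by norm_num) hab)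
  have hyy : ∀ i, y (i + 1) = y i ^ 2 := by
    intro i
    show y0 H ^ 2 ^ (i + 1) = (y0 H ^ 2 ^ i) ^ 2
    rw [← pow_mul, pow_succ]
  have hex : ∃ i : ℕ, (H : ℝ) ^ (2 / 5 : ℝ) < ((y i : ℕ) : ℝ) ^ 4 := by
    refine ⟨H, ?_⟩
    have h1 : (H : ℝ) ≤ ((y H : ℕ) : ℝ) := by
      have h2 : H < 2 ^ H := Nat.lt_two_pow_self
      have h3 : 2 ^ H < 2 ^ 2 ^ H := Nat.lt_two_pow_self
      have h4 : 2 ^ 2 ^ H ≤ y0 H ^ 2 ^ H := Nat.pow_le_pow_left (by omega) _
      have h5 : H ≤ y H := by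
        show H ≤ y0 H ^ 2 ^ H
        omega
      exact_mod_cast h5
    have h2 : (H : ℝ) ^ (2 / 5 : ℝ) ≤ (H : ℝ) ^ (1 : ℝ) :=
      Real.rpow_le_rpow_of_exponent_le (by linarith) (by norm_num)
    rw [Real.rpow_one] at h2
    have h3 : ((y H : ℕ) : ℝ) < ((y H : ℕ) : ℝ) ^ 4 := by
      have : (1 : ℝ) < ((y H : ℕ) : ℝ) := by linarith
      exact lt_self_pow₀ this (by norm_num)
    linarith
  classical
  set R := Nat.find hex with hR
  have hRs : (H : ℝ) ^ (2 / 5 : ℝ) < ((y R : ℕ) : ℝ) ^ 4 := Nat.find_spec hex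
  have hRm : ∀ i < R, ((y i : ℕ) : ℝ) ^ 4 ≤ (H : ℝ) ^ (2 / 5 : ℝ) := fun i hi =>
    not_lt.mp (Nat.find_min hex hi)
  have hR1 : 1 ≤ R := by
    by_contra h
    have h0 : R = 0 := by omega
    rw [h0] at hRs
    have e1 : y 0 = y0 H := by
      show y0 H ^ 2 ^ 0 = y0 H
      simp
    rw [e1] at hRs
    have h2 : ((y0 H : ℕ) : ℝ) ^ 4 ≤ (2 * Real.log H ^ 5) ^ 4 := pow_le_pow_left₀ (by positivity) hy0u 4
    linarith
  have hy00 : y 0 = y0 H := by
    show y0 H ^ 2 ^ 0 = y0 H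
    simp
  have hRlast := hRm (R - 1) (by omega)
  have hRR : y R = y (R - 1) ^ 2 := by
    rw [← hyy]
    congr 1
    omega
  have hx25 : (H : ℝ) ^ (2 / 5 : ℝ) = ((H : ℝ) ^ (1 / 10 : ℝ)) ^ 4 := by
    rw [← Real.rpow_natCast, ← Real.rpow_mul hH0.le]
    norm_num
  refine ⟨y R, ?_, ?_, ?_, ?_⟩
  · rw [hx25] at hRs
    exact (lt_of_pow_lt_pow_left₀ 4 (by positivity) hRs).le
  · have h1 : ((y R : ℕ) : ℝ) ≤ ((H : ℕ) : ℝ) := by
      rw [hRR]
      push_cast
      have h2 : ((y (R - 1) : ℕ) : ℝ) ≤ (H : ℝ) ^ (1 / 10 : ℝ) := by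
        rw [hx25] at hRlast
        exact le_of_pow_le_pow_left₀ (by norm_num) (by positivity) hRlast
      calc ((y (R - 1) : ℕ) : ℝ) ^ 2 ≤ ((H : ℝ) ^ (1 / 10 : ℝ)) ^ 2 := pow_le_pow_left₀ (by positivity) h2 2
        _ = (H : ℝ) ^ (1 / 5 : ℝ) := by
            rw [← Real.rpow_natCast, ← Real.rpow_mul hH0.le]
            norm_num
        _ ≤ (H : ℝ) ^ (1 : ℝ) := Real.rpow_le_rpow_of_exponent_le (by linarith) (by norm_num)
        _ = H := Real.rpow_one _
    exact_mod_cast h1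
  · have := hymono (Nat.zero_le R)
    rw [hy00] at this
    exact this
  · intro ι _ _ hcard X hX hX0
    have hRlog : (R : ℝ) ≤ Real.log H := by
      have h1 : (((y (R - 1) : ℕ) : ℝ)) ^ 4 ≤ H := by
        refine hRlast.trans ?_
        have h2 : (H : ℝ) ^ (2 / 5 : ℝ) ≤ (H : ℝ) ^ (1 : ℝ) :=
          Real.rpow_le_rpow_of_exponent_le (by linarith) (by norm_num)
        rwa [Real.rpow_one] at h2
      have h2 : (((y (R - 1) : ℕ) : ℝ)) = ((y0 H : ℕ) : ℝ) ^ 2 ^ (R - 1) := by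
        show (((y0 H ^ 2 ^ (R - 1) : ℕ)) : ℝ) = _
        push_cast
        rfl
      rw [h2] at h1
      have h3 := Real.log_le_log (by positivity) h1
      rw [Real.log_pow, Real.log_pow] at h3
      have h4 : 1 ≤ Real.log ((y0 H : ℕ) : ℝ) := by
        rw [Real.le_log_iff_exp_le (by linarith)]
        have := Real.exp_one_lt_d9
        linarith
      have h5 : R ≤ 2 ^ (R - 1) := by
        have : R - 1 < 2 ^ (R - 1) := Nat.lt_two_pow_self
        omega
      have h6 : (R : ℝ) ≤ ((2 ^ (R - 1) : ℕ) : ℝ) := by exact_mod_cast h5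
      push_cast at h3 h6
      have h7 : (0 : ℝ) < 2 ^ (R - 1) := by positivity
      nlinarith
    have hchain : ∀ c : ι → ℤ, ∑ p ∈ PI (y0 H) (y R), X p (red p c) =
        ∑ i ∈ range R, ∑ p ∈ PI (y i) (y (i + 1)), X p (red p c) := by
      intro c
      have := PI_chain (fun p => X p (red p c)) y hymono R
      rw [hy00] at this
      exact this
    have hsub : (box ι H).filter (fun c => 2 * ((y0 H : ℕ) : ℝ) ^ (-(1 / 8) : ℝ) <
        |∑ p ∈ PI (y0 H) (y R), X p (red p c)|) ⊆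
        (range R).biUnion (fun i => (box ι H).filter (fun c => ((y i : ℕ) : ℝ) ^ (-(1 / 8) : ℝ) <
          |∑ p ∈ PI (y i) (y (i + 1)), X p (red p c)|)) := by
      intro c hc
      rw [Finset.mem_filter] at hc
      rw [Finset.mem_biUnion]
      by_contra hno
      push Not at hno
      have h1 : |∑ p ∈ PI (y0 H) (y R), X p (red p c)| ≤ 2 * ((y0 H : ℕ) : ℝ) ^ (-(1 / 8) : ℝ) := by
        rw [hchain]
        refine (Finset.abs_sum_le_sum_abs _ _).trans ?_
        refine (Finset.sum_le_sum fun i hi => ?_).trans (sum_thr (y0 H) hy256 R)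
        have h2 := hno i hi
        rw [Finset.mem_filter] at h2
        push Not at h2
        exact h2 hc.1
      linarith [hc.2]
    have h1 : (((box ι H).filter (fun c => 2 * ((y0 H : ℕ) : ℝ) ^ (-(1 / 8) : ℝ) <
        |∑ p ∈ PI (y0 H) (y R), X p (red p c)|)).card : ℝ) ≤
        ∑ i ∈ range R, (((box ι H).filter (fun c => ((y i : ℕ) : ℝ) ^ (-(1 / 8) : ℝ) <
          |∑ p ∈ PI (y i) (y (i + 1)), X p (red p c)|)).card : ℝ) := by
      exact_mod_cast (Finset.card_le_card hsub).trans Finset.card_biUnion_le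
    refine h1.trans ?_
    have h2 : ∀ i ∈ range R, (((box ι H).filter (fun c => ((y i : ℕ) : ℝ) ^ (-(1 / 8) : ℝ) <
          |∑ p ∈ PI (y i) (y (i + 1)), X p (red p c)|)).card : ℝ) ≤
          7 * (H : ℝ) ^ (-(1 / 80) : ℝ) * (box ι H).card := by
      intro i hi
      rw [Finset.mem_range] at hi
      have h3 : y0 H ≤ y i := by
        have := hymono (Nat.zero_le i)
        rwa [hy00] at this
      have h3r : ((y0 H : ℕ) : ℝ) ≤ ((y i : ℕ) : ℝ) := by exact_mod_cast h3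
      have h4 : ∀ p ∈ PI (y i) (y (i + 1)), p ∈ PI (y0 H) (y R) := by
        intro p hp
        rw [mem_PI] at hp ⊢
        have := hymono (show i + 1 ≤ R by omega)
        exact ⟨hp.1, by omega, by omega⟩
      refine hdev ι hcard (y i) (hy0l.trans h3r) (hRm i hi) (PI (y i) (y (i + 1))) ?_ X
        (fun p hp => hX p (h4 p hp)) (fun p _ hp => hX0 p (h4 p hp))
      intro p hp
      rw [mem_PI, hyy] at hp
      exact hp
    refine (Finset.sum_le_sum h2).trans ?_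
    rw [Finset.sum_const, card_range, nsmul_eq_mul]
    calc (R : ℝ) * (7 * (H : ℝ) ^ (-(1 / 80) : ℝ) * (box ι H).card) ≤
        Real.log H * (7 * (H : ℝ) ^ (-(1 / 80) : ℝ) * (box ι H).card) := by gcongr
      _ = _ := by ring

end Run7.h328.SEP
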