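import Pool.Agent.Run7.h328.SEP.Range

/-! # Power saving over one range of primes -/

set_option autoImplicit false

namespace Run7.h328.SEP

open Finset Filter
open Pool.Agent.Y722.HS (box IH EM red)

theorem ev_pow_le (a b c : ℝ) (hab : b < a) : ∀ᶠ H : ℕ in atTop, c * (H : ℝ) ^ b ≤ (H : ℝ) ^ a := by
  have h1 : Tendsto (fun x : ℝ => x ^ (a - b)) atTop atTop := tendsto_rpow_atTop (by linarith)
  have h2 := (h1.comp tendsto_natCast_atTop_atTop).eventually (eventually_ge_atTop c)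
  filter_upwards [h2, eventually_ge_atTop 1] with H hH hH1
  have hH0 : (0 : ℝ) < H := by exact_mod_cast hH1
  have h3 : (H : ℝ) ^ a = (H : ℝ) ^ (a - b) * (H : ℝ) ^ b := by
    rw [← Real.rpow_add hH0]; congr 1; ring
  rw [h3]
  exact mul_le_mul_of_nonneg_right hH (by positivity)

theorem exists_h (n : ℕ) : ∀ᶠ H : ℕ in atTop, ∃ h : ℕ, 2 ^ n * (2 * h + 1) ^ 2 ≤ 2 * H + 1 ∧
    (H : ℝ) ^ (2 / 5 : ℝ) ≤ 2 * h + 1 ∧ 2 * h + 1 ≤ H := by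
  have h1 := ev_pow_le (1 / 2) (2 / 5) (4 * 2 ^ n) (by norm_num)
  filter_upwards [h1, eventually_ge_atTop 16] with H hH hH16
  have hHr : (16 : ℝ) ≤ H := by exact_mod_cast hH16
  have hH0 : (0 : ℝ) < H := by linarith
  -- `h = ⌊H^{2/5}⌋ + 1`
  set x : ℝ := (H : ℝ) ^ (2 / 5 : ℝ) with hx
  have hx1 : 1 ≤ x := Real.one_le_rpow (by linarith) (by norm_num)
  refine ⟨⌈x⌉₊, ?_, ?_, ?_⟩
  · have hc : ((⌈x⌉₊ : ℕ) : ℝ) < x + 1 := Nat.ceil_lt_add_one (by linarith)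
    have h2 : 2 * ((⌈x⌉₊ : ℕ) : ℝ) + 1 ≤ 5 * x := by linarith
    have h3 : (2 : ℝ) ^ n * (2 * ((⌈x⌉₊ : ℕ) : ℝ) + 1) ^ 2 ≤ 2 * H + 1 := by
      have h4 : (2 * ((⌈x⌉₊ : ℕ) : ℝ) + 1) ^ 2 ≤ (5 * x) ^ 2 := pow_le_pow_left₀ (by positivity) h2 2
      have h5 : (4 * 2 ^ n * x) ^ 2 ≤ ((H : ℝ) ^ (1 / 2 : ℝ)) ^ 2 := pow_le_pow_left₀ (by positivity) hH 2
      have h6 : ((H : ℝ) ^ (1 / 2 : ℝ)) ^ 2 = H := by
        rw [← Real.rpow_natCast, ← Real.rpow_mul hH0.le]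
        norm_num
      rw [h6] at h5
      have h7 : (1 : ℝ) ≤ 2 ^ n := one_le_pow₀ (by norm_num)
      have h8 : (2 : ℝ) ^ n ≤ 2 ^ n * 2 ^ n := by nlinarith
      have h9 : (4 * 2 ^ n * x) ^ 2 = 16 * (2 ^ n * 2 ^ n) * x ^ 2 := by ring
      rw [h9] at h5
      have h10 : 0 ≤ x ^ 2 := by positivity
      calc (2 : ℝ) ^ n * (2 * ((⌈x⌉₊ : ℕ) : ℝ) + 1) ^ 2 ≤ 2 ^ n * (5 * x) ^ 2 := by gcongr
        _ = 25 * 2 ^ n * x ^ 2 := by ring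
        _ ≤ 32 * (2 ^ n * 2 ^ n) * x ^ 2 := by nlinarith
        _ = 2 * (16 * (2 ^ n * 2 ^ n) * x ^ 2) := by ring
        _ ≤ 2 * H := by linarith
        _ ≤ _ := by linarith
    exact_mod_cast h3
  · have := Nat.le_ceil x
    linarith
  · have hc : ((⌈x⌉₊ : ℕ) : ℝ) < x + 1 := Nat.ceil_lt_add_one (by linarith)
    have h7 : (1 : ℝ) ≤ 2 ^ n := one_le_pow₀ (by norm_num)
    have h2 : 4 * x ≤ (H : ℝ) ^ (1 / 2 : ℝ) := by
      have : 4 * x ≤ 4 * 2 ^ n * x := by nlinarith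
      linarith
    have h3 : (H : ℝ) ^ (1 / 2 : ℝ) * 4 ≤ H := by
      have h4 : (4 : ℝ) ≤ (H : ℝ) ^ (1 / 2 : ℝ) := by
        have : (4 : ℝ) = (16 : ℝ) ^ (1 / 2 : ℝ) := by
          rw [show (16 : ℝ) = 4 ^ (2 : ℝ) by norm_num, ← Real.rpow_mul (by norm_num)]
          norm_num
        rw [this]
        exact Real.rpow_le_rpow (by norm_num) hHr (by norm_num)
      have h5 : (H : ℝ) ^ (1 / 2 : ℝ) * (H : ℝ) ^ (1 / 2 : ℝ) = H := by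
        rw [← Real.rpow_add hH0]; norm_num
      nlinarith
    have h4 : 2 * ((⌈x⌉₊ : ℕ) : ℝ) + 1 ≤ H := by nlinarith
    exact_mod_cast h4

theorem ev_log (C : ℝ) : ∀ᶠ H : ℕ in atTop, C ≤ Real.log H :=
  (Real.tendsto_log_atTop.comp tendsto_natCast_atTop_atTop).eventually (eventually_ge_atTop C)

section

/-- **Large deviations over one range, with a power saving.** -/
theorem dev_H (n : ℕ) (A : ℝ) (hA : 1 ≤ A) : ∀ᶠ H : ℕ in atTop, ∀ (ι : Type) [Fintype ι] [DecidableEq ι],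
    Fintype.card ι = n → ∀ y : ℕ, Real.log H ^ 5 ≤ y → (y : ℝ) ^ 4 ≤ (H : ℝ) ^ (2 / 5 : ℝ) →
    ∀ I : Finset ℕ, (∀ p ∈ I, p.Prime ∧ y < p ∧ p ≤ y ^ 2) → ∀ X : ∀ p : ℕ, (ι → ZMod p) → ℝ,
    (∀ p ∈ I, ∀ r, |X p r| ≤ A / p) → (∀ (p : ℕ) [NeZero p], p ∈ I → EM p (X p) = 0) →
    (((box ι H).filter (fun c => (y : ℝ) ^ (-(1 / 8) : ℝ) < |∑ p ∈ I, X p (red p c)|)).card : ℝ) ≤
      7 * (H : ℝ) ^ (-(1 / 80) : ℝ) * (box ι H).card := by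
  have hev := ev_log (max 2 (4 * A ^ 2) ^ 2)
  filter_upwards [exists_h n, hev, eventually_ge_atTop 3] with H hH hlog hH3
  intro ι _ _ hcard y hy1 hy2 I hI X hX hX0
  obtain ⟨h, hh1, hh2, hh3⟩ := hH
  subst hcard
  have hA0 : 0 < A := by linarith
  set M : ℝ := max 2 (4 * A ^ 2) with hM
  have hM2 : 2 ≤ M := le_max_left _ _
  have hM4 : 4 * A ^ 2 ≤ M := le_max_right _ _
  have hlog2 : M ≤ Real.log H := by nlinarith
  have hlog1 : 1 ≤ Real.log H := by linarith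
  have hHr : (3 : ℝ) ≤ H := by exact_mod_cast hH3
  have hH0 : (0 : ℝ) < H := by linarith
  have hyM : M ^ 10 ≤ y := by
    calc M ^ 10 = (M ^ 2) ^ 5 := by ring
      _ ≤ Real.log H ^ 5 := pow_le_pow_left₀ (by positivity) hlog 5
      _ ≤ y := hy1
  have hy2' : (2 : ℝ) ≤ y := by
    have : M ≤ M ^ 10 := le_self_pow₀ (by linarith) (by norm_num)
    linarith
  have hy0 : (0 : ℝ) < y := by linarith
  have hyN : 2 ≤ y := by exact_mod_cast hy2'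
  -- the exponent
  set j := Nat.log (y ^ 4) (2 * h + 1) with hj
  have hy4 : 1 < y ^ 4 := by
    have : 2 ^ 4 ≤ y ^ 4 := Nat.pow_le_pow_left hyN 4
    omega
  have hjle : (y ^ 4) ^ j ≤ 2 * h + 1 := Nat.pow_log_le_self _ (by omega)
  have hjlt : 2 * h + 1 < (y ^ 4) ^ (j + 1) := Nat.lt_pow_succ_log_self hy4 _
  have hy4h : y ^ 4 ≤ 2 * h + 1 := by
    have : ((y ^ 4 : ℕ) : ℝ) ≤ ((2 * h + 1 : ℕ) : ℝ) := by
      push_cast
      linarith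
    exact_mod_cast this
  have hj1 : 1 ≤ j := Nat.log_pos hy4 hy4h
  have hj1r : (1 : ℝ) ≤ j := by exact_mod_cast hj1
  have hjlog : (j : ℝ) ≤ Real.log H := by
    have h1 : ((y : ℝ) ^ 4) ^ j ≤ H := by
      have : (((y ^ 4) ^ j : ℕ) : ℝ) ≤ ((H : ℕ) : ℝ) := by exact_mod_cast hjle.trans hh3
      push_cast at this
      exact this
    have h2 := Real.log_le_log (by positivity) h1
    rw [Real.log_pow, Real.log_pow] at h2
    have h3 : (1 : ℝ) ≤ ((4 : ℕ) : ℝ) * Real.log y := by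
      have h4 : Real.log 2 ≤ Real.log y := Real.log_le_log (by norm_num) hy2'
      have := Real.log_two_gt_d9
      push_cast
      linarith
    nlinarith
  have hj5 : (j : ℝ) ≤ (y : ℝ) ^ (1 / 5 : ℝ) := by
    have h1 : (j : ℝ) ^ 5 ≤ y := (pow_le_pow_left₀ (by positivity) hjlog 5).trans hy1
    have h2 : (j : ℝ) = ((j : ℝ) ^ 5) ^ (1 / 5 : ℝ) := by
      rw [← Real.rpow_natCast, ← Real.rpow_mul (by positivity)]
      norm_num
    rw [h2]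
    exact Real.rpow_le_rpow (by positivity) h1 (by norm_num)
  have hdev := dev_range H h hh1 y j (by omega) (by rw [← pow_mul, ← mul_assoc]; rw [← pow_mul] at hjle; convert hjle using 2; ring)
    A hA I hI hj1 X hX hX0 ((y : ℝ) ^ (-(1 / 8) : ℝ)) (by positivity)
  refine hdev.trans ?_
  have hb0 : 0 ≤ 4 * (j : ℝ) ^ 2 * A ^ 2 / (((y : ℝ) ^ (-(1 / 8) : ℝ)) ^ 2 * y) := by positivity
  have hbase : 4 * (j : ℝ) ^ 2 * A ^ 2 / (((y : ℝ) ^ (-(1 / 8) : ℝ)) ^ 2 * y) ≤ (y : ℝ) ^ (-(1 / 4) : ℝ) := by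
    have e1 : ((y : ℝ) ^ (-(1 / 8) : ℝ)) ^ 2 * y = (y : ℝ) ^ (3 / 4 : ℝ) := by
      rw [← Real.rpow_natCast, ← Real.rpow_mul hy0.le]
      conv_lhs => rw [← Real.rpow_one (y : ℝ)]
      rw [Real.rpow_one, ← Real.rpow_add_one hy0.ne']
      norm_num
    have e2 : (j : ℝ) ^ 2 ≤ (y : ℝ) ^ (2 / 5 : ℝ) := by
      have h1 := pow_le_pow_left₀ (by positivity) hj5 2
      rw [← Real.rpow_natCast ((y : ℝ) ^ (1 / 5 : ℝ)), ← Real.rpow_mul hy0.le] at h1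
      have e : (1 / 5 : ℝ) * ((2 : ℕ) : ℝ) = 2 / 5 := by norm_num
      rw [e] at h1
      exact h1
    have e3 : 4 * A ^ 2 ≤ (y : ℝ) ^ (1 / 10 : ℝ) := by
      have h1 : M = (M ^ 10) ^ (1 / 10 : ℝ) := by
        rw [← Real.rpow_natCast, ← Real.rpow_mul (by linarith)]
        norm_num
      have h2 : (M ^ 10) ^ (1 / 10 : ℝ) ≤ (y : ℝ) ^ (1 / 10 : ℝ) :=
        Real.rpow_le_rpow (by positivity) hyM (by norm_num)
      linarith
    rw [e1, div_le_iff₀ (by positivity)]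
    calc 4 * (j : ℝ) ^ 2 * A ^ 2 = (j : ℝ) ^ 2 * (4 * A ^ 2) := by ring
      _ ≤ (y : ℝ) ^ (2 / 5 : ℝ) * (y : ℝ) ^ (1 / 10 : ℝ) := by gcongr
      _ = (y : ℝ) ^ (-(1 / 4) : ℝ) * (y : ℝ) ^ (3 / 4 : ℝ) := by
          rw [← Real.rpow_add hy0, ← Real.rpow_add hy0]
          norm_num
  have hpow : (4 * (j : ℝ) ^ 2 * A ^ 2 / (((y : ℝ) ^ (-(1 / 8) : ℝ)) ^ 2 * y)) ^ j ≤
      (H : ℝ) ^ (-(1 / 80) : ℝ) := by
    refine (pow_le_pow_left₀ hb0 hbase j).trans ?_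
    have h1 : (H : ℝ) ^ (2 / 5 : ℝ) ≤ (y : ℝ) ^ (8 * j : ℝ) := by
      have h2 : ((2 * h + 1 : ℕ) : ℝ) ≤ (((y ^ 4) ^ (j + 1) : ℕ) : ℝ) := by exact_mod_cast hjlt.le
      push_cast at h2
      have h3 : ((y : ℝ) ^ 4) ^ (j + 1) ≤ (y : ℝ) ^ (8 * j : ℝ) := by
        rw [← pow_mul, ← Real.rpow_natCast]
        apply Real.rpow_le_rpow_of_exponent_le (by linarith)
        push_cast
        linarith
      linarith
    have h4 : ((y : ℝ) ^ (-(1 / 4) : ℝ)) ^ j = ((y : ℝ) ^ (8 * j : ℝ)) ^ (-(1 / 32) : ℝ) := by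
      rw [← Real.rpow_natCast, ← Real.rpow_mul hy0.le, ← Real.rpow_mul hy0.le]
      congr 1
      ring
    have h5 : (H : ℝ) ^ (-(1 / 80) : ℝ) = ((H : ℝ) ^ (2 / 5 : ℝ)) ^ (-(1 / 32) : ℝ) := by
      rw [← Real.rpow_mul hH0.le]
      norm_num
    rw [h4, h5]
    exact Real.rpow_le_rpow_of_nonpos (by positivity) h1 (by norm_num)
  gcongr

end

end Run7.h328.SEP
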