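import Pool.Agent.Run7.h328.SEP.Unif

/-! # Large deviations over short ranges of primes, with arbitrary exponents -/

set_option autoImplicit false

namespace Run7.h328.SEP

open Finset Filter
open Pool.Agent.Y722.HS (box IH EM red PR mem_PR)

/-- **Large deviations over a range, with the exponent `1/2 + ε`.** -/
theorem dev_int (n : ℕ) (A ε : ℝ) (hA : 1 ≤ A) (hε : 0 < ε) : ∀ᶠ H : ℕ in atTop,
    ∀ (ι : Type) [Fintype ι] [DecidableEq ι],
    Fintype.card ι = n → ∀ P : ℕ, Real.log H ^ (4 / ε) ≤ P → (P : ℝ) ^ 4 ≤ (H : ℝ) ^ (2 / 5 : ℝ) →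
    ∀ I : Finset ℕ, (∀ p ∈ I, p.Prime ∧ P < p ∧ p ≤ 2 * P) → ∀ Y : ∀ p : ℕ, (ι → ZMod p) → ℝ,
    (∀ p ∈ I, ∀ r, |Y p r| ≤ A) → (∀ (p : ℕ) [NeZero p], p ∈ I → EM p (Y p) = 0) →
    (((box ι H).filter (fun c => (P : ℝ) ^ (1 / 2 + ε) < |∑ p ∈ I, Y p (red p c)|)).card : ℝ) ≤
      7 * (H : ℝ) ^ (-(ε / 20)) * (box ι H).card := by
  -- `log H` is large
  have hev := ev_log (max 2 (16 * A ^ 2))
  have hev2 : ∀ᶠ H : ℕ in atTop, max 2 (16 * A ^ 2) ≤ Real.log H ^ 2 ∧ 2 ≤ Real.log H ^ (4 / ε) := by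
    have h1 : Tendsto (fun x : ℝ => x ^ (4 / ε)) atTop atTop := tendsto_rpow_atTop (by positivity)
    have h2 := (h1.comp (Real.tendsto_log_atTop.comp tendsto_natCast_atTop_atTop)).eventually (eventually_ge_atTop 2)
    filter_upwards [hev, h2] with H h3 h4
    have hM2 : 2 ≤ max 2 (16 * A ^ 2) := le_max_left _ _
    refine ⟨?_, h4⟩
    nlinarith
  filter_upwards [exists_h n, hev, hev2, eventually_ge_atTop 3] with H hH hlog hlog' hH3
  intro ι _ _ hcard P hP1 hP2 I hI Y hY hY0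
  obtain ⟨h, hh1, hh2, hh3⟩ := hH
  obtain ⟨hlogsq, hlog4⟩ := hlog'
  subst hcard
  have hA0 : 0 < A := by linarith
  set M : ℝ := max 2 (16 * A ^ 2) with hM
  have hM2 : 2 ≤ M := le_max_left _ _
  have hM4 : 16 * A ^ 2 ≤ M := le_max_right _ _
  have hlog1 : 1 ≤ Real.log H := by linarith
  have hl0 : 0 < Real.log H := by linarith
  have hHr : (3 : ℝ) ≤ H := by exact_mod_cast hH3
  have hH0 : (0 : ℝ) < H := by linarith
  have hP2' : (2 : ℝ) ≤ P := hlog4.trans hP1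
  have hP0 : (0 : ℝ) < P := by linarith
  have hPN : 2 ≤ P := by exact_mod_cast hP2'
  -- the exponent
  set j := Nat.log (P ^ 4) (2 * h + 1) with hj
  have hy4 : 1 < P ^ 4 := by
    have : 2 ^ 4 ≤ P ^ 4 := Nat.pow_le_pow_left hPN 4
    omega
  have hjle : (P ^ 4) ^ j ≤ 2 * h + 1 := Nat.pow_log_le_self _ (by omega)
  have hjlt : 2 * h + 1 < (P ^ 4) ^ (j + 1) := Nat.lt_pow_succ_log_self hy4 _
  have hy4h : P ^ 4 ≤ 2 * h + 1 := by
    have : ((P ^ 4 : ℕ) : ℝ) ≤ ((2 * h + 1 : ℕ) : ℝ) := by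
      push_cast
      linarith
    exact_mod_cast this
  have hj1 : 1 ≤ j := Nat.log_pos hy4 hy4h
  have hj1r : (1 : ℝ) ≤ j := by exact_mod_cast hj1
  have hjlog : (j : ℝ) ≤ Real.log H := by
    have h1 : ((P : ℝ) ^ 4) ^ j ≤ H := by
      have : (((P ^ 4) ^ j : ℕ) : ℝ) ≤ ((H : ℕ) : ℝ) := by exact_mod_cast hjle.trans hh3
      push_cast at this
      exact this
    have h2 := Real.log_le_log (by positivity) h1
    rw [Real.log_pow, Real.log_pow] at h2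
    have h3 : (1 : ℝ) ≤ ((4 : ℕ) : ℝ) * Real.log P := by
      have h4 : Real.log 2 ≤ Real.log P := Real.log_le_log (by norm_num) hP2'
      have := Real.log_two_gt_d9
      push_cast
      linarith
    nlinarith
  -- the functions divided by `2 P`
  set X : ∀ p : ℕ, (ι → ZMod p) → ℝ := fun p r => (1 / (2 * P)) * Y p r with hX
  have hdev := dev_range H h hh1 P j (by omega) (by
      rw [← pow_mul, ← mul_assoc]; rw [← pow_mul] at hjle; convert hjle using 2; ring)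
    A hA I (fun p hp => ⟨(hI p hp).1, (hI p hp).2.1, (hI p hp).2.2.trans (by nlinarith)⟩) hj1 X
    (by
      intro p hp r
      have hp0 : (0 : ℝ) < p := by exact_mod_cast (hI p hp).1.pos
      have hp2 : (p : ℝ) ≤ 2 * P := by exact_mod_cast (hI p hp).2.2
      show |(1 / (2 * P)) * Y p r| ≤ A / p
      rw [abs_mul, abs_of_pos (by positivity)]
      calc 1 / (2 * (P : ℝ)) * |Y p r| ≤ 1 / (2 * (P : ℝ)) * A := by
            apply mul_le_mul_of_nonneg_left (hY p hp r) (by positivity)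
        _ ≤ 1 / (p : ℝ) * A := by gcongr
        _ = A / p := by ring)
    (by
      intro p _ hp
      show EM p (fun r => (1 / (2 * (P : ℝ))) * Y p r) = 0
      rw [Pool.Agent.Y722.LS.EM_mul, hY0 p hp, mul_zero])
    ((P : ℝ) ^ (1 / 2 + ε) / (2 * P)) (by positivity)
  have hset : (box ι H).filter (fun c => (P : ℝ) ^ (1 / 2 + ε) < |∑ p ∈ I, Y p (red p c)|) ⊆
      (box ι H).filter (fun c => (P : ℝ) ^ (1 / 2 + ε) / (2 * P) < |∑ p ∈ I, X p (red p c)|) := by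
    intro c hc
    rw [Finset.mem_filter] at hc ⊢
    refine ⟨hc.1, ?_⟩
    have e : ∑ p ∈ I, X p (red p c) = (1 / (2 * P)) * ∑ p ∈ I, Y p (red p c) := by
      rw [Finset.mul_sum]
    rw [e, abs_mul, abs_of_pos (by positivity : (0 : ℝ) < 1 / (2 * P)), div_eq_mul_one_div, mul_comm]
    exact mul_lt_mul_of_pos_left hc.2 (by positivity)
  have hcard : (((box ι H).filter (fun c => (P : ℝ) ^ (1 / 2 + ε) < |∑ p ∈ I, Y p (red p c)|)).card : ℝ) ≤
      (((box ι H).filter (fun c => (P : ℝ) ^ (1 / 2 + ε) / (2 * P) < |∑ p ∈ I, X p (red p c)|)).card : ℝ) := by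
    exact_mod_cast Finset.card_le_card hset
  refine (hcard.trans hdev).trans ?_
  have hb0 : 0 ≤ 4 * (j : ℝ) ^ 2 * A ^ 2 / (((P : ℝ) ^ (1 / 2 + ε) / (2 * P)) ^ 2 * P) := by positivity
  have hbase : 4 * (j : ℝ) ^ 2 * A ^ 2 / (((P : ℝ) ^ (1 / 2 + ε) / (2 * P)) ^ 2 * P) ≤ (P : ℝ) ^ (-ε) := by
    have e1 : ((P : ℝ) ^ (1 / 2 + ε) / (2 * P)) ^ 2 * P = (P : ℝ) ^ (2 * ε) / 4 := by
      have h1 : ((P : ℝ) ^ (1 / 2 + ε)) ^ 2 = P * (P : ℝ) ^ (2 * ε) := by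
        rw [← Real.rpow_natCast, ← Real.rpow_mul hP0.le]
        have : (1 / 2 + ε) * ((2 : ℕ) : ℝ) = 1 + 2 * ε := by push_cast; ring
        rw [this, Real.rpow_add hP0, Real.rpow_one]
      rw [div_pow, h1]
      field_simp
      ring
    have e2 : (P : ℝ) ^ (2 * ε) = (P : ℝ) ^ ε * (P : ℝ) ^ ε := by
      rw [← Real.rpow_add hP0]
      congr 1
      ring
    have e3 : 16 * (j : ℝ) ^ 2 * A ^ 2 ≤ (P : ℝ) ^ ε := by
      have h1 : Real.log H ^ (4 : ℝ) ≤ (P : ℝ) ^ ε := by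
        have h2 := Real.rpow_le_rpow (by positivity) hP1 hε.le
        rw [← Real.rpow_mul hl0.le] at h2
        have h3 : 4 / ε * ε = 4 := by field_simp
        rw [h3] at h2
        exact h2
      have h2 : Real.log H ^ (4 : ℝ) = Real.log H ^ 2 * Real.log H ^ 2 := by
        have : (4 : ℝ) = ((4 : ℕ) : ℝ) := by norm_num
        rw [this, Real.rpow_natCast]
        ring
      have h3 : (j : ℝ) ^ 2 ≤ Real.log H ^ 2 := pow_le_pow_left₀ (by positivity) hjlog 2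
      have h4 : 16 * A ^ 2 ≤ Real.log H ^ 2 := hM4.trans hlogsq
      calc 16 * (j : ℝ) ^ 2 * A ^ 2 = (j : ℝ) ^ 2 * (16 * A ^ 2) := by ring
        _ ≤ Real.log H ^ 2 * Real.log H ^ 2 := by gcongr
        _ ≤ _ := by rw [← h2]; exact h1
    have e4 : 0 < (P : ℝ) ^ ε := by positivity
    rw [e1, e2, div_le_iff₀ (by positivity), Real.rpow_neg hP0.le]
    have e5 : ((P : ℝ) ^ ε)⁻¹ * ((P : ℝ) ^ ε * (P : ℝ) ^ ε / 4) = (P : ℝ) ^ ε / 4 := by
      field_simp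
    rw [e5]
    linarith
  have hpow : (4 * (j : ℝ) ^ 2 * A ^ 2 / (((P : ℝ) ^ (1 / 2 + ε) / (2 * P)) ^ 2 * P)) ^ j ≤
      (H : ℝ) ^ (-(ε / 20)) := by
    refine (pow_le_pow_left₀ hb0 hbase j).trans ?_
    have h1 : (H : ℝ) ^ (2 / 5 : ℝ) ≤ (P : ℝ) ^ (8 * j : ℝ) := by
      have h2 : ((2 * h + 1 : ℕ) : ℝ) ≤ (((P ^ 4) ^ (j + 1) : ℕ) : ℝ) := by exact_mod_cast hjlt.le
      push_cast at h2
      have h3 : ((P : ℝ) ^ 4) ^ (j + 1) ≤ (P : ℝ) ^ (8 * j : ℝ) := by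
        rw [← pow_mul, ← Real.rpow_natCast]
        apply Real.rpow_le_rpow_of_exponent_le (by linarith)
        push_cast
        linarith
      linarith
    have h4 : ((P : ℝ) ^ (-ε)) ^ j = ((P : ℝ) ^ (8 * j : ℝ)) ^ (-(ε / 8)) := by
      rw [← Real.rpow_natCast, ← Real.rpow_mul hP0.le, ← Real.rpow_mul hP0.le]
      congr 1
      ring
    have h5 : (H : ℝ) ^ (-(ε / 20)) = ((H : ℝ) ^ (2 / 5 : ℝ)) ^ (-(ε / 8)) := by
      rw [← Real.rpow_mul hH0.le]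
      congr 1
      ring
    rw [h4, h5]
    exact Real.rpow_le_rpow_of_nonpos (by positivity) h1 (by linarith)
  gcongr

end Run7.h328.SEP
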