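import Pool.Agent.Run7.h328.SEP.Unif
import Pool.Agent.N534.LF.Maj

/-! # Short Euler products for almost all members of a family -/

set_option autoImplicit false

namespace Run7.h328.SEP

open Finset Filter
open Pool.Agent.Y722.HS (box IH EM red PR mem_PR EM_const EM_mono)
open Pool.Agent.Y722.LS (bb EM_add EM_mul)
open Pool.Agent.N534.LF (Loc)

/-- Local functions: bounded by `A / p` on the good classes, where they have mean `O(p^{-3/2})`; the set of bad classes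
has density `O(1/p)`. -/
structure Fm {ι : Type} [Fintype ι] [DecidableEq ι] (A : ℝ) (N B : ∀ p : ℕ, (ι → ZMod p) → ℝ) : Prop where
  le : ∀ (p : ℕ) [Fact p.Prime] (r : ι → ZMod p), B p r = 0 → |N p r| ≤ A / p
  mean : ∀ (p : ℕ) [Fact p.Prime], |EM p (fun r => N p r * (1 - B p r))| ≤ A / (p : ℝ) ^ ((3 : ℝ) / 2)
  zero_one : ∀ (p : ℕ) [Fact p.Prime] (r : ι → ZMod p), B p r = 0 ∨ B p r = 1
  bad : ∀ (p : ℕ) [Fact p.Prime], EM p (fun r => B p r) ≤ A / p

/-- the sum of `k^{-5/4}` -/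
noncomputable def S54 : ℝ := ∑' k : ℕ, 1 / (k : ℝ) ^ ((5 : ℝ) / 4)

theorem summable_S54 : Summable fun k : ℕ => 1 / (k : ℝ) ^ ((5 : ℝ) / 4) :=
  Real.summable_one_div_nat_rpow.mpr (by norm_num)

theorem S54_nonneg : 0 ≤ S54 := tsum_nonneg fun _ => by positivity

theorem sum_32 (y Y : ℕ) (hy : 1 ≤ y) :
    ∑ p ∈ PI y Y, 1 / (p : ℝ) ^ ((3 : ℝ) / 2) ≤ (y : ℝ) ^ (-(1 / 4) : ℝ) * S54 := by
  have hy0 : (0 : ℝ) < y := by exact_mod_cast hy
  have h1 : ∀ p ∈ PI y Y, 1 / (p : ℝ) ^ ((3 : ℝ) / 2) ≤ (y : ℝ) ^ (-(1 / 4) : ℝ) * (1 / (p : ℝ) ^ ((5 : ℝ) / 4)) := by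
    intro p hp
    have hpm := mem_PI.mp hp
    have hp0 : (0 : ℝ) < p := by exact_mod_cast hpm.1.pos
    have hyp : (y : ℝ) ≤ p := by exact_mod_cast hpm.2.1.le
    have e1 : 1 / (p : ℝ) ^ ((3 : ℝ) / 2) = (p : ℝ) ^ (-(1 / 4) : ℝ) * (1 / (p : ℝ) ^ ((5 : ℝ) / 4)) := by
      rw [one_div ((p : ℝ) ^ ((3 : ℝ) / 2)), one_div ((p : ℝ) ^ ((5 : ℝ) / 4)), ← Real.rpow_neg hp0.le,
        ← Real.rpow_neg hp0.le, ← Real.rpow_add hp0]
      norm_num
    rw [e1]
    apply mul_le_mul_of_nonneg_right _ (by positivity)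
    exact Real.rpow_le_rpow_of_nonpos hy0 hyp (by norm_num)
  refine (Finset.sum_le_sum h1).trans ?_
  rw [← Finset.mul_sum]
  apply mul_le_mul_of_nonneg_left _ (by positivity)
  exact summable_S54.sum_le_tsum _ fun _ _ => by positivity

section
variable {ι : Type} [Fintype ι] [DecidableEq ι]

theorem EM_sub_const (p : ℕ) [NeZero p] (f : (ι → ZMod p) → ℝ) : EM p (fun r => f r - EM p f) = 0 := by
  have h1 : (fun r : ι → ZMod p => f r - EM p f) = fun r => f r + (-EM p f) := by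
    funext r
    ring
  rw [h1, EM_add p f (fun _ => -EM p f), EM_const]
  ring

/-- **The deterministic part.** -/
theorem det (A β : ℝ) (hA : 1 ≤ A) (hβ : 0 ≤ β) (N B : ∀ p : ℕ, (ι → ZMod p) → ℝ)
    (h01 : ∀ (p : ℕ) [Fact p.Prime] (r : ι → ZMod p), B p r = 0 ∨ B p r = 1) (m b : ℕ → ℝ)
    (hm : ∀ p : ℕ, p.Prime → |m p| ≤ A / (p : ℝ) ^ ((3 : ℝ) / 2)) (hb : ∀ p : ℕ, p.Prime → b p ≤ A / p)
    (y Y : ℕ) (hy : 1 ≤ y) (hyY : y ≤ Y) (hY1 : 1 ≤ Y) (c : ι → ℤ) (θ η : ℝ)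
    (hZ : |∑ p ∈ PI y Y, ((B p (red p c) - b p) / p)| ≤ θ)
    (u : ℂ) (hu0 : 0 < u.re) (hu1 : u.re ≤ 1)
    (hX : ‖∑ p ∈ PI y Y, (p : ℂ) ^ (-u) * ((N p (red p c) * (1 - B p (red p c)) - m p : ℝ) : ℂ)‖ ≤ η)
    (lam : ℕ → ℂ → ℂ) (hl : Loc β N B c lam) :
    ‖(∑' p : Nat.Primes, lam p u) - ∑ p ∈ PR y, lam p u‖ ≤
      β * (16 / (u.re * Real.log (Y + 1))) + η + (β + A) * ((y : ℝ) ^ (-(1 / 4) : ℝ) * S54) + β * (θ + A / y) := by
  have htail := hl.tail hβ hu0 hu1 Y hY1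
  have hsplit : ∑ p ∈ PR Y, lam p u = ∑ p ∈ PR y, lam p u + ∑ p ∈ PI y Y, lam p u := by
    have h1 : PR Y = PR y ∪ PI y Y := by
      ext p
      rw [Finset.mem_union, mem_PI, mem_PR, mem_PR]
      constructor
      · rintro ⟨h2, h3⟩
        by_cases h4 : p ≤ y
        · exact Or.inl ⟨h4, h3⟩
        · exact Or.inr ⟨h3, by omega, h2⟩
      · rintro (⟨h2, h3⟩ | ⟨h2, h3, h4⟩)
        · exact ⟨by omega, h3⟩
        · exact ⟨h4, h2⟩
    have h2 : Disjoint (PR y) (PI y Y) := by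
      rw [Finset.disjoint_left]
      intro p hp hp'
      rw [mem_PR] at hp
      rw [mem_PI] at hp'
      omega
    rw [h1, Finset.sum_union h2]
  set X : ℕ → ℝ := fun p => N p (red p c) * (1 - B p (red p c)) - m p with hXdef
  -- term by term
  have hterm : ∀ p ∈ PI y Y, ‖lam p u - (p : ℂ) ^ (-u) * (X p : ℂ)‖ ≤
      (β + A) * (1 / (p : ℝ) ^ ((3 : ℝ) / 2)) + β * (B p (red p c) / (p : ℝ)) := by
    intro p hp
    have hpm := mem_PI.mp hp
    have hfp : Fact p.Prime := ⟨hpm.1⟩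
    have hp0 : (0 : ℝ) < p := by exact_mod_cast hpm.1.pos
    have hp1 : (1 : ℝ) ≤ p := by exact_mod_cast hpm.1.one_lt.le
    have hw : ‖(p : ℂ) ^ (-u)‖ ≤ 1 := by
      rw [Complex.norm_natCast_cpow_of_pos hpm.1.pos]
      exact Real.rpow_le_one_of_one_le_of_nonpos hp1 (by simpa using hu0.le)
    have hmp := hm p hpm.1
    have hm' : ‖(p : ℂ) ^ (-u) * (m p : ℂ)‖ ≤ A * (1 / (p : ℝ) ^ ((3 : ℝ) / 2)) := by
      rw [norm_mul, Complex.norm_real, Real.norm_eq_abs, mul_one_div]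
      calc ‖(p : ℂ) ^ (-u)‖ * |m p| ≤ 1 * (A / (p : ℝ) ^ ((3 : ℝ) / 2)) :=
            mul_le_mul hw hmp (abs_nonneg _) (by norm_num)
        _ = _ := one_mul _
    have hp32 : 0 < 1 / (p : ℝ) ^ ((3 : ℝ) / 2) := by positivity
    rcases h01 p (red p c) with h0 | h0
    · have hn := hl.near p hpm.1 u hu0.le
      have hX0 : X p = N p (red p c) - m p := by
        show N p (red p c) * (1 - B p (red p c)) - m p = _
        rw [h0]
        ring
      unfold bb at hn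
      rw [h0, zero_mul, zero_add] at hn
      rw [h0, hX0]
      have e : lam p u - (p : ℂ) ^ (-u) * ((N p (red p c) - m p : ℝ) : ℂ) =
          (lam p u - (p : ℂ) ^ (-u) * (N p (red p c) : ℂ)) + (p : ℂ) ^ (-u) * (m p : ℂ) := by
        push_cast
        ring
      rw [e]
      refine (norm_add_le _ _).trans ?_
      rw [zero_div, mul_zero, add_zero, add_mul]
      exact add_le_add hn hm'
    · have hbd := hl.bound p hpm.1 u hu0.le
      have hX0 : X p = -m p := by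
        show N p (red p c) * (1 - B p (red p c)) - m p = _
        rw [h0]
        ring
      have hb' : ‖lam p u‖ ≤ β * (1 / p) := by
        refine hbd.trans (mul_le_mul_of_nonneg_left ?_ hβ)
        have : (p : ℝ) ^ (-1 - u.re) ≤ (p : ℝ) ^ (-1 : ℝ) :=
          Real.rpow_le_rpow_of_exponent_le hp1 (by linarith)
        rwa [Real.rpow_neg_one, ← one_div] at this
      rw [h0, hX0]
      have e : lam p u - (p : ℂ) ^ (-u) * ((-m p : ℝ) : ℂ) = lam p u + (p : ℂ) ^ (-u) * (m p : ℂ) := by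
        push_cast
        ring
      rw [e]
      refine (norm_add_le _ _).trans ?_
      have : 0 ≤ β * (1 / (p : ℝ) ^ ((3 : ℝ) / 2)) := by positivity
      rw [add_mul]
      linarith
  have hdiff : ‖(∑ p ∈ PI y Y, lam p u) - ∑ p ∈ PI y Y, (p : ℂ) ^ (-u) * (X p : ℂ)‖ ≤
      (β + A) * ((y : ℝ) ^ (-(1 / 4) : ℝ) * S54) + β * (θ + A / y) := by
    rw [← Finset.sum_sub_distrib]
    refine (norm_sum_le _ _).trans ((Finset.sum_le_sum hterm).trans ?_)
    rw [Finset.sum_add_distrib, ← Finset.mul_sum, ← Finset.mul_sum]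
    have h1 := sum_32 y Y hy
    have h2 : ∑ p ∈ PI y Y, B p (red p c) / (p : ℝ) ≤ θ + A / (y : ℝ) := by
      have e : ∑ p ∈ PI y Y, B p (red p c) / (p : ℝ) = ∑ p ∈ PI y Y, ((B p (red p c) - b p) / (p : ℝ)) +
          ∑ p ∈ PI y Y, b p / (p : ℝ) := by
        rw [← Finset.sum_add_distrib]
        refine Finset.sum_congr rfl fun p _ => ?_
        ring
      have h3 : ∑ p ∈ PI y Y, b p / (p : ℝ) ≤ A / (y : ℝ) := by
        have h4 : ∀ p ∈ PI y Y, b p / (p : ℝ) ≤ A * (1 / (p : ℝ) ^ 2) := by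
          intro p hp
          have hpm := mem_PI.mp hp
          have hp0 : (0 : ℝ) < p := by exact_mod_cast hpm.1.pos
          have := hb p hpm.1
          calc b p / (p : ℝ) ≤ (A / (p : ℝ)) / (p : ℝ) := by gcongr
            _ = _ := by field_simp
        refine (Finset.sum_le_sum h4).trans ?_
        rw [← Finset.mul_sum]
        have h5 := sum_inv_sq y hy (PI y Y) (fun p hp => (mem_PI.mp hp).2.1)
        calc A * ∑ p ∈ PI y Y, 1 / (p : ℝ) ^ 2 ≤ A * (1 / (y : ℝ)) := by gcongr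
          _ = _ := by ring
      rw [e]
      have := (abs_le.mp hZ).2
      linarith
    have hβA : 0 ≤ β + A := by linarith
    gcongr
  have e0 : (∑' p : Nat.Primes, lam p u) - ∑ p ∈ PR y, lam p u =
      ((∑' p : Nat.Primes, lam p u) - ∑ p ∈ PR Y, lam p u) + (∑ p ∈ PI y Y, (p : ℂ) ^ (-u) * (X p : ℂ)) +
        ((∑ p ∈ PI y Y, lam p u) - ∑ p ∈ PI y Y, (p : ℂ) ^ (-u) * (X p : ℂ)) := by
    rw [hsplit]
    ring
  rw [e0]
  refine (norm_add_le _ _).trans ?_
  have := norm_add_le ((∑' p : Nat.Primes, lam p u) - ∑ p ∈ PR Y, lam p u)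
    (∑ p ∈ PI y Y, (p : ℂ) ^ (-u) * (X p : ℂ))
  linarith

end

/-- **Short Euler products for all but `H^{-1/200}` of the members of a family.** -/
theorem engine (n : ℕ) (A β : ℝ) (hA : 1 ≤ A) (hβ : 0 ≤ β) : ∃ C : ℝ, 0 < C ∧ ∀ᶠ H : ℕ in atTop,
    ∀ (ι : Type) [Fintype ι] [DecidableEq ι], Fintype.card ι = n → ∀ N B : ∀ p : ℕ, (ι → ZMod p) → ℝ, Fm A N B →
    ∃ Ex ⊆ box ι H, (Ex.card : ℝ) ≤ (H : ℝ) ^ (-(1 / 200) : ℝ) * (box ι H).card ∧
      ∀ c ∈ box ι H \ Ex, ∀ lam : ℕ → ℂ → ℂ, Loc β N B c lam → ∀ u : ℂ, 0 < u.re → u.re ≤ 1 →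
        |u.im| ≤ (H : ℝ) ^ (1 / 200 : ℝ) →
          ‖(∑' p : Nat.Primes, lam p u) - ∑ p ∈ PR (y0 H), lam p u‖ ≤
            C * (1 / (u.re * Real.log H) + 1 / Real.sqrt (Real.log H)) := by
  have hS := S54_nonneg
  refine ⟨160 * β + (4 + 16 * A + (β + A) * S54 + β * (2 + A)), by positivity, ?_⟩
  filter_upwards [dev_unif n (2 * A) (by linarith), ev_log 4, eventually_ge_atTop 3] with H hdev hl4 hH3
  obtain ⟨Y, hY1, hY2, hY3, hdev⟩ := hdev
  intro ι _ _ hcard N B hF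
  have hHr : (3 : ℝ) ≤ H := by exact_mod_cast hH3
  have hH0 : (0 : ℝ) < H := by linarith
  have hl0 : 0 < Real.log H := by linarith
  have hy0l : Real.log H ^ 5 ≤ ((y0 H : ℕ) : ℝ) := Nat.le_ceil _
  have hy1r : (1 : ℝ) ≤ ((y0 H : ℕ) : ℝ) := by
    have : (1 : ℝ) ≤ Real.log H ^ 5 := one_le_pow₀ (by linarith)
    linarith
  have hy1 : 1 ≤ y0 H := by exact_mod_cast hy1r
  have hyp : (0 : ℝ) < ((y0 H : ℕ) : ℝ) := by linarith
  set m : ℕ → ℝ := fun p => if h : p.Prime then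
    haveI := Fact.mk h
    EM p (fun r => N p r * (1 - B p r)) else 0 with hm
  set b : ℕ → ℝ := fun p => if h : p.Prime then
    haveI := Fact.mk h
    EM p (fun r => B p r) else 0 with hb
  have hmp : ∀ (p : ℕ) (h : p.Prime) [NeZero p], m p = EM p (fun r => N p r * (1 - B p r)) := by
    intro p h _
    rw [hm]
    simp only
    rw [dif_pos h]
  have hbp : ∀ (p : ℕ) (h : p.Prime) [NeZero p], b p = EM p (fun r => B p r) := by
    intro p h _
    rw [hb]
    simp only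
    rw [dif_pos h]
  set X : ∀ p : ℕ, (ι → ZMod p) → ℝ := fun p r => N p r * (1 - B p r) - m p with hX
  set Z : ∀ p : ℕ, (ι → ZMod p) → ℝ := fun p r => (B p r - b p) / p with hZ
  have b32 : ∀ (p : ℕ), p.Prime → A / (p : ℝ) ^ ((3 : ℝ) / 2) ≤ A / p := by
    intro p hp
    have hp0 : (0 : ℝ) < p := by exact_mod_cast hp.pos
    have hp1 : (1 : ℝ) ≤ p := by exact_mod_cast hp.one_lt.le
    apply div_le_div_of_nonneg_left (by linarith) hp0
    conv_lhs => rw [← Real.rpow_one (p : ℝ)]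
    exact Real.rpow_le_rpow_of_exponent_le hp1 (by norm_num)
  obtain ⟨Ex, hE1, hE2, hE3⟩ := hdev ι hcard X Z (by
      intro p hp r
      have hpm := mem_PI.mp hp
      have hfp : Fact p.Prime := ⟨hpm.1⟩
      have hp0 : (0 : ℝ) < p := by exact_mod_cast hpm.1.pos
      show |N p r * (1 - B p r) - m p| ≤ 2 * A / p
      rw [hmp p hpm.1]
      have h1 : |N p r * (1 - B p r)| ≤ A / p := by
        rcases hF.zero_one p r with h0 | h0
        · rw [h0, sub_zero, mul_one]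
          exact hF.le p r h0
        · rw [h0, sub_self, mul_zero, abs_zero]
          positivity
      have h2 := hF.mean p
      have h3 := b32 p hpm.1
      have h4 := abs_sub (N p r * (1 - B p r)) (EM p (fun r => N p r * (1 - B p r)))
      have h5 : 2 * A / (p : ℝ) = A / p + A / p := by ring
      linarith)
    (by
      intro p _ hp
      have hpm := mem_PI.mp hp
      have hfp : Fact p.Prime := ⟨hpm.1⟩
      show EM p (fun r => N p r * (1 - B p r) - m p) = 0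
      rw [hmp p hpm.1]
      exact EM_sub_const p (fun r => N p r * (1 - B p r)))
    (by
      intro p hp r
      have hpm := mem_PI.mp hp
      have hfp : Fact p.Prime := ⟨hpm.1⟩
      have hp0 : (0 : ℝ) < p := by exact_mod_cast hpm.1.pos
      show |(B p r - b p) / p| ≤ 2 * A / p
      rw [hbp p hpm.1, abs_div, abs_of_pos hp0]
      apply div_le_div_of_nonneg_right _ hp0.le
      have hB1 : ∀ r, 0 ≤ B p r ∧ B p r ≤ 1 := by
        intro r
        rcases hF.zero_one p r with h0 | h0 <;> rw [h0] <;> norm_num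
      have h1 : 0 ≤ EM p (B p) := by
        have := EM_mono p (fun _ => (0 : ℝ)) (B p) (fun r => (hB1 r).1)
        rwa [EM_const] at this
      have h2 : EM p (B p) ≤ 1 := by
        have := EM_mono p (B p) (fun _ => (1 : ℝ)) (fun r => (hB1 r).2)
        rwa [EM_const] at this
      rw [abs_le]
      have h3 : EM p (fun r => B p r) = EM p (B p) := rfl
      rw [h3]
      constructor <;> linarith [(hB1 r).1, (hB1 r).2])
    (by
      intro p _ hp
      have hpm := mem_PI.mp hp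
      have hfp : Fact p.Prime := ⟨hpm.1⟩
      have e : Z p = fun r => (1 / (p : ℝ)) * (B p r - EM p (B p)) := by
        funext r
        show (B p r - b p) / p = _
        rw [hbp p hpm.1]
        ring
      rw [e, EM_mul, EM_sub_const p (B p), mul_zero])
  refine ⟨Ex, hE1, hE2, fun c hc lam hlam u hu0 hu1 hu2 => ?_⟩
  obtain ⟨g1, g2⟩ := hE3 c hc
  have g3 := g2 u hu0.le hu1 hu2
  have hYr : (1 : ℝ) ≤ Y := by
    have : (1 : ℝ) ≤ (H : ℝ) ^ (1 / 10 : ℝ) := Real.one_le_rpow (by linarith) (by norm_num)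
    linarith
  have hY1N : 1 ≤ Y := by exact_mod_cast hYr
  have hd := det A β hA hβ N B hF.zero_one m b (by
      intro p hp
      have hfp : Fact p.Prime := ⟨hp⟩
      rw [hmp p hp]
      exact hF.mean p) (by
      intro p hp
      have hfp : Fact p.Prime := ⟨hp⟩
      rw [hbp p hp]
      exact hF.bad p) (y0 H) Y hy1 hY3 hY1N c (2 * ((y0 H : ℕ) : ℝ) ^ (-(1 / 8) : ℝ))
    (4 * ((y0 H : ℕ) : ℝ) ^ (-(1 / 8) : ℝ) + 8 * (2 * A) / Real.log H) g1 u hu0 hu1 g3 lam hlam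
  refine hd.trans ?_
  -- numerical estimates
  set s : ℝ := 1 / Real.sqrt (Real.log H) with hs
  have hsq1 : 1 ≤ Real.sqrt (Real.log H) := by rw [Real.one_le_sqrt]; linarith
  have hsq : Real.sqrt (Real.log H) * Real.sqrt (Real.log H) = Real.log H := Real.mul_self_sqrt hl0.le
  have hs0 : 0 < s := by rw [hs]; positivity
  have q1 : ((y0 H : ℕ) : ℝ) ^ (-(1 / 8) : ℝ) ≤ s := by
    have h1 : ((y0 H : ℕ) : ℝ) ^ (-(1 / 8) : ℝ) ≤ (Real.log H ^ 5) ^ (-(1 / 8) : ℝ) :=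
      Real.rpow_le_rpow_of_nonpos (by positivity) hy0l (by norm_num)
    have h2 : (Real.log H ^ 5) ^ (-(1 / 8) : ℝ) = Real.log H ^ (-(5 / 8) : ℝ) := by
      rw [← Real.rpow_natCast, ← Real.rpow_mul hl0.le]
      norm_num
    have h3 : Real.log H ^ (-(5 / 8) : ℝ) ≤ Real.log H ^ (-(1 / 2) : ℝ) :=
      Real.rpow_le_rpow_of_exponent_le (by linarith) (by norm_num)
    have h4 : Real.log H ^ (-(1 / 2) : ℝ) = s := by
      rw [hs, Real.sqrt_eq_rpow, Real.rpow_neg hl0.le, one_div (Real.log H ^ (1 / 2 : ℝ))]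
    linarith
  have q2 : ((y0 H : ℕ) : ℝ) ^ (-(1 / 4) : ℝ) ≤ s := by
    refine le_trans ?_ q1
    exact Real.rpow_le_rpow_of_exponent_le hy1r (by norm_num)
  have q3 : 1 / Real.log H ≤ s := by
    rw [hs]
    apply one_div_le_one_div_of_le (by linarith)
    nlinarith
  have q4 : 1 / ((y0 H : ℕ) : ℝ) ≤ s := by
    refine le_trans ?_ q1
    rw [one_div, ← Real.rpow_neg_one]
    exact Real.rpow_le_rpow_of_exponent_le hy1r (by norm_num)
  have q5 : 16 / (u.re * Real.log (Y + 1)) ≤ 160 * (1 / (u.re * Real.log H)) := by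
    have h1 : Real.log H / 10 ≤ Real.log (Y + 1) := by
      have h2 : Real.log ((H : ℝ) ^ (1 / 10 : ℝ)) ≤ Real.log (Y + 1) :=
        Real.log_le_log (by positivity) (by linarith)
      rw [Real.log_rpow hH0] at h2
      linarith
    have h3 : 0 < Real.log (Y + 1) := by linarith
    rw [mul_one_div, div_le_div_iff₀ (by positivity) (by positivity)]
    nlinarith [mul_pos hu0 hl0]
  have q6 : 8 * (2 * A) / Real.log H ≤ 16 * A * s := by
    have : 8 * (2 * A) / Real.log H = 16 * A * (1 / Real.log H) := by ring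
    rw [this]
    gcongr
  have q7 : A / ((y0 H : ℕ) : ℝ) ≤ A * s := by
    rw [div_eq_mul_one_div]
    gcongr
  have hβA : 0 ≤ β + A := by linarith
  have k1 : β * (16 / (u.re * Real.log (Y + 1))) ≤ β * (160 * (1 / (u.re * Real.log H))) := by gcongr
  have k2 : (β + A) * (((y0 H : ℕ) : ℝ) ^ (-(1 / 4) : ℝ) * S54) ≤ (β + A) * (s * S54) := by gcongr
  have k3 : β * (2 * ((y0 H : ℕ) : ℝ) ^ (-(1 / 8) : ℝ) + A / ((y0 H : ℕ) : ℝ)) ≤ β * (2 * s + A * s) := by gcongr
  have k4 : 0 < 1 / (u.re * Real.log H) := by positivity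
  have k5 : 0 ≤ 4 + 16 * A + (β + A) * S54 + β * (2 + A) := by positivity
  have k6 : (160 * β + (4 + 16 * A + (β + A) * S54 + β * (2 + A))) * (1 / (u.re * Real.log H) + s) =
      β * (160 * (1 / (u.re * Real.log H))) + 160 * β * s +
      (4 + 16 * A + (β + A) * S54 + β * (2 + A)) * (1 / (u.re * Real.log H)) +
      (4 * s + 16 * A * s + (β + A) * (s * S54) + β * (2 * s + A * s)) := by ring
  rw [k6]
  have k7 : 0 ≤ 160 * β * s := by positivity
  have k8 : 0 ≤ (4 + 16 * A + (β + A) * S54 + β * (2 + A)) * (1 / (u.re * Real.log H)) := by positivity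
  linarith

end Run7.h328.SEP
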