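import Pool.Agent.Run7.h328.SEP.LocK
import Pool.Agent.Run7.h328.SEP.HypQ

/-! # Hyperelliptic curves over number fields: the coefficients `a_1`, `a_2` -/

set_option autoImplicit false

namespace Run7.h328.SEP.HypK

open NumberField IsDedekindDomain Finset Filter
open Pool.Agent.H921R2.TatePole (nm two_le_nm nm_summable below deg nm_eq below_le_nm kerPrime kerPrime_bijective)
open Pool.Agent.Y722.HS (box EM red PR mem_PR EM_const EM_mono)
open Pool.Agent.Y57.FD.HM (tr pol tr_mod tr_le bad_card sum_box)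
open Pool.Agent.V11210.G2 (A2 mm mean_joint A2_le A2_mod s1 s1_le t2 t2_le SS fv charL SG ringChar_zmod)
open Run7.h328.SEP.Hyp (rep cast_rep Gd YY YY_le YY_mean MM MM_nonneg Ok II mem_II EM_shift')

/-- the number of the solutions of `y ^ 2 = x ^ D + ∑ u_i x ^ i` -/
noncomputable def N1 {R : Type} [CommRing R] {D : ℕ} (u : Fin D → R) : ℕ :=
  Nat.card {P : R × R // P.2 ^ 2 = P.1 ^ D + ∑ i, u i * P.1 ^ (i : ℕ)}

theorem N1_congr {R R' : Type} [CommRing R] [CommRing R'] (e : R ≃+* R') {D : ℕ} (u : Fin D → R) :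
    N1 (fun i => e (u i)) = N1 u := by
  unfold N1
  refine (Nat.card_congr ?_).symm
  refine (Equiv.subtypeEquiv (Equiv.prodCongr e.toEquiv e.toEquiv) fun P => ?_)
  show _ ↔ (e P.2) ^ 2 = (e P.1) ^ D + ∑ i, e (u i) * (e P.1) ^ (i : ℕ)
  have h1 : (e P.1) ^ D + ∑ i, e (u i) * (e P.1) ^ (i : ℕ) = e (P.1 ^ D + ∑ i, u i * P.1 ^ (i : ℕ)) := by
    simp only [map_add, map_pow, map_sum, map_mul]
  rw [h1, ← map_pow]
  exact e.injective.eq_iff.symm

theorem card_affine {F : Type} [Field F] [Fintype F] [DecidableEq F] (hF : ringChar F ≠ 2) (f : F → F) :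
    (Nat.card {P : F × F // P.2 ^ 2 = f P.1} : ℝ) = (Fintype.card F : ℝ) + ∑ x : F, (quadraticChar F (f x) : ℝ) := by
  classical
  have h1 : Nat.card {P : F × F // P.2 ^ 2 = f P.1} = ∑ x : F, Nat.card {y : F // y ^ 2 = f x} := by
    rw [← Nat.card_sigma]
    refine Nat.card_congr ⟨fun P => ⟨P.1.1, ⟨P.1.2, P.2⟩⟩, fun P => ⟨(P.1, P.2.1), P.2.2⟩, fun _ => rfl, fun _ => rfl⟩
  have h2 : ∀ x : F, ((Nat.card {y : F // y ^ 2 = f x} : ℕ) : ℤ) = quadraticChar F (f x) + 1 := by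
    intro x
    rw [← quadraticChar_card_sqrts hF (f x)]
    congr 1
    rw [Nat.card_eq_fintype_card, Fintype.card_subtype]
    congr 1
    ext y
    simp
  rw [h1]
  push_cast
  have h3 : ∀ x : F, ((Nat.card {y : F // y ^ 2 = f x} : ℕ) : ℝ) = (quadraticChar F (f x) : ℝ) + 1 := by
    intro x
    have := h2 x
    exact_mod_cast this
  rw [Finset.sum_congr rfl (fun x _ => h3 x), Finset.sum_add_distrib, Finset.sum_const, Finset.card_univ, nsmul_eq_mul,
    mul_one]
  ring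

section fin
variable {k : Type} [Field k] [Fintype k]

/-- the number of the solutions in the extension of degree `2` -/
noncomputable def N2 (k : Type) [Field k] [Finite k] {D : ℕ} (u : Fin D → k) : ℕ :=
  haveI : Fact (ringChar k).Prime := ⟨CharP.char_is_prime k (ringChar k)⟩
  N1 (fun i => algebraMap k (FiniteField.Extension k (ringChar k) 2) (u i))

theorem N1_eq (k : Type) [Field k] [Fintype k] [DecidableEq k] (hk : ringChar k ≠ 2) {D : ℕ} (u : Fin D → k) :
    (N1 u : ℝ) = Fintype.card k + Pool.Agent.V11210.G2.S1 u := by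
  unfold N1 Pool.Agent.V11210.G2.S1
  rw [card_affine hk (fun x : k => x ^ D + ∑ i, u i * x ^ (i : ℕ))]
  rfl

theorem N2_eq (k : Type) [Field k] [Fintype k] [DecidableEq k] (hk : ringChar k ≠ 2) {D : ℕ} (u : Fin D → k) :
    ∃ (L : Type) (_ : Field L) (_ : Fintype L) (_ : DecidableEq L) (_ : Algebra k L),
      Fintype.card L = Fintype.card k ^ 2 ∧ (N2 k u : ℝ) = (Fintype.card k : ℝ) ^ 2 + SS L u := by
  classical
  haveI : Fact (ringChar k).Prime := ⟨CharP.char_is_prime k (ringChar k)⟩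
  have hcard : Nat.card (FiniteField.Extension k (ringChar k) 2) = Nat.card k ^ 2 :=
    FiniteField.natCard_extension k (ringChar k) 2
  letI : Fintype (FiniteField.Extension k (ringChar k) 2) := Fintype.ofFinite _
  rw [Nat.card_eq_fintype_card, Nat.card_eq_fintype_card] at hcard
  refine ⟨FiniteField.Extension k (ringChar k) 2, inferInstance, inferInstance, inferInstance, inferInstance, hcard, ?_⟩
  unfold N2 N1 SS
  have h2 := card_affine (charL k (FiniteField.Extension k (ringChar k) 2) hk)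
    (fun x : FiniteField.Extension k (ringChar k) 2 =>
      x ^ D + ∑ i, algebraMap k (FiniteField.Extension k (ringChar k) 2) (u i) * x ^ (i : ℕ))
  rw [h2, hcard]
  push_cast
  rfl

theorem N2_prime (k : Type) [Field k] [Fintype k] (p : ℕ) [hp : Fact p.Prime] (e : k ≃+* ZMod p) {D : ℕ} (u : Fin D → k) :
    N2 k u = N1 (fun i => algebraMap (ZMod p) (GaloisField p 2) (e (u i))) := by
  classical
  haveI : Fact (ringChar k).Prime := ⟨CharP.char_is_prime k (ringChar k)⟩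
  have hcard : Nat.card (FiniteField.Extension k (ringChar k) 2) = Nat.card k ^ 2 :=
    FiniteField.natCard_extension k (ringChar k) 2
  letI : Fintype (FiniteField.Extension k (ringChar k) 2) := Fintype.ofFinite _
  letI : Fintype (GaloisField p 2) := Fintype.ofFinite _
  have hk : Nat.card k = p := by rw [Nat.card_congr e.toEquiv, Nat.card_zmod]
  have hc : Fintype.card (FiniteField.Extension k (ringChar k) 2) = Fintype.card (GaloisField p 2) := by
    rw [← Nat.card_eq_fintype_card, ← Nat.card_eq_fintype_card, hcard, hk, GaloisField.card p 2 (by norm_num)]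
  let E : FiniteField.Extension k (ringChar k) 2 ≃+* GaloisField p 2 := FiniteField.ringEquivOfCardEq hc
  have h1 : ∀ x : k, E (algebraMap k (FiniteField.Extension k (ringChar k) 2) x) =
      algebraMap (ZMod p) (GaloisField p 2) (e x) := by
    intro x
    haveI : NeZero p := ⟨hp.out.ne_zero⟩
    have h2 : x = (((e x).val : ℕ) : k) := by
      apply e.injective
      rw [map_natCast, ZMod.natCast_zmod_val]
    have h3 : e x = (((e x).val : ℕ) : ZMod p) := (ZMod.natCast_zmod_val _).symm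
    rw [h3]
    conv_lhs => rw [h2]
    rw [map_natCast, map_natCast, map_natCast]
  have h2 : N2 k u = N1 (fun i => algebraMap k (FiniteField.Extension k (ringChar k) 2) (u i)) := rfl
  rw [h2, ← N1_congr E]
  congr 1
  funext i
  exact h1 (u i)

/-- the coefficient `a_1` -/
noncomputable def a1 (k : Type) [Field k] [Finite k] {D : ℕ} (u : Fin D → k) : ℝ :=
  ((N1 u : ℝ) - Nat.card k) / Real.sqrt (Nat.card k)

/-- the coefficient `a_2` -/
noncomputable def a2 (k : Type) [Field k] [Finite k] {D : ℕ} (u : Fin D → k) : ℝ :=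
  (((N1 u : ℝ) - Nat.card k) ^ 2 + ((N2 k u : ℝ) - (Nat.card k : ℝ) ^ 2)) / (2 * Nat.card k)

theorem a1_eq (k : Type) [Field k] [Fintype k] [DecidableEq k] (hk : ringChar k ≠ 2) {D : ℕ} (u : Fin D → k) :
    a1 k u = s1 u := by
  unfold a1 s1
  rw [N1_eq k hk u, Nat.card_eq_fintype_card]
  congr 1
  ring

theorem a2_eq (k : Type) [Field k] [Fintype k] [DecidableEq k] (hk : ringChar k ≠ 2) {D : ℕ} (u : Fin D → k)
    (x : ℝ) (hx : (N2 k u : ℝ) = (Fintype.card k : ℝ) ^ 2 + x) :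
    a2 k u = (s1 u ^ 2 - (- x / Fintype.card k)) / 2 := by
  have hq : (0 : ℝ) < Fintype.card k := by exact_mod_cast Fintype.card_pos
  rw [← a1_eq k hk u]
  unfold a1 a2
  rw [hx, Nat.card_eq_fintype_card, div_pow, Real.sq_sqrt hq.le]
  field_simp
  ring

theorem a1_le (k : Type) [Field k] [Fintype k] (hk : ringChar k ≠ 2) {g : ℕ} (u : Fin (2 * g + 1) → k) :
    |a1 k u| ≤ 2 * g := by
  classical
  rw [a1_eq k hk u]
  exact s1_le hk u

theorem a2_le (k : Type) [Field k] [Fintype k] (hk : ringChar k ≠ 2) {g : ℕ} (u : Fin (2 * g + 1) → k) :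
    |a2 k u| ≤ ((2 * (g : ℝ)) ^ 2 + 2 * g) / 2 := by
  classical
  obtain ⟨L, _, _, _, _, hc, hN⟩ := N2_eq k hk u
  rw [a2_eq k hk u _ hN, abs_div, abs_of_pos (by norm_num : (0 : ℝ) < 2)]
  apply div_le_div_of_nonneg_right _ (by norm_num)
  refine (abs_sub _ _).trans (add_le_add ?_ ?_)
  · rw [abs_pow]
    exact pow_le_pow_left₀ (abs_nonneg _) (s1_le hk u) 2
  · exact t2_le (L := L) hk hc u

theorem prime_eq (k : Type) [Field k] [Fintype k] (p : ℕ) [hp : Fact p.Prime] (e : k ≃+* ZMod p) {g : ℕ}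
    (u : Fin (2 * g + 1) → k) (h : Gd p (fun i => e (u i))) :
    a1 k u = tr g p (rep p (fun i => e (u i))) ∧ a2 k u = A2 g p (rep p (fun i => e (u i))) := by
  classical
  have hp0 : (0 : ℝ) < p := by exact_mod_cast hp.out.pos
  haveI : NeZero p := ⟨hp.out.ne_zero⟩
  have hck : Nat.card k = p := by rw [Nat.card_congr e.toEquiv, Nat.card_zmod]
  have h1 := cast_rep p (fun i => e (u i))
  have hz : ringChar (ZMod p) ≠ 2 := ringChar_zmod p h.1
  have hN1 : (N1 u : ℝ) = (p : ℝ) + Pool.Agent.V11210.G2.S1 (fun i => e (u i)) := by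
    rw [← N1_congr e u, N1_eq (ZMod p) hz, ZMod.card]
  have ha1 : a1 k u = tr g p (rep p (fun i => e (u i))) := by
    unfold a1 tr
    rw [dif_pos ⟨hp.out, h.1⟩, h1, if_pos, ZMod.card, hN1, hck]
    · congr 1
      unfold Pool.Agent.V11210.G2.S1
      have : ∀ z : ℝ, (p : ℝ) + z - p = z := fun z => by ring
      rw [this]
      rfl
    · exact h.2
  refine ⟨ha1, ?_⟩
  have hN2 : (N2 k u : ℝ) = (p : ℝ) ^ 2 + SG p (fun i => e (u i)) := by
    letI : Fintype (GaloisField p 2) := Fintype.ofFinite _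
    rw [N2_prime k p e u]
    unfold N1
    rw [card_affine (charL (ZMod p) (GaloisField p 2) hz)
      (fun x : GaloisField p 2 => x ^ (2 * g + 1) + ∑ i, algebraMap (ZMod p) (GaloisField p 2) (e (u i)) * x ^ (i : ℕ)),
      ← Nat.card_eq_fintype_card, GaloisField.card p 2 (by norm_num)]
    push_cast
    congr 1
  unfold A2
  rw [dif_pos ⟨hp.out, h.1⟩, h1, if_pos, ← ha1]
  · unfold a1 a2
    rw [hN2, hck, div_pow, Real.sq_sqrt hp0.le]
    field_simp
    ring
  · exact h.2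

end fin


section nf
variable {K : Type} [Field K] [NumberField K]

/-- the reduction of the coefficients at `v` -/
noncomputable def rv (v : HeightOneSpectrum (𝓞 K)) {D : ℕ} (c : Fin D → 𝓞 K) : Fin D → 𝓞 K ⧸ v.asIdeal :=
  fun i => Ideal.Quotient.mk v.asIdeal (c i)

/-- good reduction at `v` -/
def GoodK (v : HeightOneSpectrum (𝓞 K)) {D : ℕ} (c : Fin D → 𝓞 K) : Prop :=
  (2 : 𝓞 K) ∉ v.asIdeal ∧
    (Polynomial.X ^ D + ∑ i, Polynomial.C (rv v c i) * Polynomial.X ^ (i : ℕ) : Polynomial (𝓞 K ⧸ v.asIdeal)).Separable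

open Classical in
/-- the local term -/
noncomputable def GG (g : ℕ) (k : ℕ × ℕ) (c : Fin (2 * g + 1) → 𝓞 K) (v : HeightOneSpectrum (𝓞 K)) : ℝ :=
  if GoodK v c then a1 (𝓞 K ⧸ v.asIdeal) (rv v c) ^ k.1 * a2 (𝓞 K ⧸ v.asIdeal) (rv v c) ^ k.2 - mm g k.1 k.2 else 0

theorem char_v (v : HeightOneSpectrum (𝓞 K)) (h : (2 : 𝓞 K) ∉ v.asIdeal) : ringChar (𝓞 K ⧸ v.asIdeal) ≠ 2 := by
  intro h2
  apply h
  rw [← Ideal.Quotient.eq_zero_iff_mem]
  have h3 : ((2 : ℕ) : 𝓞 K ⧸ v.asIdeal) = 0 := by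
    have := ringChar.Nat.cast_ringChar (R := 𝓞 K ⧸ v.asIdeal)
    rwa [h2] at this
  rw [map_ofNat]
  exact_mod_cast h3

theorem GG_le (g : ℕ) (k : ℕ × ℕ) (c : Fin (2 * g + 1) → 𝓞 K) (v : HeightOneSpectrum (𝓞 K)) : |GG g k c v| ≤ MM g k := by
  unfold GG
  split_ifs with h
  · have hc := char_v v h.1
    refine (abs_sub _ _).trans (add_le_add ?_ le_rfl)
    rw [abs_mul, abs_pow, abs_pow]
    exact mul_le_mul (pow_le_pow_left₀ (abs_nonneg _) (a1_le _ hc _) _)
      (pow_le_pow_left₀ (abs_nonneg _) (a2_le _ hc _) _) (by positivity) (by positivity)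
  · rw [abs_zero]
    exact MM_nonneg g k

theorem GG_prime (g : ℕ) (k : ℕ × ℕ) (c : Fin (2 * g + 1) → 𝓞 K) (p : Nat.Primes) [hp : Fact (p : ℕ).Prime]
    (φ : 𝓞 K →+* ZMod (p : ℕ)) : GG g k c (kerPrime p φ).1.1 = YY g k (p : ℕ) (fun i => φ (c i)) := by
  classical
  set v := (kerPrime p φ).1.1 with hv
  let e : (𝓞 K ⧸ v.asIdeal) ≃+* ZMod (p : ℕ) := RingHom.quotientKerEquivOfSurjective (ZMod.ringHom_surjective φ)
  have he : ∀ x : 𝓞 K, e (Ideal.Quotient.mk v.asIdeal x) = φ x := fun x => rfl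
  have hgood : GoodK v c ↔ Gd (p : ℕ) (fun i => φ (c i)) := by
    unfold GoodK Gd
    refine and_congr ?_ ?_
    · have h1 : (2 : 𝓞 K) ∈ v.asIdeal ↔ φ 2 = 0 := by
        have : v.asIdeal = RingHom.ker φ := rfl
        rw [this, RingHom.mem_ker]
      rw [h1, map_ofNat]
      apply not_congr
      constructor
      · intro h2
        have h3 : ((2 : ℕ) : ZMod (p : ℕ)) = 0 := by exact_mod_cast h2
        rw [ZMod.natCast_eq_zero_iff] at h3
        exact (Nat.prime_dvd_prime_iff_eq hp.out Nat.prime_two).mp h3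
      · intro h2
        have h3 : ((2 : ℕ) : ZMod (p : ℕ)) = 0 := by
          rw [ZMod.natCast_eq_zero_iff, h2]
        exact_mod_cast h3
    · rw [← Polynomial.separable_map (e : (𝓞 K ⧸ v.asIdeal) →+* ZMod (p : ℕ))]
      have h2 : Polynomial.map (e : (𝓞 K ⧸ v.asIdeal) →+* ZMod (p : ℕ))
          (Polynomial.X ^ (2 * g + 1) + ∑ i, Polynomial.C (rv v c i) * Polynomial.X ^ (i : ℕ)) =
          Polynomial.X ^ (2 * g + 1) + ∑ i, Polynomial.C (φ (c i)) * Polynomial.X ^ (i : ℕ) := by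
        rw [Polynomial.map_add, Polynomial.map_pow, Polynomial.map_X, Polynomial.map_sum]
        congr 1
        refine Finset.sum_congr rfl fun i _ => ?_
        rw [Polynomial.map_mul, Polynomial.map_C, Polynomial.map_pow, Polynomial.map_X]
        rfl
      rw [h2]
  unfold GG YY
  by_cases h : GoodK v c
  · rw [if_pos h, if_pos (hgood.1 h)]
    obtain ⟨h1, h2⟩ := prime_eq (𝓞 K ⧸ v.asIdeal) (p : ℕ) e (rv v c) (hgood.1 h)
    rw [h1, h2]
    rfl
  · rw [if_neg h, if_neg (fun h' => h (hgood.2 h'))]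

end nf

/-- **The moments over number fields.** -/
theorem hypK_main (g d : ℕ) : ∃ C : ℝ, 0 < C ∧ ∀ ε : ℝ, 0 < ε → ε ≤ 1 → ∀ᶠ H : ℕ in Filter.atTop,
    ∀ (K : Type) [Field K] [NumberField K], Module.finrank ℚ K = d → ∀ α : Fin (2 * g + 1) → 𝓞 K,
    ∀ W : Finset (HeightOneSpectrum (𝓞 K) → ℂ), (∀ w ∈ W, ∀ v, ‖w v‖ ≤ 1) → (W.card : ℝ) ≤ (H : ℝ) ^ (ε / 500) →
    ∃ Ex ⊆ box (Fin (2 * g + 1)) H, (Ex.card : ℝ) ≤ (H : ℝ) ^ (-(ε / 500)) * (box (Fin (2 * g + 1)) H).card ∧
      ∀ c ∈ box (Fin (2 * g + 1)) H \ Ex, ∀ w ∈ W, ∀ k : ℕ × ℕ, Ok g k.1 k.2 →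
        ∀ X : ℕ, (X : ℝ) ≤ (H : ℝ) ^ (ε / 200) → ∀ τ : ℝ, |τ| ≤ (H : ℝ) ^ (ε / 200) →
        ‖∑' v : HeightOneSpectrum (𝓞 K), if nm v ≤ X then
            w v * (GG g k (fun i => α i + (c i : 𝓞 K)) v : ℂ) * ((nm v : ℕ) : ℂ) ^ (-((τ : ℂ) * Complex.I)) else 0‖ ≤
          C * ((X : ℝ) ^ (1 / 2 + ε) + Real.log H ^ (4 / ε)) := by
  classical
  have hch : ∀ k : ℕ × ℕ, ∃ E : ℝ, 0 ≤ E ∧ (k ∈ II g → ∀ (p : ℕ) [hp : Fact p.Prime], |EM p (YY g k p)| ≤ E / p) := by
    intro k
    by_cases hk : k ∈ II g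
    · obtain ⟨E, hE, h⟩ := YY_mean g k (mem_II.1 hk)
      exact ⟨E, hE, fun _ => h⟩
    · exact ⟨0, le_rfl, fun h => absurd h hk⟩
  choose E hE0 hE using hch
  set A : ℝ := 1 + ∑ k ∈ II g, (MM g k + E k) with hA
  have hsum0 : 0 ≤ ∑ k ∈ II g, (MM g k + E k) := Finset.sum_nonneg fun k _ => add_nonneg (MM_nonneg g k) (hE0 k)
  have hA1 : 1 ≤ A := by
    rw [hA]
    linarith
  have hAk : ∀ k ∈ II g, MM g k + E k ≤ A := by
    intro k hk
    have h1 : MM g k + E k ≤ ∑ k ∈ II g, (MM g k + E k) :=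
      Finset.single_le_sum (f := fun k => MM g k + E k) (fun k _ => add_nonneg (MM_nonneg g k) (hE0 k)) hk
    rw [hA]
    linarith
  have hd0 : (0 : ℝ) ≤ d := Nat.cast_nonneg _
  refine ⟨50 * (d + 1) * A, by positivity, fun ε hε hε1 => ?_⟩
  filter_upwards [locK (2 * g + 1) d (II g).card A ε hA1 hε hε1] with H h
  intro K _ _ hK α W hW hWc
  obtain ⟨Ex, hE1, hE2, hE3⟩ := h K hK (Fin (2 * g + 1)) (Fintype.card_fin _) (ℕ × ℕ) (II g) le_rfl
    (fun k p _ φ r => YY g k p (r + fun i => φ (α i))) (by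
      intro k hk p _ φ r
      have h1 := YY_le g k p (r + fun i => φ (α i))
      have h2 := hAk k hk
      have h3 := hE0 k
      linarith)
    (by
      intro k hk p hp φ
      have hp1 : (1 : ℝ) ≤ p := by exact_mod_cast hp.out.one_lt.le
      have hp0 : (0 : ℝ) < p := by linarith
      have : NeZero p := ⟨hp.out.ne_zero⟩
      rw [EM_shift' p (fun i => φ (α i)) (YY g k p)]
      refine (hE k hk p).trans ?_
      have h2 := hAk k hk
      have h3 := MM_nonneg g k
      have h4 : Real.sqrt p ≤ p := by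
        rw [Real.sqrt_le_left hp0.le]
        nlinarith
      calc E k / (p : ℝ) ≤ A / p := div_le_div_of_nonneg_right (by linarith) hp0.le
        _ ≤ A / Real.sqrt p := div_le_div_of_nonneg_left (by linarith) (Real.sqrt_pos.2 hp0) h4) W hW hWc
  refine ⟨Ex, hE1, hE2, fun c hc w hw k hk X hX τ hτ => ?_⟩
  have h1 := hE3 c hc w hw k (mem_II.2 hk) (GG g k (fun i => α i + (c i : 𝓞 K)))
    (fun v => (GG_le g k _ v).trans (by
      have h2 := hAk k (mem_II.2 hk)
      have h3 := hE0 k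
      linarith))
    (fun p _ φ => by
      rw [GG_prime]
      congr 1
      funext i
      rw [map_add, map_intCast, Pi.add_apply, add_comm]
      rfl) X hX τ hτ
  refine h1.trans ?_
  have hX0 : (0 : ℝ) ≤ (X : ℝ) ^ (1 / 2 + ε) := by positivity
  have hL0 : 0 ≤ Real.log H ^ (4 / ε) := by
    have : 0 ≤ Real.log H := Real.log_natCast_nonneg H
    positivity
  have hA0 : 0 ≤ A := by linarith
  apply mul_le_mul_of_nonneg_right _ (by linarith)
  nlinarith

end Run7.h328.SEP.HypK
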