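import Pool.Agent.Run7.h328.SEP.TrF

/-! # Sums over the primes of a number field -/

set_option autoImplicit false

namespace Run7.h328.SEP

open NumberField IsDedekindDomain Finset Filter
open Pool.Agent.H921R2.TatePole (nm two_le_nm nm_summable below deg nm_eq below_le_nm)
open Pool.Agent.Y722.HS (box IH EM red PR mem_PR EM_const EM_mono p_pos)
open Pool.Agent.N534.EC (TrFam Nf Bf dK dK_nonneg six_notMem sum_fib_le nm_ge lamV lamV_prime lamP ll ll_good ll_all
  tsum_ll ll_near trc_hasse)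
open Pool.Agent.N534.LF (Loc)

section
variable {K : Type} [Field K] [NumberField K]

/-- the sum over the primes above `p` -/
noncomputable def gQ (f : HeightOneSpectrum (𝓞 K) → ℂ) (p : Nat.Primes) : ℂ :=
  ∑ v : {v : HeightOneSpectrum (𝓞 K) // below v = p}, f v.1

open Classical in
/-- the sum over the primes above `p` -/
noncomputable def gP (f : HeightOneSpectrum (𝓞 K) → ℂ) (p : ℕ) : ℂ :=
  if h : p.Prime then gQ f ⟨p, h⟩ else 0

theorem gP_prime (f : HeightOneSpectrum (𝓞 K) → ℂ) (p : Nat.Primes) :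
    gP f p = ∑ v : {v : HeightOneSpectrum (𝓞 K) // below v = p}, f v.1 := by
  unfold gP
  rw [dif_pos p.2]
  rfl

theorem finite_low (y : ℕ) : {v : HeightOneSpectrum (𝓞 K) | nm v ≤ y}.Finite := by
  have h1 := Ideal.finite_setOfPred_absNorm_le (S := 𝓞 K) y
  have h2 : Set.InjOn (fun v : HeightOneSpectrum (𝓞 K) => v.asIdeal)
      ((fun v : HeightOneSpectrum (𝓞 K) => v.asIdeal) ⁻¹' {I : Ideal (𝓞 K) | Ideal.absNorm I ≤ y}) := by
    intro v _ w _ h
    exact HeightOneSpectrum.ext h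
  exact h1.preimage h2

theorem low_summable (f : HeightOneSpectrum (𝓞 K) → ℂ) (y : ℕ) (hf : ∀ v, y < nm v → f v = 0) : Summable f := by
  apply summable_of_hasFiniteSupport
  refine (finite_low (K := K) y).subset ?_
  intro v hv
  rw [Function.mem_support] at hv
  by_contra h
  exact hv (hf v (by simpa using h))

theorem tsum_gP (f : HeightOneSpectrum (𝓞 K) → ℂ) (hf : Summable f) :
    ∑' v : HeightOneSpectrum (𝓞 K), f v = ∑' p : Nat.Primes, gP f p := by
  have h0 := ((Equiv.sigmaFiberEquiv (below (K := K))).summable_iff.mpr hf)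
  have h1 := h0.tsum_sigma
  have h2 : ∑' c : (y : Nat.Primes) × {v : HeightOneSpectrum (𝓞 K) // below v = y},
      (f ∘ (Equiv.sigmaFiberEquiv (below (K := K)))) c = ∑' v, f v :=
    (Equiv.sigmaFiberEquiv (below (K := K))).tsum_eq _
  rw [← h2, h1]
  refine tsum_congr fun p => ?_
  rw [tsum_fintype, gP_prime]
  rfl

theorem tsum_low (f : HeightOneSpectrum (𝓞 K) → ℂ) (y : ℕ) (hf : ∀ v, y < nm v → f v = 0) :
    ∑' v : HeightOneSpectrum (𝓞 K), f v = ∑ p ∈ PR y, gP f p := by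
  rw [tsum_gP f (low_summable f y hf)]
  set S : Finset Nat.Primes := (PR y).subtype Nat.Prime with hS
  have hsum : ∑ p ∈ S, gP f (p : ℕ) = ∑ p ∈ PR y, gP f p :=
    Finset.sum_subtype_of_mem (gP f) fun p hp => (mem_PR.mp hp).2
  have hSmem : ∀ q : Nat.Primes, q ∈ S ↔ (q : ℕ) ≤ y := by
    intro q
    exact (Finset.mem_subtype (p := Nat.Prime) (s := PR y) (a := q)).trans
      (mem_PR.trans ⟨fun h => h.1, fun h => ⟨h, q.2⟩⟩)
  rw [← hsum]
  apply tsum_eq_sum
  intro p hp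
  rw [hSmem] at hp
  rw [gP_prime]
  apply Finset.sum_eq_zero
  intro v _
  apply hf
  have := below_le_nm v.1
  rw [v.2] at this
  omega

/-- the sum of the local logarithms at the primes of norm at most `y` -/
noncomputable def shortV (V : HeightOneSpectrum (𝓞 K) → WeierstrassCurve (𝓞 K)) (y : ℕ) (u : ℂ) : ℂ :=
  ∑' v : HeightOneSpectrum (𝓞 K), if nm v ≤ y then ll V u v else 0

theorem shortV_eq (V : HeightOneSpectrum (𝓞 K) → WeierstrassCurve (𝓞 K)) (y : ℕ) (u : ℂ) :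
    shortV V y u = ∑ p ∈ PR y, gP (fun v => if nm v ≤ y then ll V u v else 0) p :=
  tsum_low _ y fun v hv => if_neg (by omega)

theorem PR_eq (y : ℕ) : PR y = PI 1 y := by
  ext p
  rw [mem_PI, mem_PR]
  constructor
  · rintro ⟨h1, h2⟩
    exact ⟨h2, h2.one_lt, h1⟩
  · rintro ⟨h1, _, h3⟩
    exact ⟨h3, h1⟩

theorem sum_PR_32 (y : ℕ) : ∑ p ∈ PR y, 1 / (p : ℝ) ^ ((3 : ℝ) / 2) ≤ S54 := by
  rw [PR_eq]
  have := sum_32 1 y le_rfl
  simpa using this

/-- **The two ways to cut off.** -/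
theorem short_near (V : HeightOneSpectrum (𝓞 K) → WeierstrassCurve (𝓞 K)) (y : ℕ) (hy : 1 ≤ y) (u : ℂ)
    (hu : 0 ≤ u.re) : ‖(∑ p ∈ PR y, lamV V p u) - shortV V y u‖ ≤
      800 * dK K * ((y : ℝ) ^ (-(1 / 4) : ℝ) * S54) := by
  have hy0 : (0 : ℝ) < y := by exact_mod_cast hy
  have hd := dK_nonneg (K := K)
  rw [shortV_eq, ← Finset.sum_sub_distrib]
  have hterm : ∀ p ∈ PR y, ‖lamV V p u - gP (fun v => if nm v ≤ y then ll V u v else 0) p‖ ≤
      (800 * dK K * (y : ℝ) ^ (-(1 / 4) : ℝ)) * (1 / (p : ℝ) ^ ((3 : ℝ) / 2)) := by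
    intro p hp
    obtain ⟨hpy, hpp⟩ := mem_PR.mp hp
    have hp2 : (2 : ℝ) ≤ p := by exact_mod_cast hpp.two_le
    have hp0 : (0 : ℝ) < p := by linarith
    have e1 : lamV V p u = lamP V ⟨p, hpp⟩ u := lamV_prime V ⟨p, hpp⟩ u
    have e2 : gP (fun v => if nm v ≤ y then ll V u v else 0) p =
        gQ (fun v => if nm v ≤ y then ll V u v else 0) ⟨p, hpp⟩ := gP_prime _ ⟨p, hpp⟩
    rw [e1, e2]
    unfold lamP gQ
    rw [← Finset.sum_sub_distrib]
    refine (norm_sum_le _ _).trans ?_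
    have h1 := sum_fib_le (K := K) ⟨p, hpp⟩ (fun v => ‖ll V u v.1 - if nm v.1 ≤ y then ll V u v.1 else 0‖)
      (800 * (y : ℝ) ^ (-(1 / 4) : ℝ) * (1 / (p : ℝ) ^ ((3 : ℝ) / 2))) (by positivity) (by
        intro v
        by_cases hv : nm v.1 ≤ y
        · simp only [hv, if_true, sub_self, norm_zero]
          positivity
        · simp only [hv, if_false, sub_zero]
          push Not at hv
          have hvr : (y : ℝ) ≤ nm v.1 := by exact_mod_cast hv.le
          have hv0 : (0 : ℝ) < nm v.1 := by linarith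
          have hv1 : (1 : ℝ) ≤ nm v.1 := by
            have := two_le_nm v.1
            exact_mod_cast (by omega : 1 ≤ nm v.1)
          obtain ⟨k1, k2, k3⟩ := nm_eq v.1
          have k0 : (below v.1 : ℕ) = p := by rw [v.2]
          rw [k0] at k1
          have k4 : 2 ≤ deg v.1 := by
            by_contra h
            have h' : deg v.1 = 1 := by omega
            rw [h', pow_one] at k1
            omega
          have k5 : p ^ 2 ≤ nm v.1 := by
            rw [k1]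
            exact Nat.pow_le_pow_right hpp.pos k4
          have k6 : (p : ℝ) ^ 2 ≤ nm v.1 := by exact_mod_cast k5
          have q1 : (nm v.1 : ℝ) ^ (-(1 / 4) : ℝ) ≤ (y : ℝ) ^ (-(1 / 4) : ℝ) :=
            Real.rpow_le_rpow_of_nonpos hy0 hvr (by norm_num)
          have q2 : (nm v.1 : ℝ) ^ (-(3 / 4) : ℝ) ≤ 1 / (p : ℝ) ^ ((3 : ℝ) / 2) := by
            have := Real.rpow_le_rpow_of_nonpos (z := -(3 / 4)) (by positivity : (0 : ℝ) < (p : ℝ) ^ 2) k6 (by norm_num)
            refine this.trans (le_of_eq ?_)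
            rw [one_div, ← Real.rpow_neg hp0.le, ← Real.rpow_natCast, ← Real.rpow_mul hp0.le]
            norm_num
          have hP : 0 < 1 / (p : ℝ) ^ ((3 : ℝ) / 2) := by positivity
          have hY : 0 < (y : ℝ) ^ (-(1 / 4) : ℝ) := by positivity
          by_cases h5 : 5 ≤ p
          · have h6 := ll_good V v.1 (six_notMem (pp := ⟨p, hpp⟩) h5 v.1 v.2) u hu
            have h7 : (nm v.1 : ℝ) ^ (-1 - u.re) ≤ (nm v.1 : ℝ) ^ (-1 : ℝ) :=
              Real.rpow_le_rpow_of_exponent_le hv1 (by linarith)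
            have h8 : (nm v.1 : ℝ) ^ (-1 : ℝ) = (nm v.1 : ℝ) ^ (-(1 / 4) : ℝ) * (nm v.1 : ℝ) ^ (-(3 / 4) : ℝ) := by
              rw [← Real.rpow_add hv0]
              norm_num
            have h9 : (nm v.1 : ℝ) ^ (-(1 / 4) : ℝ) * (nm v.1 : ℝ) ^ (-(3 / 4) : ℝ) ≤
                (y : ℝ) ^ (-(1 / 4) : ℝ) * (1 / (p : ℝ) ^ ((3 : ℝ) / 2)) :=
              mul_le_mul q1 q2 (by positivity) hY.le
            have h10 : 0 < (y : ℝ) ^ (-(1 / 4) : ℝ) * (1 / (p : ℝ) ^ ((3 : ℝ) / 2)) := mul_pos hY hP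
            calc ‖ll V u v.1‖ ≤ 6 * (nm v.1 : ℝ) ^ (-1 - u.re) := h6
              _ ≤ 6 * ((y : ℝ) ^ (-(1 / 4) : ℝ) * (1 / (p : ℝ) ^ ((3 : ℝ) / 2))) := by linarith
              _ ≤ 800 * ((y : ℝ) ^ (-(1 / 4) : ℝ) * (1 / (p : ℝ) ^ ((3 : ℝ) / 2))) := by linarith
              _ = _ := by ring
          · have h6 := ll_all V v.1 u hu
            have h7 : (nm v.1 : ℝ) ^ (-(1 / 2) - u.re) ≤ (nm v.1 : ℝ) ^ (-(1 / 4) : ℝ) :=
              Real.rpow_le_rpow_of_exponent_le hv1 (by linarith)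
            have hp4 : (p : ℝ) ≤ 4 := by
              have : p ≤ 4 := by omega
              exact_mod_cast this
            have h8 : (p : ℝ) ^ ((3 : ℝ) / 2) ≤ 8 := by
              calc (p : ℝ) ^ ((3 : ℝ) / 2) ≤ (4 : ℝ) ^ ((3 : ℝ) / 2) := Real.rpow_le_rpow hp0.le hp4 (by norm_num)
                _ = 8 := by
                  rw [show (4 : ℝ) = 2 ^ (2 : ℝ) by norm_num, ← Real.rpow_mul (by norm_num)]
                  norm_num
            have h9 : 1 / 8 ≤ 1 / (p : ℝ) ^ ((3 : ℝ) / 2) := one_div_le_one_div_of_le (by positivity) h8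
            calc ‖ll V u v.1‖ ≤ 100 * (nm v.1 : ℝ) ^ (-(1 / 2) - u.re) := h6
              _ ≤ 100 * (y : ℝ) ^ (-(1 / 4) : ℝ) := by linarith
              _ = 800 * (y : ℝ) ^ (-(1 / 4) : ℝ) * (1 / 8) := by ring
              _ ≤ _ := by gcongr)
    refine h1.trans (le_of_eq ?_)
    ring
  refine (norm_sum_le _ _).trans ((Finset.sum_le_sum hterm).trans ?_)
  rw [← Finset.mul_sum]
  have h1 := sum_PR_32 y
  calc 800 * dK K * (y : ℝ) ^ (-(1 / 4) : ℝ) * ∑ p ∈ PR y, 1 / (p : ℝ) ^ ((3 : ℝ) / 2) ≤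
      800 * dK K * (y : ℝ) ^ (-(1 / 4) : ℝ) * S54 := by gcongr
    _ = _ := by ring

end

end Run7.h328.SEP
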