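import Pool.Agent.Run7.h328.SEP.SumsFm
import Pool.Agent.Run7.h328.SEP.Short
import Pool.Agent.Run7.h328.SEP.ECOne

/-! # Square-root cancellation for families of elliptic curves -/

set_option autoImplicit false

namespace Run7.h328.SEP

open NumberField IsDedekindDomain Finset Filter
open Pool.Agent.H921R2.TatePole (nm two_le_nm nm_summable below deg nm_eq below_le_nm kerPrime kerPrime_bijective)
open Pool.Agent.H341R2 (low low_eq nm_kerPrime)
open Pool.Agent.H341R2.EC (trc csum IsMinAt trc_le)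
open Pool.Agent.R433.MD (norm_nm_cpow)
open Pool.Agent.Y722.HS (box IH EM red PR mem_PR EM_const EM_mono p_pos)
open Pool.Agent.N534.EC (TrFam Nf Bf Nf_eq Nf_small Bf_eq Bf_small finite_hom dK dK_nonneg six_notMem sum_fib_le
  trc_hasse)

section
variable {K : Type} [Field K] [NumberField K] {ι : Type} [Fintype ι] [DecidableEq ι]

/-- the normalised coefficient -/
noncomputable def tv (V : HeightOneSpectrum (𝓞 K) → WeierstrassCurve (𝓞 K)) (τ : ℝ)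
    (v : HeightOneSpectrum (𝓞 K)) : ℂ :=
  (trc V v : ℂ) * ((nm v : ℕ) : ℂ) ^ (-((1 : ℂ) / 2 + (τ : ℂ) * Complex.I))

theorem norm_tv (V : HeightOneSpectrum (𝓞 K) → WeierstrassCurve (𝓞 K)) (τ : ℝ) (v : HeightOneSpectrum (𝓞 K)) :
    ‖tv V τ v‖ = |(trc V v : ℝ)| / Real.sqrt (nm v) := by
  unfold tv
  rw [norm_mul, norm_nm_cpow]
  have h13 : ‖(trc V v : ℂ)‖ = |(trc V v : ℝ)| := by
    rw [← Complex.ofReal_intCast, Complex.norm_real, Real.norm_eq_abs]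
  have h15 : (-((1 : ℂ) / 2 + (τ : ℂ) * Complex.I)).re = -(1 / 2) := by
    simp
  rw [h13, h15, Real.rpow_neg (by positivity), Real.sqrt_eq_rpow]
  rfl

theorem tv_good (V : HeightOneSpectrum (𝓞 K) → WeierstrassCurve (𝓞 K)) (τ : ℝ) (v : HeightOneSpectrum (𝓞 K))
    (h6 : (6 : 𝓞 K) ∉ v.asIdeal) : ‖tv V τ v‖ ≤ 2 := by
  have hq : (2 : ℝ) ≤ nm v := by exact_mod_cast two_le_nm v
  have h1 : 0 < Real.sqrt (nm v) := Real.sqrt_pos.mpr (by linarith)
  rw [norm_tv, div_le_iff₀ h1]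
  exact trc_hasse V v h6

theorem tv_all (V : HeightOneSpectrum (𝓞 K) → WeierstrassCurve (𝓞 K)) (τ : ℝ) (v : HeightOneSpectrum (𝓞 K)) :
    ‖tv V τ v‖ ≤ Real.sqrt (nm v) := by
  have hq : (2 : ℝ) ≤ nm v := by exact_mod_cast two_le_nm v
  have h1 : 0 < Real.sqrt (nm v) := Real.sqrt_pos.mpr (by linarith)
  have h0 := trc_le V v
  have h0' : |(trc V v : ℝ)| ≤ (nm v : ℝ) := by exact_mod_cast h0
  rw [norm_tv, div_le_iff₀ h1, Real.mul_self_sqrt (by linarith)]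
  exact h0'

variable {S : ∀ (p : ℕ) [Fact p.Prime], (𝓞 K →+* ZMod p) → (ι → ZMod p) → ℝ}
  {D : ∀ (p : ℕ) [Fact p.Prime], (𝓞 K →+* ZMod p) → (ι → ZMod p) → Prop} {C : ℝ} {p0 : ℕ}

/-- the weighted coefficient -/
noncomputable def wv (w : HeightOneSpectrum (𝓞 K) → ℝ) (V : HeightOneSpectrum (𝓞 K) → WeierstrassCurve (𝓞 K))
    (τ : ℝ) (v : HeightOneSpectrum (𝓞 K)) : ℂ := (w v : ℂ) * tv V τ v

theorem norm_wv {w : HeightOneSpectrum (𝓞 K) → ℝ} (hw : ∀ v, |w v| ≤ 1)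
    (V : HeightOneSpectrum (𝓞 K) → WeierstrassCurve (𝓞 K)) (τ : ℝ) (v : HeightOneSpectrum (𝓞 K)) :
    ‖wv w V τ v‖ ≤ ‖tv V τ v‖ := by
  unfold wv
  rw [norm_mul, Complex.norm_real, Real.norm_eq_abs]
  have h1 := hw v
  have h2 := norm_nonneg (tv V τ v)
  nlinarith

/-- one prime number -/
theorem gQ_near (h : TrFam S D C p0) (w : HeightOneSpectrum (𝓞 K) → ℝ) (hw : ∀ v, |w v| ≤ 1)
    (V : HeightOneSpectrum (𝓞 K) → WeierstrassCurve (𝓞 K))
    (pp : Nat.Primes) [hfp : Fact (pp : ℕ).Prime] (r : ι → ZMod (pp : ℕ))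
    (htr : p0 ≤ (pp : ℕ) → ∀ φ : 𝓞 K →+* ZMod (pp : ℕ), ¬ D (pp : ℕ) φ r →
      w (kerPrime pp φ).1.1 * (trc V (kerPrime pp φ).1.1 : ℝ) = S (pp : ℕ) φ r) (y : ℕ) (hy : (pp : ℕ) ≤ y) (τ : ℝ) :
    ‖gQ (fun v => if nm v ≤ y then wv w V τ v else 0) pp -
        ((pp : ℕ) : ℂ) ^ (-((τ : ℂ) * Complex.I)) *
          ((((pp : ℕ) : ℝ) * (Nf S p0 (pp : ℕ) r * (1 - Bf D p0 (pp : ℕ) r)) : ℝ) : ℂ)‖ ≤
      dK K * (2 * Bf D p0 (pp : ℕ) r + ((if (pp : ℕ) ^ 2 ≤ y then 2 else 0) +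
        (if (pp : ℕ) < 5 then Real.sqrt y else 0))) := by
  classical
  have hp2 : (2 : ℝ) ≤ (pp : ℕ) := by exact_mod_cast pp.2.two_le
  have hp0 : (0 : ℝ) < (pp : ℕ) := by linarith
  have hpc : ((pp : ℕ) : ℂ) ≠ 0 := by exact_mod_cast pp.2.ne_zero
  have hd := dK_nonneg (K := K)
  have hsy : 0 ≤ Real.sqrt y := Real.sqrt_nonneg _
  have hB0 : 0 ≤ Bf D p0 (pp : ℕ) r := by
    unfold Bf
    split_ifs <;> norm_num
  by_cases h5 : (pp : ℕ) < 5
  · have hN : Nf S p0 (pp : ℕ) r = 0 := Nf_small _ (fun h' => by have := h.five; omega) r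
    rw [hN, zero_mul, mul_zero, Complex.ofReal_zero, mul_zero, sub_zero, if_pos h5]
    unfold gQ
    refine (norm_sum_le _ _).trans ?_
    have h1 := sum_fib_le (K := K) pp (fun v => ‖if nm v.1 ≤ y then wv w V τ v.1 else 0‖) (Real.sqrt y) hsy (by
      intro v
      by_cases hv : nm v.1 ≤ y
      · simp only [hv, if_true]
        refine (norm_wv hw V τ v.1).trans ((tv_all V τ v.1).trans (Real.sqrt_le_sqrt ?_))
        exact_mod_cast hv
      · simp only [hv, if_false, norm_zero]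
        exact hsy)
    refine h1.trans ?_
    apply mul_le_mul_of_nonneg_left _ hd
    have : (0 : ℝ) ≤ if (pp : ℕ) ^ 2 ≤ y then 2 else 0 := by split_ifs <;> norm_num
    linarith
  push Not at h5
  have h6 : ∀ v : {v : HeightOneSpectrum (𝓞 K) // below v = pp}, (6 : 𝓞 K) ∉ v.1.asIdeal :=
    fun v => six_notMem h5 v.1 v.2
  rw [if_neg (by omega : ¬ (pp : ℕ) < 5), add_zero]
  have hif : (0 : ℝ) ≤ if (pp : ℕ) ^ 2 ≤ y then 2 else 0 := by split_ifs <;> norm_num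
  by_cases hB : Bf D p0 (pp : ℕ) r = 1
  · rw [hB, sub_self, mul_zero, mul_zero, Complex.ofReal_zero, mul_zero, sub_zero]
    unfold gQ
    refine (norm_sum_le _ _).trans ?_
    have h1 := sum_fib_le (K := K) pp (fun v => ‖if nm v.1 ≤ y then wv w V τ v.1 else 0‖) 2 (by norm_num) (by
      intro v
      by_cases hv : nm v.1 ≤ y
      · simp only [hv, if_true]
        exact (norm_wv hw V τ v.1).trans (tv_good V τ v.1 (h6 v))
      · simp only [hv, if_false, norm_zero]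
        norm_num)
    refine h1.trans ?_
    apply mul_le_mul_of_nonneg_left _ hd
    linarith
  · have hpp : p0 ≤ (pp : ℕ) := by
      by_contra h'
      exact hB (Bf_small _ (fun h'' => h' h''.2) r)
    have hD : ¬ ∃ φ : 𝓞 K →+* ZMod (pp : ℕ), D (pp : ℕ) φ r := by
      intro h'
      apply hB
      rw [Bf_eq (pp : ℕ) hpp, if_pos h']
    have hB0' : Bf D p0 (pp : ℕ) r = 0 := by rw [Bf_eq (pp : ℕ) hpp, if_neg hD]
    rw [hB0', sub_zero, mul_one, mul_zero, zero_add]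
    push Not at hD
    have := finite_hom (K := K) (pp : ℕ)
    let _ : Fintype (𝓞 K →+* ZMod (pp : ℕ)) := Fintype.ofFinite _
    have e1 : ((pp : ℕ) : ℂ) ^ (-((τ : ℂ) * Complex.I)) * ((((pp : ℕ) : ℝ) * Nf S p0 (pp : ℕ) r : ℝ) : ℂ) =
        ∑ v : {v : HeightOneSpectrum (𝓞 K) // below v = pp}, if deg v.1 = 1 then wv w V τ v.1 else 0 := by
      have e2 : ∀ v : {v : HeightOneSpectrum (𝓞 K) // below v = pp},
          (if deg v.1 = 1 then wv w V τ v.1 else 0) =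
          ((pp : ℕ) : ℂ) ^ (-((1 : ℂ) / 2 + (τ : ℂ) * Complex.I)) *
            (((if deg v.1 = 1 then w v.1 * (trc V v.1 : ℝ) else 0 : ℝ)) : ℂ) := by
        intro v
        split_ifs with h7
        · have h8 := (nm_eq v.1).1
          rw [v.2, h7, pow_one] at h8
          unfold wv tv
          rw [h8]
          push_cast
          ring
        · simp
      rw [Finset.sum_congr rfl fun v _ => e2 v, ← Finset.mul_sum, ← Complex.ofReal_sum]
      have e3 : ∑ v : {v : HeightOneSpectrum (𝓞 K) // below v = pp},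
          (if deg v.1 = 1 then w v.1 * (trc V v.1 : ℝ) else 0) = ∑ φ : 𝓞 K →+* ZMod (pp : ℕ), S (pp : ℕ) φ r := by
        have := low_eq (fun v => w v * (trc V v : ℝ)) pp
        unfold low at this
        refine Eq.trans ?_ (this.trans ?_)
        · refine Finset.sum_congr rfl fun v _ => ?_
          congr
        · refine Finset.sum_congr rfl fun φ _ => ?_
          exact htr hpp φ (hD φ)
      rw [e3, Nf_eq (pp : ℕ) hpp]
      have e4 : ((pp : ℕ) : ℂ) ^ (-((1 : ℂ) / 2 + (τ : ℂ) * Complex.I)) =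
          ((pp : ℕ) : ℂ) ^ (-((τ : ℂ) * Complex.I)) *
            (((((pp : ℕ) : ℝ) * (1 / ((pp : ℕ) : ℝ) ^ ((3 : ℝ) / 2)) : ℝ)) : ℂ) := by
        rw [neg_add, Complex.cpow_add _ _ hpc, mul_comm]
        congr 1
        have e5 : ((pp : ℕ) : ℝ) * (1 / ((pp : ℕ) : ℝ) ^ ((3 : ℝ) / 2)) = ((pp : ℕ) : ℝ) ^ (-(1 / 2) : ℝ) := by
          rw [one_div, ← Real.rpow_neg hp0.le, ← Real.rpow_one_add' hp0.le (by norm_num)]
          norm_num
        rw [e5, Complex.ofReal_cpow hp0.le]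
        push_cast
        rfl
      rw [e4]
      push_cast
      ring
    rw [e1]
    unfold gQ
    rw [← Finset.sum_sub_distrib]
    refine (norm_sum_le _ _).trans ?_
    apply sum_fib_le (K := K) pp
      (fun v => ‖(if nm v.1 ≤ y then wv w V τ v.1 else 0) - (if deg v.1 = 1 then wv w V τ v.1 else 0)‖) _ hif
    intro v
    obtain ⟨k1, k2, k3⟩ := nm_eq v.1
    rw [v.2] at k1
    by_cases h10 : deg v.1 = 1
    · rw [h10, pow_one] at k1
      simp only [h10, if_true]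
      rw [if_pos (by omega), sub_self, norm_zero]
      exact hif
    · simp only [h10, if_false, sub_zero]
      have k4 : 2 ≤ deg v.1 := by omega
      have k5 : (pp : ℕ) ^ 2 ≤ nm v.1 := by
        rw [k1]
        exact Nat.pow_le_pow_right pp.2.pos k4
      by_cases hv : nm v.1 ≤ y
      · rw [if_pos hv, if_pos (k5.trans hv)]
        exact (norm_wv hw V τ v.1).trans (tv_good V τ v.1 (h6 v))
      · rw [if_neg hv, norm_zero]
        exact hif

theorem count_sq (y : ℕ) : ∑ p ∈ PR y, (if p ^ 2 ≤ y then (2 : ℝ) else 0) ≤ 2 * Real.sqrt y := by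
  rw [← Finset.sum_filter, Finset.sum_const, nsmul_eq_mul, mul_comm]
  have h1 : (PR y).filter (fun p => p ^ 2 ≤ y) ⊆ Finset.Icc 1 (Nat.sqrt y) := by
    intro p hp
    rw [Finset.mem_filter] at hp
    rw [Finset.mem_Icc]
    refine ⟨(mem_PR.mp hp.1).2.one_lt.le, ?_⟩
    rw [Nat.le_sqrt']
    exact hp.2
  have h2 := Finset.card_le_card h1
  rw [Nat.card_Icc, Nat.add_sub_cancel] at h2
  have h3 : (((PR y).filter (fun p => p ^ 2 ≤ y)).card : ℝ) ≤ (Nat.sqrt y : ℕ) := by exact_mod_cast h2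
  have h4 := Real.nat_sqrt_le_real_sqrt (a := y)
  linarith

theorem count_small (y : ℕ) (M : ℝ) (hM : 0 ≤ M) : ∑ p ∈ PR y, (if p < 5 then M else 0) ≤ 4 * M := by
  rw [← Finset.sum_filter, Finset.sum_const, nsmul_eq_mul]
  have h1 : (PR y).filter (fun p => p < 5) ⊆ Finset.Icc 1 4 := by
    intro p hp
    rw [Finset.mem_filter] at hp
    rw [Finset.mem_Icc]
    exact ⟨(mem_PR.mp hp.1).2.one_lt.le, by omega⟩
  have h2 := Finset.card_le_card h1
  rw [Nat.card_Icc] at h2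
  have h3 : (((PR y).filter (fun p => p < 5)).card : ℝ) ≤ 4 := by exact_mod_cast h2
  exact mul_le_mul_of_nonneg_right h3 hM

/-- the sum over the primes of the field and the sum over the prime numbers -/
theorem sum_near (h : TrFam S D C p0) (w : HeightOneSpectrum (𝓞 K) → ℝ) (hw : ∀ v, |w v| ≤ 1)
    (V : HeightOneSpectrum (𝓞 K) → WeierstrassCurve (𝓞 K)) (c : ι → ℤ)
    (htr : ∀ (p : Nat.Primes) [Fact (p : ℕ).Prime], p0 ≤ (p : ℕ) → ∀ φ : 𝓞 K →+* ZMod (p : ℕ),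
      ¬ D (p : ℕ) φ (red (p : ℕ) c) →
        w (kerPrime p φ).1.1 * (trc V (kerPrime p φ).1.1 : ℝ) = S (p : ℕ) φ (red (p : ℕ) c))
    (y : ℕ) (τ : ℝ) :
    ‖(∑' v : HeightOneSpectrum (𝓞 K), if nm v ≤ y then wv w V τ v else 0) -
        ∑ p ∈ PR y, (p : ℂ) ^ (-((τ : ℂ) * Complex.I)) *
          ((p * (Nf S p0 p (red p c) * (1 - Bf D p0 p (red p c))) : ℝ) : ℂ)‖ ≤
      dK K * (2 * ∑ p ∈ PR y, Bf D p0 p (red p c) + 6 * Real.sqrt y) := by
  have hd := dK_nonneg (K := K)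
  rw [tsum_low (fun v : HeightOneSpectrum (𝓞 K) => if nm v ≤ y then wv w V τ v else 0) y
    (fun v hv => if_neg (by omega)), ← Finset.sum_sub_distrib]
  refine (norm_sum_le _ _).trans ?_
  have h1 : ∀ p ∈ PR y, ‖gP (fun v : HeightOneSpectrum (𝓞 K) => if nm v ≤ y then wv w V τ v else 0) p -
      (p : ℂ) ^ (-((τ : ℂ) * Complex.I)) * ((p * (Nf S p0 p (red p c) * (1 - Bf D p0 p (red p c))) : ℝ) : ℂ)‖ ≤
      dK K * (2 * Bf D p0 p (red p c) + ((if p ^ 2 ≤ y then 2 else 0) +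
        (if p < 5 then Real.sqrt y else 0))) := by
    intro p hp
    obtain ⟨hpy, hpp⟩ := mem_PR.mp hp
    have hfp : Fact ((⟨p, hpp⟩ : Nat.Primes) : ℕ).Prime := ⟨hpp⟩
    have e : gP (fun v : HeightOneSpectrum (𝓞 K) => if nm v ≤ y then wv w V τ v else 0) p =
        gQ (fun v => if nm v ≤ y then wv w V τ v else 0) ⟨p, hpp⟩ := gP_prime _ ⟨p, hpp⟩
    rw [e]
    exact gQ_near h w hw V ⟨p, hpp⟩ (red p c) (fun h1 φ h2 => htr ⟨p, hpp⟩ h1 φ h2) y hpy τ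
  refine (Finset.sum_le_sum h1).trans ?_
  rw [← Finset.mul_sum]
  apply mul_le_mul_of_nonneg_left _ hd
  rw [Finset.sum_add_distrib, Finset.sum_add_distrib, ← Finset.mul_sum]
  have h2 := count_sq y
  have h3 := count_small y (Real.sqrt y) (Real.sqrt_nonneg _)
  linarith

end

/-- the weighted traces -/
noncomputable def Sw {K : Type} [Field K] [NumberField K] {ι : Type} (w : HeightOneSpectrum (𝓞 K) → ℝ)
    (S : ∀ (p : ℕ) [Fact p.Prime], (𝓞 K →+* ZMod p) → (ι → ZMod p) → ℝ)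
    (p : ℕ) [hp : Fact p.Prime] (φ : 𝓞 K →+* ZMod p) (r : ι → ZMod p) : ℝ :=
  w (kerPrime (⟨p, hp.out⟩ : Nat.Primes) φ).1.1 * S p φ r

theorem trFam_w {K : Type} [Field K] [NumberField K] {ι : Type} [Fintype ι] [DecidableEq ι]
    {S : ∀ (p : ℕ) [Fact p.Prime], (𝓞 K →+* ZMod p) → (ι → ZMod p) → ℝ}
    {D : ∀ (p : ℕ) [Fact p.Prime], (𝓞 K →+* ZMod p) → (ι → ZMod p) → Prop} {C : ℝ} {p0 : ℕ}
    (h : TrFam S D C p0) (w : HeightOneSpectrum (𝓞 K) → ℝ) (hw : ∀ v, |w v| ≤ 1) : TrFam (Sw w S) D C p0 where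
  C0 := h.C0
  five := h.five
  mean := by
    intro p hp h5 φ
    have e : Sw w S p φ = fun r => w (kerPrime (⟨p, hp.out⟩ : Nat.Primes) φ).1.1 * S p φ r := rfl
    rw [e, Pool.Agent.Y722.LS.EM_mul]
    have h1 := h.mean p h5 φ
    rw [h1, mul_zero]
  bd := by
    intro p hp h5 φ r
    unfold Sw
    rw [abs_mul]
    have h1 := h.bd p h5 φ r
    have h2 := hw (kerPrime (⟨p, hp.out⟩ : Nat.Primes) φ).1.1
    have h3 := abs_nonneg (S p φ r)
    nlinarith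
  bad := by
    intro p hp h5 φ
    exact h.bad p h5 φ

/-- **Square-root cancellation for families of elliptic curves.** -/
theorem sums_ec (n d : ℕ) (C : ℝ) (hC : 0 ≤ C) (p0 : ℕ) : ∃ C' : ℝ, 0 < C' ∧ ∀ ε : ℝ, 0 < ε → ε ≤ 1 →
    ∀ᶠ H : ℕ in atTop,
    ∀ (K : Type) [Field K] [NumberField K], Module.finrank ℚ K = d →
    ∀ (ι : Type) [Fintype ι] [DecidableEq ι], Fintype.card ι = n →
    ∀ (S : ∀ (p : ℕ) [Fact p.Prime], (𝓞 K →+* ZMod p) → (ι → ZMod p) → ℝ)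
      (D : ∀ (p : ℕ) [Fact p.Prime], (𝓞 K →+* ZMod p) → (ι → ZMod p) → Prop), TrFam S D C p0 →
    ∀ w : HeightOneSpectrum (𝓞 K) → ℝ, (∀ v, |w v| ≤ 1) →
    ∃ Ex ⊆ box ι H, (Ex.card : ℝ) ≤ (H : ℝ) ^ (-(ε / 200)) * (box ι H).card ∧
      ∀ c ∈ box ι H \ Ex, ∀ V : HeightOneSpectrum (𝓞 K) → WeierstrassCurve (𝓞 K),
        (∀ (p : Nat.Primes) [Fact (p : ℕ).Prime], p0 ≤ (p : ℕ) → ∀ φ : 𝓞 K →+* ZMod (p : ℕ),
          ¬ D (p : ℕ) φ (red (p : ℕ) c) → (trc V (kerPrime p φ).1.1 : ℝ) = S (p : ℕ) φ (red (p : ℕ) c)) →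
        ∀ X : ℕ, (X : ℝ) ≤ (H : ℝ) ^ (ε / 200) → ∀ τ : ℝ, |τ| ≤ (H : ℝ) ^ (ε / 200) →
          ‖∑' v : HeightOneSpectrum (𝓞 K), if nm v ≤ X then wv w V τ v else 0‖ ≤
            C' * ((X : ℝ) ^ (1 / 2 + ε) + Real.log H ^ (4 / ε)) := by
  have hA := one_le_AA d C p0 (by positivity) hC
  set A := AA d C p0 with hAdef
  refine ⟨d * (40 * A + 6) + 20 * A, by positivity, fun ε hε hε1 => ?_⟩
  filter_upwards [sum_fm n A ε hA hε hε1, ev_log 4] with H h1 hl4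
  intro K _ _ hK ι _ _ hcard S D hT w hw
  have hdK : dK K = (d : ℝ) := by
    unfold dK
    rw [hK]
  have hTw := trFam_w hT w hw
  have hF := fm_of hTw
  rw [hdK] at hF
  obtain ⟨Ex, hE1, hE2, hE3⟩ := h1 ι hcard (Nf (Sw w S) p0) (Bf D p0) hF
  refine ⟨Ex, hE1, hE2, fun c hc V hV X hX τ hτ => ?_⟩
  obtain ⟨hb, hs⟩ := hE3 c hc X hX
  have hs' := hs τ hτ
  have hn := sum_near hTw w hw V c (fun p _ hp φ hφ => by
    rw [hV p hp φ hφ]
    rfl) X τ
  rw [hdK] at hn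
  have hX2 : Real.sqrt X ≤ (X : ℝ) ^ (1 / 2 + ε) := by
    rcases Nat.eq_zero_or_pos X with h0 | h0
    · rw [h0]
      simp only [Nat.cast_zero, Real.sqrt_zero]
      positivity
    · rw [Real.sqrt_eq_rpow]
      exact Real.rpow_le_rpow_of_exponent_le (by exact_mod_cast h0) (by linarith)
  have hL0 : 0 ≤ Real.log H ^ (4 / ε) := by
    have : 0 < Real.log H := by linarith
    positivity
  set Q := (X : ℝ) ^ (1 / 2 + ε) + Real.log H ^ (4 / ε) with hQ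
  have hXQ : Real.sqrt X ≤ Q := by
    rw [hQ]
    linarith
  have hd0 : (0 : ℝ) ≤ d := Nat.cast_nonneg _
  have h3 : (d : ℝ) * (2 * ∑ p ∈ PR X, Bf D p0 p (red p c) + 6 * Real.sqrt X) ≤ d * (2 * (20 * A * Q) + 6 * Q) := by
    apply mul_le_mul_of_nonneg_left _ hd0
    linarith
  have h4 := norm_add_le ((∑' v : HeightOneSpectrum (𝓞 K), if nm v ≤ X then wv w V τ v else 0) -
        ∑ p ∈ PR X, (p : ℂ) ^ (-((τ : ℂ) * Complex.I)) *
          ((p * (Nf (Sw w S) p0 p (red p c) * (1 - Bf D p0 p (red p c))) : ℝ) : ℂ))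
      (∑ p ∈ PR X, (p : ℂ) ^ (-((τ : ℂ) * Complex.I)) *
          ((p * (Nf (Sw w S) p0 p (red p c) * (1 - Bf D p0 p (red p c))) : ℝ) : ℂ))
  rw [sub_add_cancel] at h4
  have e : (d * (40 * A + 6) + 20 * A) * Q = d * (2 * (20 * A * Q) + 6 * Q) + 20 * A * Q := by ring
  rw [e]
  linarith

/-- **Square-root cancellation for families of elliptic curves, with arbitrary weights.** -/
theorem sums_ec_w (n d : ℕ) (C : ℝ) (hC : 0 ≤ C) (p0 : ℕ) : ∃ C' : ℝ, 0 < C' ∧ ∀ ε : ℝ, 0 < ε → ε ≤ 1 →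
    ∀ᶠ H : ℕ in atTop,
    ∀ (K : Type) [Field K] [NumberField K], Module.finrank ℚ K = d →
    ∀ (ι : Type) [Fintype ι] [DecidableEq ι], Fintype.card ι = n →
    ∀ (S : ∀ (p : ℕ) [Fact p.Prime], (𝓞 K →+* ZMod p) → (ι → ZMod p) → ℝ)
      (D : ∀ (p : ℕ) [Fact p.Prime], (𝓞 K →+* ZMod p) → (ι → ZMod p) → Prop), TrFam S D C p0 →
    ∀ W : Finset (HeightOneSpectrum (𝓞 K) → ℂ), (∀ w ∈ W, ∀ v, ‖w v‖ ≤ 1) → (W.card : ℝ) ≤ (H : ℝ) ^ (ε / 500) →
    ∃ Ex ⊆ box ι H, (Ex.card : ℝ) ≤ (H : ℝ) ^ (-(ε / 500)) * (box ι H).card ∧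
      ∀ c ∈ box ι H \ Ex, ∀ V : HeightOneSpectrum (𝓞 K) → WeierstrassCurve (𝓞 K),
        (∀ (p : Nat.Primes) [Fact (p : ℕ).Prime], p0 ≤ (p : ℕ) → ∀ φ : 𝓞 K →+* ZMod (p : ℕ),
          ¬ D (p : ℕ) φ (red (p : ℕ) c) → (trc V (kerPrime p φ).1.1 : ℝ) = S (p : ℕ) φ (red (p : ℕ) c)) →
        ∀ w ∈ W, ∀ X : ℕ, (X : ℝ) ≤ (H : ℝ) ^ (ε / 200) → ∀ τ : ℝ, |τ| ≤ (H : ℝ) ^ (ε / 200) →
          ‖∑' v : HeightOneSpectrum (𝓞 K), if nm v ≤ X then w v * tv V τ v else 0‖ ≤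
            C' * ((X : ℝ) ^ (1 / 2 + ε) + Real.log H ^ (4 / ε)) := by
  obtain ⟨C1, hC1, h1⟩ := sums_ec n d C hC p0
  refine ⟨2 * C1, by positivity, fun ε hε hε1 => ?_⟩
  have h2 := ev_pow_le (-(ε / 500)) (-(3 * ε / 1000)) 2 (by linarith)
  filter_upwards [h1 ε hε hε1, h2, eventually_ge_atTop 3] with H h1 h2 hH3
  intro K _ _ hK ι _ _ hcard S D hT W hW hWc
  classical
  have hHr : (3 : ℝ) ≤ H := by exact_mod_cast hH3
  have hH0 : (0 : ℝ) < H := by linarith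
  have hre : ∀ w ∈ W, ∃ Ex ⊆ box ι H, (Ex.card : ℝ) ≤ 2 * (H : ℝ) ^ (-(ε / 200)) * (box ι H).card ∧
      ∀ c ∈ box ι H \ Ex, ∀ V : HeightOneSpectrum (𝓞 K) → WeierstrassCurve (𝓞 K),
        (∀ (p : Nat.Primes) [Fact (p : ℕ).Prime], p0 ≤ (p : ℕ) → ∀ φ : 𝓞 K →+* ZMod (p : ℕ),
          ¬ D (p : ℕ) φ (red (p : ℕ) c) → (trc V (kerPrime p φ).1.1 : ℝ) = S (p : ℕ) φ (red (p : ℕ) c)) →
        ∀ X : ℕ, (X : ℝ) ≤ (H : ℝ) ^ (ε / 200) → ∀ τ : ℝ, |τ| ≤ (H : ℝ) ^ (ε / 200) →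
          ‖∑' v : HeightOneSpectrum (𝓞 K), if nm v ≤ X then w v * tv V τ v else 0‖ ≤
            2 * C1 * ((X : ℝ) ^ (1 / 2 + ε) + Real.log H ^ (4 / ε)) := by
    intro w hw
    obtain ⟨E1, hE11, hE12, hE13⟩ := h1 K hK ι hcard S D hT (fun v => (w v).re)
      (fun v => (Complex.abs_re_le_norm _).trans (hW w hw v))
    obtain ⟨E2, hE21, hE22, hE23⟩ := h1 K hK ι hcard S D hT (fun v => (w v).im)
      (fun v => (Complex.abs_im_le_norm _).trans (hW w hw v))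
    refine ⟨E1 ∪ E2, Finset.union_subset hE11 hE21, ?_, ?_⟩
    · have h3 : ((E1 ∪ E2).card : ℝ) ≤ E1.card + E2.card := by exact_mod_cast Finset.card_union_le _ _
      linarith
    · intro c hc V hV X hX τ hτ
      rw [Finset.mem_sdiff, Finset.mem_union, not_or] at hc
      have k1 := hE13 c (Finset.mem_sdiff.mpr ⟨hc.1, hc.2.1⟩) V hV X hX τ hτ
      have k2 := hE23 c (Finset.mem_sdiff.mpr ⟨hc.1, hc.2.2⟩) V hV X hX τ hτ
      have s1 : Summable fun v : HeightOneSpectrum (𝓞 K) => if nm v ≤ X then wv (fun v => (w v).re) V τ v else 0 :=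
        low_summable _ X fun v hv => if_neg (by omega)
      have s2 : Summable fun v : HeightOneSpectrum (𝓞 K) => if nm v ≤ X then wv (fun v => (w v).im) V τ v else 0 :=
        low_summable _ X fun v hv => if_neg (by omega)
      have e : (∑' v : HeightOneSpectrum (𝓞 K), if nm v ≤ X then w v * tv V τ v else 0) =
          (∑' v : HeightOneSpectrum (𝓞 K), if nm v ≤ X then wv (fun v => (w v).re) V τ v else 0) +
          Complex.I * (∑' v : HeightOneSpectrum (𝓞 K), if nm v ≤ X then wv (fun v => (w v).im) V τ v else 0) := by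
        rw [← tsum_mul_left, ← s1.tsum_add (s2.mul_left _)]
        refine tsum_congr fun v => ?_
        split_ifs
        · unfold wv
          conv_lhs => rw [← Complex.re_add_im (w v)]
          ring
        · simp
      rw [e]
      refine (norm_add_le _ _).trans ?_
      rw [norm_mul, Complex.norm_I, one_mul]
      linarith
  choose! F hF1 hF2 hF3 using hre
  refine ⟨W.biUnion F, ?_, ?_, ?_⟩
  · intro c hc
    obtain ⟨w, hw, hc⟩ := Finset.mem_biUnion.mp hc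
    exact hF1 w hw hc
  · have h3 : ((W.biUnion F).card : ℝ) ≤ ∑ w ∈ W, ((F w).card : ℝ) := by
      exact_mod_cast Finset.card_biUnion_le
    have h4 : ∑ w ∈ W, ((F w).card : ℝ) ≤ ∑ _w ∈ W, 2 * (H : ℝ) ^ (-(ε / 200)) * (box ι H).card :=
      Finset.sum_le_sum fun w hw => hF2 w hw
    rw [Finset.sum_const, nsmul_eq_mul] at h4
    have hb0 : (0 : ℝ) ≤ (box ι H).card := Nat.cast_nonneg _
    have h5 : (W.card : ℝ) * (2 * (H : ℝ) ^ (-(ε / 200)) * (box ι H).card) ≤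
        (H : ℝ) ^ (ε / 500) * (2 * (H : ℝ) ^ (-(ε / 200)) * (box ι H).card) := by gcongr
    have e1 : (H : ℝ) ^ (ε / 500) * (H : ℝ) ^ (-(ε / 200)) = (H : ℝ) ^ (-(3 * ε / 1000)) := by
      rw [← Real.rpow_add hH0]
      congr 1
      ring
    calc ((W.biUnion F).card : ℝ) ≤ (H : ℝ) ^ (ε / 500) * (2 * (H : ℝ) ^ (-(ε / 200)) * (box ι H).card) := by linarith
      _ = 2 * ((H : ℝ) ^ (ε / 500) * (H : ℝ) ^ (-(ε / 200))) * (box ι H).card := by ring
      _ = 2 * (H : ℝ) ^ (-(3 * ε / 1000)) * (box ι H).card := by rw [e1]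
      _ ≤ (H : ℝ) ^ (-(ε / 500)) * (box ι H).card := mul_le_mul_of_nonneg_right h2 hb0
  · intro c hc V hV w hw
    rw [Finset.mem_sdiff, Finset.mem_biUnion] at hc
    have hc2 := hc.2
    push Not at hc2
    exact hF3 w hw c (Finset.mem_sdiff.mpr ⟨hc.1, hc2 w hw⟩) V hV

end Run7.h328.SEP
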