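import Pool.Agent.Run7.h328.SEP.LocQ
import Pool.Agent.Run7.h328.SEP.SumsEC

/-! # Square-root cancellation for bounded local functions over number fields -/

set_option autoImplicit false

namespace Run7.h328.SEP

open NumberField IsDedekindDomain Finset Filter
open Pool.Agent.H921R2.TatePole (nm two_le_nm nm_summable below deg nm_eq below_le_nm kerPrime kerPrime_bijective)
open Pool.Agent.H341R2 (low low_eq nm_kerPrime)
open Pool.Agent.R433.MD (norm_nm_cpow)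
open Pool.Agent.Y722.HS (box IH EM red PR mem_PR EM_const EM_mono p_pos)
open Pool.Agent.Y722.LS (EM_add EM_mul)
open Pool.Agent.N534.EC (finite_hom card_hom dK dK_nonneg one_le_dK sum_fib_le EM_sum')

section
variable {K : Type} [Field K] [NumberField K] {ι : Type} [Fintype ι] [DecidableEq ι]

/-- the term of a prime of the field -/
noncomputable def gv (w G : HeightOneSpectrum (𝓞 K) → ℝ) (τ : ℝ) (v : HeightOneSpectrum (𝓞 K)) : ℂ :=
  ((w v * G v : ℝ) : ℂ) * ((nm v : ℕ) : ℂ) ^ (-((τ : ℂ) * Complex.I))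

theorem norm_gv {w G : HeightOneSpectrum (𝓞 K) → ℝ} {A : ℝ} (hw : ∀ v, |w v| ≤ 1) (hG : ∀ v, |G v| ≤ A) (τ : ℝ)
    (v : HeightOneSpectrum (𝓞 K)) : ‖gv w G τ v‖ ≤ A := by
  unfold gv
  rw [norm_mul, norm_nm_cpow]
  have h15 : (-((τ : ℂ) * Complex.I)).re = 0 := by simp
  rw [h15, Real.rpow_zero, mul_one, Complex.norm_real, Real.norm_eq_abs, abs_mul]
  have h1 := hw v
  have h2 := hG v
  have h3 := abs_nonneg (G v)
  nlinarith

/-- the local function over the prime number `p` -/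
noncomputable def Yw (w : HeightOneSpectrum (𝓞 K) → ℝ)
    (S : ∀ (p : ℕ) [Fact p.Prime], (𝓞 K →+* ZMod p) → (ι → ZMod p) → ℝ) (p : ℕ) (r : ι → ZMod p) : ℝ :=
  open Classical in
  if h : p.Prime then
    haveI := Fact.mk h
    (∑ᶠ φ : 𝓞 K →+* ZMod p, w (kerPrime (⟨p, h⟩ : Nat.Primes) φ).1.1 * S p φ r) / dK K else 0

theorem Yw_eq (w : HeightOneSpectrum (𝓞 K) → ℝ)
    (S : ∀ (p : ℕ) [Fact p.Prime], (𝓞 K →+* ZMod p) → (ι → ZMod p) → ℝ) (p : ℕ) [hp : Fact p.Prime]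
    [Fintype (𝓞 K →+* ZMod p)] (r : ι → ZMod p) :
    Yw w S p r = (∑ φ : 𝓞 K →+* ZMod p, w (kerPrime (⟨p, hp.out⟩ : Nat.Primes) φ).1.1 * S p φ r) / dK K := by
  unfold Yw
  rw [dif_pos hp.out, finsum_eq_sum_of_fintype]

theorem Yw_le {w : HeightOneSpectrum (𝓞 K) → ℝ} (hw : ∀ v, |w v| ≤ 1)
    {S : ∀ (p : ℕ) [Fact p.Prime], (𝓞 K →+* ZMod p) → (ι → ZMod p) → ℝ} {A : ℝ} (hA : 0 ≤ A)
    (hS : ∀ (p : ℕ) [Fact p.Prime], ∀ φ r, |S p φ r| ≤ A) (p : ℕ) (r : ι → ZMod p) : |Yw w S p r| ≤ A := by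
  by_cases h : p.Prime
  · haveI := Fact.mk h
    have := finite_hom (K := K) p
    let _ : Fintype (𝓞 K →+* ZMod p) := Fintype.ofFinite _
    have hd := one_le_dK (K := K)
    rw [Yw_eq w S p r, abs_div, abs_of_pos (by linarith : 0 < dK K), div_le_iff₀ (by linarith)]
    refine (Finset.abs_sum_le_sum_abs _ _).trans ?_
    have h1 : ∀ φ ∈ (Finset.univ : Finset (𝓞 K →+* ZMod p)),
        |w (kerPrime (⟨p, h⟩ : Nat.Primes) φ).1.1 * S p φ r| ≤ A := by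
      intro φ _
      rw [abs_mul]
      have h2 := hw (kerPrime (⟨p, h⟩ : Nat.Primes) φ).1.1
      have h3 := hS p φ r
      have h4 := abs_nonneg (S p φ r)
      nlinarith
    refine (Finset.sum_le_sum h1).trans ?_
    rw [Finset.sum_const, nsmul_eq_mul, Finset.card_univ, mul_comm]
    apply mul_le_mul_of_nonneg_left _ hA
    rw [← Nat.card_eq_fintype_card]
    exact card_hom p
  · unfold Yw
    rw [dif_neg h, abs_zero]
    exact hA

theorem Yw_mean {w : HeightOneSpectrum (𝓞 K) → ℝ} (hw : ∀ v, |w v| ≤ 1)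
    {S : ∀ (p : ℕ) [Fact p.Prime], (𝓞 K →+* ZMod p) → (ι → ZMod p) → ℝ} {A : ℝ} (hA0 : 0 ≤ A)
    (hS : ∀ (p : ℕ) [Fact p.Prime], ∀ φ, |EM p (S p φ)| ≤ A / Real.sqrt p) (p : ℕ) [hp : Fact p.Prime] :
    |EM p (Yw w S p)| ≤ A / Real.sqrt p := by
  have := finite_hom (K := K) p
  let _ : Fintype (𝓞 K →+* ZMod p) := Fintype.ofFinite _
  have hd := one_le_dK (K := K)
  have e1 : Yw w S p = fun r => (1 / dK K) *
      ∑ φ : 𝓞 K →+* ZMod p, w (kerPrime (⟨p, hp.out⟩ : Nat.Primes) φ).1.1 * S p φ r := by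
    funext r
    rw [Yw_eq w S p r]
    ring
  rw [e1, EM_mul, EM_sum', abs_mul, abs_of_pos (by positivity : 0 < 1 / dK K), one_div_mul_eq_div,
    div_le_iff₀ (by linarith)]
  refine (Finset.abs_sum_le_sum_abs _ _).trans ?_
  have h1 : ∀ φ ∈ (Finset.univ : Finset (𝓞 K →+* ZMod p)),
      |EM p (fun r => w (kerPrime (⟨p, hp.out⟩ : Nat.Primes) φ).1.1 * S p φ r)| ≤ A / Real.sqrt p := by
    intro φ _
    rw [EM_mul, abs_mul]
    have h2 := hw (kerPrime (⟨p, hp.out⟩ : Nat.Primes) φ).1.1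
    have h3 := hS p φ
    have h4 := abs_nonneg (EM p (S p φ))
    have h5 : |w (kerPrime (⟨p, hp.out⟩ : Nat.Primes) φ).1.1| * |EM p (S p φ)| ≤ |EM p (S p φ)| := by nlinarith
    exact h5.trans h3
  refine (Finset.sum_le_sum h1).trans ?_
  rw [Finset.sum_const, nsmul_eq_mul, Finset.card_univ, mul_comm]
  have hA : 0 ≤ A / Real.sqrt p := by positivity
  apply mul_le_mul_of_nonneg_left _ hA
  rw [← Nat.card_eq_fintype_card]
  exact card_hom p

/-- one prime number -/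
theorem gQ_loc {w G : HeightOneSpectrum (𝓞 K) → ℝ} {A : ℝ} (hA : 0 ≤ A) (hw : ∀ v, |w v| ≤ 1) (hG : ∀ v, |G v| ≤ A)
    {S : ∀ (p : ℕ) [Fact p.Prime], (𝓞 K →+* ZMod p) → (ι → ZMod p) → ℝ}
    (pp : Nat.Primes) [hfp : Fact (pp : ℕ).Prime] (r : ι → ZMod (pp : ℕ))
    (hGS : ∀ φ : 𝓞 K →+* ZMod (pp : ℕ), G (kerPrime pp φ).1.1 = S (pp : ℕ) φ r) (y : ℕ) (hy : (pp : ℕ) ≤ y) (τ : ℝ) :
    ‖gQ (fun v => if nm v ≤ y then gv w G τ v else 0) pp -
        (dK K : ℂ) * (((pp : ℕ) : ℂ) ^ (-((τ : ℂ) * Complex.I)) * (Yw w S (pp : ℕ) r : ℂ))‖ ≤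
      dK K * (A * (if (pp : ℕ) ^ 2 ≤ y then 2 else 0)) := by
  classical
  have hd := one_le_dK (K := K)
  have hif : (0 : ℝ) ≤ A * if (pp : ℕ) ^ 2 ≤ y then 2 else 0 := by
    apply mul_nonneg hA
    split_ifs <;> norm_num
  have := finite_hom (K := K) (pp : ℕ)
  let _ : Fintype (𝓞 K →+* ZMod (pp : ℕ)) := Fintype.ofFinite _
  have e1 : (dK K : ℂ) * (((pp : ℕ) : ℂ) ^ (-((τ : ℂ) * Complex.I)) * (Yw w S (pp : ℕ) r : ℂ)) =
      ∑ v : {v : HeightOneSpectrum (𝓞 K) // below v = pp}, if deg v.1 = 1 then gv w G τ v.1 else 0 := by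
    have e2 : ∀ v : {v : HeightOneSpectrum (𝓞 K) // below v = pp},
        (if deg v.1 = 1 then gv w G τ v.1 else 0) =
        ((pp : ℕ) : ℂ) ^ (-((τ : ℂ) * Complex.I)) *
          (((if deg v.1 = 1 then w v.1 * G v.1 else 0 : ℝ)) : ℂ) := by
      intro v
      split_ifs with h7
      · have h8 := (nm_eq v.1).1
        rw [v.2, h7, pow_one] at h8
        unfold gv
        rw [h8]
        ring
      · simp
    rw [Finset.sum_congr rfl fun v _ => e2 v, ← Finset.mul_sum, ← Complex.ofReal_sum]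
    have e3 : ∑ v : {v : HeightOneSpectrum (𝓞 K) // below v = pp}, (if deg v.1 = 1 then w v.1 * G v.1 else 0) =
        ∑ φ : 𝓞 K →+* ZMod (pp : ℕ), w (kerPrime pp φ).1.1 * S (pp : ℕ) φ r := by
      have := low_eq (fun v => w v * G v) pp
      unfold low at this
      refine Eq.trans ?_ (this.trans ?_)
      · refine Finset.sum_congr rfl fun v _ => ?_
        congr
      · refine Finset.sum_congr rfl fun φ _ => ?_
        rw [hGS φ]
    rw [e3, Yw_eq w S (pp : ℕ) r]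
    push_cast
    have hd0 : (dK K : ℂ) ≠ 0 := by
      have : dK K ≠ 0 := by linarith
      exact_mod_cast this
    field_simp
    rfl
  rw [e1]
  unfold gQ
  rw [← Finset.sum_sub_distrib]
  refine (norm_sum_le _ _).trans ?_
  apply sum_fib_le (K := K) pp
    (fun v => ‖(if nm v.1 ≤ y then gv w G τ v.1 else 0) - (if deg v.1 = 1 then gv w G τ v.1 else 0)‖) _ hif
  intro v
  obtain ⟨k1, k2, k3⟩ := nm_eq v.1
  rw [v.2] at k1
  by_cases h10 : deg v.1 = 1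
  · rw [h10, pow_one] at k1
    simp only [h10, if_true]
    rw [if_pos (by omega), sub_self, norm_zero]
    exact hif
  · simp only [h10, if_false, sub_zero]
    have k4 : 2 ≤ deg v.1 := by omega
    have k5 : (pp : ℕ) ^ 2 ≤ nm v.1 := by
      rw [k1]
      exact Nat.pow_le_pow_right pp.2.pos k4
    by_cases hv : nm v.1 ≤ y
    · rw [if_pos hv, if_pos (k5.trans hv)]
      have := norm_gv hw hG τ v.1
      linarith
    · rw [if_neg hv, norm_zero]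
      exact hif

/-- the sum over the primes of the field and the sum over the prime numbers -/
theorem sum_loc {w G : HeightOneSpectrum (𝓞 K) → ℝ} {A : ℝ} (hA : 0 ≤ A) (hw : ∀ v, |w v| ≤ 1) (hG : ∀ v, |G v| ≤ A)
    {S : ∀ (p : ℕ) [Fact p.Prime], (𝓞 K →+* ZMod p) → (ι → ZMod p) → ℝ} (c : ι → ℤ)
    (hGS : ∀ (p : Nat.Primes) [Fact (p : ℕ).Prime], ∀ φ : 𝓞 K →+* ZMod (p : ℕ),
      G (kerPrime p φ).1.1 = S (p : ℕ) φ (red (p : ℕ) c)) (y : ℕ) (τ : ℝ) :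
    ‖(∑' v : HeightOneSpectrum (𝓞 K), if nm v ≤ y then gv w G τ v else 0) -
        (dK K : ℂ) * ∑ p ∈ PR y, (p : ℂ) ^ (-((τ : ℂ) * Complex.I)) * (Yw w S p (red p c) : ℂ)‖ ≤
      2 * dK K * A * Real.sqrt y := by
  have hd := dK_nonneg (K := K)
  rw [tsum_low (fun v : HeightOneSpectrum (𝓞 K) => if nm v ≤ y then gv w G τ v else 0) y
    (fun v hv => if_neg (by omega)), Finset.mul_sum, ← Finset.sum_sub_distrib]
  refine (norm_sum_le _ _).trans ?_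
  have h1 : ∀ p ∈ PR y, ‖gP (fun v : HeightOneSpectrum (𝓞 K) => if nm v ≤ y then gv w G τ v else 0) p -
      (dK K : ℂ) * ((p : ℂ) ^ (-((τ : ℂ) * Complex.I)) * (Yw w S p (red p c) : ℂ))‖ ≤
      dK K * (A * (if p ^ 2 ≤ y then 2 else 0)) := by
    intro p hp
    obtain ⟨hpy, hpp⟩ := mem_PR.mp hp
    have hfp : Fact ((⟨p, hpp⟩ : Nat.Primes) : ℕ).Prime := ⟨hpp⟩
    have e : gP (fun v : HeightOneSpectrum (𝓞 K) => if nm v ≤ y then gv w G τ v else 0) p =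
        gQ (fun v => if nm v ≤ y then gv w G τ v else 0) ⟨p, hpp⟩ := gP_prime _ ⟨p, hpp⟩
    rw [e]
    exact gQ_loc hA hw hG ⟨p, hpp⟩ (red p c) (fun φ => hGS ⟨p, hpp⟩ φ) y hpy τ
  refine (Finset.sum_le_sum h1).trans ?_
  rw [← Finset.mul_sum, ← Finset.mul_sum]
  have h2 := count_sq y
  calc dK K * (A * ∑ p ∈ PR y, (if p ^ 2 ≤ y then (2 : ℝ) else 0)) ≤ dK K * (A * (2 * Real.sqrt y)) := by gcongr
    _ = _ := by ring

end

/-- **Bounded local functions over number fields; finite sets of functions and of complex weights.** -/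
theorem locK (n d m : ℕ) (A ε : ℝ) (hA : 1 ≤ A) (hε : 0 < ε) (hε1 : ε ≤ 1) : ∀ᶠ H : ℕ in atTop,
    ∀ (K : Type) [Field K] [NumberField K], Module.finrank ℚ K = d →
    ∀ (ι : Type) [Fintype ι] [DecidableEq ι], Fintype.card ι = n → ∀ (κ : Type) (I : Finset κ), I.card ≤ m →
    ∀ S : κ → ∀ (p : ℕ) [Fact p.Prime], (𝓞 K →+* ZMod p) → (ι → ZMod p) → ℝ,
    (∀ k ∈ I, ∀ (p : ℕ) [Fact p.Prime], ∀ φ r, |S k p φ r| ≤ A) →
    (∀ k ∈ I, ∀ (p : ℕ) [Fact p.Prime], ∀ φ, |EM p (S k p φ)| ≤ A / Real.sqrt p) →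
    ∀ W : Finset (HeightOneSpectrum (𝓞 K) → ℂ), (∀ w ∈ W, ∀ v, ‖w v‖ ≤ 1) → (W.card : ℝ) ≤ (H : ℝ) ^ (ε / 500) →
    ∃ Ex ⊆ box ι H, (Ex.card : ℝ) ≤ (H : ℝ) ^ (-(ε / 500)) * (box ι H).card ∧
      ∀ c ∈ box ι H \ Ex, ∀ w ∈ W, ∀ k ∈ I, ∀ G : HeightOneSpectrum (𝓞 K) → ℝ, (∀ v, |G v| ≤ A) →
        (∀ (p : Nat.Primes) [Fact (p : ℕ).Prime], ∀ φ : 𝓞 K →+* ZMod (p : ℕ),
          G (kerPrime p φ).1.1 = S k (p : ℕ) φ (red (p : ℕ) c)) →
        ∀ X : ℕ, (X : ℝ) ≤ (H : ℝ) ^ (ε / 200) → ∀ τ : ℝ, |τ| ≤ (H : ℝ) ^ (ε / 200) →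
        ‖∑' v : HeightOneSpectrum (𝓞 K), if nm v ≤ X then
            w v * (G v : ℂ) * ((nm v : ℕ) : ℂ) ^ (-((τ : ℂ) * Complex.I)) else 0‖ ≤
          50 * d * A * ((X : ℝ) ^ (1 / 2 + ε) + Real.log H ^ (4 / ε)) := by
  have h2 := ev_pow_le (-(ε / 500)) (-(4 * ε / 500)) (2 * m) (by linarith)
  filter_upwards [loc_real n A ε hA hε hε1, h2, ev_log 4, eventually_ge_atTop 3] with H h1 h2 hl4 hH3
  intro K _ _ hK ι _ _ hcard κ I hI S hS hS0 W hW hWc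
  classical
  have hHr : (3 : ℝ) ≤ H := by exact_mod_cast hH3
  have hH0 : (0 : ℝ) < H := by linarith
  have hA0 : 0 ≤ A := by linarith
  have hdK : dK K = (d : ℝ) := by
    unfold dK
    rw [hK]
  have hd0 : (0 : ℝ) ≤ d := Nat.cast_nonneg _
  -- one real weight
  have hone : ∀ k ∈ I, ∀ w : HeightOneSpectrum (𝓞 K) → ℝ, (∀ v, |w v| ≤ 1) →
      ∃ Ex ⊆ box ι H, (Ex.card : ℝ) ≤ (H : ℝ) ^ (-(ε / 100)) * (box ι H).card ∧
      ∀ c ∈ box ι H \ Ex, ∀ G : HeightOneSpectrum (𝓞 K) → ℝ, (∀ v, |G v| ≤ A) →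
        (∀ (p : Nat.Primes) [Fact (p : ℕ).Prime], ∀ φ : 𝓞 K →+* ZMod (p : ℕ),
          G (kerPrime p φ).1.1 = S k (p : ℕ) φ (red (p : ℕ) c)) →
        ∀ X : ℕ, (X : ℝ) ≤ (H : ℝ) ^ (ε / 200) → ∀ τ : ℝ, |τ| ≤ (H : ℝ) ^ (ε / 200) →
        ‖∑' v : HeightOneSpectrum (𝓞 K), if nm v ≤ X then gv w G τ v else 0‖ ≤
          25 * d * A * ((X : ℝ) ^ (1 / 2 + ε) + Real.log H ^ (4 / ε)) := by
    intro k hk w hw
    obtain ⟨Ex, hE1, hE2, hE3⟩ := h1 ι hcard (Yw w (S k)) (fun p _ r => Yw_le hw hA0 (hS k hk) p r)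
      (fun p _ hp => by
        have := Fact.mk hp
        exact Yw_mean hw hA0 (hS0 k hk) p) (fun _ => 1) (fun _ => by norm_num)
    refine ⟨Ex, hE1, hE2, fun c hc G hG hGS X hX τ hτ => ?_⟩
    have k1 := hE3 c hc X hX τ hτ
    have k2 := sum_loc hA0 hw hG c hGS X τ
    rw [hdK] at k2
    simp only [one_mul] at k1
    have hX2 : Real.sqrt X ≤ (X : ℝ) ^ (1 / 2 + ε) := by
      rcases Nat.eq_zero_or_pos X with h0 | h0
      · rw [h0]
        simp only [Nat.cast_zero, Real.sqrt_zero]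
        positivity
      · rw [Real.sqrt_eq_rpow]
        exact Real.rpow_le_rpow_of_exponent_le (by exact_mod_cast h0) (by linarith)
    have hL0 : 0 ≤ Real.log H ^ (4 / ε) := by
      have : 0 < Real.log H := by linarith
      positivity
    set Q := (X : ℝ) ^ (1 / 2 + ε) + Real.log H ^ (4 / ε) with hQ
    have hXQ : Real.sqrt X ≤ Q := by
      rw [hQ]
      linarith
    have hQ0 : 0 ≤ Q := (Real.sqrt_nonneg _).trans hXQ
    have k3 := norm_add_le ((∑' v : HeightOneSpectrum (𝓞 K), if nm v ≤ X then gv w G τ v else 0) -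
        ((d : ℝ) : ℂ) * ∑ p ∈ PR X, (p : ℂ) ^ (-((τ : ℂ) * Complex.I)) * (Yw w (S k) p (red p c) : ℂ))
        (((d : ℝ) : ℂ) * ∑ p ∈ PR X, (p : ℂ) ^ (-((τ : ℂ) * Complex.I)) * (Yw w (S k) p (red p c) : ℂ))
    rw [sub_add_cancel, norm_mul, Complex.norm_real, Real.norm_eq_abs, abs_of_nonneg hd0] at k3
    have k4 : (d : ℝ) * ‖∑ p ∈ PR X, (p : ℂ) ^ (-((τ : ℂ) * Complex.I)) * (Yw w (S k) p (red p c) : ℂ)‖ ≤
        d * (20 * A * Q) := mul_le_mul_of_nonneg_left k1 hd0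
    have k5 : 2 * (d : ℝ) * A * Real.sqrt X ≤ 2 * d * A * Q := by gcongr
    have k6 : 0 ≤ (d : ℝ) * A * Q := by positivity
    calc _ ≤ 2 * (d : ℝ) * A * Q + d * (20 * A * Q) := by linarith
      _ ≤ 25 * d * A * Q := by linarith
  have hre : ∀ q ∈ W ×ˢ I, ∃ Ex ⊆ box ι H, (Ex.card : ℝ) ≤ 2 * (H : ℝ) ^ (-(ε / 100)) * (box ι H).card ∧
      ∀ c ∈ box ι H \ Ex, ∀ G : HeightOneSpectrum (𝓞 K) → ℝ, (∀ v, |G v| ≤ A) →
        (∀ (p : Nat.Primes) [Fact (p : ℕ).Prime], ∀ φ : 𝓞 K →+* ZMod (p : ℕ),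
          G (kerPrime p φ).1.1 = S q.2 (p : ℕ) φ (red (p : ℕ) c)) →
        ∀ X : ℕ, (X : ℝ) ≤ (H : ℝ) ^ (ε / 200) → ∀ τ : ℝ, |τ| ≤ (H : ℝ) ^ (ε / 200) →
        ‖∑' v : HeightOneSpectrum (𝓞 K), if nm v ≤ X then
            q.1 v * (G v : ℂ) * ((nm v : ℕ) : ℂ) ^ (-((τ : ℂ) * Complex.I)) else 0‖ ≤
          50 * d * A * ((X : ℝ) ^ (1 / 2 + ε) + Real.log H ^ (4 / ε)) := by
    intro q hq
    rw [Finset.mem_product] at hq
    obtain ⟨E1, hE11, hE12, hE13⟩ := hone q.2 hq.2 (fun v => (q.1 v).re)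
      (fun v => (Complex.abs_re_le_norm _).trans (hW q.1 hq.1 v))
    obtain ⟨E2, hE21, hE22, hE23⟩ := hone q.2 hq.2 (fun v => (q.1 v).im)
      (fun v => (Complex.abs_im_le_norm _).trans (hW q.1 hq.1 v))
    refine ⟨E1 ∪ E2, Finset.union_subset hE11 hE21, ?_, ?_⟩
    · have h3 : ((E1 ∪ E2).card : ℝ) ≤ E1.card + E2.card := by exact_mod_cast Finset.card_union_le _ _
      linarith
    · intro c hc G hG hGS X hX τ hτ
      rw [Finset.mem_sdiff, Finset.mem_union, not_or] at hc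
      have k1 := hE13 c (Finset.mem_sdiff.mpr ⟨hc.1, hc.2.1⟩) G hG hGS X hX τ hτ
      have k2 := hE23 c (Finset.mem_sdiff.mpr ⟨hc.1, hc.2.2⟩) G hG hGS X hX τ hτ
      have s1 : Summable fun v : HeightOneSpectrum (𝓞 K) => if nm v ≤ X then gv (fun v => (q.1 v).re) G τ v else 0 :=
        low_summable _ X fun v hv => if_neg (by omega)
      have s2 : Summable fun v : HeightOneSpectrum (𝓞 K) => if nm v ≤ X then gv (fun v => (q.1 v).im) G τ v else 0 :=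
        low_summable _ X fun v hv => if_neg (by omega)
      have e : (∑' v : HeightOneSpectrum (𝓞 K), if nm v ≤ X then
            q.1 v * (G v : ℂ) * ((nm v : ℕ) : ℂ) ^ (-((τ : ℂ) * Complex.I)) else 0) =
          (∑' v : HeightOneSpectrum (𝓞 K), if nm v ≤ X then gv (fun v => (q.1 v).re) G τ v else 0) +
          Complex.I * (∑' v : HeightOneSpectrum (𝓞 K), if nm v ≤ X then gv (fun v => (q.1 v).im) G τ v else 0) := by
        rw [← tsum_mul_left, ← s1.tsum_add (s2.mul_left _)]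
        refine tsum_congr fun v => ?_
        split_ifs
        · unfold gv
          conv_lhs => rw [← Complex.re_add_im (q.1 v)]
          push_cast
          ring
        · simp
      rw [e]
      refine (norm_add_le _ _).trans ?_
      rw [norm_mul, Complex.norm_I, one_mul]
      linarith
  choose! F hF1 hF2 hF3 using hre
  refine ⟨(W ×ˢ I).biUnion F, ?_, ?_, ?_⟩
  · intro c hc
    obtain ⟨q, hq, hc⟩ := Finset.mem_biUnion.mp hc
    exact hF1 q hq hc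
  · have h3 : (((W ×ˢ I).biUnion F).card : ℝ) ≤ ∑ q ∈ W ×ˢ I, ((F q).card : ℝ) := by
      exact_mod_cast Finset.card_biUnion_le
    have h4 : ∑ q ∈ W ×ˢ I, ((F q).card : ℝ) ≤ ∑ _q ∈ W ×ˢ I, 2 * (H : ℝ) ^ (-(ε / 100)) * (box ι H).card :=
      Finset.sum_le_sum fun q hq => hF2 q hq
    rw [Finset.sum_const, nsmul_eq_mul, Finset.card_product] at h4
    push_cast at h4
    have hb0 : (0 : ℝ) ≤ (box ι H).card := Nat.cast_nonneg _
    have hIr : (I.card : ℝ) ≤ m := by exact_mod_cast hI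
    have h5 : (W.card : ℝ) * I.card * (2 * (H : ℝ) ^ (-(ε / 100)) * (box ι H).card) ≤
        (H : ℝ) ^ (ε / 500) * m * (2 * (H : ℝ) ^ (-(ε / 100)) * (box ι H).card) := by gcongr
    have e1 : (H : ℝ) ^ (ε / 500) * (H : ℝ) ^ (-(ε / 100)) = (H : ℝ) ^ (-(4 * ε / 500)) := by
      rw [← Real.rpow_add hH0]
      congr 1
      ring
    calc (((W ×ˢ I).biUnion F).card : ℝ) ≤
        (H : ℝ) ^ (ε / 500) * m * (2 * (H : ℝ) ^ (-(ε / 100)) * (box ι H).card) := by linarith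
      _ = 2 * m * ((H : ℝ) ^ (ε / 500) * (H : ℝ) ^ (-(ε / 100))) * (box ι H).card := by ring
      _ = 2 * m * (H : ℝ) ^ (-(4 * ε / 500)) * (box ι H).card := by rw [e1]
      _ ≤ (H : ℝ) ^ (-(ε / 500)) * (box ι H).card := mul_le_mul_of_nonneg_right h2 hb0
  · intro c hc w hw k hk
    rw [Finset.mem_sdiff, Finset.mem_biUnion] at hc
    have hc2 := hc.2
    push Not at hc2
    have hq : (w, k) ∈ W ×ˢ I := Finset.mem_product.mpr ⟨hw, hk⟩
    exact hF3 (w, k) hq c (Finset.mem_sdiff.mpr ⟨hc.1, hc2 (w, k) hq⟩)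

end Run7.h328.SEP
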