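import Pool.Agent.Run7.h328.SEP.SumsFm

/-! # Square-root cancellation for bounded local functions with arbitrary weights, over the prime numbers -/

set_option autoImplicit false

namespace Run7.h328.SEP

open Finset Filter
open Pool.Agent.Y722.HS (box IH EM red PR mem_PR EM_const EM_mono)
open Pool.Agent.Y722.LS (bb EM_add EM_mul)

/-- bounded local functions with small means, real weights -/
theorem loc_real (n : ℕ) (A ε : ℝ) (hA : 1 ≤ A) (hε : 0 < ε) (hε1 : ε ≤ 1) : ∀ᶠ H : ℕ in atTop,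
    ∀ (ι : Type) [Fintype ι] [DecidableEq ι], Fintype.card ι = n → ∀ Y : ∀ p : ℕ, (ι → ZMod p) → ℝ,
    (∀ p : ℕ, p.Prime → ∀ r, |Y p r| ≤ A) →
    (∀ (p : ℕ) [NeZero p], p.Prime → |EM p (Y p)| ≤ A / Real.sqrt p) →
    ∀ w : ℕ → ℝ, (∀ p, |w p| ≤ 1) →
    ∃ Ex ⊆ box ι H, (Ex.card : ℝ) ≤ (H : ℝ) ^ (-(ε / 100)) * (box ι H).card ∧
      ∀ c ∈ box ι H \ Ex, ∀ X : ℕ, (X : ℝ) ≤ (H : ℝ) ^ (ε / 200) → ∀ τ : ℝ, |τ| ≤ (H : ℝ) ^ (ε / 200) →
        ‖∑ p ∈ PR X, (p : ℂ) ^ (-((τ : ℂ) * Complex.I)) * ((w p * Y p (red p c) : ℝ) : ℂ)‖ ≤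
          20 * A * ((X : ℝ) ^ (1 / 2 + ε) + Real.log H ^ (4 / ε)) := by
  filter_upwards [sum_one n (2 * A) ε (by linarith) hε hε1, ev_log 4] with H hdev hl4
  intro ι _ _ hcard Y hY hY0 w hw
  classical
  have hl0 : 0 < Real.log H := by linarith
  have hA0 : 0 < A := by linarith
  set m : ℕ → ℝ := fun p => if h : p.Prime then
    haveI := Fact.mk h
    EM p (Y p) else 0 with hm
  have hmp : ∀ (p : ℕ) (h : p.Prime) [NeZero p], m p = EM p (Y p) := by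
    intro p h _
    rw [hm]
    simp only
    rw [dif_pos h]
  have hm1 : ∀ p : ℕ, p.Prime → |m p| ≤ A / Real.sqrt p := by
    intro p h
    have := Fact.mk h
    rw [hmp p h]
    exact hY0 p h
  have hm2 : ∀ p : ℕ, p.Prime → |m p| ≤ A := by
    intro p h
    refine (hm1 p h).trans ?_
    have hp1 : (1 : ℝ) ≤ p := by exact_mod_cast h.one_lt.le
    apply div_le_self hA0.le
    rw [Real.one_le_sqrt]
    exact hp1
  set Z : ∀ p : ℕ, (ι → ZMod p) → ℝ := fun p r => w p * (Y p r - m p) with hZ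
  obtain ⟨Ex, hE1, hE2, hE3⟩ := hdev ι hcard Z (by
      intro p hp r
      show |w p * (Y p r - m p)| ≤ 2 * A
      rw [abs_mul]
      have h1 := hY p hp r
      have h2 := hm2 p hp
      have h3 := abs_sub (Y p r) (m p)
      have h4 := hw p
      have h5 := abs_nonneg (Y p r - m p)
      nlinarith)
    (by
      intro p _ hp
      have := Fact.mk hp
      show EM p (fun r => w p * (Y p r - m p)) = 0
      rw [EM_mul, hmp p hp]
      have := EM_sub_const p (Y p)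
      rw [this, mul_zero])
  refine ⟨Ex, hE1, hE2, fun c hc X hX τ hτ => ?_⟩
  have h1 := hE3 c hc X hX τ hτ
  have hsX := sum_inv_sqrt X
  have hsX2 : Real.sqrt X ≤ (X : ℝ) ^ (1 / 2 + ε) := by
    rcases Nat.eq_zero_or_pos X with h0 | h0
    · rw [h0]
      simp only [Nat.cast_zero, Real.sqrt_zero]
      positivity
    · rw [Real.sqrt_eq_rpow]
      exact Real.rpow_le_rpow_of_exponent_le (by exact_mod_cast h0) (by linarith)
  have e2 : ∑ p ∈ PR X, (p : ℂ) ^ (-((τ : ℂ) * Complex.I)) * ((w p * Y p (red p c) : ℝ) : ℂ) =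
      ∑ p ∈ PR X, (p : ℂ) ^ (-((τ : ℂ) * Complex.I)) * (Z p (red p c) : ℂ) +
        ∑ p ∈ PR X, (p : ℂ) ^ (-((τ : ℂ) * Complex.I)) * ((w p * m p : ℝ) : ℂ) := by
    rw [← Finset.sum_add_distrib]
    refine Finset.sum_congr rfl fun p _ => ?_
    rw [← mul_add, ← Complex.ofReal_add]
    congr 2
    show w p * Y p (red p c) = w p * (Y p (red p c) - m p) + w p * m p
    ring
  have h4 : ‖∑ p ∈ PR X, (p : ℂ) ^ (-((τ : ℂ) * Complex.I)) * ((w p * m p : ℝ) : ℂ)‖ ≤ A * (2 * Real.sqrt X) := by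
    refine (norm_sum_le _ _).trans ?_
    have h5 : ∀ p ∈ PR X, ‖(p : ℂ) ^ (-((τ : ℂ) * Complex.I)) * ((w p * m p : ℝ) : ℂ)‖ ≤ A * (1 / Real.sqrt p) := by
      intro p hp
      have hpp := (mem_PR.mp hp).2
      have h6 : (-((τ : ℂ) * Complex.I)).re = 0 := by simp
      rw [norm_mul, Complex.norm_natCast_cpow_of_pos hpp.pos, h6, Real.rpow_zero, one_mul,
        Complex.norm_real, Real.norm_eq_abs, abs_mul]
      have h7 := hm1 p hpp
      have h8 := hw p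
      have h9 := abs_nonneg (m p)
      have h10 : |w p| * |m p| ≤ |m p| := by nlinarith
      rw [mul_one_div]
      linarith
    refine (Finset.sum_le_sum h5).trans ?_
    rw [← Finset.mul_sum]
    gcongr
  rw [e2]
  refine (norm_add_le _ _).trans ?_
  have h6 : A * (2 * Real.sqrt X) ≤ 2 * A * (X : ℝ) ^ (1 / 2 + ε) := by nlinarith
  have h7 : 16 * (X : ℝ) ^ (1 / 2 + ε) ≤ 16 * A * (X : ℝ) ^ (1 / 2 + ε) := by
    have : 0 ≤ (X : ℝ) ^ (1 / 2 + ε) := by positivity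
    nlinarith
  have h8 : 0 ≤ A * (X : ℝ) ^ (1 / 2 + ε) := by positivity
  have h9 : 0 ≤ A * Real.log H ^ (4 / ε) := by positivity
  have e3 : 20 * A * ((X : ℝ) ^ (1 / 2 + ε) + Real.log H ^ (4 / ε)) =
      20 * (A * (X : ℝ) ^ (1 / 2 + ε)) + 20 * (A * Real.log H ^ (4 / ε)) := by ring
  rw [e3]
  linarith

/-- **Bounded local functions, finite sets of functions and of complex weights.** -/
theorem loc_w (n : ℕ) (A ε : ℝ) (hA : 1 ≤ A) (hε : 0 < ε) (hε1 : ε ≤ 1) (m : ℕ) : ∀ᶠ H : ℕ in atTop,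
    ∀ (ι : Type) [Fintype ι] [DecidableEq ι], Fintype.card ι = n → ∀ (κ : Type) (I : Finset κ), I.card ≤ m →
    ∀ Y : κ → ∀ p : ℕ, (ι → ZMod p) → ℝ,
    (∀ k ∈ I, ∀ p : ℕ, p.Prime → ∀ r, |Y k p r| ≤ A) →
    (∀ k ∈ I, ∀ (p : ℕ) [NeZero p], p.Prime → |EM p (Y k p)| ≤ A / Real.sqrt p) →
    ∀ W : Finset (ℕ → ℂ), (∀ w ∈ W, ∀ p, ‖w p‖ ≤ 1) → (W.card : ℝ) ≤ (H : ℝ) ^ (ε / 500) →
    ∃ Ex ⊆ box ι H, (Ex.card : ℝ) ≤ (H : ℝ) ^ (-(ε / 500)) * (box ι H).card ∧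
      ∀ c ∈ box ι H \ Ex, ∀ w ∈ W, ∀ k ∈ I, ∀ X : ℕ, (X : ℝ) ≤ (H : ℝ) ^ (ε / 200) →
        ∀ τ : ℝ, |τ| ≤ (H : ℝ) ^ (ε / 200) →
        ‖∑ p ∈ PR X, (p : ℂ) ^ (-((τ : ℂ) * Complex.I)) * (w p * (Y k p (red p c) : ℂ))‖ ≤
          40 * A * ((X : ℝ) ^ (1 / 2 + ε) + Real.log H ^ (4 / ε)) := by
  have h2 := ev_pow_le (-(ε / 500)) (-(4 * ε / 500)) (2 * m) (by linarith)
  filter_upwards [loc_real n A ε hA hε hε1, h2, eventually_ge_atTop 3] with H h1 h2 hH3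
  intro ι _ _ hcard κ I hI Y hY hY0 W hW hWc
  classical
  have hHr : (3 : ℝ) ≤ H := by exact_mod_cast hH3
  have hH0 : (0 : ℝ) < H := by linarith
  have hre : ∀ q ∈ W ×ˢ I, ∃ Ex ⊆ box ι H, (Ex.card : ℝ) ≤ 2 * (H : ℝ) ^ (-(ε / 100)) * (box ι H).card ∧
      ∀ c ∈ box ι H \ Ex, ∀ X : ℕ, (X : ℝ) ≤ (H : ℝ) ^ (ε / 200) → ∀ τ : ℝ, |τ| ≤ (H : ℝ) ^ (ε / 200) →
        ‖∑ p ∈ PR X, (p : ℂ) ^ (-((τ : ℂ) * Complex.I)) * (q.1 p * (Y q.2 p (red p c) : ℂ))‖ ≤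
          40 * A * ((X : ℝ) ^ (1 / 2 + ε) + Real.log H ^ (4 / ε)) := by
    intro q hq
    rw [Finset.mem_product] at hq
    obtain ⟨E1, hE11, hE12, hE13⟩ := h1 ι hcard (Y q.2) (hY q.2 hq.2) (hY0 q.2 hq.2) (fun p => (q.1 p).re)
      (fun p => (Complex.abs_re_le_norm _).trans (hW q.1 hq.1 p))
    obtain ⟨E2, hE21, hE22, hE23⟩ := h1 ι hcard (Y q.2) (hY q.2 hq.2) (hY0 q.2 hq.2) (fun p => (q.1 p).im)
      (fun p => (Complex.abs_im_le_norm _).trans (hW q.1 hq.1 p))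
    refine ⟨E1 ∪ E2, Finset.union_subset hE11 hE21, ?_, ?_⟩
    · have h3 : ((E1 ∪ E2).card : ℝ) ≤ E1.card + E2.card := by exact_mod_cast Finset.card_union_le _ _
      linarith
    · intro c hc X hX τ hτ
      rw [Finset.mem_sdiff, Finset.mem_union, not_or] at hc
      have k1 := hE13 c (Finset.mem_sdiff.mpr ⟨hc.1, hc.2.1⟩) X hX τ hτ
      have k2 := hE23 c (Finset.mem_sdiff.mpr ⟨hc.1, hc.2.2⟩) X hX τ hτ
      have e : ∑ p ∈ PR X, (p : ℂ) ^ (-((τ : ℂ) * Complex.I)) * (q.1 p * (Y q.2 p (red p c) : ℂ)) =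
          ∑ p ∈ PR X, (p : ℂ) ^ (-((τ : ℂ) * Complex.I)) * (((q.1 p).re * Y q.2 p (red p c) : ℝ) : ℂ) +
          Complex.I * ∑ p ∈ PR X, (p : ℂ) ^ (-((τ : ℂ) * Complex.I)) * (((q.1 p).im * Y q.2 p (red p c) : ℝ) : ℂ) := by
        rw [Finset.mul_sum, ← Finset.sum_add_distrib]
        refine Finset.sum_congr rfl fun p _ => ?_
        conv_lhs => rw [← Complex.re_add_im (q.1 p)]
        push_cast
        ring
      rw [e]
      refine (norm_add_le _ _).trans ?_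
      rw [norm_mul, Complex.norm_I, one_mul]
      linarith
  choose! F hF1 hF2 hF3 using hre
  refine ⟨(W ×ˢ I).biUnion F, ?_, ?_, ?_⟩
  · intro c hc
    obtain ⟨q, hq, hc⟩ := Finset.mem_biUnion.mp hc
    exact hF1 q hq hc
  · have h3 : (((W ×ˢ I).biUnion F).card : ℝ) ≤ ∑ q ∈ W ×ˢ I, ((F q).card : ℝ) := by
      exact_mod_cast Finset.card_biUnion_le
    have h4 : ∑ q ∈ W ×ˢ I, ((F q).card : ℝ) ≤ ∑ _q ∈ W ×ˢ I, 2 * (H : ℝ) ^ (-(ε / 100)) * (box ι H).card :=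
      Finset.sum_le_sum fun q hq => hF2 q hq
    rw [Finset.sum_const, nsmul_eq_mul, Finset.card_product] at h4
    push_cast at h4
    have hb0 : (0 : ℝ) ≤ (box ι H).card := Nat.cast_nonneg _
    have hIr : (I.card : ℝ) ≤ m := by exact_mod_cast hI
    have h5 : (W.card : ℝ) * I.card * (2 * (H : ℝ) ^ (-(ε / 100)) * (box ι H).card) ≤
        (H : ℝ) ^ (ε / 500) * m * (2 * (H : ℝ) ^ (-(ε / 100)) * (box ι H).card) := by gcongr
    have e1 : (H : ℝ) ^ (ε / 500) * (H : ℝ) ^ (-(ε / 100)) = (H : ℝ) ^ (-(4 * ε / 500)) := by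
      rw [← Real.rpow_add hH0]
      congr 1
      ring
    calc (((W ×ˢ I).biUnion F).card : ℝ) ≤
        (H : ℝ) ^ (ε / 500) * m * (2 * (H : ℝ) ^ (-(ε / 100)) * (box ι H).card) := by linarith
      _ = 2 * m * ((H : ℝ) ^ (ε / 500) * (H : ℝ) ^ (-(ε / 100))) * (box ι H).card := by ring
      _ = 2 * m * (H : ℝ) ^ (-(4 * ε / 500)) * (box ι H).card := by rw [e1]
      _ ≤ (H : ℝ) ^ (-(ε / 500)) * (box ι H).card := mul_le_mul_of_nonneg_right h2 hb0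
  · intro c hc w hw k hk
    rw [Finset.mem_sdiff, Finset.mem_biUnion] at hc
    have hc2 := hc.2
    push Not at hc2
    have hq : (w, k) ∈ W ×ˢ I := Finset.mem_product.mpr ⟨hw, hk⟩
    exact hF3 (w, k) hq c (Finset.mem_sdiff.mpr ⟨hc.1, hc2 (w, k) hq⟩)

end Run7.h328.SEP
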