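import Pool.Agent.Run7.h328.SEP.Taub

/-! # Moments of `b + ∑ r_l a_l` -/

set_option autoImplicit false

namespace Run7.h328.SEP.Mult

open Finset

/-- the moments of a centred normal variable of variance `s` -/
noncomputable def gm (s : ℝ) (j : ℕ) : ℝ := if Even j then (Nat.doubleFactorial (j - 1) : ℝ) * s ^ (j / 2) else 0

/-- the moments of a standard normal variable -/
noncomputable def nrm (j : ℕ) : ℝ := if Even j then (Nat.doubleFactorial (j - 1) : ℝ) else 0

theorem dfac (m : ℕ) : (2 ^ m * m.factorial) * Nat.doubleFactorial (2 * m - 1) = (2 * m).factorial := by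
  rcases m with _ | m
  · simp
  · have e : 2 * (m + 1) - 1 = 2 * m + 1 := by omega
    have e2 : 2 * (m + 1) = 2 * m + 1 + 1 := by omega
    rw [e, ← Nat.doubleFactorial_two_mul, e2, Nat.factorial_eq_mul_doubleFactorial]

/-- the multinomial coefficients of even numbers -/
theorem multi_even {n : ℕ} (t : Fin n → ℕ) (m : ℕ) (ht : ∑ l, t l = m) :
    Nat.multinomial univ (fun l => 2 * t l) * ∏ l, Nat.doubleFactorial (2 * t l - 1) =
      Nat.doubleFactorial (2 * m - 1) * Nat.multinomial univ t := by
  have h1 := Nat.multinomial_spec univ (fun l => 2 * t l)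
  have h2 := Nat.multinomial_spec univ t
  rw [ht] at h2
  have e : ∑ l, 2 * t l = 2 * m := by rw [← Finset.mul_sum, ht]
  rw [e] at h1
  have h3 : ∏ l, (2 * t l).factorial = (∏ l, (2 ^ t l * (t l).factorial)) * ∏ l, Nat.doubleFactorial (2 * t l - 1) := by
    rw [← Finset.prod_mul_distrib]
    exact Finset.prod_congr rfl fun l _ => (dfac (t l)).symm
  have h4 : ∏ l, (2 ^ t l * (t l).factorial) = 2 ^ m * ∏ l, (t l).factorial := by
    rw [Finset.prod_mul_distrib, Finset.prod_pow_eq_pow_sum, ht]
  have h5 := dfac m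
  have hpos : 0 < 2 ^ m * ∏ l, (t l).factorial := by
    have : 0 < ∏ l, (t l).factorial := Finset.prod_pos fun l _ => Nat.factorial_pos _
    positivity
  have h6 : (2 ^ m * ∏ l, (t l).factorial) *
      (Nat.multinomial univ (fun l => 2 * t l) * ∏ l, Nat.doubleFactorial (2 * t l - 1)) =
      (2 ^ m * ∏ l, (t l).factorial) * (Nat.doubleFactorial (2 * m - 1) * Nat.multinomial univ t) := by
    calc _ = ((2 ^ m * ∏ l, (t l).factorial) * ∏ l, Nat.doubleFactorial (2 * t l - 1)) *
          Nat.multinomial univ (fun l => 2 * t l) := by ring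
      _ = (∏ l, (2 * t l).factorial) * Nat.multinomial univ (fun l => 2 * t l) := by rw [h3, h4]
      _ = (2 * m).factorial := h1
      _ = 2 ^ m * m.factorial * Nat.doubleFactorial (2 * m - 1) := h5.symm
      _ = 2 ^ m * ((∏ l, (t l).factorial) * Nat.multinomial univ t) * Nat.doubleFactorial (2 * m - 1) := by rw [h2]
      _ = _ := by ring
  exact Nat.eq_of_mul_eq_mul_left hpos h6

/-- **Independent normal variables.** -/
theorem conv {n : ℕ} (r : Fin n → ℝ) (j : ℕ) :
    ∑ κ ∈ (univ : Finset (Fin n)).piAntidiag j, (Nat.multinomial univ κ : ℝ) * ((∏ l, r l ^ κ l) * ∏ l, nrm (κ l)) =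
      gm (∑ l, r l ^ 2) j := by
  classical
  unfold gm
  split_ifs with hj
  · obtain ⟨m, rfl⟩ := hj
    have e2 : m + m = 2 * m := by ring
    rw [e2, Nat.mul_div_cancel_left m (by norm_num), Finset.sum_pow_eq_sum_piAntidiag, Finset.mul_sum]
    have himg : ∑ κ ∈ ((univ : Finset (Fin n)).piAntidiag m).image (fun t l => 2 * t l),
        (Nat.multinomial univ κ : ℝ) * ((∏ l, r l ^ κ l) * ∏ l, nrm (κ l)) =
        ∑ κ ∈ (univ : Finset (Fin n)).piAntidiag (2 * m),
        (Nat.multinomial univ κ : ℝ) * ((∏ l, r l ^ κ l) * ∏ l, nrm (κ l)) := by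
      apply Finset.sum_subset
      · intro κ hκ
        rw [Finset.mem_image] at hκ
        obtain ⟨t, ht, rfl⟩ := hκ
        rw [Finset.mem_piAntidiag] at ht ⊢
        refine ⟨?_, fun l _ => Finset.mem_univ l⟩
        show ∑ l, 2 * t l = 2 * m
        rw [← Finset.mul_sum, ht.1]
      · intro κ hκ hn
        rw [Finset.mem_piAntidiag] at hκ
        have hodd : ∃ l, ¬ Even (κ l) := by
          by_contra hcon
          push Not at hcon
          apply hn
          rw [Finset.mem_image]
          have hd : ∀ l, 2 * (κ l / 2) = κ l := fun l => Nat.two_mul_div_two_of_even (hcon l)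
          refine ⟨fun l => κ l / 2, ?_, ?_⟩
          · rw [Finset.mem_piAntidiag]
            refine ⟨?_, fun l _ => Finset.mem_univ l⟩
            have h1 : 2 * ∑ l, κ l / 2 = 2 * m := by
              rw [Finset.mul_sum, Finset.sum_congr rfl fun l _ => hd l]
              exact hκ.1
            omega
          · funext l
            exact hd l
        obtain ⟨l, hl⟩ := hodd
        have : ∏ l, nrm (κ l) = 0 := Finset.prod_eq_zero (Finset.mem_univ l) (by
          unfold nrm
          rw [if_neg hl])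
        rw [this]
        ring
    rw [← himg, Finset.sum_image]
    · refine Finset.sum_congr rfl fun t ht => ?_
      rw [Finset.mem_piAntidiag] at ht
      have h1 := multi_even t m ht.1
      have h2 : (Nat.multinomial univ (fun l => 2 * t l) : ℝ) * ∏ l, (Nat.doubleFactorial (2 * t l - 1) : ℝ) =
          (Nat.doubleFactorial (2 * m - 1) : ℝ) * (Nat.multinomial univ t : ℝ) := by exact_mod_cast h1
      have h3 : ∏ l, nrm (2 * t l) = ∏ l, (Nat.doubleFactorial (2 * t l - 1) : ℝ) :=
        Finset.prod_congr rfl fun l _ => by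
          unfold nrm
          rw [if_pos (even_two_mul _)]
      have h4 : ∏ l, r l ^ (2 * t l) = ∏ l, (r l ^ 2) ^ t l := Finset.prod_congr rfl fun l _ => pow_mul _ _ _
      rw [h3, h4]
      calc _ = ((Nat.multinomial univ (fun l => 2 * t l) : ℝ) * ∏ l, (Nat.doubleFactorial (2 * t l - 1) : ℝ)) *
            ∏ l, (r l ^ 2) ^ t l := by ring
        _ = _ := by
          rw [h2]
          ring
    · intro t _ t' _ h
      funext l
      have := congrFun h l
      simp only at this
      omega
  · refine Finset.sum_eq_zero fun κ hκ => ?_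
    rw [Finset.mem_piAntidiag] at hκ
    have hodd : ∃ l, ¬ Even (κ l) := by
      by_contra hcon
      push Not at hcon
      apply hj
      rw [← hκ.1]
      exact Finset.even_sum _ fun l _ => hcon l
    obtain ⟨l, hl⟩ := hodd
    have : ∏ l, nrm (κ l) = 0 := Finset.prod_eq_zero (Finset.mem_univ l) (by
      unfold nrm
      rw [if_neg hl])
    rw [this]
    ring

/-- the moments of `b + ` a centred normal variable of variance `s` -/
noncomputable def bm (b s : ℝ) (k : ℕ) : ℝ := ∑ m ∈ range (k + 1), (k.choose m : ℝ) * b ^ m * gm s (k - m)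

/-- the difference -/
theorem pow_diff {n : ℕ} (r a : Fin n → ℝ) (b : ℝ) (k : ℕ) :
    (b + ∑ l, r l * a l) ^ k - bm b (∑ l, r l ^ 2) k =
      ∑ m ∈ range (k + 1), ∑ κ ∈ (univ : Finset (Fin n)).piAntidiag (k - m),
        ((k.choose m : ℝ) * ((Nat.multinomial univ κ : ℝ) * ∏ l, r l ^ κ l)) * (b ^ m * (∏ l, a l ^ κ l - ∏ l, nrm (κ l))) := by
  unfold bm
  rw [add_pow, ← Finset.sum_sub_distrib]
  refine Finset.sum_congr rfl fun m _ => ?_
  rw [← conv r (k - m), Finset.sum_pow_eq_sum_piAntidiag, Finset.mul_sum, Finset.mul_sum, Finset.sum_mul, ← Finset.sum_sub_distrib]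
  refine Finset.sum_congr rfl fun κ _ => ?_
  have e : ∏ l, (r l * a l) ^ κ l = (∏ l, r l ^ κ l) * ∏ l, a l ^ κ l := by
    rw [← Finset.prod_mul_distrib]
    exact Finset.prod_congr rfl fun l _ => mul_pow _ _ _
  rw [e]
  ring

/-- the sum of the coefficients -/
theorem coef_sum {n : ℕ} (r : Fin n → ℝ) (B : ℝ) (k : ℕ) :
    ∑ m ∈ range (k + 1), ∑ κ ∈ (univ : Finset (Fin n)).piAntidiag (k - m),
        ((k.choose m : ℝ) * ((Nat.multinomial univ κ : ℝ) * ∏ l, |r l| ^ κ l)) * B ^ m = (B + ∑ l, |r l|) ^ k := by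
  rw [add_pow]
  refine Finset.sum_congr rfl fun m _ => ?_
  rw [Finset.sum_pow_eq_sum_piAntidiag, Finset.mul_sum, Finset.sum_mul]
  refine Finset.sum_congr rfl fun κ _ => ?_
  ring

end Run7.h328.SEP.Mult
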