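import Pool.Agent.Run7.h328.SEP.Pow

/-! # Polynomials with nonnegative coefficients; Künneth's formula -/

set_option autoImplicit false

namespace Run7.h328.SEP.Poly

open Finset
open Run7.h328.SEP.Mult (nrm)

section
variable {n : ℕ}

/-- the mean over independent standard normal variables -/
noncomputable def gmean (P : MvPolynomial (Fin n) ℝ) : ℝ := ∑ κ ∈ P.support, P.coeff κ * ∏ l, nrm (κ l)

theorem gmean_eq (P : MvPolynomial (Fin n) ℝ) (S : Finset (Fin n →₀ ℕ)) (h : P.support ⊆ S) :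
    gmean P = ∑ κ ∈ S, P.coeff κ * ∏ l, nrm (κ l) := by
  unfold gmean
  refine Finset.sum_subset h fun κ _ hκ => ?_
  rw [MvPolynomial.notMem_support_iff.1 hκ, zero_mul]

theorem gmean_add (P Q : MvPolynomial (Fin n) ℝ) : gmean (P + Q) = gmean P + gmean Q := by
  classical
  rw [gmean_eq (P + Q) (P.support ∪ Q.support) MvPolynomial.support_add,
    gmean_eq P (P.support ∪ Q.support) Finset.subset_union_left,
    gmean_eq Q (P.support ∪ Q.support) Finset.subset_union_right, ← Finset.sum_add_distrib]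
  refine Finset.sum_congr rfl fun κ _ => ?_
  rw [MvPolynomial.coeff_add]
  ring

theorem gmean_C_mul (a : ℝ) (P : MvPolynomial (Fin n) ℝ) : gmean (MvPolynomial.C a * P) = a * gmean P := by
  rw [gmean_eq (MvPolynomial.C a * P) P.support, gmean, Finset.mul_sum]
  · refine Finset.sum_congr rfl fun κ _ => ?_
    rw [MvPolynomial.coeff_C_mul]
    ring
  · intro κ hκ
    rw [MvPolynomial.mem_support_iff, MvPolynomial.coeff_C_mul] at hκ
    rw [MvPolynomial.mem_support_iff]
    exact right_ne_zero_of_mul hκ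

theorem gmean_zero : gmean (0 : MvPolynomial (Fin n) ℝ) = 0 := by
  unfold gmean
  rw [MvPolynomial.support_zero, Finset.sum_empty]

theorem gmean_sum {κ : Type*} (s : Finset κ) (P : κ → MvPolynomial (Fin n) ℝ) :
    gmean (∑ i ∈ s, P i) = ∑ i ∈ s, gmean (P i) := by
  classical
  induction s using Finset.induction_on with
  | empty => simp [gmean_zero]
  | insert a s ha ih => rw [Finset.sum_insert ha, Finset.sum_insert ha, gmean_add, ih]

/-- the difference of the value and the mean -/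
theorem eval_sub_gmean (P : MvPolynomial (Fin n) ℝ) (t : Fin n → ℝ) :
    MvPolynomial.eval t P - gmean P = ∑ κ ∈ P.support, P.coeff κ * (∏ l, t l ^ κ l - ∏ l, nrm (κ l)) := by
  rw [MvPolynomial.eval_eq', gmean, ← Finset.sum_sub_distrib]
  refine Finset.sum_congr rfl fun κ _ => ?_
  ring

/-- nonnegative coefficients -/
def NN (P : MvPolynomial (Fin n) ℝ) : Prop := ∀ κ, 0 ≤ P.coeff κ

theorem NN.mul {P Q : MvPolynomial (Fin n) ℝ} (hP : NN P) (hQ : NN Q) : NN (P * Q) := by
  intro κ
  rw [MvPolynomial.coeff_mul]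
  exact Finset.sum_nonneg fun x _ => mul_nonneg (hP _) (hQ _)

theorem NN.one : NN (1 : MvPolynomial (Fin n) ℝ) := by
  intro κ
  rw [MvPolynomial.coeff_one]
  split_ifs <;> norm_num

theorem NN.zero : NN (0 : MvPolynomial (Fin n) ℝ) := by
  intro κ
  rw [MvPolynomial.coeff_zero]

theorem NN.var (l : Fin n) : NN (MvPolynomial.X l : MvPolynomial (Fin n) ℝ) := by
  intro κ
  rw [MvPolynomial.coeff_X]
  split_ifs <;> norm_num

theorem NN.sum {κ : Type*} (s : Finset κ) (P : κ → MvPolynomial (Fin n) ℝ) (h : ∀ i ∈ s, NN (P i)) :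
    NN (∑ i ∈ s, P i) := by
  intro m
  rw [MvPolynomial.coeff_sum]
  exact Finset.sum_nonneg fun i hi => h i hi m

theorem NN.prod {κ : Type*} (s : Finset κ) (P : κ → MvPolynomial (Fin n) ℝ) (h : ∀ i ∈ s, NN (P i)) :
    NN (∏ i ∈ s, P i) := by
  classical
  induction s using Finset.induction_on with
  | empty => exact NN.one
  | insert a s ha ih =>
    rw [Finset.prod_insert ha]
    exact (h a (Finset.mem_insert_self _ _)).mul (ih fun i hi => h i (Finset.mem_insert_of_mem hi))

/-- the value at `(1, ..., 1)` is the sum of the coefficients -/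
theorem eval_one (P : MvPolynomial (Fin n) ℝ) : MvPolynomial.eval (fun _ => (1 : ℝ)) P = ∑ κ ∈ P.support, P.coeff κ := by
  rw [MvPolynomial.eval_eq']
  refine Finset.sum_congr rfl fun κ _ => ?_
  simp

theorem NN.eval_one_nonneg {P : MvPolynomial (Fin n) ℝ} (h : NN P) : 0 ≤ MvPolynomial.eval (fun _ => (1 : ℝ)) P := by
  rw [eval_one]
  exact Finset.sum_nonneg fun κ _ => h κ

/-- coefficients of `T ^ m` with nonnegative coefficients and of degree at most `m` -/
def GD (F : Polynomial (MvPolynomial (Fin n) ℝ)) : Prop := ∀ m, NN (F.coeff m) ∧ (F.coeff m).totalDegree ≤ m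

theorem GD.mul {F E : Polynomial (MvPolynomial (Fin n) ℝ)} (hF : GD F) (hE : GD E) : GD (F * E) := by
  intro m
  rw [Polynomial.coeff_mul]
  refine ⟨NN.sum _ _ fun x _ => (hF _).1.mul (hE _).1, ?_⟩
  apply MvPolynomial.totalDegree_finsetSum_le
  intro x hx
  have hx' : x.1 + x.2 = m := Finset.HasAntidiagonal.mem_antidiagonal.1 hx
  refine (MvPolynomial.totalDegree_mul _ _).trans ?_
  have h1 := (hF x.1).2
  have h2 := (hE x.2).2
  omega

theorem GD.one : GD (1 : Polynomial (MvPolynomial (Fin n) ℝ)) := by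
  intro m
  rw [Polynomial.coeff_one]
  split_ifs
  · exact ⟨NN.one, by rw [MvPolynomial.totalDegree_one]; exact Nat.zero_le _⟩
  · exact ⟨NN.zero, by rw [MvPolynomial.totalDegree_zero]; exact Nat.zero_le _⟩

theorem GD.pow {F : Polynomial (MvPolynomial (Fin n) ℝ)} (hF : GD F) (r : ℕ) : GD (F ^ r) := by
  induction r with
  | zero => rw [pow_zero]; exact GD.one
  | succ r ih => rw [pow_succ]; exact ih.mul hF

theorem GD.prod {κ : Type*} (s : Finset κ) (F : κ → Polynomial (MvPolynomial (Fin n) ℝ)) (h : ∀ i ∈ s, GD (F i)) :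
    GD (∏ i ∈ s, F i) := by
  classical
  induction s using Finset.induction_on with
  | empty => exact GD.one
  | insert a s ha ih =>
    rw [Finset.prod_insert ha]
    exact (h a (Finset.mem_insert_self _ _)).mul (ih fun i hi => h i (Finset.mem_insert_of_mem hi))

/-- `1 + x_l T + T ^ 2` -/
noncomputable def base (l : Fin n) : Polynomial (MvPolynomial (Fin n) ℝ) :=
  1 + Polynomial.C (MvPolynomial.X l) * Polynomial.X + Polynomial.X ^ 2

theorem GD.base (l : Fin n) : GD (base l) := by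
  intro m
  unfold Poly.base
  rw [Polynomial.coeff_add, Polynomial.coeff_add, Polynomial.coeff_one, Polynomial.coeff_C_mul, Polynomial.coeff_X,
    Polynomial.coeff_X_pow]
  rcases m with _ | _ | _ | m
  · simp only [if_true]
    norm_num
    exact NN.one
  · norm_num
    exact NN.var l
  · norm_num
    exact NN.one
  · have h1 : ¬ (m + 1 + 1 + 1 = 0) := by omega
    have h2 : ¬ (1 = m + 1 + 1 + 1) := by omega
    have h3 : ¬ (m + 1 + 1 + 1 = 2) := by omega
    rw [if_neg h1, if_neg h2, if_neg h3, mul_zero, add_zero, add_zero]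
    exact ⟨NN.zero, by rw [MvPolynomial.totalDegree_zero]; exact Nat.zero_le _⟩

/-- the trace on `H ^ m (∏ C_l ^ r_l)` as a polynomial in the traces on the `H¹(C_l)` -/
noncomputable def QQ (r : Fin n → ℕ) (m : ℕ) : MvPolynomial (Fin n) ℝ := (∏ l, base l ^ r l).coeff m

theorem GD_all (r : Fin n → ℕ) : GD (∏ l, base (n := n) l ^ r l) := GD.prod _ _ fun l _ => (GD.base l).pow _

theorem QQ_NN (r : Fin n → ℕ) (m : ℕ) : NN (QQ r m) := (GD_all r m).1

theorem QQ_deg (r : Fin n → ℕ) (m : ℕ) : (QQ r m).totalDegree ≤ m := (GD_all r m).2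

/-- the value at `(1, ..., 1)` -/
theorem QQ_one (r : Fin n → ℕ) (m : ℕ) : MvPolynomial.eval (fun _ => (1 : ℝ)) (QQ r m) ≤ 3 ^ (∑ l, r l) := by
  set Φ : Polynomial (MvPolynomial (Fin n) ℝ) →+* ℝ := Polynomial.eval₂RingHom (MvPolynomial.eval (fun _ => (1 : ℝ))) 1 with hΦ
  set F : Polynomial (MvPolynomial (Fin n) ℝ) := ∏ l, base l ^ r l with hF
  have h1 : Φ F = 3 ^ (∑ l, r l) := by
    rw [hF, map_prod, ← Finset.prod_pow_eq_pow_sum]
    refine Finset.prod_congr rfl fun l _ => ?_
    rw [map_pow]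
    congr 1
    rw [hΦ]
    unfold base
    simp only [map_add, map_one, map_mul, map_pow, Polynomial.coe_eval₂RingHom, Polynomial.eval₂_C, Polynomial.eval₂_X,
      MvPolynomial.eval_X]
    norm_num
  have h2 : Φ F = ∑ i ∈ range (F.natDegree + 1), MvPolynomial.eval (fun _ => (1 : ℝ)) (F.coeff i) := by
    rw [hΦ, Polynomial.coe_eval₂RingHom, Polynomial.eval₂_eq_sum_range]
    refine Finset.sum_congr rfl fun i _ => ?_
    rw [one_pow, mul_one]
  rw [← h1]
  by_cases hm : m ≤ F.natDegree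
  · rw [h2]
    exact Finset.single_le_sum (f := fun i => MvPolynomial.eval (fun _ => (1 : ℝ)) (F.coeff i))
      (fun i _ => (GD_all r i).1.eval_one_nonneg) (Finset.mem_range.2 (by omega))
  · have : QQ r m = 0 := Polynomial.coeff_eq_zero_of_natDegree_lt (by
      rw [← hF]
      omega)
    rw [this, map_zero, h1]
    positivity

/-- the trace on `H ^ i (∏ C_l ^ r_l × Y)` -/
noncomputable def tP (r : Fin n → ℕ) (y : ℕ → ℝ) (i : ℕ) : MvPolynomial (Fin n) ℝ :=
  ∑ e ∈ range (i + 1), MvPolynomial.C (y e) * QQ r (i - e)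

/-- the product of the polynomials without the `y` -/
noncomputable def RR {k : ℕ} (r : Fin k → Fin n → ℕ) (i e : Fin k → ℕ) : MvPolynomial (Fin n) ℝ := ∏ j, QQ (r j) (i j - e j)

theorem RR_NN {k : ℕ} (r : Fin k → Fin n → ℕ) (i e : Fin k → ℕ) : NN (RR r i e) := NN.prod _ _ fun j _ => QQ_NN (r j) _

theorem RR_deg {k : ℕ} (r : Fin k → Fin n → ℕ) (i e : Fin k → ℕ) : (RR r i e).totalDegree ≤ ∑ j, i j := by
  unfold RR
  refine (MvPolynomial.totalDegree_finsetProd _ _).trans (Finset.sum_le_sum fun j _ => ?_)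
  exact (QQ_deg (r j) _).trans (Nat.sub_le _ _)

theorem RR_one {k : ℕ} (r : Fin k → Fin n → ℕ) (i e : Fin k → ℕ) :
    MvPolynomial.eval (fun _ => (1 : ℝ)) (RR r i e) ≤ 3 ^ (∑ j, ∑ l, r j l) := by
  unfold RR
  rw [map_prod, ← Finset.prod_pow_eq_pow_sum]
  exact Finset.prod_le_prod (fun j _ => (QQ_NN (r j) _).eval_one_nonneg) fun j _ => QQ_one (r j) _

theorem prod_tP {k : ℕ} (r : Fin k → Fin n → ℕ) (y : ℕ → ℝ) (i : Fin k → ℕ) :
    ∏ j, tP (r j) y (i j) = ∑ e ∈ Fintype.piFinset fun j => range (i j + 1), MvPolynomial.C (∏ j, y (e j)) * RR r i e := by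
  unfold tP RR
  rw [Finset.prod_univ_sum]
  refine Finset.sum_congr rfl fun e _ => ?_
  rw [Finset.prod_mul_distrib, map_prod]

/-- **The difference of the values and the means.** -/
theorem main_diff {k : ℕ} (r : Fin k → Fin n → ℕ) (y : ℕ → ℝ) (i : Fin k → ℕ) (t : Fin n → ℝ) :
    ∏ j, MvPolynomial.eval t (tP (r j) y (i j)) - gmean (∏ j, tP (r j) y (i j)) =
      ∑ e ∈ Fintype.piFinset fun j => range (i j + 1), ∑ κ ∈ (RR r i e).support,
        (RR r i e).coeff κ * ((∏ j, y (e j)) * (∏ l, t l ^ κ l - ∏ l, nrm (κ l))) := by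
  rw [← map_prod, prod_tP, gmean_sum, map_sum, ← Finset.sum_sub_distrib]
  refine Finset.sum_congr rfl fun e _ => ?_
  rw [gmean_C_mul, map_mul, MvPolynomial.eval_C, ← mul_sub, eval_sub_gmean, Finset.mul_sum]
  refine Finset.sum_congr rfl fun κ _ => ?_
  ring

end

end Run7.h328.SEP.Poly
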