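import Pool.Agent.Run7.h328.SEP.PolyA

/-! # Joint moments of the traces on the cohomology of `∏ C_l ^ r_l × Y` -/

set_option autoImplicit false

namespace Run7.h328.SEP.Poly

open NumberField IsDedekindDomain Finset Filter
open Pool.Agent.H921R2.TatePole (nm two_le_nm)
open Pool.Agent.Y722.HS (box)
open Run7.h328.SEP.HypK (a1 rv GoodK)
open Run7.h328.SEP.TupK (Ix cp GT hypT_main)
open Run7.h328.SEP.Taub (al AG TS TS_sum)
open Run7.h328.SEP.Mult (nrm)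
open Run7.h328.SEP.Pow (kk GT_kk ok_kk)

/-- signs -/
theorem sign_prod {n : ℕ} (κ : Fin n → ℕ) (a : Fin n → ℝ) :
    ∏ l, (-a l) ^ κ l - ∏ l, nrm (κ l) = (-1) ^ (∑ l, κ l) * (∏ l, a l ^ κ l - ∏ l, nrm (κ l)) := by
  have e1 : ∏ l, (-a l) ^ κ l = (-1) ^ (∑ l, κ l) * ∏ l, a l ^ κ l := by
    rw [← Finset.prod_pow_eq_pow_sum, ← Finset.prod_mul_distrib]
    exact Finset.prod_congr rfl fun l _ => neg_pow _ _
  have e2 : (-1 : ℝ) ^ (∑ l, κ l) * ∏ l, nrm (κ l) = ∏ l, nrm (κ l) := by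
    rw [← Finset.prod_pow_eq_pow_sum, ← Finset.prod_mul_distrib]
    refine Finset.prod_congr rfl fun l _ => ?_
    unfold nrm
    split_ifs with h
    · rw [h.neg_one_pow, one_mul]
    · rw [mul_zero]
  rw [e1, mul_sub, e2]

section nf
variable {K : Type} [Field K] [NumberField K] {n : ℕ} (g : Fin n → ℕ)

/-- the weights -/
noncomputable def wd (B : ℝ) (w : HeightOneSpectrum (𝓞 K) → ℂ) (y : ℕ → HeightOneSpectrum (𝓞 K) → ℝ) {k : ℕ} (e : Fin k → ℕ)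
    (v : HeightOneSpectrum (𝓞 K)) : ℂ := w v * ((∏ j, (y (e j) v / B) : ℝ) : ℂ)

theorem wd_le (B : ℝ) (hB : 0 < B) (w : HeightOneSpectrum (𝓞 K) → ℂ) (hw : ∀ v, ‖w v‖ ≤ 1)
    (y : ℕ → HeightOneSpectrum (𝓞 K) → ℝ) (hy : ∀ j v, |y j v| ≤ B) {k : ℕ} (e : Fin k → ℕ)
    (v : HeightOneSpectrum (𝓞 K)) : ‖wd B w y e v‖ ≤ 1 := by
  unfold wd
  rw [norm_mul, Complex.norm_real, Real.norm_eq_abs, Finset.abs_prod]
  refine mul_le_one₀ (hw v) (Finset.prod_nonneg fun j _ => abs_nonneg _) (Finset.prod_le_one (fun j _ => abs_nonneg _) fun j _ => ?_)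
  rw [abs_div, abs_of_pos hB, div_le_one hB]
  exact hy _ v

/-- the product of the traces -/
noncomputable def trs {k : ℕ} (r : Fin k → Fin n → ℕ) (y : ℕ → HeightOneSpectrum (𝓞 K) → ℝ) (i : Fin k → ℕ) (c : Ix g → 𝓞 K)
    (v : HeightOneSpectrum (𝓞 K)) : ℝ :=
  ∏ j, MvPolynomial.eval (fun l => - al g c l v) (tP (r j) (fun e => y e v) (i j)) -
    gmean (∏ j, tP (r j) (fun e => y e v) (i j))

theorem kap_le {G : ℕ} (hG : ∀ l, G ≤ g l) {k : ℕ} (r : Fin k → Fin n → ℕ) (i e : Fin k → ℕ) (hi : ∑ j, i j ≤ 2 * G + 1)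
    (κ : Fin n →₀ ℕ) (hκ : κ ∈ (RR r i e).support) (l : Fin n) : κ l ≤ 2 * g l + 1 := by
  have h1 := MvPolynomial.le_totalDegree hκ
  have h2 := RR_deg r i e
  have h3 : κ l ≤ κ.sum fun _ e => e := by
    rw [Finsupp.sum_fintype _ _ (fun _ => rfl)]
    exact Finset.single_le_sum (f := fun l => κ l) (fun _ _ => Nat.zero_le _) (Finset.mem_univ l)
  have := hG l
  omega

open Classical in
theorem decompP {G : ℕ} (hG : ∀ l, G ≤ g l) {k : ℕ} (r : Fin k → Fin n → ℕ) (B : ℝ) (hB : 0 < B)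
    (w : HeightOneSpectrum (𝓞 K) → ℂ) (y : ℕ → HeightOneSpectrum (𝓞 K) → ℝ) (i : Fin k → ℕ) (hi : ∑ j, i j ≤ 2 * G + 1)
    (c : Ix g → 𝓞 K) (X : ℕ) (τ : ℝ) (v : HeightOneSpectrum (𝓞 K)) :
    (if nm v ≤ X ∧ AG g c v then w v * ((nm v : ℕ) : ℂ) ^ (-((τ : ℂ) * Complex.I)) * ((trs g r y i c v : ℝ) : ℂ) else 0) =
      ∑ e ∈ Fintype.piFinset fun j => range (i j + 1), ∑ κ ∈ (RR r i e).support,
        (((RR r i e).coeff κ * (B ^ k * (-1) ^ (∑ l, κ l)) : ℝ) : ℂ) * TS (wd B w y e) (GT g (kk κ) c) X τ v := by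
  by_cases hX1 : nm v ≤ X
  · by_cases hA : AG g c v
    · rw [if_pos ⟨hX1, hA⟩]
      unfold trs
      rw [main_diff]
      push_cast
      rw [Finset.mul_sum]
      refine Finset.sum_congr rfl fun e _ => ?_
      rw [Finset.mul_sum]
      refine Finset.sum_congr rfl fun κ hκ => ?_
      unfold TS
      rw [if_pos hX1, GT_kk g κ (kap_le g hG r i e hi κ hκ), if_pos hA]
      unfold wd
      have hBc : (B : ℂ) ≠ 0 := by exact_mod_cast hB.ne'
      have e1 := sign_prod (fun l => κ l) (fun l => al g c l v)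
      have e2 : (∏ l, (-(al g c l v : ℂ)) ^ κ l - ∏ l, (nrm (κ l) : ℂ)) =
          (-1) ^ (∑ l, κ l) * (∏ l, (al g c l v : ℂ) ^ κ l - ∏ l, (nrm (κ l) : ℂ)) := by exact_mod_cast e1
      rw [e2]
      have e3 : ∏ j, ((y (e j) v : ℂ) / (B : ℂ)) = (∏ j, (y (e j) v : ℂ)) / (B : ℂ) ^ k := by
        rw [Finset.prod_div_distrib, Finset.prod_const, Finset.card_univ, Fintype.card_fin]
      push_cast
      rw [e3]
      field_simp
    · rw [if_neg (fun h => hA h.2)]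
      symm
      refine Finset.sum_eq_zero fun e _ => Finset.sum_eq_zero fun κ _ => ?_
      unfold TS GT
      rw [if_neg (show ¬ ∀ l, GoodK v (cp g l c) from hA)]
      simp
  · rw [if_neg (fun h => hX1 h.1)]
    symm
    refine Finset.sum_eq_zero fun e _ => Finset.sum_eq_zero fun κ _ => ?_
    unfold TS
    rw [if_neg hX1, mul_zero]

end nf

/-- the number of the index vectors -/
def NE (G : ℕ) : ℕ := ∑ k ∈ range (2 * G + 2), (2 * G + 2) ^ k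

open Classical in
/-- **The joint moments of the traces.** -/
theorem poly (n : ℕ) (g : Fin n → ℕ) (G : ℕ) (hG : ∀ l, G ≤ g l) (d : ℕ) : ∃ C : ℝ, 0 < C ∧ ∀ ε : ℝ, 0 < ε → ε ≤ 1 →
    ∀ᶠ H : ℕ in Filter.atTop,
    ∀ (K : Type) [Field K] [NumberField K], Module.finrank ℚ K = d → ∀ α : Ix g → 𝓞 K, ∀ B : ℝ, 0 < B →
    ∀ W : Finset (HeightOneSpectrum (𝓞 K) → ℂ), (∀ w ∈ W, ∀ v, ‖w v‖ ≤ 1) →
    ∀ 𝒴 : Finset (ℕ → HeightOneSpectrum (𝓞 K) → ℝ), (∀ y ∈ 𝒴, ∀ j v, |y j v| ≤ B) →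
    (W.card * 𝒴.card : ℝ) ≤ (H : ℝ) ^ (ε / 600) →
    ∃ Ex ⊆ box (Ix g) H, (Ex.card : ℝ) ≤ (H : ℝ) ^ (-(ε / 500)) * (box (Ix g) H).card ∧
      ∀ c ∈ box (Ix g) H \ Ex, ∀ w ∈ W, ∀ y ∈ 𝒴, ∀ (k : ℕ) (r : Fin k → Fin n → ℕ) (i : Fin k → ℕ), (∀ j, 1 ≤ i j) →
        ∑ j, i j ≤ 2 * G + 1 →
        ∀ X : ℕ, (X : ℝ) ≤ (H : ℝ) ^ (ε / 200) → ∀ τ : ℝ, |τ| ≤ (H : ℝ) ^ (ε / 200) →
        ‖∑' v : HeightOneSpectrum (𝓞 K), if nm v ≤ X ∧ AG g (fun i => α i + (c i : 𝓞 K)) v then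
            w v * ((nm v : ℕ) : ℂ) ^ (-((τ : ℂ) * Complex.I)) *
              ((trs g r y i (fun i => α i + (c i : 𝓞 K)) v : ℝ) : ℂ) else 0‖ ≤
          C * (B ^ k * 3 ^ (∑ j, ∑ l, r j l)) * ((X : ℝ) ^ (1 / 2 + ε) + Real.log H ^ (4 / ε)) := by
  obtain ⟨C, hC, h⟩ := hypT_main n g d
  refine ⟨(2 * G + 2) ^ (2 * G + 1) * C, by positivity, fun ε hε hε1 => ?_⟩
  have hev := ev_pow_le (ε / 500) (ε / 600) (NE G) (by linarith)
  filter_upwards [h ε hε hε1, ev_log 1, eventually_ge_atTop 1, hev] with H h hl hH1 hHe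
  intro K _ _ hK α B hB W hW 𝒴 h𝒴 hcard
  have hHr : (1 : ℝ) ≤ H := by exact_mod_cast hH1
  have hL0 : 0 < Real.log H := by linarith
  set Ev : Finset (Σ k : ℕ, Fin k → ℕ) := (range (2 * G + 2)).sigma fun k => Fintype.piFinset fun _ : Fin k => range (2 * G + 2)
    with hEv
  have hEvc : Ev.card = NE G := by
    rw [hEv, Finset.card_sigma]
    unfold NE
    refine Finset.sum_congr rfl fun k _ => ?_
    rw [Fintype.card_piFinset, Finset.prod_const, Finset.card_range, Finset.card_univ, Fintype.card_fin]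
  set W' : Finset (HeightOneSpectrum (𝓞 K) → ℂ) := ((W ×ˢ 𝒴) ×ˢ Ev).image (fun q => wd B q.1.1 q.1.2 q.2.2) with hW'
  have hW1 : ∀ w ∈ W', ∀ v, ‖w v‖ ≤ 1 := by
    intro w hw v
    rw [hW', Finset.mem_image] at hw
    obtain ⟨q, hq, rfl⟩ := hw
    rw [Finset.mem_product, Finset.mem_product] at hq
    exact wd_le B hB q.1.1 (hW _ hq.1.1) q.1.2 (h𝒴 _ hq.1.2) q.2.2 v
  have hW2 : (W'.card : ℝ) ≤ (H : ℝ) ^ (ε / 500) := by
    have h1 : W'.card ≤ ((W ×ˢ 𝒴) ×ˢ Ev).card := Finset.card_image_le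
    rw [Finset.card_product, Finset.card_product, hEvc] at h1
    have h2 : (W'.card : ℝ) ≤ W.card * 𝒴.card * NE G := by exact_mod_cast h1
    calc (W'.card : ℝ) ≤ W.card * 𝒴.card * NE G := h2
      _ ≤ (H : ℝ) ^ (ε / 600) * NE G := mul_le_mul_of_nonneg_right hcard (by positivity)
      _ = NE G * (H : ℝ) ^ (ε / 600) := by ring
      _ ≤ _ := hHe
  obtain ⟨Ex, hE1, hE2, hE3⟩ := h K hK α W' hW1 hW2
  refine ⟨Ex, hE1, hE2, fun c hc w hw y hy k r i hi1 hi X hX τ hτ => ?_⟩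
  set c' : Ix g → 𝓞 K := fun i => α i + (c i : 𝓞 K) with hc'
  set Q : ℝ := (X : ℝ) ^ (1 / 2 + ε) + Real.log H ^ (4 / ε) with hQ
  have hQ0 : 0 ≤ Q := by
    rw [hQ]
    positivity
  have hk : k ≤ 2 * G + 1 := by
    have h1 : ∑ _j : Fin k, 1 ≤ ∑ j, i j := Finset.sum_le_sum fun j _ => hi1 j
    rw [Finset.sum_const, Finset.card_univ, Fintype.card_fin, smul_eq_mul, mul_one] at h1
    omega
  have hij : ∀ j, i j ≤ 2 * G + 1 := by
    intro j
    have h1 : i j ≤ ∑ j, i j := Finset.single_le_sum (f := i) (fun _ _ => Nat.zero_le _) (Finset.mem_univ j)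
    omega
  set E : Finset (Fin k → ℕ) := Fintype.piFinset fun j => range (i j + 1) with hE
  have hEc : (E.card : ℝ) ≤ (2 * G + 2) ^ (2 * G + 1) := by
    have h1 : E.card ≤ (2 * G + 2) ^ k := by
      rw [hE, Fintype.card_piFinset]
      calc ∏ j, (range (i j + 1)).card ≤ ∏ _j : Fin k, (2 * G + 2) := by
            refine Finset.prod_le_prod' fun j _ => ?_
            rw [Finset.card_range]
            have := hij j
            omega
        _ = _ := by rw [Finset.prod_const, Finset.card_univ, Fintype.card_fin]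
    have h2 : (2 * G + 2) ^ k ≤ (2 * G + 2) ^ (2 * G + 1) := Nat.pow_le_pow_right (by omega) hk
    exact_mod_cast h1.trans h2
  have hmem : ∀ e ∈ E, wd B w y e ∈ W' := by
    intro e he
    rw [hE, Fintype.mem_piFinset] at he
    rw [hW', Finset.mem_image]
    refine ⟨((w, y), ⟨k, e⟩), Finset.mem_product.2 ⟨Finset.mem_product.2 ⟨hw, hy⟩, ?_⟩, rfl⟩
    rw [hEv, Finset.mem_sigma]
    refine ⟨Finset.mem_range.2 (by show k < 2 * G + 2; omega), ?_⟩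
    rw [Fintype.mem_piFinset]
    intro j
    have h1 := Finset.mem_range.1 (he j)
    have h2 := hij j
    exact Finset.mem_range.2 (by show e j < 2 * G + 2; omega)
  have b1 : ∀ e ∈ E, ∀ κ ∈ (RR r i e).support, ‖∑' v, TS (wd B w y e) (GT g (kk κ) c') X τ v‖ ≤ C * Q := fun e he κ hκ =>
    hE3 c hc _ (hmem e he) (kk κ) (ok_kk g κ (kap_le g hG r i e hi κ hκ)) X hX τ hτ
  have hs : HasSum (fun v : HeightOneSpectrum (𝓞 K) => if nm v ≤ X ∧ AG g c' v then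
      w v * ((nm v : ℕ) : ℂ) ^ (-((τ : ℂ) * Complex.I)) * ((trs g r y i c' v : ℝ) : ℂ) else 0)
      (∑ e ∈ E, ∑ κ ∈ (RR r i e).support,
        (((RR r i e).coeff κ * (B ^ k * (-1) ^ (∑ l, κ l)) : ℝ) : ℂ) * ∑' v, TS (wd B w y e) (GT g (kk κ) c') X τ v) := by
    have e : (fun v : HeightOneSpectrum (𝓞 K) => if nm v ≤ X ∧ AG g c' v then
      w v * ((nm v : ℕ) : ℂ) ^ (-((τ : ℂ) * Complex.I)) * ((trs g r y i c' v : ℝ) : ℂ) else 0) =
      fun v => ∑ e ∈ E, ∑ κ ∈ (RR r i e).support,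
        (((RR r i e).coeff κ * (B ^ k * (-1) ^ (∑ l, κ l)) : ℝ) : ℂ) * TS (wd B w y e) (GT g (kk κ) c') X τ v := by
      funext v
      exact decompP g hG r B hB w y i hi c' X τ v
    rw [e]
    exact hasSum_sum fun e _ => hasSum_sum fun κ _ => (TS_sum _ _ X τ).mul_left _
  rw [hs.tsum_eq]
  set S3 : ℝ := 3 ^ (∑ j, ∑ l, r j l) with hS3
  have hS30 : 0 < S3 := by positivity
  calc _ ≤ ∑ e ∈ E, ∑ κ ∈ (RR r i e).support, (RR r i e).coeff κ * (B ^ k * (C * Q)) := by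
        refine (norm_sum_le _ _).trans (Finset.sum_le_sum fun e he => ?_)
        refine (norm_sum_le _ _).trans (Finset.sum_le_sum fun κ hκ => ?_)
        rw [norm_mul, Complex.norm_real, Real.norm_eq_abs, abs_mul, abs_mul, abs_pow (-1 : ℝ), abs_neg, abs_one, one_pow, mul_one,
          abs_of_nonneg (RR_NN r i e κ), abs_of_nonneg (by positivity : 0 ≤ B ^ k), mul_assoc]
        exact mul_le_mul_of_nonneg_left (mul_le_mul_of_nonneg_left (b1 e he κ hκ) (by positivity)) (RR_NN r i e κ)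
    _ ≤ ∑ _e ∈ E, S3 * (B ^ k * (C * Q)) := by
        refine Finset.sum_le_sum fun e _ => ?_
        rw [← Finset.sum_mul, ← eval_one]
        exact mul_le_mul_of_nonneg_right (RR_one r i e) (by positivity)
    _ = E.card * (S3 * (B ^ k * (C * Q))) := by rw [Finset.sum_const, nsmul_eq_mul]
    _ ≤ (2 * G + 2) ^ (2 * G + 1) * (S3 * (B ^ k * (C * Q))) := mul_le_mul_of_nonneg_right hEc (by positivity)
    _ = _ := by ring

end Run7.h328.SEP.Poly
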