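import Pool.Agent.Run7.h328.SEP.Mult

/-! # Powers of `b + ∑ r_l a_l` summed over the primes -/

set_option autoImplicit false

namespace Run7.h328.SEP.Pow

open NumberField IsDedekindDomain Finset Filter
open Pool.Agent.H921R2.TatePole (nm two_le_nm)
open Pool.Agent.Y722.HS (box)
open Pool.Agent.V11210.G2 (mm)
open Run7.h328.SEP.Hyp (Ok)
open Run7.h328.SEP.HypK (a1 rv GoodK)
open Run7.h328.SEP.TupK (Ix cp GT hypT_main)
open Run7.h328.SEP.Taub (al AG TS TS_sum)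
open Run7.h328.SEP.Mult

theorem mm_nrm (g i : ℕ) (h : i ≤ 2 * g + 1) : mm g i 0 = nrm i := by
  unfold mm Pool.Agent.Y57.FD.Mom.usp Pool.Agent.Y57.FD.Mom.normal nrm
  have : ¬ (i = 2 * g + 2) := by omega
  simp [this]

/-- the exponents `κ` -/
def kk {n : ℕ} (κ : Fin n → ℕ) : Fin n → ℕ × ℕ := fun l => (κ l, 0)

section nf
variable {K : Type} [Field K] [NumberField K] {n : ℕ} (g : Fin n → ℕ)

open Classical in
theorem GT_kk (κ : Fin n → ℕ) (hκ : ∀ l, κ l ≤ 2 * g l + 1) (c : Ix g → 𝓞 K) (v : HeightOneSpectrum (𝓞 K)) :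
    GT g (kk κ) c v = if AG g c v then ∏ l, al g c l v ^ κ l - ∏ l, nrm (κ l) else 0 := by
  unfold GT
  by_cases h : AG g c v
  · rw [if_pos h, if_pos (show ∀ l, GoodK v (cp g l c) from h)]
    congr 1
    · refine Finset.prod_congr rfl fun l _ => ?_
      unfold kk al
      rw [pow_zero, mul_one]
    · refine Finset.prod_congr rfl fun l _ => ?_
      exact mm_nrm (g l) (κ l) (hκ l)
  · rw [if_neg h, if_neg (show ¬ ∀ l, GoodK v (cp g l c) from h)]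

theorem ok_kk (κ : Fin n → ℕ) (hκ : ∀ l, κ l ≤ 2 * g l + 1) (l : Fin n) : Ok (g l) (kk κ l).1 (kk κ l).2 :=
  Or.inl ⟨rfl, by
    show κ l ≤ 2 * g l + 3
    have := hκ l
    omega⟩

/-- the weights -/
noncomputable def wc (B : ℝ) (w : HeightOneSpectrum (𝓞 K) → ℂ) (b : HeightOneSpectrum (𝓞 K) → ℝ) (m : ℕ)
    (v : HeightOneSpectrum (𝓞 K)) : ℂ := w v * (((b v / B) ^ m : ℝ) : ℂ)

theorem wc_le (B : ℝ) (hB : 0 < B) (w : HeightOneSpectrum (𝓞 K) → ℂ) (hw : ∀ v, ‖w v‖ ≤ 1)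
    (b : HeightOneSpectrum (𝓞 K) → ℝ) (hb : ∀ v, |b v| ≤ B) (m : ℕ) (v : HeightOneSpectrum (𝓞 K)) : ‖wc B w b m v‖ ≤ 1 := by
  unfold wc
  rw [norm_mul, Complex.norm_real, Real.norm_eq_abs, abs_pow, abs_div, abs_of_pos hB]
  refine mul_le_one₀ (hw v) (by positivity) (pow_le_one₀ (by positivity) ?_)
  rw [div_le_one hB]
  exact hb v

open Classical in
theorem decomp (G : ℕ) (hG : ∀ l, G ≤ g l) (r : Fin n → ℝ) (B : ℝ) (hB : 0 < B) (w : HeightOneSpectrum (𝓞 K) → ℂ)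
    (b : HeightOneSpectrum (𝓞 K) → ℝ) (c : Ix g → 𝓞 K) (k : ℕ) (hk : k ≤ 2 * G + 1) (X : ℕ) (τ : ℝ)
    (v : HeightOneSpectrum (𝓞 K)) :
    (if nm v ≤ X ∧ AG g c v then w v * ((nm v : ℕ) : ℂ) ^ (-((τ : ℂ) * Complex.I)) *
        (((b v + ∑ l, r l * al g c l v) ^ k - bm (b v) (∑ l, r l ^ 2) k : ℝ) : ℂ) else 0) =
      ∑ m ∈ range (k + 1), ∑ κ ∈ (univ : Finset (Fin n)).piAntidiag (k - m),
        (((k.choose m : ℝ) * ((Nat.multinomial univ κ : ℝ) * ∏ l, r l ^ κ l) * B ^ m : ℝ) : ℂ) *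
          TS (wc B w b m) (GT g (kk κ) c) X τ v := by
  by_cases hX1 : nm v ≤ X
  · by_cases hA : AG g c v
    · rw [if_pos ⟨hX1, hA⟩, pow_diff r (fun l => al g c l v) (b v) k]
      push_cast
      rw [Finset.mul_sum]
      refine Finset.sum_congr rfl fun m hm => ?_
      rw [Finset.mul_sum]
      refine Finset.sum_congr rfl fun κ hκ => ?_
      rw [Finset.mem_range] at hm
      rw [Finset.mem_piAntidiag] at hκ
      have hκ' : ∀ l, κ l ≤ 2 * g l + 1 := by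
        intro l
        have h1 : κ l ≤ ∑ l, κ l := Finset.single_le_sum (f := κ) (fun _ _ => Nat.zero_le _) (Finset.mem_univ l)
        have h2 : ∑ l, κ l = k - m := hκ.1
        have := hG l
        omega
      unfold TS
      rw [if_pos hX1, GT_kk g κ hκ', if_pos hA]
      unfold wc
      have hBc : (B : ℂ) ≠ 0 := by exact_mod_cast hB.ne'
      push_cast
      rw [div_pow]
      field_simp
    · rw [if_neg (fun h => hA h.2)]
      symm
      refine Finset.sum_eq_zero fun m hm => Finset.sum_eq_zero fun κ hκ => ?_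
      unfold TS GT
      rw [if_neg (show ¬ ∀ l, GoodK v (cp g l c) from hA)]
      simp
  · rw [if_neg (fun h => hX1 h.1)]
    symm
    refine Finset.sum_eq_zero fun m hm => Finset.sum_eq_zero fun κ hκ => ?_
    unfold TS
    rw [if_neg hX1, mul_zero]

end nf

open Classical in
/-- **The moments of `b + ∑ r_l a_l`.** -/
theorem powers (n : ℕ) (g : Fin n → ℕ) (G : ℕ) (hG : ∀ l, G ≤ g l) (d : ℕ) : ∃ C : ℝ, 0 < C ∧ ∀ ε : ℝ, 0 < ε → ε ≤ 1 →
    ∀ᶠ H : ℕ in Filter.atTop,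
    ∀ (K : Type) [Field K] [NumberField K], Module.finrank ℚ K = d → ∀ α : Ix g → 𝓞 K, ∀ B : ℝ, 0 < B →
    ∀ W : Finset (HeightOneSpectrum (𝓞 K) → ℂ), (∀ w ∈ W, ∀ v, ‖w v‖ ≤ 1) →
    ∀ 𝒜 : Finset (HeightOneSpectrum (𝓞 K) → ℝ), (∀ b ∈ 𝒜, ∀ v, |b v| ≤ B) →
    (W.card * 𝒜.card : ℝ) ≤ (H : ℝ) ^ (ε / 600) →
    ∃ Ex ⊆ box (Ix g) H, (Ex.card : ℝ) ≤ (H : ℝ) ^ (-(ε / 500)) * (box (Ix g) H).card ∧
      ∀ c ∈ box (Ix g) H \ Ex, ∀ w ∈ W, ∀ b ∈ 𝒜, ∀ r : Fin n → ℝ, ∀ k : ℕ, k ≤ 2 * G + 1 →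
        ∀ X : ℕ, (X : ℝ) ≤ (H : ℝ) ^ (ε / 200) → ∀ τ : ℝ, |τ| ≤ (H : ℝ) ^ (ε / 200) →
        ‖∑' v : HeightOneSpectrum (𝓞 K), if nm v ≤ X ∧ AG g (fun i => α i + (c i : 𝓞 K)) v then
            w v * ((nm v : ℕ) : ℂ) ^ (-((τ : ℂ) * Complex.I)) *
              (((b v + ∑ l, r l * al g (fun i => α i + (c i : 𝓞 K)) l v) ^ k - bm (b v) (∑ l, r l ^ 2) k : ℝ) : ℂ) else 0‖ ≤
          C * (B + ∑ l, |r l|) ^ k * ((X : ℝ) ^ (1 / 2 + ε) + Real.log H ^ (4 / ε)) := by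
  obtain ⟨C, hC, h⟩ := hypT_main n g d
  refine ⟨C, hC, fun ε hε hε1 => ?_⟩
  have hev := ev_pow_le (ε / 500) (ε / 600) (2 * G + 2) (by linarith)
  filter_upwards [h ε hε hε1, ev_log 1, eventually_ge_atTop 1, hev] with H h hl hH1 hHe
  intro K _ _ hK α B hB W hW 𝒜 h𝒜 hcard
  have hHr : (1 : ℝ) ≤ H := by exact_mod_cast hH1
  have hL0 : 0 < Real.log H := by linarith
  set W' : Finset (HeightOneSpectrum (𝓞 K) → ℂ) := ((W ×ˢ 𝒜) ×ˢ range (2 * G + 2)).image (fun q => wc B q.1.1 q.1.2 q.2) with hW'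
  have hW1 : ∀ w ∈ W', ∀ v, ‖w v‖ ≤ 1 := by
    intro w hw v
    rw [hW', Finset.mem_image] at hw
    obtain ⟨q, hq, rfl⟩ := hw
    rw [Finset.mem_product, Finset.mem_product] at hq
    exact wc_le B hB q.1.1 (hW _ hq.1.1) q.1.2 (h𝒜 _ hq.1.2) q.2 v
  have hW2 : (W'.card : ℝ) ≤ (H : ℝ) ^ (ε / 500) := by
    have h1 : W'.card ≤ ((W ×ˢ 𝒜) ×ˢ range (2 * G + 2)).card := Finset.card_image_le
    rw [Finset.card_product, Finset.card_product, Finset.card_range] at h1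
    have h2 : (W'.card : ℝ) ≤ W.card * 𝒜.card * (2 * G + 2) := by exact_mod_cast h1
    calc (W'.card : ℝ) ≤ W.card * 𝒜.card * (2 * G + 2) := h2
      _ ≤ (H : ℝ) ^ (ε / 600) * (2 * G + 2) := mul_le_mul_of_nonneg_right hcard (by positivity)
      _ = (2 * G + 2) * (H : ℝ) ^ (ε / 600) := by ring
      _ ≤ _ := hHe
  obtain ⟨Ex, hE1, hE2, hE3⟩ := h K hK α W' hW1 hW2
  refine ⟨Ex, hE1, hE2, fun c hc w hw b hb r k hk X hX τ hτ => ?_⟩
  set c' : Ix g → 𝓞 K := fun i => α i + (c i : 𝓞 K) with hc'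
  set Q : ℝ := (X : ℝ) ^ (1 / 2 + ε) + Real.log H ^ (4 / ε) with hQ
  have hQ0 : 0 ≤ Q := by
    rw [hQ]
    positivity
  have hmem : ∀ m ∈ range (k + 1), wc B w b m ∈ W' := by
    intro m hm
    rw [Finset.mem_range] at hm
    rw [hW', Finset.mem_image]
    exact ⟨((w, b), m), Finset.mem_product.2 ⟨Finset.mem_product.2 ⟨hw, hb⟩, Finset.mem_range.2 (by omega)⟩, rfl⟩
  have b1 : ∀ m ∈ range (k + 1), ∀ κ ∈ (univ : Finset (Fin n)).piAntidiag (k - m),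
      ‖∑' v, TS (wc B w b m) (GT g (kk κ) c') X τ v‖ ≤ C * Q := by
    intro m hm κ hκ
    have hκ' : ∀ l, κ l ≤ 2 * g l + 1 := by
      intro l
      rw [Finset.mem_piAntidiag] at hκ
      have h1 : κ l ≤ ∑ l, κ l := Finset.single_le_sum (f := κ) (fun _ _ => Nat.zero_le _) (Finset.mem_univ l)
      have h2 : ∑ l, κ l = k - m := hκ.1
      have := hG l
      omega
    exact hE3 c hc _ (hmem m hm) (kk κ) (ok_kk g κ hκ') X hX τ hτ
  have hs : HasSum (fun v : HeightOneSpectrum (𝓞 K) => if nm v ≤ X ∧ AG g c' v then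
      w v * ((nm v : ℕ) : ℂ) ^ (-((τ : ℂ) * Complex.I)) *
        (((b v + ∑ l, r l * al g c' l v) ^ k - bm (b v) (∑ l, r l ^ 2) k : ℝ) : ℂ) else 0)
      (∑ m ∈ range (k + 1), ∑ κ ∈ (univ : Finset (Fin n)).piAntidiag (k - m),
        (((k.choose m : ℝ) * ((Nat.multinomial univ κ : ℝ) * ∏ l, r l ^ κ l) * B ^ m : ℝ) : ℂ) *
          ∑' v, TS (wc B w b m) (GT g (kk κ) c') X τ v) := by
    have e : (fun v : HeightOneSpectrum (𝓞 K) => if nm v ≤ X ∧ AG g c' v then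
      w v * ((nm v : ℕ) : ℂ) ^ (-((τ : ℂ) * Complex.I)) *
        (((b v + ∑ l, r l * al g c' l v) ^ k - bm (b v) (∑ l, r l ^ 2) k : ℝ) : ℂ) else 0) =
      fun v => ∑ m ∈ range (k + 1), ∑ κ ∈ (univ : Finset (Fin n)).piAntidiag (k - m),
        (((k.choose m : ℝ) * ((Nat.multinomial univ κ : ℝ) * ∏ l, r l ^ κ l) * B ^ m : ℝ) : ℂ) *
          TS (wc B w b m) (GT g (kk κ) c') X τ v := by
      funext v
      exact decomp g G hG r B hB w b c' k hk X τ v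
    rw [e]
    exact hasSum_sum fun m _ => hasSum_sum fun κ _ => (TS_sum _ _ X τ).mul_left _
  rw [hs.tsum_eq]
  calc _ ≤ ∑ m ∈ range (k + 1), ∑ κ ∈ (univ : Finset (Fin n)).piAntidiag (k - m),
        ((k.choose m : ℝ) * ((Nat.multinomial univ κ : ℝ) * ∏ l, |r l| ^ κ l)) * B ^ m * (C * Q) := by
        refine (norm_sum_le _ _).trans (Finset.sum_le_sum fun m hm => ?_)
        refine (norm_sum_le _ _).trans (Finset.sum_le_sum fun κ hκ => ?_)
        rw [norm_mul, Complex.norm_real, Real.norm_eq_abs]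
        have e : |(k.choose m : ℝ) * ((Nat.multinomial univ κ : ℝ) * ∏ l, r l ^ κ l) * B ^ m| =
            ((k.choose m : ℝ) * ((Nat.multinomial univ κ : ℝ) * ∏ l, |r l| ^ κ l)) * B ^ m := by
          rw [abs_mul, abs_mul, abs_mul, Nat.abs_cast, Nat.abs_cast, Finset.abs_prod, abs_of_nonneg (by positivity : 0 ≤ B ^ m)]
          congr 3
          exact Finset.prod_congr rfl fun l _ => abs_pow _ _
        rw [e]
        apply mul_le_mul_of_nonneg_left (b1 m hm κ hκ)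
        have : 0 ≤ ∏ l, |r l| ^ κ l := Finset.prod_nonneg fun l _ => by positivity
        positivity
    _ = (B + ∑ l, |r l|) ^ k * (C * Q) := by
        rw [← coef_sum r B k, Finset.sum_mul]
        refine Finset.sum_congr rfl fun m _ => ?_
        rw [Finset.sum_mul]
    _ = _ := by ring

end Run7.h328.SEP.Pow
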