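import Pool.Agent.Run7.h328.SEP.Well

/-! # Moments and large deviations over one range of primes -/

set_option autoImplicit false

namespace Run7.h328.SEP

open Finset Filter
open Pool.Agent.TH894.NE (mean Per mem_box mean_mul momentd mean_mono mean_const)
open Pool.Agent.Y722.HS (box IH EM red)
open Pool.Agent.N647.TS (WellN avg_pow)

section
variable {ι : Type} [Fintype ι] [DecidableEq ι]

/-- the sum of the inverse squares -/
theorem sum_inv_sq (y : ℕ) (hy : 1 ≤ y) (I : Finset ℕ) (hI : ∀ p ∈ I, y < p) :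
    ∑ p ∈ I, 1 / (p : ℝ) ^ 2 ≤ 1 / (y : ℝ) := by
  obtain ⟨N, hN⟩ : ∃ N, ∀ p ∈ I, p ≤ N := ⟨I.sup id, fun p hp => Finset.le_sup (f := id) hp⟩
  have h1 : I ⊆ Finset.Ioc y (max y N) := by
    intro p hp
    rw [Finset.mem_Ioc]
    exact ⟨hI p hp, (hN p hp).trans (le_max_right _ _)⟩
  have h2 := sum_Ioc_inv_sq_le_sub (α := ℝ) (k := y) (n := max y N) (by omega) (le_max_left _ _)
  have h3 : ∑ p ∈ I, 1 / (p : ℝ) ^ 2 ≤ ∑ p ∈ Finset.Ioc y (max y N), ((p : ℝ) ^ 2)⁻¹ := by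
    simp only [one_div]
    exact Finset.sum_le_sum_of_subset_of_nonneg h1 fun _ _ _ => by positivity
  have h4 : (0 : ℝ) ≤ ((max y N : ℕ) : ℝ)⁻¹ := by positivity
  rw [one_div]
  linarith

/-- **The moments over one range.** -/
theorem moment_range (H h : ℕ) (hh : 2 ^ Fintype.card ι * (2 * h + 1) ^ 2 ≤ 2 * H + 1) (y j : ℕ)
    (hy : 1 ≤ y) (hyj : (y ^ 2) ^ (2 * j) ≤ 2 * h + 1) (A : ℝ) (hA : 1 ≤ A) (I : Finset ℕ)
    (hI : ∀ p ∈ I, p.Prime ∧ y < p ∧ p ≤ y ^ 2) (hj : 1 ≤ j)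
    (X : ∀ p : ℕ, (ι → ZMod p) → ℝ) (hX : ∀ p ∈ I, ∀ r, |X p r| ≤ A / p)
    (hX0 : ∀ (p : ℕ) [NeZero p], p ∈ I → EM p (X p) = 0) :
    ∑ c ∈ box ι H, (∑ p ∈ I, X p (red p c)) ^ (2 * j) ≤
      7 * (2 * j).factorial * (A ^ 2 / y) ^ j * (box ι H).card := by
  classical
  have hw := wellN_box (ι := ι) H h hh
  have hy0 : (0 : ℝ) < y := by exact_mod_cast hy
  have hy1 : (1 : ℝ) ≤ y := by exact_mod_cast hy
  have hA0 : 0 < A := by linarith
  have hple : ∀ p ∈ I, p ≤ 2 * h + 1 := by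
    intro p hp
    have h1 := (hI p hp).2.2
    have h2 : y ^ 2 ≤ (y ^ 2) ^ (2 * j) := Nat.le_self_pow (by omega) _
    omega
  set F : ℕ → (Fin (Fintype.card ι) → ℕ) → ℝ := fun p v => (y / A) * lf p (X p) v with hF
  have hper : ∀ p ∈ I, Per p (F p) := by
    intro p _ v
    show (y / A) * lf p (X p) v = (y / A) * lf p (X p) (fun i => v i % p)
    rw [← per_lf p (X p) v]
  have hF1 : ∀ p ∈ I, ∀ v, |F p v| ≤ y / p := by
    intro p hp v
    have hp0 : (0 : ℝ) < p := by exact_mod_cast (hI p hp).1.pos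
    rw [hF]
    show |(y / A) * lf p (X p) v| ≤ y / p
    rw [abs_mul, abs_of_pos (by positivity)]
    have h1 : |lf p (X p) v| ≤ A / p := hX p hp _
    calc y / A * |lf p (X p) v| ≤ y / A * (A / p) := by gcongr
      _ = y / p := by field_simp
  have hF2 : ∀ p ∈ I, ∀ v, |F p v| ≤ 1 := by
    intro p hp v
    have hp0 : (0 : ℝ) < p := by exact_mod_cast (hI p hp).1.pos
    refine (hF1 p hp v).trans ?_
    rw [div_le_one hp0]
    exact_mod_cast (hI p hp).2.1.le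
  have hF0 : ∀ p ∈ I, mean (Fintype.card ι) p (F p) = 0 := by
    intro p hp
    have : NeZero p := ⟨(hI p hp).1.ne_zero⟩
    rw [hF]
    show mean (Fintype.card ι) p (fun v => (y / A) * lf p (X p) v) = 0
    rw [mean_mul, mean_lf, hX0 p hp, mul_zero]
  have hcop : ∀ a ∈ I, ∀ a' ∈ I, a ≠ a' → Nat.Coprime a a' := fun a ha a' ha' hne =>
    (Nat.coprime_primes (hI a ha).1 (hI a' ha').1).mpr hne
  have hV : ∑ p ∈ I, mean (Fintype.card ι) p (fun n => F p n ^ 2) ≤ y := by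
    have h1 : ∀ p ∈ I, mean (Fintype.card ι) p (fun n => F p n ^ 2) ≤ y ^ 2 * (1 / (p : ℝ) ^ 2) := by
      intro p hp
      have h2 : mean (Fintype.card ι) p (fun n => F p n ^ 2) ≤
          mean (Fintype.card ι) p (fun _ => ((y : ℝ) / p) ^ 2) := by
        apply mean_mono
        intro v
        rw [← sq_abs]
        exact pow_le_pow_left₀ (abs_nonneg _) (hF1 p hp v) 2
      refine h2.trans (le_of_eq ?_)
      rw [mean_const _ p (hI p hp).1.one_lt.le, div_pow]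
      ring
    refine (Finset.sum_le_sum h1).trans ?_
    rw [← Finset.mul_sum]
    have h2 := sum_inv_sq y hy I (fun p hp => (hI p hp).2.1)
    calc (y : ℝ) ^ 2 * ∑ p ∈ I, 1 / (p : ℝ) ^ 2 ≤ (y : ℝ) ^ 2 * (1 / (y : ℝ)) := by gcongr
      _ = (y : ℝ) := by field_simp
  have hmom := momentd I (fun p => p) (fun p hp => (hI p hp).1.one_lt.le) hcop F hper hF2 hF0 y hy1 hV j
  have havg := (abs_le.1 (avg_pow hw I (fun p => p) (y ^ 2) (2 * j)
    (fun p hp => ⟨(hI p hp).1.one_lt.le, (hI p hp).2.2⟩) (Nat.one_le_pow _ _ hy) hyj hcop F hper hF2)).2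
  have hcard : I.card ≤ y ^ 2 := by
    have h1 : I ⊆ Finset.Icc 1 (y ^ 2) := by
      intro p hp
      rw [Finset.mem_Icc]
      exact ⟨(hI p hp).1.one_lt.le, (hI p hp).2.2⟩
    have h2 := Finset.card_le_card h1
    rw [Nat.card_Icc] at h2
    omega
  have herr : (I.card : ℝ) ^ (2 * j) / (2 * h + 1) ≤ 1 := by
    rw [div_le_one (by positivity)]
    calc (I.card : ℝ) ^ (2 * j) ≤ ((y ^ 2 : ℕ) : ℝ) ^ (2 * j) := by
          apply pow_le_pow_left₀ (by positivity)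
          exact_mod_cast hcard
      _ ≤ 2 * h + 1 := by exact_mod_cast hyj
  have hfac : (1 : ℝ) ≤ (2 * j).factorial := by
    exact_mod_cast Nat.one_le_iff_ne_zero.2 (Nat.factorial_ne_zero _)
  have hyj1 : (1 : ℝ) ≤ (y : ℝ) ^ j := one_le_pow₀ hy1
  have hcard0 : (0 : ℝ) < (range (box ι H).card).card := by exact_mod_cast hw.pos
  have h1 : (∑ n ∈ range (box ι H).card, (∑ p ∈ I, F p (vec h (pt ι H n))) ^ (2 * j)) ≤
      7 * (2 * j).factorial * (y : ℝ) ^ j * (range (box ι H).card).card := by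
    rw [← div_le_iff₀ hcard0]
    have h2 : (1 : ℝ) ≤ (2 * j).factorial * (y : ℝ) ^ j := one_le_mul_of_one_le_of_one_le hfac hyj1
    linarith
  rw [sum_pt H (fun c => (∑ p ∈ I, F p (vec h c)) ^ (2 * j)), card_range] at h1
  have h3 : ∀ c : ι → ℤ, ∑ p ∈ I, F p (vec h c) = (y / A) * ∑ p ∈ I, X p (red p c) := by
    intro c
    rw [Finset.mul_sum]
    refine Finset.sum_congr rfl fun p hp => ?_
    rw [hF]
    show (y / A) * lf p (X p) (vec h c) = _
    rw [lf_vec h p (hI p hp).1.one_lt.le (hple p hp)]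
  simp only [h3, mul_pow] at h1
  rw [← Finset.mul_sum] at h1
  have h4 : 0 < (y / A) ^ (2 * j) := by positivity
  rw [← mul_le_mul_iff_right₀ h4]
  refine h1.trans (le_of_eq ?_)
  rw [div_pow, div_pow, pow_mul, pow_mul, ← pow_mul A, ← pow_mul (y : ℝ)]
  have e1 : (y : ℝ) ^ (2 * j) = (y : ℝ) ^ j * (y : ℝ) ^ j := by rw [← pow_add]; congr 1; ring
  rw [e1]
  field_simp

/-- **Large deviations over one range.** -/
theorem dev_range (H h : ℕ) (hh : 2 ^ Fintype.card ι * (2 * h + 1) ^ 2 ≤ 2 * H + 1) (y j : ℕ)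
    (hy : 1 ≤ y) (hyj : (y ^ 2) ^ (2 * j) ≤ 2 * h + 1) (A : ℝ) (hA : 1 ≤ A) (I : Finset ℕ)
    (hI : ∀ p ∈ I, p.Prime ∧ y < p ∧ p ≤ y ^ 2) (hj : 1 ≤ j)
    (X : ∀ p : ℕ, (ι → ZMod p) → ℝ) (hX : ∀ p ∈ I, ∀ r, |X p r| ≤ A / p)
    (hX0 : ∀ (p : ℕ) [NeZero p], p ∈ I → EM p (X p) = 0) (l : ℝ) (hl : 0 < l) :
    (((box ι H).filter (fun c => l < |∑ p ∈ I, X p (red p c)|)).card : ℝ) ≤
      7 * (4 * j ^ 2 * A ^ 2 / (l ^ 2 * y)) ^ j * (box ι H).card := by
  classical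
  have h1 := moment_range H h hh y j hy hyj A hA I hI hj X hX hX0
  have hy0 : (0 : ℝ) < y := by exact_mod_cast hy
  have hA0 : 0 < A := by linarith
  have h2 : (((box ι H).filter (fun c => l < |∑ p ∈ I, X p (red p c)|)).card : ℝ) * l ^ (2 * j) ≤
      ∑ c ∈ box ι H, (∑ p ∈ I, X p (red p c)) ^ (2 * j) := by
    calc (((box ι H).filter (fun c => l < |∑ p ∈ I, X p (red p c)|)).card : ℝ) * l ^ (2 * j) =
          ∑ _c ∈ (box ι H).filter (fun c => l < |∑ p ∈ I, X p (red p c)|), l ^ (2 * j) := by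
          rw [sum_const, nsmul_eq_mul]
      _ ≤ ∑ c ∈ (box ι H).filter (fun c => l < |∑ p ∈ I, X p (red p c)|),
          (∑ p ∈ I, X p (red p c)) ^ (2 * j) := by
          refine sum_le_sum fun c hc => ?_
          rw [← (even_two_mul j).pow_abs (∑ p ∈ I, X p (red p c))]
          exact pow_le_pow_left₀ hl.le (mem_filter.mp hc).2.le _
      _ ≤ _ := by
          apply sum_le_sum_of_subset_of_nonneg (filter_subset _ _)
          intro c _ _
          exact (even_two_mul j).pow_nonneg _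
  have h3 : ((2 * j).factorial : ℝ) ≤ (4 * j ^ 2 : ℝ) ^ j := by
    have h4 : (2 * j).factorial ≤ (2 * j) ^ (2 * j) := Nat.factorial_le_pow _
    have h5 : (((2 * j) ^ (2 * j) : ℕ) : ℝ) = (4 * j ^ 2 : ℝ) ^ j := by
      push_cast
      rw [pow_mul]
      congr 1
      ring
    rw [← h5]
    exact_mod_cast h4
  have h6 : 0 < l ^ (2 * j) := by positivity
  have h7 := h2.trans h1
  rw [← le_div_iff₀ h6] at h7
  refine h7.trans ?_
  rw [div_le_iff₀ h6]
  have e1 : (4 * (j : ℝ) ^ 2 * A ^ 2 / (l ^ 2 * y)) ^ j * l ^ (2 * j) = (4 * (j : ℝ) ^ 2) ^ j * (A ^ 2 / y) ^ j := by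
    rw [pow_mul l, ← mul_pow, ← mul_pow]
    congr 1
    field_simp
  calc 7 * ((2 * j).factorial : ℝ) * (A ^ 2 / y) ^ j * (box ι H).card ≤
      7 * (4 * j ^ 2 : ℝ) ^ j * (A ^ 2 / y) ^ j * (box ι H).card := by gcongr
    _ = 7 * ((4 * (j : ℝ) ^ 2) ^ j * (A ^ 2 / y) ^ j) * (box ι H).card := by ring
    _ = 7 * ((4 * (j : ℝ) ^ 2 * A ^ 2 / (l ^ 2 * y)) ^ j * l ^ (2 * j)) * (box ι H).card := by rw [e1]
    _ = _ := by ring

end

end Run7.h328.SEP
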