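import Pool.Agent.Run7.h328.SEP.DevInt

/-! # Square-root cancellation in sums over primes, for almost all members of a family -/

set_option autoImplicit false

namespace Run7.h328.SEP

open Finset Filter
open Pool.Agent.Y722.HS (box IH EM red PR mem_PR)

/-- the beginning of the range -/
noncomputable def P0 (ε : ℝ) (H : ℕ) : ℕ := ⌈Real.log H ^ (4 / ε)⌉₊

/-- the height of the grid -/
noncomputable def GE (ε : ℝ) (H : ℕ) : ℕ := ⌈(H : ℝ) ^ (ε / 200)⌉₊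

/-- the points of the grid -/
noncomputable def gt (ε : ℝ) (H : ℕ) (g : ℤ) : ℂ := ((g / GE ε H : ℝ) : ℂ) * Complex.I

theorem gt_re (ε : ℝ) (H : ℕ) (g : ℤ) : (gt ε H g).re = 0 := by
  unfold gt
  rw [Complex.re_ofReal_mul, Complex.I_re, mul_zero]

/-- the grid -/
noncomputable def GI (ε : ℝ) (H : ℕ) : Finset ℤ :=
  Finset.Icc (-((GE ε H * GE ε H : ℕ) : ℤ)) ((GE ε H * GE ε H : ℕ) : ℤ)

theorem GI_card (ε : ℝ) (H : ℕ) : (GI ε H).card = 2 * (GE ε H * GE ε H) + 1 := by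
  unfold GI
  rw [Int.card_Icc]
  omega

theorem near_GI (ε : ℝ) (H : ℕ) (hL : 1 ≤ GE ε H) (τ : ℝ) (h2 : |τ| ≤ (H : ℝ) ^ (ε / 200)) :
    ∃ g ∈ GI ε H, ‖(τ : ℂ) * Complex.I - gt ε H g‖ ≤ 1 / GE ε H := by
  have hL0 : (0 : ℝ) < GE ε H := by exact_mod_cast hL
  have hT : (H : ℝ) ^ (ε / 200) ≤ GE ε H := Nat.le_ceil _
  obtain ⟨h3, h4⟩ := abs_le.mp (h2.trans hT)
  set b : ℤ := ⌊τ * GE ε H⌋ with hb
  have hb1 : (b : ℝ) ≤ τ * GE ε H := Int.floor_le _
  have hb2 : τ * GE ε H < b + 1 := Int.lt_floor_add_one _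
  refine ⟨b, ?_, ?_⟩
  · unfold GI
    rw [Finset.mem_Icc]
    refine ⟨?_, ?_⟩
    · rw [hb, Int.le_floor]
      push_cast
      nlinarith
    · have h5 : (b : ℝ) ≤ (((GE ε H * GE ε H : ℕ) : ℤ) : ℝ) := by
        push_cast
        nlinarith
      exact_mod_cast h5
  · have e : (τ : ℂ) * Complex.I - gt ε H b = ((τ - b / GE ε H : ℝ) : ℂ) * Complex.I := by
      unfold gt
      push_cast
      ring
    rw [e, norm_mul, Complex.norm_I, mul_one, Complex.norm_real, Real.norm_eq_abs, abs_le]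
    have h5 : (b : ℝ) / GE ε H ≤ τ := by rw [div_le_iff₀ hL0]; exact hb1
    have h6 : τ ≤ (b + 1) / GE ε H := by rw [le_div_iff₀ hL0]; exact hb2.le
    rw [add_div] at h6
    have h7 : (0 : ℝ) < 1 / GE ε H := by positivity
    constructor <;> linarith

section
variable {ι : Type} [Fintype ι] [DecidableEq ι]

/-- the sum from a recursion over the halves -/
theorem halves (K M : ℝ) (σ : ℝ) (hσ : 1 / 2 ≤ σ) (hK : 16 ≤ K) (S : ℕ → ℝ) (N : ℕ) (P : ℕ)
    (hsmall : ∀ X ≤ N, (X + 1) / 2 < P → S X ≤ M)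
    (hstep : ∀ X ≤ N, P ≤ (X + 1) / 2 → 2 ≤ X → S X ≤ S ((X + 1) / 2) + 2 * (((X + 1) / 2 : ℕ) : ℝ) ^ σ) (hP : 2 ≤ P) :
    ∀ X ≤ N, S X ≤ M + K * (X : ℝ) ^ σ := by
  intro X
  induction X using Nat.strong_induction_on with
  | _ X ih =>
    intro hXN
    have hK0 : 0 ≤ K * (X : ℝ) ^ σ := by positivity
    by_cases h1 : (X + 1) / 2 < P
    · have := hsmall X hXN h1
      linarith
    · push Not at h1
      have hX3 : 3 ≤ X := by omega
      have h2 := ih ((X + 1) / 2) (by omega) (by omega)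
      have h3 := hstep X hXN h1 (by omega)
      have h4 : (((X + 1) / 2 : ℕ) : ℝ) ≤ 3 / 4 * X := by
        have h5 : 4 * ((X + 1) / 2) ≤ 3 * X := by omega
        have h6 : (4 : ℝ) * (((X + 1) / 2 : ℕ) : ℝ) ≤ 3 * X := by exact_mod_cast h5
        linarith
      have h5 : (((X + 1) / 2 : ℕ) : ℝ) ^ σ ≤ (3 / 4 * (X : ℝ)) ^ σ :=
        Real.rpow_le_rpow (by positivity) h4 (by linarith)
      rw [Real.mul_rpow (by norm_num) (by positivity)] at h5
      have h6 : (3 / 4 : ℝ) ^ σ ≤ 13 / 15 := by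
        have h7 : (3 / 4 : ℝ) ^ σ ≤ (3 / 4 : ℝ) ^ (1 / 2 : ℝ) :=
          Real.rpow_le_rpow_of_exponent_ge (by norm_num) (by norm_num) hσ
        have h8 : (3 / 4 : ℝ) ^ (1 / 2 : ℝ) ≤ 13 / 15 := by
          rw [← Real.sqrt_eq_rpow]
          apply Real.sqrt_le_iff.mpr
          norm_num
        linarith
      have h7 : 0 ≤ (X : ℝ) ^ σ := by positivity
      have h8 : (((X + 1) / 2 : ℕ) : ℝ) ^ σ ≤ 13 / 15 * (X : ℝ) ^ σ := by nlinarith
      nlinarith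

theorem PI_split (P X : ℕ) (h : P ≤ (X + 1) / 2) (M : Type*) [AddCommMonoid M] (f : ℕ → M) :
    ∑ p ∈ PI P X, f p = ∑ p ∈ PI P ((X + 1) / 2), f p + ∑ p ∈ PI ((X + 1) / 2) X, f p := by
  have h1 : PI P X = PI P ((X + 1) / 2) ∪ PI ((X + 1) / 2) X := by
    ext p
    rw [Finset.mem_union, mem_PI, mem_PI, mem_PI]
    constructor
    · rintro ⟨h4, h5, h6⟩
      by_cases h7 : p ≤ (X + 1) / 2
      · exact Or.inl ⟨h4, h5, h7⟩
      · exact Or.inr ⟨h4, by omega, h6⟩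
    · rintro (⟨h4, h5, h6⟩ | ⟨h4, h5, h6⟩)
      · have := h4.two_le
        exact ⟨h4, h5, by omega⟩
      · exact ⟨h4, by omega, h6⟩
  have h2 : Disjoint (PI P ((X + 1) / 2)) (PI ((X + 1) / 2) X) := by
    rw [Finset.disjoint_left]
    intro p hp hp'
    rw [mem_PI] at hp hp'
    omega
  rw [h1, Finset.sum_union h2]

theorem card_PI (a b : ℕ) : ((PI a b).card : ℝ) ≤ b := by
  have h1 : PI a b ⊆ Finset.Icc 1 b := by
    intro p hp
    rw [mem_PI] at hp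
    rw [Finset.mem_Icc]
    exact ⟨hp.1.one_lt.le, hp.2.2⟩
  have h2 := Finset.card_le_card h1
  rw [Nat.card_Icc] at h2
  exact_mod_cast (by omega : (PI a b).card ≤ b)

theorem norm_le_card (A : ℝ) (hA : 0 ≤ A) (y : ℕ → ℝ) (hy : ∀ p : ℕ, p.Prime → |y p| ≤ A) (u : ℂ) (hu : u.re = 0)
    (a b : ℕ) : ‖∑ p ∈ PI a b, (p : ℂ) ^ (-u) * (y p : ℂ)‖ ≤ A * b := by
  refine (norm_sum_le _ _).trans ?_
  have h1 : ∀ p ∈ PI a b, ‖(p : ℂ) ^ (-u) * (y p : ℂ)‖ ≤ A := by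
    intro p hp
    have hpp := (mem_PI.mp hp).1
    rw [norm_mul, Complex.norm_natCast_cpow_of_pos hpp.pos, Complex.neg_re, hu, neg_zero, Real.rpow_zero, one_mul,
      Complex.norm_real, Real.norm_eq_abs]
    exact hy p hpp
  refine (Finset.sum_le_sum h1).trans ?_
  rw [Finset.sum_const, nsmul_eq_mul, mul_comm]
  exact mul_le_mul_of_nonneg_left (card_PI a b) hA

end

/-- **Square-root cancellation for one family.** -/
theorem sum_one (n : ℕ) (A ε : ℝ) (hA : 1 ≤ A) (hε : 0 < ε) (hε1 : ε ≤ 1) : ∀ᶠ H : ℕ in atTop,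
    ∀ (ι : Type) [Fintype ι] [DecidableEq ι], Fintype.card ι = n → ∀ Y : ∀ p : ℕ, (ι → ZMod p) → ℝ,
    (∀ p : ℕ, p.Prime → ∀ r, |Y p r| ≤ A) → (∀ (p : ℕ) [NeZero p], p.Prime → EM p (Y p) = 0) →
    ∃ Ex ⊆ box ι H, (Ex.card : ℝ) ≤ (H : ℝ) ^ (-(ε / 100)) * (box ι H).card ∧
      ∀ c ∈ box ι H \ Ex, ∀ X : ℕ, (X : ℝ) ≤ (H : ℝ) ^ (ε / 200) → ∀ τ : ℝ, |τ| ≤ (H : ℝ) ^ (ε / 200) →
        ‖∑ p ∈ PR X, (p : ℂ) ^ (-((τ : ℂ) * Complex.I)) * (Y p (red p c) : ℂ)‖ ≤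
          16 * (X : ℝ) ^ (1 / 2 + ε) + 8 * A * Real.log H ^ (4 / ε) := by
  have h126 := ev_pow_le (-(2 * ε / 200)) (-(7 * ε / 200)) 126 (by linarith)
  have hbig : ∀ᶠ H : ℕ in atTop, 2 ≤ Real.log H ^ (4 / ε) := by
    have h1 : Tendsto (fun x : ℝ => x ^ (4 / ε)) atTop atTop := tendsto_rpow_atTop (by positivity)
    exact (h1.comp (Real.tendsto_log_atTop.comp tendsto_natCast_atTop_atTop)).eventually (eventually_ge_atTop 2)
  filter_upwards [dev_int n A ε hA hε, h126, hbig, ev_log 4, eventually_ge_atTop 3] with H hdev h126 hbig hl4 hH3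
  intro ι _ _ hcard Y hY hY0
  classical
  have hHr : (3 : ℝ) ≤ H := by exact_mod_cast hH3
  have hH0 : (0 : ℝ) < H := by linarith
  have hA0 : 0 < A := by linarith
  have hl0 : 0 < Real.log H := by linarith
  have hP0l : Real.log H ^ (4 / ε) ≤ ((P0 ε H : ℕ) : ℝ) := Nat.le_ceil _
  have hP0u : ((P0 ε H : ℕ) : ℝ) ≤ 3 / 2 * Real.log H ^ (4 / ε) := by
    have h1 : ((P0 ε H : ℕ) : ℝ) < Real.log H ^ (4 / ε) + 1 := Nat.ceil_lt_add_one (by positivity)
    linarith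
  have hP2 : 2 ≤ P0 ε H := by
    have : (2 : ℝ) ≤ ((P0 ε H : ℕ) : ℝ) := hbig.trans hP0l
    exact_mod_cast this
  have hlogle : 2 * Real.log H ≤ Real.log H ^ (4 / ε) := by
    have h1 : Real.log H ^ (2 : ℝ) ≤ Real.log H ^ (4 / ε) := by
      apply Real.rpow_le_rpow_of_exponent_le (by linarith)
      rw [le_div_iff₀ hε]
      linarith
    rw [Real.rpow_two] at h1
    nlinarith
  have hK1 : (1 : ℝ) ≤ (H : ℝ) ^ (ε / 200) := Real.one_le_rpow (by linarith) (by positivity)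
  have hGu : (GE ε H : ℝ) ≤ 2 * (H : ℝ) ^ (ε / 200) := by
    have h1 : (GE ε H : ℝ) < (H : ℝ) ^ (ε / 200) + 1 := Nat.ceil_lt_add_one (by positivity)
    linarith
  have hGl : (H : ℝ) ^ (ε / 200) ≤ (GE ε H : ℝ) := Nat.le_ceil _
  have hG1r : (1 : ℝ) ≤ GE ε H := by linarith
  have hG1 : 1 ≤ GE ε H := by exact_mod_cast hG1r
  set E0 : ℝ := 7 * (H : ℝ) ^ (-(ε / 20)) * (box ι H).card with hE0
  -- the weights
  set YR : ℤ → ∀ p : ℕ, (ι → ZMod p) → ℝ := fun g p r => ((p : ℂ) ^ (-(gt ε H g))).re * Y p r with hYR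
  set YI : ℤ → ∀ p : ℕ, (ι → ZMod p) → ℝ := fun g p r => ((p : ℂ) ^ (-(gt ε H g))).im * Y p r with hYI
  have hw : ∀ g : ℤ, ∀ p : ℕ, p.Prime → ‖(p : ℂ) ^ (-(gt ε H g))‖ ≤ 1 := by
    intro g p hp
    rw [Complex.norm_natCast_cpow_of_pos hp.pos, Complex.neg_re, gt_re, neg_zero, Real.rpow_zero]
  have hbR : ∀ g : ℤ, ∀ p : ℕ, p.Prime → ∀ r, |YR g p r| ≤ A := by
    intro g p hp r
    have h1 := (Complex.abs_re_le_norm ((p : ℂ) ^ (-(gt ε H g)))).trans (hw g p hp)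
    show |((p : ℂ) ^ (-(gt ε H g))).re * Y p r| ≤ A
    rw [abs_mul]
    have h2 := hY p hp r
    have h3 := abs_nonneg (Y p r)
    nlinarith
  have hbI : ∀ g : ℤ, ∀ p : ℕ, p.Prime → ∀ r, |YI g p r| ≤ A := by
    intro g p hp r
    have h1 := (Complex.abs_im_le_norm ((p : ℂ) ^ (-(gt ε H g)))).trans (hw g p hp)
    show |((p : ℂ) ^ (-(gt ε H g))).im * Y p r| ≤ A
    rw [abs_mul]
    have h2 := hY p hp r
    have h3 := abs_nonneg (Y p r)
    nlinarith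
  have h0R : ∀ g : ℤ, ∀ (p : ℕ) [NeZero p], p.Prime → EM p (YR g p) = 0 := by
    intro g p _ hp
    show EM p (fun r => ((p : ℂ) ^ (-(gt ε H g))).re * Y p r) = 0
    rw [Pool.Agent.Y722.LS.EM_mul, hY0 p hp, mul_zero]
  have h0I : ∀ g : ℤ, ∀ (p : ℕ) [NeZero p], p.Prime → EM p (YI g p) = 0 := by
    intro g p _ hp
    show EM p (fun r => ((p : ℂ) ^ (-(gt ε H g))).im * Y p r) = 0
    rw [Pool.Agent.Y722.LS.EM_mul, hY0 p hp, mul_zero]
  -- the exceptional sets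
  set hf : ℕ → ℕ := fun X => (X + 1) / 2 with hhf
  set FF : (ℤ → ∀ p : ℕ, (ι → ZMod p) → ℝ) → ℤ × ℕ → Finset (ι → ℤ) := fun W g =>
    (box ι H).filter (fun c => ((hf g.2 : ℕ) : ℝ) ^ (1 / 2 + ε) < |∑ p ∈ PI (hf g.2) g.2, W g.1 p (red p c)|) with hFF
  set NN : ℕ := ⌊(H : ℝ) ^ (ε / 200)⌋₊ with hNN
  set GG' : Finset (ℤ × ℕ) := (GI ε H) ×ˢ ((Finset.Icc 1 NN).filter (fun X => P0 ε H ≤ hf X)) with hGG
  have hcF : ∀ W : ℤ → ∀ p : ℕ, (ι → ZMod p) → ℝ, (∀ g : ℤ, ∀ p : ℕ, p.Prime → ∀ r, |W g p r| ≤ A) →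
      (∀ g : ℤ, ∀ (p : ℕ) [NeZero p], p.Prime → EM p (W g p) = 0) → ∀ g ∈ GG', ((FF W g).card : ℝ) ≤ E0 := by
    intro W hW hW0 g hg
    rw [hGG, Finset.mem_product, Finset.mem_filter, Finset.mem_Icc] at hg
    obtain ⟨hg1, ⟨hg2, hg3⟩, hg4⟩ := hg
    have hX : (g.2 : ℝ) ≤ (H : ℝ) ^ (ε / 200) := (Nat.le_floor_iff (by positivity)).mp hg3
    have hPr : ((P0 ε H : ℕ) : ℝ) ≤ ((hf g.2 : ℕ) : ℝ) := by exact_mod_cast hg4
    have hhX : hf g.2 ≤ g.2 := by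
      show (g.2 + 1) / 2 ≤ g.2
      omega
    have hhXr : ((hf g.2 : ℕ) : ℝ) ≤ (g.2 : ℝ) := by exact_mod_cast hhX
    refine hdev ι hcard (hf g.2) (hP0l.trans hPr) ?_ (PI (hf g.2) g.2) ?_ (W g.1)
      (fun p hp => hW g.1 p (mem_PI.mp hp).1) (fun p _ hp => hW0 g.1 p (mem_PI.mp hp).1)
    · calc ((hf g.2 : ℕ) : ℝ) ^ 4 ≤ ((H : ℝ) ^ (ε / 200)) ^ 4 :=
            pow_le_pow_left₀ (by positivity) (hhXr.trans hX) 4
        _ = (H : ℝ) ^ (ε / 50) := by
            rw [← Real.rpow_natCast, ← Real.rpow_mul hH0.le]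
            congr 1
            push_cast
            ring
        _ ≤ (H : ℝ) ^ (2 / 5 : ℝ) := Real.rpow_le_rpow_of_exponent_le (by linarith) (by linarith)
    · intro p hp
      have hp' := mem_PI.mp hp
      refine ⟨hp'.1, hp'.2.1, ?_⟩
      have h1 := hp'.2.2
      have h2 : g.2 ≤ 2 * hf g.2 := by
        show g.2 ≤ 2 * ((g.2 + 1) / 2)
        omega
      omega
  set Ex : Finset (ι → ℤ) := GG'.biUnion (fun g => FF YR g ∪ FF YI g) with hEx
  have hExc : (Ex.card : ℝ) ≤ 2 * GG'.card * E0 := by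
    have h2 : (Ex.card : ℝ) ≤ ∑ g ∈ GG', ((FF YR g ∪ FF YI g).card : ℝ) := by
      exact_mod_cast Finset.card_biUnion_le
    have h3 : ∑ g ∈ GG', ((FF YR g ∪ FF YI g).card : ℝ) ≤ ∑ _g ∈ GG', 2 * E0 := by
      refine Finset.sum_le_sum fun g hg => ?_
      have h4 : ((FF YR g ∪ FF YI g).card : ℝ) ≤ (FF YR g).card + (FF YI g).card := by
        exact_mod_cast Finset.card_union_le _ _
      linarith [hcF YR hbR h0R g hg, hcF YI hbI h0I g hg]
    rw [Finset.sum_const, nsmul_eq_mul] at h3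
    linarith
  have hGc : (GG'.card : ℝ) ≤ 9 * (H : ℝ) ^ (3 * ε / 200) := by
    rw [hGG, Finset.card_product, GI_card]
    have h1 : ((Finset.Icc 1 NN).filter (fun X => P0 ε H ≤ hf X)).card ≤ NN := by
      refine (Finset.card_filter_le _ _).trans ?_
      rw [Nat.card_Icc]
      omega
    have h2 : (((Finset.Icc 1 NN).filter (fun X => P0 ε H ≤ hf X)).card : ℝ) ≤ (H : ℝ) ^ (ε / 200) := by
      have h3 : (NN : ℝ) ≤ (H : ℝ) ^ (ε / 200) := Nat.floor_le (by positivity)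
      have h4 : (((Finset.Icc 1 NN).filter (fun X => P0 ε H ≤ hf X)).card : ℝ) ≤ (NN : ℝ) := by exact_mod_cast h1
      linarith
    push_cast
    have h3 : 2 * ((GE ε H : ℝ) * GE ε H) + 1 ≤ 9 * ((H : ℝ) ^ (ε / 200) * (H : ℝ) ^ (ε / 200)) := by
      have h4 : (GE ε H : ℝ) * GE ε H ≤ (2 * (H : ℝ) ^ (ε / 200)) * (2 * (H : ℝ) ^ (ε / 200)) := by gcongr
      have h5 : (1 : ℝ) ≤ (H : ℝ) ^ (ε / 200) * (H : ℝ) ^ (ε / 200) := one_le_mul_of_one_le_of_one_le hK1 hK1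
      nlinarith
    have e1 : (H : ℝ) ^ (3 * ε / 200) = (H : ℝ) ^ (ε / 200) * (H : ℝ) ^ (ε / 200) * (H : ℝ) ^ (ε / 200) := by
      rw [← Real.rpow_add hH0, ← Real.rpow_add hH0]
      congr 1
      ring
    rw [e1]
    calc (2 * ((GE ε H : ℝ) * GE ε H) + 1) * (((Finset.Icc 1 NN).filter (fun X => P0 ε H ≤ hf X)).card : ℝ) ≤
        (9 * ((H : ℝ) ^ (ε / 200) * (H : ℝ) ^ (ε / 200))) * (H : ℝ) ^ (ε / 200) := by gcongr
      _ = _ := by ring
  refine ⟨Ex, ?_, ?_, ?_⟩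
  · intro c hc
    rw [hEx, Finset.mem_biUnion] at hc
    obtain ⟨g, _, hg⟩ := hc
    rw [Finset.mem_union] at hg
    rcases hg with hg | hg
    · exact (Finset.mem_filter.mp hg).1
    · exact (Finset.mem_filter.mp hg).1
  · refine hExc.trans ?_
    have hb0 : (0 : ℝ) ≤ (box ι H).card := Nat.cast_nonneg _
    have e1 : (H : ℝ) ^ (3 * ε / 200) * (H : ℝ) ^ (-(ε / 20)) = (H : ℝ) ^ (-(7 * ε / 200)) := by
      rw [← Real.rpow_add hH0]
      congr 1
      ring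
    have e2 : (H : ℝ) ^ (-(2 * ε / 200)) = (H : ℝ) ^ (-(ε / 100)) := by
      congr 1
      ring
    rw [e2] at h126
    calc 2 * (GG'.card : ℝ) * E0 ≤ 2 * (9 * (H : ℝ) ^ (3 * ε / 200)) * E0 := by
          apply mul_le_mul_of_nonneg_right _ (by rw [hE0]; positivity)
          linarith
      _ = 126 * ((H : ℝ) ^ (3 * ε / 200) * (H : ℝ) ^ (-(ε / 20))) * (box ι H).card := by
          rw [hE0]
          ring
      _ = 126 * (H : ℝ) ^ (-(7 * ε / 200)) * (box ι H).card := by rw [e1]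
      _ ≤ _ := by gcongr
  · intro c hc X hX τ hτ
    rw [Finset.mem_sdiff, hEx, Finset.mem_biUnion] at hc
    obtain ⟨hcb, hc2⟩ := hc
    push Not at hc2
    obtain ⟨g, hg, hg1⟩ := near_GI ε H hG1 τ hτ
    have hXN : X ≤ NN := (Nat.le_floor_iff (by positivity)).mpr hX
    set y : ℕ → ℝ := fun p => Y p (red p c) with hy
    have hyA : ∀ p : ℕ, p.Prime → |y p| ≤ A := fun p hp => hY p hp _
    -- the sums at the point of the grid
    have hblock : ∀ Z : ℕ, 2 ≤ Z → Z ≤ NN → P0 ε H ≤ (Z + 1) / 2 →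
        ‖∑ p ∈ PI ((Z + 1) / 2) Z, (p : ℂ) ^ (-(gt ε H g)) * (y p : ℂ)‖ ≤
          2 * (((Z + 1) / 2 : ℕ) : ℝ) ^ (1 / 2 + ε) := by
      intro Z hZ2 hZN hZP
      have hmem : (g, Z) ∈ GG' := by
        rw [hGG, Finset.mem_product, Finset.mem_filter, Finset.mem_Icc]
        exact ⟨hg, ⟨by omega, hZN⟩, hZP⟩
      have h5 := hc2 (g, Z) hmem
      rw [Finset.mem_union] at h5
      push Not at h5
      obtain ⟨h6, h7⟩ := h5
      rw [hFF] at h6 h7
      simp only [Finset.mem_filter, not_and, not_lt] at h6 h7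
      have h8 := h6 hcb
      have h9 := h7 hcb
      set D : ℂ := ∑ p ∈ PI ((Z + 1) / 2) Z, (p : ℂ) ^ (-(gt ε H g)) * (y p : ℂ) with hD
      have hDre : D.re = ∑ p ∈ PI ((Z + 1) / 2) Z, YR g p (red p c) := by
        rw [hD, Complex.re_sum]
        refine Finset.sum_congr rfl fun p _ => ?_
        rw [Complex.re_mul_ofReal]
      have hDim : D.im = ∑ p ∈ PI ((Z + 1) / 2) Z, YI g p (red p c) := by
        rw [hD, Complex.im_sum]
        refine Finset.sum_congr rfl fun p _ => ?_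
        rw [Complex.im_mul_ofReal]
      have := Complex.norm_le_abs_re_add_abs_im D
      rw [hDre, hDim] at this
      linarith
    have hchain := halves 16 (A * (2 * P0 ε H)) (1 / 2 + ε) (by linarith) le_rfl
      (fun Z => ‖∑ p ∈ PI (P0 ε H) Z, (p : ℂ) ^ (-(gt ε H g)) * (y p : ℂ)‖) NN (P0 ε H)
      (by
        intro Z _ hZP
        refine (norm_le_card A hA0.le y hyA (gt ε H g) (gt_re ε H g) (P0 ε H) Z).trans ?_
        have : Z ≤ 2 * P0 ε H := by omega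
        have h1 : (Z : ℝ) ≤ 2 * P0 ε H := by exact_mod_cast this
        gcongr)
      (by
        intro Z hZN hZP hZ2
        have h1 := PI_split (P0 ε H) Z hZP ℂ (fun p => (p : ℂ) ^ (-(gt ε H g)) * (y p : ℂ))
        rw [h1]
        refine (norm_add_le _ _).trans ?_
        have := hblock Z hZ2 hZN hZP
        linarith)
      hP2 X hXN
    -- from the grid to the point
    have hsplit : ∑ p ∈ PR X, (p : ℂ) ^ (-(gt ε H g)) * (y p : ℂ) =
        ∑ p ∈ PI 1 (min X (P0 ε H)), (p : ℂ) ^ (-(gt ε H g)) * (y p : ℂ) +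
          ∑ p ∈ PI (P0 ε H) X, (p : ℂ) ^ (-(gt ε H g)) * (y p : ℂ) := by
      have h1 : PR X = PI 1 (min X (P0 ε H)) ∪ PI (P0 ε H) X := by
        ext p
        rw [Finset.mem_union, mem_PI, mem_PI, mem_PR]
        constructor
        · rintro ⟨h2, h3⟩
          by_cases h4 : p ≤ P0 ε H
          · exact Or.inl ⟨h3, h3.one_lt, by omega⟩
          · exact Or.inr ⟨h3, by omega, h2⟩
        · rintro (⟨h2, h3, h4⟩ | ⟨h2, h3, h4⟩)
          · exact ⟨by omega, h2⟩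
          · exact ⟨h4, h2⟩
      have h2 : Disjoint (PI 1 (min X (P0 ε H))) (PI (P0 ε H) X) := by
        rw [Finset.disjoint_left]
        intro p hp hp'
        rw [mem_PI] at hp hp'
        omega
      rw [h1, Finset.sum_union h2]
    have hfirst := norm_le_card A hA0.le y hyA (gt ε H g) (gt_re ε H g) 1 (min X (P0 ε H))
    have hfirst' : A * ((min X (P0 ε H) : ℕ) : ℝ) ≤ A * P0 ε H := by
      have : min X (P0 ε H) ≤ P0 ε H := min_le_right _ _
      gcongr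
    have hdiff : ‖(∑ p ∈ PR X, (p : ℂ) ^ (-((τ : ℂ) * Complex.I)) * (y p : ℂ)) -
        ∑ p ∈ PR X, (p : ℂ) ^ (-(gt ε H g)) * (y p : ℂ)‖ ≤ 2 * A * Real.log H := by
      rw [← Finset.sum_sub_distrib]
      refine (norm_sum_le _ _).trans ?_
      have h8 : ∀ p ∈ PR X, ‖(p : ℂ) ^ (-((τ : ℂ) * Complex.I)) * (y p : ℂ) - (p : ℂ) ^ (-(gt ε H g)) * (y p : ℂ)‖ ≤
          2 * (1 / GE ε H * Real.log H) * A := by
        intro p hp
        obtain ⟨hp1, hpp⟩ := mem_PR.mp hp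
        have hp0 : (0 : ℝ) < p := by exact_mod_cast hpp.pos
        have hpX : (p : ℝ) ≤ (H : ℝ) ^ (ε / 200) := by
          have : (p : ℝ) ≤ X := by exact_mod_cast hp1
          linarith
        have hpH : (p : ℝ) ≤ H := by
          refine hpX.trans ?_
          calc (H : ℝ) ^ (ε / 200) ≤ (H : ℝ) ^ (1 : ℝ) := Real.rpow_le_rpow_of_exponent_le (by linarith) (by linarith)
            _ = H := Real.rpow_one _
        have hlp : Real.log p ≤ Real.log H := Real.log_le_log hp0 hpH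
        have hlp0 : 0 ≤ Real.log p := Real.log_nonneg (by exact_mod_cast hpp.one_lt.le)
        have h9 : 1 / (GE ε H : ℝ) * Real.log p ≤ 1 := by
          rw [one_div_mul_eq_div, div_le_one (by linarith)]
          have h10 : Real.log p ≤ p := (Real.log_le_sub_one_of_pos hp0).trans (by linarith)
          linarith
        have h10 := cpow_near p hpp.one_lt.le ((τ : ℂ) * Complex.I) (gt ε H g) (by rw [gt_re]) (1 / GE ε H) hg1 h9
        rw [← sub_mul, norm_mul, Complex.norm_real, Real.norm_eq_abs]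
        have h11 := hyA p hpp
        calc ‖(p : ℂ) ^ (-((τ : ℂ) * Complex.I)) - (p : ℂ) ^ (-(gt ε H g))‖ * |y p| ≤
            (2 * (1 / GE ε H * Real.log p)) * A := by gcongr
          _ ≤ (2 * (1 / GE ε H * Real.log H)) * A := by gcongr
      refine (Finset.sum_le_sum h8).trans ?_
      rw [Finset.sum_const, nsmul_eq_mul]
      have h12 : ((PR X).card : ℝ) ≤ GE ε H := by
        have h13 : PR X ⊆ Finset.Icc 1 X := by
          intro p hp
          obtain ⟨hp1, hpp⟩ := mem_PR.mp hp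
          rw [Finset.mem_Icc]
          exact ⟨hpp.one_lt.le, hp1⟩
        have h14 := Finset.card_le_card h13
        rw [Nat.card_Icc] at h14
        have h15 : ((PR X).card : ℝ) ≤ (X : ℝ) := by exact_mod_cast (by omega : (PR X).card ≤ X)
        linarith
      have h16 : (0 : ℝ) < GE ε H := by linarith
      calc ((PR X).card : ℝ) * (2 * (1 / GE ε H * Real.log H) * A) ≤
          (GE ε H : ℝ) * (2 * (1 / GE ε H * Real.log H) * A) := by gcongr
        _ = _ := by field_simp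
    have htot := norm_add_le ((∑ p ∈ PR X, (p : ℂ) ^ (-((τ : ℂ) * Complex.I)) * (y p : ℂ)) -
        ∑ p ∈ PR X, (p : ℂ) ^ (-(gt ε H g)) * (y p : ℂ)) (∑ p ∈ PR X, (p : ℂ) ^ (-(gt ε H g)) * (y p : ℂ))
    rw [sub_add_cancel] at htot
    have hsum := norm_add_le (∑ p ∈ PI 1 (min X (P0 ε H)), (p : ℂ) ^ (-(gt ε H g)) * (y p : ℂ))
      (∑ p ∈ PI (P0 ε H) X, (p : ℂ) ^ (-(gt ε H g)) * (y p : ℂ))
    rw [← hsplit] at hsum
    have hfin : A * (P0 ε H : ℝ) + A * (2 * P0 ε H) + 2 * A * Real.log H ≤ 8 * A * Real.log H ^ (4 / ε) := by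
      have h1 : A * (P0 ε H : ℝ) ≤ A * (3 / 2 * Real.log H ^ (4 / ε)) := mul_le_mul_of_nonneg_left hP0u hA0.le
      have h2 : A * (2 * Real.log H) ≤ A * Real.log H ^ (4 / ε) := mul_le_mul_of_nonneg_left hlogle hA0.le
      have h3 : 0 ≤ A * Real.log H ^ (4 / ε) := by positivity
      clear_value E0 FF GG' Ex NN
      linarith
    show ‖∑ p ∈ PR X, (p : ℂ) ^ (-((τ : ℂ) * Complex.I)) * (y p : ℂ)‖ ≤ _
    linarith

end Run7.h328.SEP
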