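import Pool.Agent.Run7.h328.SEP.Sums
import Pool.Agent.Run7.h328.SEP.Engine

/-! # Square-root cancellation for families of local functions -/

set_option autoImplicit false

namespace Run7.h328.SEP

open Finset Filter
open Pool.Agent.Y722.HS (box IH EM red PR mem_PR EM_const EM_mono)
open Pool.Agent.Y722.LS (bb EM_add EM_mul)

/-- the sum of `p^{-1/2}` -/
theorem sum_inv_sqrt (X : ℕ) : ∑ p ∈ PR X, 1 / Real.sqrt p ≤ 2 * Real.sqrt X := by
  have h1 : PR X ⊆ Finset.Ioc 0 X := by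
    intro p hp
    obtain ⟨h1, h2⟩ := mem_PR.mp hp
    rw [Finset.mem_Ioc]
    exact ⟨h2.pos, h1⟩
  refine (Finset.sum_le_sum_of_subset_of_nonneg h1 fun _ _ _ => by positivity).trans ?_
  induction X with
  | zero => simp
  | succ X ih =>
    have hle : PR X ⊆ Finset.Ioc 0 X := by
      intro p hp
      obtain ⟨h1, h2⟩ := mem_PR.mp hp
      rw [Finset.mem_Ioc]
      exact ⟨h2.pos, h1⟩
    rw [Finset.sum_Ioc_succ_top (Nat.zero_le X)]
    have h2 := ih hle
    have h3 : 1 / Real.sqrt ((X + 1 : ℕ) : ℝ) ≤ 2 * Real.sqrt ((X + 1 : ℕ) : ℝ) - 2 * Real.sqrt X := by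
      have h4 : 0 < Real.sqrt ((X + 1 : ℕ) : ℝ) := Real.sqrt_pos.mpr (by positivity)
      have h5 : Real.sqrt X ≤ Real.sqrt ((X + 1 : ℕ) : ℝ) := Real.sqrt_le_sqrt (by push_cast; linarith)
      have h6 : Real.sqrt ((X + 1 : ℕ) : ℝ) * Real.sqrt ((X + 1 : ℕ) : ℝ) = X + 1 := by
        rw [Real.mul_self_sqrt (by positivity)]
        push_cast
        ring
      have h7 : Real.sqrt X * Real.sqrt X = X := Real.mul_self_sqrt (by positivity)
      have h8 : 0 ≤ Real.sqrt X := Real.sqrt_nonneg _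
      rw [div_le_iff₀ h4]
      nlinarith
    linarith

/-- **Square-root cancellation.** -/
theorem sum_fm (n : ℕ) (A ε : ℝ) (hA : 1 ≤ A) (hε : 0 < ε) (hε1 : ε ≤ 1) : ∀ᶠ H : ℕ in atTop,
    ∀ (ι : Type) [Fintype ι] [DecidableEq ι], Fintype.card ι = n → ∀ N B : ∀ p : ℕ, (ι → ZMod p) → ℝ, Fm A N B →
    ∃ Ex ⊆ box ι H, (Ex.card : ℝ) ≤ (H : ℝ) ^ (-(ε / 200)) * (box ι H).card ∧
      ∀ c ∈ box ι H \ Ex, ∀ X : ℕ, (X : ℝ) ≤ (H : ℝ) ^ (ε / 200) →
        ∑ p ∈ PR X, B p (red p c) ≤ 20 * A * ((X : ℝ) ^ (1 / 2 + ε) + Real.log H ^ (4 / ε)) ∧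
        ∀ τ : ℝ, |τ| ≤ (H : ℝ) ^ (ε / 200) →
          ‖∑ p ∈ PR X, (p : ℂ) ^ (-((τ : ℂ) * Complex.I)) * ((p * (N p (red p c) * (1 - B p (red p c))) : ℝ) : ℂ)‖ ≤
            20 * A * ((X : ℝ) ^ (1 / 2 + ε) + Real.log H ^ (4 / ε)) := by
  have h2 := ev_pow_le (-(ε / 200)) (-(ε / 100)) 2 (by linarith)
  filter_upwards [sum_one n (2 * A) ε (by linarith) hε hε1, h2, ev_log 4, eventually_ge_atTop 3] with H hdev h2 hl4 hH3
  intro ι _ _ hcard N B hF
  classical
  have hHr : (3 : ℝ) ≤ H := by exact_mod_cast hH3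
  have hH0 : (0 : ℝ) < H := by linarith
  have hl0 : 0 < Real.log H := by linarith
  have hA0 : 0 < A := by linarith
  set m : ℕ → ℝ := fun p => if h : p.Prime then
    haveI := Fact.mk h
    EM p (fun r => N p r * (1 - B p r)) else 0 with hm
  set b : ℕ → ℝ := fun p => if h : p.Prime then
    haveI := Fact.mk h
    EM p (fun r => B p r) else 0 with hb
  have hmp : ∀ (p : ℕ) (h : p.Prime) [NeZero p], m p = EM p (fun r => N p r * (1 - B p r)) := by
    intro p h _
    rw [hm]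
    simp only
    rw [dif_pos h]
  have hbp : ∀ (p : ℕ) (h : p.Prime) [NeZero p], b p = EM p (fun r => B p r) := by
    intro p h _
    rw [hb]
    simp only
    rw [dif_pos h]
  set Y : ∀ p : ℕ, (ι → ZMod p) → ℝ := fun p r => p * (N p r * (1 - B p r) - m p) with hY
  set Z : ∀ p : ℕ, (ι → ZMod p) → ℝ := fun p r => B p r - b p with hZ
  have b32 : ∀ (p : ℕ), p.Prime → A / (p : ℝ) ^ ((3 : ℝ) / 2) = A / p * (1 / Real.sqrt p) := by
    intro p hp
    have hp0 : (0 : ℝ) < p := by exact_mod_cast hp.pos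
    have h2 : (p : ℝ) ^ ((3 : ℝ) / 2) = p * Real.sqrt p := by
      rw [Real.sqrt_eq_rpow, ← Real.rpow_one_add' hp0.le (by norm_num)]
      norm_num
    rw [h2]
    field_simp
  have hsq1 : ∀ p : ℕ, p.Prime → 1 / Real.sqrt p ≤ 1 := by
    intro p hp
    have hp1 : (1 : ℝ) ≤ p := by exact_mod_cast hp.one_lt.le
    rw [div_le_one (Real.sqrt_pos.mpr (by linarith)), Real.one_le_sqrt]
    exact hp1
  have hB1 : ∀ (p : ℕ), p.Prime → ∀ r, 0 ≤ B p r ∧ B p r ≤ 1 := by
    intro p hp r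
    have := Fact.mk hp
    rcases hF.zero_one p r with h0 | h0 <;> rw [h0] <;> norm_num
  have hb01 : ∀ p : ℕ, p.Prime → 0 ≤ b p ∧ b p ≤ 1 ∧ b p ≤ A / p := by
    intro p hp
    have := Fact.mk hp
    rw [hbp p hp]
    refine ⟨?_, ?_, hF.bad p⟩
    · have := EM_mono p (fun _ => (0 : ℝ)) (B p) (fun r => (hB1 p hp r).1)
      rwa [EM_const] at this
    · have := EM_mono p (B p) (fun _ => (1 : ℝ)) (fun r => (hB1 p hp r).2)
      rwa [EM_const] at this
  obtain ⟨E1, hE11, hE12, hE13⟩ := hdev ι hcard Y (by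
      intro p hp r
      have := Fact.mk hp
      have hp0 : (0 : ℝ) < p := by exact_mod_cast hp.pos
      show |(p : ℝ) * (N p r * (1 - B p r) - m p)| ≤ 2 * A
      rw [abs_mul, abs_of_pos hp0, hmp p hp]
      have h1 : |N p r * (1 - B p r)| ≤ A / p := by
        rcases hF.zero_one p r with h0 | h0
        · rw [h0, sub_zero, mul_one]
          exact hF.le p r h0
        · rw [h0, sub_self, mul_zero, abs_zero]
          positivity
      have h2 := hF.mean p
      have h3 : A / (p : ℝ) ^ ((3 : ℝ) / 2) ≤ A / p := by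
        rw [b32 p hp]
        have := hsq1 p hp
        have h4 : 0 ≤ A / (p : ℝ) := by positivity
        nlinarith
      have h4 := abs_sub (N p r * (1 - B p r)) (EM p (fun r => N p r * (1 - B p r)))
      have h5 : |N p r * (1 - B p r) - EM p (fun r => N p r * (1 - B p r))| ≤ 2 * (A / p) := by linarith
      calc (p : ℝ) * |N p r * (1 - B p r) - EM p (fun r => N p r * (1 - B p r))| ≤ p * (2 * (A / p)) := by gcongr
        _ = 2 * A := by field_simp)
    (by
      intro p _ hp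
      have := Fact.mk hp
      show EM p (fun r => (p : ℝ) * (N p r * (1 - B p r) - m p)) = 0
      rw [EM_mul, hmp p hp, EM_sub_const p (fun r => N p r * (1 - B p r)), mul_zero])
  obtain ⟨E2, hE21, hE22, hE23⟩ := hdev ι hcard Z (by
      intro p hp r
      show |B p r - b p| ≤ 2 * A
      have h1 := hB1 p hp r
      have h2 := hb01 p hp
      rw [abs_le]
      constructor <;> linarith [h1.1, h1.2, h2.1, h2.2.1])
    (by
      intro p _ hp
      have := Fact.mk hp
      show EM p (fun r => B p r - b p) = 0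
      rw [hbp p hp]
      exact EM_sub_const p (B p))
  have hPRX : ∀ X : ℕ, 1 ≤ X → Real.sqrt X ≤ (X : ℝ) ^ (1 / 2 + ε) := by
    intro X hX
    rw [Real.sqrt_eq_rpow]
    exact Real.rpow_le_rpow_of_exponent_le (by exact_mod_cast hX) (by linarith)
  have hPRX' : ∀ X : ℕ, Real.sqrt X ≤ (X : ℝ) ^ (1 / 2 + ε) := by
    intro X
    rcases Nat.eq_zero_or_pos X with h0 | h0
    · rw [h0]
      simp only [Nat.cast_zero, Real.sqrt_zero]
      positivity
    · exact hPRX X h0
  refine ⟨E1 ∪ E2, Finset.union_subset hE11 hE21, ?_, ?_⟩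
  · have h3 : ((E1 ∪ E2).card : ℝ) ≤ E1.card + E2.card := by exact_mod_cast Finset.card_union_le _ _
    have h4 : (E1.card : ℝ) + E2.card ≤ 2 * (H : ℝ) ^ (-(ε / 100)) * (box ι H).card := by linarith
    have h5 : 2 * (H : ℝ) ^ (-(ε / 100)) * (box ι H).card ≤ (H : ℝ) ^ (-(ε / 200)) * (box ι H).card :=
      mul_le_mul_of_nonneg_right h2 (Nat.cast_nonneg _)
    linarith
  · intro c hc X hX
    rw [Finset.mem_sdiff, Finset.mem_union, not_or] at hc
    have hc1 : c ∈ box ι H \ E1 := Finset.mem_sdiff.mpr ⟨hc.1, hc.2.1⟩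
    have hc2 : c ∈ box ι H \ E2 := Finset.mem_sdiff.mpr ⟨hc.1, hc.2.2⟩
    have hsX := sum_inv_sqrt X
    have hsX2 := hPRX' X
    have hX0 : 0 ≤ (X : ℝ) ^ (1 / 2 + ε) := by positivity
    have hL0 : 0 ≤ Real.log H ^ (4 / ε) := by positivity
    have hH1 : (0 : ℝ) ≤ (H : ℝ) ^ (ε / 200) := by positivity
    refine ⟨?_, ?_⟩
    · have h1 := hE23 c hc2 X hX 0 (by rw [abs_zero]; exact hH1)
      have e1 : ∑ p ∈ PR X, (p : ℂ) ^ (-(((0 : ℝ) : ℂ) * Complex.I)) * (Z p (red p c) : ℂ) =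
          ((∑ p ∈ PR X, Z p (red p c) : ℝ) : ℂ) := by
        rw [Complex.ofReal_sum]
        refine Finset.sum_congr rfl fun p _ => ?_
        simp
      rw [e1, Complex.norm_real, Real.norm_eq_abs] at h1
      have h3 := (abs_le.mp h1).2
      have e2 : ∑ p ∈ PR X, B p (red p c) = ∑ p ∈ PR X, Z p (red p c) + ∑ p ∈ PR X, b p := by
        rw [← Finset.sum_add_distrib]
        refine Finset.sum_congr rfl fun p _ => ?_
        show B p (red p c) = (B p (red p c) - b p) + b p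
        ring
      have h4 : ∑ p ∈ PR X, b p ≤ A * (2 * Real.sqrt X) := by
        have h5 : ∀ p ∈ PR X, b p ≤ A * (1 / Real.sqrt p) := by
          intro p hp
          have hpp := (mem_PR.mp hp).2
          have hp1 : (1 : ℝ) ≤ p := by exact_mod_cast hpp.one_lt.le
          refine (hb01 p hpp).2.2.trans ?_
          rw [div_eq_mul_one_div]
          apply mul_le_mul_of_nonneg_left _ hA0.le
          apply one_div_le_one_div_of_le (Real.sqrt_pos.mpr (by linarith))
          rw [Real.sqrt_le_left (by linarith)]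
          nlinarith
        refine (Finset.sum_le_sum h5).trans ?_
        rw [← Finset.mul_sum]
        gcongr
      rw [e2]
      have h6 : A * (2 * Real.sqrt X) ≤ 2 * A * (X : ℝ) ^ (1 / 2 + ε) := by nlinarith
      have h7 : 16 * (X : ℝ) ^ (1 / 2 + ε) ≤ 16 * A * (X : ℝ) ^ (1 / 2 + ε) := by nlinarith
      have h8 : 0 ≤ A * (X : ℝ) ^ (1 / 2 + ε) := by positivity
      have h9 : 0 ≤ A * Real.log H ^ (4 / ε) := by positivity
      have e3 : 20 * A * ((X : ℝ) ^ (1 / 2 + ε) + Real.log H ^ (4 / ε)) =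
          20 * (A * (X : ℝ) ^ (1 / 2 + ε)) + 20 * (A * Real.log H ^ (4 / ε)) := by ring
      rw [e3]
      linarith
    · intro τ hτ
      have h1 := hE13 c hc1 X hX τ hτ
      have e2 : ∑ p ∈ PR X, (p : ℂ) ^ (-((τ : ℂ) * Complex.I)) *
          ((p * (N p (red p c) * (1 - B p (red p c))) : ℝ) : ℂ) =
          ∑ p ∈ PR X, (p : ℂ) ^ (-((τ : ℂ) * Complex.I)) * (Y p (red p c) : ℂ) +
            ∑ p ∈ PR X, (p : ℂ) ^ (-((τ : ℂ) * Complex.I)) * ((p * m p : ℝ) : ℂ) := by
        rw [← Finset.sum_add_distrib]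
        refine Finset.sum_congr rfl fun p _ => ?_
        rw [← mul_add, ← Complex.ofReal_add]
        congr 2
        show (p : ℝ) * (N p (red p c) * (1 - B p (red p c))) =
          (p : ℝ) * (N p (red p c) * (1 - B p (red p c)) - m p) + p * m p
        ring
      have h4 : ‖∑ p ∈ PR X, (p : ℂ) ^ (-((τ : ℂ) * Complex.I)) * ((p * m p : ℝ) : ℂ)‖ ≤ A * (2 * Real.sqrt X) := by
        refine (norm_sum_le _ _).trans ?_
        have h5 : ∀ p ∈ PR X, ‖(p : ℂ) ^ (-((τ : ℂ) * Complex.I)) * ((p * m p : ℝ) : ℂ)‖ ≤ A * (1 / Real.sqrt p) := by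
          intro p hp
          have hpp := (mem_PR.mp hp).2
          have := Fact.mk hpp
          have hp0 : (0 : ℝ) < p := by exact_mod_cast hpp.pos
          have h6 : (-((τ : ℂ) * Complex.I)).re = 0 := by simp
          rw [norm_mul, Complex.norm_natCast_cpow_of_pos hpp.pos, h6, Real.rpow_zero, one_mul,
            Complex.norm_real, Real.norm_eq_abs, abs_mul, abs_of_pos hp0, hmp p hpp]
          have h7 := hF.mean p
          rw [b32 p hpp] at h7
          calc (p : ℝ) * |EM p (fun r => N p r * (1 - B p r))| ≤ p * (A / p * (1 / Real.sqrt p)) := by gcongr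
            _ = A * (1 / Real.sqrt p) := by field_simp
        refine (Finset.sum_le_sum h5).trans ?_
        rw [← Finset.mul_sum]
        gcongr
      rw [e2]
      refine (norm_add_le _ _).trans ?_
      have h6 : A * (2 * Real.sqrt X) ≤ 2 * A * (X : ℝ) ^ (1 / 2 + ε) := by nlinarith
      have h7 : 16 * (X : ℝ) ^ (1 / 2 + ε) ≤ 16 * A * (X : ℝ) ^ (1 / 2 + ε) := by nlinarith
      have h8 : 0 ≤ A * (X : ℝ) ^ (1 / 2 + ε) := by positivity
      have h9 : 0 ≤ A * Real.log H ^ (4 / ε) := by positivity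
      have e3 : 20 * A * ((X : ℝ) ^ (1 / 2 + ε) + Real.log H ^ (4 / ε)) =
          20 * (A * (X : ℝ) ^ (1 / 2 + ε)) + 20 * (A * Real.log H ^ (4 / ε)) := by ring
      rw [e3]
      linarith

end Run7.h328.SEP
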