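import Pool.Agent.Run7.h328.SEP.TupK

/-! # The Tauberian averages of products of powers of hyperelliptic curves with a fixed variety -/

set_option autoImplicit false

namespace Run7.h328.SEP.Taub

open NumberField IsDedekindDomain Finset Filter
open Pool.Agent.H921R2.TatePole (nm two_le_nm)
open Pool.Agent.Y722.HS (box)
open Pool.Agent.V11210.G2 (mm)
open Run7.h328.SEP.Hyp (Ok)
open Run7.h328.SEP.HypK (a1 rv GoodK)
open Run7.h328.SEP.TupK (Ix cp GT hypT_main)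
open Pool.Agent.R433.MD (norm_nm_cpow)

theorem mm_zero (g : ℕ) : mm g 0 0 = 1 := by
  unfold mm Pool.Agent.Y57.FD.Mom.usp Pool.Agent.Y57.FD.Mom.normal
  have : ¬ (0 = 2 * g + 2) := by omega
  simp

theorem mm_one (g : ℕ) : mm g 1 0 = 0 := by
  unfold mm Pool.Agent.Y57.FD.Mom.usp Pool.Agent.Y57.FD.Mom.normal
  have : ¬ (1 = 2 * g + 2) := by omega
  simp [this]

theorem mm_two (g : ℕ) (hg : 1 ≤ g) : mm g 2 0 = 1 := by
  unfold mm Pool.Agent.Y57.FD.Mom.usp Pool.Agent.Y57.FD.Mom.normal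
  have : ¬ (g = 0) := by omega
  simp [this]

/-- the exponents `m` at `l` -/
def kone {n : ℕ} (l : Fin n) (m : ℕ) : Fin n → ℕ × ℕ := fun j => if j = l then (m, 0) else (0, 0)

/-- the exponents `1` at `l` and `l'` -/
def ktwo {n : ℕ} (l l' : Fin n) : Fin n → ℕ × ℕ := fun j => if j = l ∨ j = l' then (1, 0) else (0, 0)

theorem prod_kone {n : ℕ} (l : Fin n) (m : ℕ) (F : Fin n → ℕ × ℕ → ℝ) (hF : ∀ j, F j (0, 0) = 1) :
    ∏ j, F j (kone l m j) = F l (m, 0) := by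
  rw [Finset.prod_eq_single l]
  · unfold kone
    rw [if_pos rfl]
  · intro j _ hj
    unfold kone
    rw [if_neg hj, hF]
  · intro h
    exact absurd (Finset.mem_univ l) h

theorem prod_ktwo {n : ℕ} (l l' : Fin n) (h : l ≠ l') (F : Fin n → ℕ × ℕ → ℝ) (hF : ∀ j, F j (0, 0) = 1) :
    ∏ j, F j (ktwo l l' j) = F l (1, 0) * F l' (1, 0) := by
  classical
  rw [← Finset.prod_subset (Finset.subset_univ ({l, l'} : Finset (Fin n))), Finset.prod_pair h]
  · unfold ktwo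
    rw [if_pos (Or.inl rfl), if_pos (Or.inr rfl)]
  · intro j _ hj
    unfold ktwo
    rw [if_neg, hF]
    simpa using hj

section nf
variable {K : Type} [Field K] [NumberField K] {n : ℕ} (g : Fin n → ℕ)

/-- the normalised coefficient of the curve number `l` -/
noncomputable def al (c : Ix g → 𝓞 K) (l : Fin n) (v : HeightOneSpectrum (𝓞 K)) : ℝ :=
  a1 (𝓞 K ⧸ v.asIdeal) (rv v (cp g l c))

/-- all curves have good reduction -/
def AG (c : Ix g → 𝓞 K) (v : HeightOneSpectrum (𝓞 K)) : Prop := ∀ l, GoodK v (cp g l c)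

open Classical in
theorem GT_kone (l : Fin n) (m : ℕ) (c : Ix g → 𝓞 K) (v : HeightOneSpectrum (𝓞 K)) :
    GT g (kone l m) c v = if AG g c v then al g c l v ^ m - mm (g l) m 0 else 0 := by
  unfold GT
  by_cases h : AG g c v
  · rw [if_pos h, if_pos (show ∀ l, GoodK v (cp g l c) from h)]
    have e1 := prod_kone l m (fun j k => a1 (𝓞 K ⧸ v.asIdeal) (rv v (cp g j c)) ^ k.1 *
      HypK.a2 (𝓞 K ⧸ v.asIdeal) (rv v (cp g j c)) ^ k.2) (fun j => by simp)
    have e2 := prod_kone l m (fun j k => mm (g j) k.1 k.2) (fun j => mm_zero (g j))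
    simp only at e1 e2
    rw [e1, e2, pow_zero, mul_one]
    rfl
  · rw [if_neg h, if_neg (show ¬ ∀ l, GoodK v (cp g l c) from h)]

open Classical in
theorem GT_ktwo (l l' : Fin n) (hl : l ≠ l') (c : Ix g → 𝓞 K) (v : HeightOneSpectrum (𝓞 K)) :
    GT g (ktwo l l') c v = if AG g c v then al g c l v * al g c l' v else 0 := by
  unfold GT
  by_cases h : AG g c v
  · rw [if_pos h, if_pos (show ∀ l, GoodK v (cp g l c) from h)]
    have e1 := prod_ktwo l l' hl (fun j k => a1 (𝓞 K ⧸ v.asIdeal) (rv v (cp g j c)) ^ k.1 *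
      HypK.a2 (𝓞 K ⧸ v.asIdeal) (rv v (cp g j c)) ^ k.2) (fun j => by simp)
    have e2 := prod_ktwo l l' hl (fun j k => mm (g j) k.1 k.2) (fun j => mm_zero (g j))
    simp only at e1 e2
    rw [e1, e2, mm_one, mm_one, pow_zero, mul_one, pow_zero, mul_one, pow_one, pow_one]
    unfold al
    ring
  · rw [if_neg h, if_neg (show ¬ ∀ l, GoodK v (cp g l c) from h)]

theorem ok_kone (l : Fin n) (m : ℕ) (hm : m ≤ 2) (j : Fin n) : Ok (g j) (kone l m j).1 (kone l m j).2 := by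
  unfold kone Ok
  split_ifs
  · exact Or.inl ⟨rfl, by show m ≤ 2 * g j + 3; omega⟩
  · exact Or.inl ⟨rfl, by show 0 ≤ 2 * g j + 3; omega⟩

theorem ok_ktwo (l l' : Fin n) (j : Fin n) : Ok (g j) (ktwo l l' j).1 (ktwo l l' j).2 := by
  unfold ktwo Ok
  split_ifs
  · exact Or.inl ⟨rfl, by show 1 ≤ 2 * g j + 3; omega⟩
  · exact Or.inl ⟨rfl, by show 0 ≤ 2 * g j + 3; omega⟩

end nf

/-- `log H (X ^ (1/2 + ε) + (log H) ^ (4/ε))` -/
theorem log_mul_le (L ε : ℝ) (hL : 1 ≤ L) (hε : 0 < ε) (hε1 : ε ≤ 1) (X : ℕ) :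
    L * ((X : ℝ) ^ (1 / 2 + ε) + L ^ (4 / ε)) ≤ 2 * ((X : ℝ) ^ (1 / 2 + 2 * ε) + L ^ (5 / ε)) := by
  have hL0 : 0 < L := by linarith
  have h1 : L * L ^ (4 / ε) ≤ L ^ (5 / ε) := by
    have e : L * L ^ (4 / ε) = L ^ (1 + 4 / ε) := by
      rw [Real.rpow_add hL0, Real.rpow_one]
    rw [e]
    apply Real.rpow_le_rpow_of_exponent_le hL
    have : 1 ≤ 1 / ε := by
      rw [le_div_iff₀ hε]
      linarith
    have e2 : 5 / ε = 1 / ε + 4 / ε := by ring
    rw [e2]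
    linarith
  have h2 : L * (X : ℝ) ^ (1 / 2 + ε) ≤ (X : ℝ) ^ (1 / 2 + 2 * ε) + L ^ (5 / ε) := by
    have hX0 : (0 : ℝ) ≤ X := Nat.cast_nonneg _
    have h5 : 0 ≤ L ^ (5 / ε) := by positivity
    have h6 : 0 ≤ (X : ℝ) ^ (1 / 2 + 2 * ε) := by positivity
    by_cases h : L ^ (1 / ε) ≤ X
    · have h3 : L ≤ (X : ℝ) ^ ε := by
        have := Real.rpow_le_rpow (by positivity) h hε.le
        rwa [← Real.rpow_mul hL0.le, one_div_mul_cancel hε.ne', Real.rpow_one] at this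
      have hXp : (0 : ℝ) < X := lt_of_lt_of_le (by positivity) h
      have e : (X : ℝ) ^ (1 / 2 + 2 * ε) = (X : ℝ) ^ ε * (X : ℝ) ^ (1 / 2 + ε) := by
        rw [← Real.rpow_add hXp]
        congr 1
        ring
      rw [e]
      have : L * (X : ℝ) ^ (1 / 2 + ε) ≤ (X : ℝ) ^ ε * (X : ℝ) ^ (1 / 2 + ε) :=
        mul_le_mul_of_nonneg_right h3 (by positivity)
      linarith
    · push Not at h
      have h3 : (X : ℝ) ^ (1 / 2 + ε) ≤ (L ^ (1 / ε)) ^ (1 / 2 + ε) :=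
        Real.rpow_le_rpow hX0 h.le (by linarith)
      rw [← Real.rpow_mul hL0.le] at h3
      have e : L * L ^ (1 / ε * (1 / 2 + ε)) = L ^ (1 + 1 / ε * (1 / 2 + ε)) := by
        rw [Real.rpow_add hL0, Real.rpow_one]
      have h4 : L * (X : ℝ) ^ (1 / 2 + ε) ≤ L ^ (1 + 1 / ε * (1 / 2 + ε)) := by
        rw [← e]
        exact mul_le_mul_of_nonneg_left h3 hL0.le
      have h7 : L ^ (1 + 1 / ε * (1 / 2 + ε)) ≤ L ^ (5 / ε) := by
        apply Real.rpow_le_rpow_of_exponent_le hL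
        have h8 : 1 ≤ 1 / ε := by
          rw [le_div_iff₀ hε]
          linarith
        have e2 : 5 / ε = 5 * (1 / ε) := by ring
        have e3 : 1 / ε * (1 / 2 + ε) = 1 / 2 * (1 / ε) + 1 := by
          field_simp
        rw [e2, e3]
        linarith
      linarith
  rw [mul_add]
  have h6 : 0 ≤ (X : ℝ) ^ (1 / 2 + 2 * ε) := by positivity
  linarith


section main
variable {K : Type} [Field K] [NumberField K] {n : ℕ} (g : Fin n → ℕ)

/-- the coefficient -/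
noncomputable def bv (r : Fin n → ℕ) (y : HeightOneSpectrum (𝓞 K) → ℝ) (c : Ix g → 𝓞 K) (v : HeightOneSpectrum (𝓞 K)) : ℝ :=
  ∑ l, ((r l).choose 2 : ℝ) * (al g c l v ^ 2 - 1) +
    ∑ p ∈ (univ : Finset (Fin n × Fin n)).filter (fun p => p.1 < p.2), (r p.1 * r p.2 : ℝ) * (al g c p.1 v * al g c p.2 v) -
    ∑ l, (r l : ℝ) * (al g c l v * (y v / Real.sqrt (nm v)))

/-- the weight of `log` -/
noncomputable def wl (L : ℝ) (v : HeightOneSpectrum (𝓞 K)) : ℝ := min 1 (Real.log (nm v) / L)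

theorem wl_mem (L : ℝ) (hL : 0 < L) (v : HeightOneSpectrum (𝓞 K)) : |wl L v| ≤ 1 := by
  unfold wl
  have h1 : 0 ≤ Real.log (nm v) / L := div_nonneg (Real.log_natCast_nonneg _) hL.le
  rw [abs_of_nonneg (le_min zero_le_one h1)]
  exact min_le_left _ _

theorem wl_eq (L : ℝ) (hL : 0 < L) (v : HeightOneSpectrum (𝓞 K)) (h : Real.log (nm v) ≤ L) :
    Real.log (nm v) = L * wl L v := by
  unfold wl
  rw [min_eq_right (by rw [div_le_one hL]; exact h), mul_div_cancel₀ _ hL.ne']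

/-- the two kinds of weights -/
noncomputable def wa (L : ℝ) (w : HeightOneSpectrum (𝓞 K) → ℂ) (v : HeightOneSpectrum (𝓞 K)) : ℂ := w v * (wl L v : ℂ)

/-- the two kinds of weights -/
noncomputable def wb (L B : ℝ) (w : HeightOneSpectrum (𝓞 K) → ℂ) (y : HeightOneSpectrum (𝓞 K) → ℝ)
    (v : HeightOneSpectrum (𝓞 K)) : ℂ := w v * ((wl L v * (y v / (B * Real.sqrt (nm v))) : ℝ) : ℂ)

theorem wa_le (L : ℝ) (hL : 0 < L) (w : HeightOneSpectrum (𝓞 K) → ℂ) (hw : ∀ v, ‖w v‖ ≤ 1)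
    (v : HeightOneSpectrum (𝓞 K)) : ‖wa L w v‖ ≤ 1 := by
  unfold wa
  rw [norm_mul, Complex.norm_real, Real.norm_eq_abs]
  exact mul_le_one₀ (hw v) (abs_nonneg _) (wl_mem L hL v)

theorem wb_le (L B : ℝ) (hL : 0 < L) (hB : 0 < B) (w : HeightOneSpectrum (𝓞 K) → ℂ) (hw : ∀ v, ‖w v‖ ≤ 1)
    (y : HeightOneSpectrum (𝓞 K) → ℝ) (hy : ∀ v, |y v| ≤ B * Real.sqrt (nm v))
    (v : HeightOneSpectrum (𝓞 K)) : ‖wb L B w y v‖ ≤ 1 := by
  unfold wb
  rw [norm_mul, Complex.norm_real, Real.norm_eq_abs, abs_mul]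
  have hq : 0 < Real.sqrt (nm v) := Real.sqrt_pos.2 (by
    have := two_le_nm v
    exact_mod_cast (by omega : 0 < nm v))
  refine mul_le_one₀ (hw v) (by positivity) (mul_le_one₀ (wl_mem L hL v) (abs_nonneg _) ?_)
  rw [abs_div, abs_of_pos (by positivity : 0 < B * Real.sqrt (nm v)), div_le_one (by positivity)]
  exact hy v

open Classical in
/-- the weighted sum of a local function -/
noncomputable def TS (w : HeightOneSpectrum (𝓞 K) → ℂ) (G : HeightOneSpectrum (𝓞 K) → ℝ) (X : ℕ) (τ : ℝ)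
    (v : HeightOneSpectrum (𝓞 K)) : ℂ :=
  if nm v ≤ X then w v * (G v : ℂ) * ((nm v : ℕ) : ℂ) ^ (-((τ : ℂ) * Complex.I)) else 0

theorem TS_sum (w : HeightOneSpectrum (𝓞 K) → ℂ) (G : HeightOneSpectrum (𝓞 K) → ℝ) (X : ℕ) (τ : ℝ) :
    HasSum (TS w G X τ) (∑' v, TS w G X τ v) :=
  (low_summable _ X fun v hv => by
    unfold TS
    exact if_neg (by omega)).hasSum

open Classical in
theorem decomp (hg : ∀ l, 1 ≤ g l) (r : Fin n → ℕ) (L B : ℝ) (hL : 0 < L) (hB : 0 < B) (w : HeightOneSpectrum (𝓞 K) → ℂ)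
    (y : HeightOneSpectrum (𝓞 K) → ℝ) (c : Ix g → 𝓞 K) (X : ℕ) (hX : Real.log X ≤ L) (τ : ℝ) (v : HeightOneSpectrum (𝓞 K)) :
    (if nm v ≤ X ∧ AG g c v then w v * ((nm v : ℕ) : ℂ) ^ (-((τ : ℂ) * Complex.I)) *
        ((bv g r y c v * Real.log (nm v) : ℝ) : ℂ) else 0) =
      ∑ l, (((r l).choose 2 * L : ℝ) : ℂ) * TS (wa L w) (GT g (kone l 2) c) X τ v +
      ∑ p ∈ (univ : Finset (Fin n × Fin n)).filter (fun p => p.1 < p.2), ((r p.1 * r p.2 * L : ℝ) : ℂ) *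
        TS (wa L w) (GT g (ktwo p.1 p.2) c) X τ v -
      ∑ l, ((r l * B * L : ℝ) : ℂ) * TS (wb L B w y) (GT g (kone l 1) c) X τ v := by
  by_cases hX1 : nm v ≤ X
  · have hq : 0 < nm v := by
      have := two_le_nm v
      omega
    have hlog : Real.log (nm v) = L * wl L v := by
      apply wl_eq L hL v
      refine le_trans ?_ hX
      apply Real.log_le_log (by exact_mod_cast hq)
      exact_mod_cast hX1
    by_cases hG : AG g c v
    · rw [if_pos ⟨hX1, hG⟩]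
      have e1 : ∀ l, TS (wa L w) (GT g (kone l 2) c) X τ v =
          wa L w v * ((al g c l v ^ 2 - 1 : ℝ) : ℂ) * ((nm v : ℕ) : ℂ) ^ (-((τ : ℂ) * Complex.I)) := by
        intro l
        unfold TS
        rw [if_pos hX1, GT_kone, if_pos hG, mm_two (g l) (hg l)]
      have e2 : ∀ l, TS (wb L B w y) (GT g (kone l 1) c) X τ v =
          wb L B w y v * ((al g c l v : ℝ) : ℂ) * ((nm v : ℕ) : ℂ) ^ (-((τ : ℂ) * Complex.I)) := by
        intro l
        unfold TS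
        rw [if_pos hX1, GT_kone, if_pos hG, mm_one, pow_one, sub_zero]
      have e3 : ∀ p ∈ (univ : Finset (Fin n × Fin n)).filter (fun p => p.1 < p.2),
          ((r p.1 * r p.2 * L : ℝ) : ℂ) * TS (wa L w) (GT g (ktwo p.1 p.2) c) X τ v =
          ((r p.1 * r p.2 * L : ℝ) : ℂ) * (wa L w v * ((al g c p.1 v * al g c p.2 v : ℝ) : ℂ) *
            ((nm v : ℕ) : ℂ) ^ (-((τ : ℂ) * Complex.I))) := by
        intro p hp
        rw [Finset.mem_filter] at hp
        unfold TS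
        rw [if_pos hX1, GT_ktwo g p.1 p.2 hp.2.ne, if_pos hG]
      rw [Finset.sum_congr rfl e3]
      simp only [e1, e2]
      rw [hlog]
      unfold bv wa wb
      have hsq : (Real.sqrt (nm v) : ℂ) ≠ 0 := by
        have : Real.sqrt (nm v) ≠ 0 := (Real.sqrt_pos.2 (by exact_mod_cast hq)).ne'
        exact_mod_cast this
      have hBc : (B : ℂ) ≠ 0 := by exact_mod_cast hB.ne'
      have e4 : ∑ l, ((r l * B * L : ℝ) : ℂ) * (w v * ((wl L v * (y v / (B * Real.sqrt (nm v))) : ℝ) : ℂ) *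
          ((al g c l v : ℝ) : ℂ) * ((nm v : ℕ) : ℂ) ^ (-((τ : ℂ) * Complex.I))) =
          w v * ((nm v : ℕ) : ℂ) ^ (-((τ : ℂ) * Complex.I)) * ((L * wl L v : ℝ) : ℂ) *
          ((∑ l, (r l : ℝ) * (al g c l v * (y v / Real.sqrt (nm v))) : ℝ) : ℂ) := by
        push_cast
        rw [Finset.mul_sum]
        refine Finset.sum_congr rfl fun l _ => ?_
        field_simp
      rw [e4]
      have e5 : ∑ l, (((r l).choose 2 * L : ℝ) : ℂ) * (w v * (wl L v : ℂ) * ((al g c l v ^ 2 - 1 : ℝ) : ℂ) *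
          ((nm v : ℕ) : ℂ) ^ (-((τ : ℂ) * Complex.I))) =
          w v * ((nm v : ℕ) : ℂ) ^ (-((τ : ℂ) * Complex.I)) * ((L * wl L v : ℝ) : ℂ) *
          ((∑ l, ((r l).choose 2 : ℝ) * (al g c l v ^ 2 - 1) : ℝ) : ℂ) := by
        push_cast
        rw [Finset.mul_sum]
        refine Finset.sum_congr rfl fun l _ => ?_
        ring
      rw [e5]
      have e6 : ∑ p ∈ (univ : Finset (Fin n × Fin n)).filter (fun p => p.1 < p.2),
          ((r p.1 * r p.2 * L : ℝ) : ℂ) * (w v * (wl L v : ℂ) * ((al g c p.1 v * al g c p.2 v : ℝ) : ℂ) *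
            ((nm v : ℕ) : ℂ) ^ (-((τ : ℂ) * Complex.I))) =
          w v * ((nm v : ℕ) : ℂ) ^ (-((τ : ℂ) * Complex.I)) * ((L * wl L v : ℝ) : ℂ) *
          ((∑ p ∈ (univ : Finset (Fin n × Fin n)).filter (fun p => p.1 < p.2),
            (r p.1 * r p.2 : ℝ) * (al g c p.1 v * al g c p.2 v) : ℝ) : ℂ) := by
        push_cast
        rw [Finset.mul_sum]
        refine Finset.sum_congr rfl fun p _ => ?_
        ring
      rw [e6]
      push_cast
      ring
    · rw [if_neg (fun h => hG h.2)]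
      have e1 : ∀ l m, TS (wa L w) (GT g (kone l m) c) X τ v = 0 := by
        intro l m
        unfold TS
        rw [GT_kone, if_neg hG]
        simp
      have e2 : ∀ l m, TS (wb L B w y) (GT g (kone l m) c) X τ v = 0 := by
        intro l m
        unfold TS
        rw [GT_kone, if_neg hG]
        simp
      have e3 : ∀ p ∈ (univ : Finset (Fin n × Fin n)).filter (fun p => p.1 < p.2),
          ((r p.1 * r p.2 * L : ℝ) : ℂ) * TS (wa L w) (GT g (ktwo p.1 p.2) c) X τ v = 0 := by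
        intro p hp
        rw [Finset.mem_filter] at hp
        unfold TS
        rw [GT_ktwo g p.1 p.2 hp.2.ne, if_neg hG]
        simp
      rw [Finset.sum_eq_zero e3]
      simp only [e1, e2]
      simp
  · rw [if_neg (fun h => hX1 h.1)]
    have e1 : ∀ w' G', TS w' G' X τ v = 0 := by
      intro w' G'
      unfold TS
      rw [if_neg hX1]
    simp only [e1]
    simp

end main

open Classical in
/-- **The Tauberian averages.** -/
theorem taub (n : ℕ) (g : Fin n → ℕ) (hg : ∀ l, 1 ≤ g l) (d : ℕ) : ∃ C : ℝ, 0 < C ∧ ∀ ε : ℝ, 0 < ε → ε ≤ 1 →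
    ∀ᶠ H : ℕ in Filter.atTop,
    ∀ (K : Type) [Field K] [NumberField K], Module.finrank ℚ K = d → ∀ α : Ix g → 𝓞 K, ∀ B : ℝ, 0 < B →
    ∀ W : Finset (HeightOneSpectrum (𝓞 K) → ℂ), (∀ w ∈ W, ∀ v, ‖w v‖ ≤ 1) →
    ∀ 𝒴 : Finset (HeightOneSpectrum (𝓞 K) → ℝ), (∀ y ∈ 𝒴, ∀ v, |y v| ≤ B * Real.sqrt (nm v)) →
    (W.card * (𝒴.card + 1) : ℝ) ≤ (H : ℝ) ^ (ε / 500) →
    ∃ Ex ⊆ box (Ix g) H, (Ex.card : ℝ) ≤ (H : ℝ) ^ (-(ε / 500)) * (box (Ix g) H).card ∧
      ∀ c ∈ box (Ix g) H \ Ex, ∀ w ∈ W, ∀ y ∈ 𝒴, ∀ r : Fin n → ℕ,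
        ∀ X : ℕ, (X : ℝ) ≤ (H : ℝ) ^ (ε / 200) → ∀ τ : ℝ, |τ| ≤ (H : ℝ) ^ (ε / 200) →
        ‖∑' v : HeightOneSpectrum (𝓞 K), if nm v ≤ X ∧ AG g (fun i => α i + (c i : 𝓞 K)) v then
            w v * ((nm v : ℕ) : ℂ) ^ (-((τ : ℂ) * Complex.I)) *
              ((bv g r y (fun i => α i + (c i : 𝓞 K)) v * Real.log (nm v) : ℝ) : ℂ) else 0‖ ≤
          C * ((∑ l, (r l : ℝ)) * (∑ l, (r l : ℝ) + B)) * ((X : ℝ) ^ (1 / 2 + 2 * ε) + Real.log H ^ (5 / ε)) := by
  obtain ⟨C, hC, h⟩ := hypT_main n g d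
  refine ⟨2 * C, by positivity, fun ε hε hε1 => ?_⟩
  filter_upwards [h ε hε hε1, ev_log 1, eventually_ge_atTop 1] with H h hl hH1
  intro K _ _ hK α B hB W hW 𝒴 h𝒴 hcard
  have hHr : (1 : ℝ) ≤ H := by exact_mod_cast hH1
  set L := Real.log H with hL
  have hL0 : 0 < L := by linarith
  set W' : Finset (HeightOneSpectrum (𝓞 K) → ℂ) := W.image (wa L) ∪ (W ×ˢ 𝒴).image (fun q => wb L B q.1 q.2) with hW'
  have hW1 : ∀ w ∈ W', ∀ v, ‖w v‖ ≤ 1 := by
    intro w hw v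
    rw [hW', Finset.mem_union, Finset.mem_image, Finset.mem_image] at hw
    rcases hw with ⟨w0, hw0, rfl⟩ | ⟨q, hq, rfl⟩
    · exact wa_le L hL0 w0 (hW w0 hw0) v
    · rw [Finset.mem_product] at hq
      exact wb_le L B hL0 hB q.1 (hW _ hq.1) q.2 (h𝒴 _ hq.2) v
  have hW2 : (W'.card : ℝ) ≤ (H : ℝ) ^ (ε / 500) := by
    refine le_trans ?_ hcard
    have h1 : W'.card ≤ W.card + (W ×ˢ 𝒴).card :=
      (Finset.card_union_le _ _).trans (Nat.add_le_add Finset.card_image_le Finset.card_image_le)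
    rw [Finset.card_product] at h1
    have h2 : (W'.card : ℝ) ≤ W.card + W.card * 𝒴.card := by exact_mod_cast h1
    linarith
  obtain ⟨Ex, hE1, hE2, hE3⟩ := h K hK α W' hW1 hW2
  refine ⟨Ex, hE1, hE2, fun c hc w hw y hy r X hX τ hτ => ?_⟩
  have hXL : Real.log X ≤ L := by
    rcases Nat.eq_zero_or_pos X with h0 | h0
    · rw [h0, Nat.cast_zero, Real.log_zero]
      exact hL0.le
    · apply Real.log_le_log (by exact_mod_cast h0)
      refine hX.trans ?_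
      calc (H : ℝ) ^ (ε / 200) ≤ (H : ℝ) ^ (1 : ℝ) := Real.rpow_le_rpow_of_exponent_le hHr (by linarith)
        _ = H := Real.rpow_one _
  set c' : Ix g → 𝓞 K := fun i => α i + (c i : 𝓞 K) with hc'
  set Q : ℝ := (X : ℝ) ^ (1 / 2 + ε) + L ^ (4 / ε) with hQ
  have hwa : wa L w ∈ W' := by
    rw [hW', Finset.mem_union, Finset.mem_image]
    exact Or.inl ⟨w, hw, rfl⟩
  have hwb : wb L B w y ∈ W' := by
    rw [hW', Finset.mem_union, Finset.mem_image, Finset.mem_image]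
    exact Or.inr ⟨(w, y), Finset.mem_product.2 ⟨hw, hy⟩, rfl⟩
  have b1 : ∀ l, ‖∑' v, TS (wa L w) (GT g (kone l 2) c') X τ v‖ ≤ C * Q := fun l =>
    hE3 c hc _ hwa (kone l 2) (ok_kone g l 2 le_rfl) X hX τ hτ
  have b2 : ∀ p : Fin n × Fin n, ‖∑' v, TS (wa L w) (GT g (ktwo p.1 p.2) c') X τ v‖ ≤ C * Q := fun p =>
    hE3 c hc _ hwa (ktwo p.1 p.2) (ok_ktwo g p.1 p.2) X hX τ hτ
  have b3 : ∀ l, ‖∑' v, TS (wb L B w y) (GT g (kone l 1) c') X τ v‖ ≤ C * Q := fun l =>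
    hE3 c hc _ hwb (kone l 1) (ok_kone g l 1 (by norm_num)) X hX τ hτ
  have hs : HasSum (fun v : HeightOneSpectrum (𝓞 K) => if nm v ≤ X ∧ AG g c' v then
      w v * ((nm v : ℕ) : ℂ) ^ (-((τ : ℂ) * Complex.I)) * ((bv g r y c' v * Real.log (nm v) : ℝ) : ℂ) else 0)
      (∑ l, (((r l).choose 2 * L : ℝ) : ℂ) * ∑' v, TS (wa L w) (GT g (kone l 2) c') X τ v +
      ∑ p ∈ (univ : Finset (Fin n × Fin n)).filter (fun p => p.1 < p.2), ((r p.1 * r p.2 * L : ℝ) : ℂ) *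
        ∑' v, TS (wa L w) (GT g (ktwo p.1 p.2) c') X τ v -
      ∑ l, ((r l * B * L : ℝ) : ℂ) * ∑' v, TS (wb L B w y) (GT g (kone l 1) c') X τ v) := by
    have e : (fun v : HeightOneSpectrum (𝓞 K) => if nm v ≤ X ∧ AG g c' v then
      w v * ((nm v : ℕ) : ℂ) ^ (-((τ : ℂ) * Complex.I)) * ((bv g r y c' v * Real.log (nm v) : ℝ) : ℂ) else 0) =
      fun v => ∑ l, (((r l).choose 2 * L : ℝ) : ℂ) * TS (wa L w) (GT g (kone l 2) c') X τ v +
      ∑ p ∈ (univ : Finset (Fin n × Fin n)).filter (fun p => p.1 < p.2), ((r p.1 * r p.2 * L : ℝ) : ℂ) *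
        TS (wa L w) (GT g (ktwo p.1 p.2) c') X τ v -
      ∑ l, ((r l * B * L : ℝ) : ℂ) * TS (wb L B w y) (GT g (kone l 1) c') X τ v := by
      funext v
      exact decomp g hg r L B hL0 hB w y c' X hXL τ v
    rw [e]
    exact ((hasSum_sum fun l _ => (TS_sum _ _ X τ).mul_left _).add
      (hasSum_sum fun p _ => (TS_sum _ _ X τ).mul_left _)).sub (hasSum_sum fun l _ => (TS_sum _ _ X τ).mul_left _)
  rw [hs.tsum_eq]
  set R : ℝ := ∑ l, (r l : ℝ) with hR
  have hR0 : 0 ≤ R := Finset.sum_nonneg fun l _ => Nat.cast_nonneg _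
  have hQ0 : 0 ≤ Q := by
    rw [hQ]
    positivity
  have n1 : ‖∑ l, (((r l).choose 2 * L : ℝ) : ℂ) * ∑' v, TS (wa L w) (GT g (kone l 2) c') X τ v‖ ≤
      (∑ l, ((r l).choose 2 : ℝ)) * (L * (C * Q)) := by
    refine (norm_sum_le _ _).trans ?_
    rw [Finset.sum_mul]
    refine Finset.sum_le_sum fun l _ => ?_
    rw [norm_mul, Complex.norm_real, Real.norm_eq_abs, abs_of_nonneg (by positivity), mul_assoc]
    exact mul_le_mul_of_nonneg_left (mul_le_mul_of_nonneg_left (b1 l) hL0.le) (by positivity)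
  have n2 : ‖∑ p ∈ (univ : Finset (Fin n × Fin n)).filter (fun p => p.1 < p.2), ((r p.1 * r p.2 * L : ℝ) : ℂ) *
        ∑' v, TS (wa L w) (GT g (ktwo p.1 p.2) c') X τ v‖ ≤
      (∑ p ∈ (univ : Finset (Fin n × Fin n)).filter (fun p => p.1 < p.2), (r p.1 * r p.2 : ℝ)) * (L * (C * Q)) := by
    refine (norm_sum_le _ _).trans ?_
    rw [Finset.sum_mul]
    refine Finset.sum_le_sum fun p _ => ?_
    rw [norm_mul, Complex.norm_real, Real.norm_eq_abs, abs_of_nonneg (by positivity), mul_assoc (_ * _ : ℝ)]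
    exact mul_le_mul_of_nonneg_left (mul_le_mul_of_nonneg_left (b2 p) hL0.le) (by positivity)
  have n3 : ‖∑ l, ((r l * B * L : ℝ) : ℂ) * ∑' v, TS (wb L B w y) (GT g (kone l 1) c') X τ v‖ ≤
      R * B * (L * (C * Q)) := by
    refine (norm_sum_le _ _).trans ?_
    rw [hR, Finset.sum_mul, Finset.sum_mul]
    refine Finset.sum_le_sum fun l _ => ?_
    rw [norm_mul, Complex.norm_real, Real.norm_eq_abs, abs_of_nonneg (by positivity), mul_assoc (_ * _ : ℝ)]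
    exact mul_le_mul_of_nonneg_left (mul_le_mul_of_nonneg_left (b3 l) hL0.le) (by positivity)
  have n4 : ∑ l, ((r l).choose 2 : ℝ) + ∑ p ∈ (univ : Finset (Fin n × Fin n)).filter (fun p => p.1 < p.2), (r p.1 * r p.2 : ℝ) ≤
      R * R := by
    have e1 : R * R = ∑ p : Fin n × Fin n, (r p.1 * r p.2 : ℝ) := by
      rw [hR, Finset.sum_mul_sum, ← Finset.univ_product_univ, Finset.sum_product]
    have e2 : ∑ l, ((r l).choose 2 : ℝ) ≤
        ∑ p ∈ (univ : Finset (Fin n × Fin n)).filter (fun p => ¬ (p.1 < p.2)), (r p.1 * r p.2 : ℝ) := by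
      have e3 : ∑ l, ((r l).choose 2 : ℝ) ≤ ∑ l, (r l * r l : ℝ) := by
        refine Finset.sum_le_sum fun l _ => ?_
        have : (r l).choose 2 ≤ r l * r l := by
          rw [Nat.choose_two_right]
          calc r l * (r l - 1) / 2 ≤ r l * (r l - 1) := Nat.div_le_self _ _
            _ ≤ r l * r l := Nat.mul_le_mul_left _ (Nat.sub_le _ _)
        exact_mod_cast this
      refine e3.trans ?_
      have e4 : ∑ l, (r l * r l : ℝ) = ∑ p ∈ (univ : Finset (Fin n)).image (fun l => (l, l)), (r p.1 * r p.2 : ℝ) := by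
        rw [Finset.sum_image]
        intro a _ b _ hab
        exact (Prod.mk.inj hab).1
      rw [e4]
      apply Finset.sum_le_sum_of_subset_of_nonneg
      · intro p hp
        rw [Finset.mem_image] at hp
        obtain ⟨l, _, rfl⟩ := hp
        rw [Finset.mem_filter]
        exact ⟨Finset.mem_univ _, lt_irrefl l⟩
      · intro p _ _
        positivity
    rw [e1, ← Finset.sum_filter_add_sum_filter_not (univ : Finset (Fin n × Fin n)) (fun p => p.1 < p.2)]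
    linarith
  have n5 := log_mul_le L ε hl hε hε1 X
  rw [← hQ] at n5
  set Z : ℝ := (X : ℝ) ^ (1 / 2 + 2 * ε) + L ^ (5 / ε) with hZ
  have n6 : L * (C * Q) ≤ 2 * C * Z := by
    calc L * (C * Q) = C * (L * Q) := by ring
      _ ≤ C * (2 * Z) := mul_le_mul_of_nonneg_left n5 hC.le
      _ = _ := by ring
  have hLC : 0 ≤ L * (C * Q) := by positivity
  refine (norm_sub_le _ _).trans ((add_le_add (norm_add_le _ _) le_rfl).trans ?_)
  calc _ ≤ (∑ l, ((r l).choose 2 : ℝ)) * (L * (C * Q)) +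
        (∑ p ∈ (univ : Finset (Fin n × Fin n)).filter (fun p => p.1 < p.2), (r p.1 * r p.2 : ℝ)) * (L * (C * Q)) +
        R * B * (L * (C * Q)) := add_le_add (add_le_add n1 n2) n3
    _ = (∑ l, ((r l).choose 2 : ℝ) + ∑ p ∈ (univ : Finset (Fin n × Fin n)).filter (fun p => p.1 < p.2), (r p.1 * r p.2 : ℝ) +
        R * B) * (L * (C * Q)) := by ring
    _ ≤ (R * R + R * B) * (L * (C * Q)) := mul_le_mul_of_nonneg_right (by linarith) hLC
    _ ≤ (R * R + R * B) * (2 * C * Z) := mul_le_mul_of_nonneg_left n6 (by positivity)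
    _ = _ := by ring

end Run7.h328.SEP.Taub
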