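import Pool.Agent.Run7.h328.SEP.Engine
import Pool.Agent.N534.EC.Laws
import Pool.Agent.N534.EC.Ser

/-! # From traces of Frobenius to the engine -/

set_option autoImplicit false

namespace Run7.h328.SEP

open NumberField IsDedekindDomain Finset Filter
open Pool.Agent.H921R2.TatePole (nm two_le_nm nm_summable below deg nm_eq)
open Pool.Agent.Y722.HS (box IH EM red PR mem_PR EM_const EM_mono p_pos)
open Pool.Agent.Y722.LS (bb EM_add EM_mul Fam)
open Pool.Agent.N534.EC (TrFam Nf Bf dK dK_nonneg Nf_abs fam Nf_eq Nf_small finite_hom EM_sum')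
open Pool.Agent.N534.LF (Loc)

section
variable {K : Type} [Field K] [NumberField K] {ι : Type} [Fintype ι] [DecidableEq ι]
  {S : ∀ (p : ℕ) [Fact p.Prime], (𝓞 K →+* ZMod p) → (ι → ZMod p) → ℝ}
  {D : ∀ (p : ℕ) [Fact p.Prime], (𝓞 K →+* ZMod p) → (ι → ZMod p) → Prop} {C : ℝ} {p0 : ℕ}

theorem EM_Nf (h : TrFam S D C p0) (p : ℕ) [hp : Fact p.Prime] : EM p (fun c => Nf S p0 p c) = 0 := by
  classical
  by_cases hpp : p0 ≤ p
  · have := finite_hom (K := K) p
    let _ : Fintype (𝓞 K →+* ZMod p) := Fintype.ofFinite _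
    have e1 : (fun c => Nf S p0 p c) = fun c => (1 / (p : ℝ) ^ ((3 : ℝ) / 2)) *
        ∑ φ : 𝓞 K →+* ZMod p, S p φ c := by
      funext c
      rw [Nf_eq p hpp]
      ring
    rw [e1, EM_mul, EM_sum', Finset.sum_eq_zero fun φ _ => h.mean p hpp φ, mul_zero]
  · have e1 : (fun c => Nf S p0 p c) = fun _ => 0 := by
      funext c
      exact Nf_small p (fun h => hpp h.2) c
    rw [e1, EM_const]

/-- the constant -/
noncomputable def AA (d C : ℝ) (p0 : ℕ) : ℝ := (1 + p0 + d * C + (d * C) ^ 2) * (1 + d * C)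

theorem one_le_AA (d C : ℝ) (p0 : ℕ) (hd : 0 ≤ d) (hC : 0 ≤ C) : 1 ≤ AA d C p0 := by
  unfold AA
  have h1 : 0 ≤ d * C := by positivity
  have h2 : (0 : ℝ) ≤ p0 := Nat.cast_nonneg _
  have h3 : 0 ≤ (d * C) ^ 2 := by positivity
  nlinarith [mul_nonneg h2 h1, mul_nonneg h1 h1, mul_nonneg h3 h1]

theorem fm_of (h : TrFam S D C p0) : Fm (AA (dK K) C p0) (Nf S p0) (Bf D p0) where
  le := by
    intro p hp r _
    have hp0 := p_pos (p := p)
    have hC := h.C0
    have hd := dK_nonneg (K := K)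
    refine (Nf_abs h p r).trans ?_
    apply div_le_div_of_nonneg_right _ hp0.le
    unfold AA
    have h1 : 0 ≤ dK K * C := by positivity
    have h2 : (0 : ℝ) ≤ p0 := Nat.cast_nonneg _
    nlinarith [mul_nonneg h2 h1, mul_nonneg h1 h1, mul_nonneg (mul_nonneg h1 h1) h1]
  mean := by
    intro p hp
    have hp0 := p_pos (p := p)
    have hp1 : (1 : ℝ) ≤ p := by exact_mod_cast hp.out.one_lt.le
    have hC := h.C0
    have hd := dK_nonneg (K := K)
    have hF := fam h
    have e1 : (fun r => Nf S p0 p r * (1 - Bf D p0 p r)) =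
        fun r => Nf S p0 p r + (-1) * (Nf S p0 p r * Bf D p0 p r) := by
      funext r
      ring
    rw [e1, EM_add p (fun r => Nf S p0 p r) (fun r => (-1) * (Nf S p0 p r * Bf D p0 p r)), EM_Nf h p, EM_mul,
      zero_add, abs_mul, abs_neg, abs_one, one_mul]
    have hb : ∀ r, |Nf S p0 p r * Bf D p0 p r| ≤ (dK K * C / p) * Bf D p0 p r := by
      intro r
      rw [abs_mul, abs_of_nonneg (hF.nonneg p r)]
      exact mul_le_mul_of_nonneg_right (Nf_abs h p r) (hF.nonneg p r)
    have h1 : EM p (fun r => Nf S p0 p r * Bf D p0 p r) ≤ (dK K * C / p) * EM p (fun r => Bf D p0 p r) := by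
      rw [← EM_mul]
      exact EM_mono p _ _ fun r => (le_abs_self _).trans (hb r)
    have h2 : -((dK K * C / p) * EM p (fun r => Bf D p0 p r)) ≤ EM p (fun r => Nf S p0 p r * Bf D p0 p r) := by
      have h3 : -((dK K * C / p) * EM p (fun r => Bf D p0 p r)) =
          EM p (fun r => (-(dK K * C / p)) * Bf D p0 p r) := by
        rw [EM_mul]
        ring
      rw [h3]
      refine EM_mono p _ _ fun r => ?_
      have := (abs_le.mp (hb r)).1
      linarith
    have h3 : |EM p (fun r => Nf S p0 p r * Bf D p0 p r)| ≤ (dK K * C / p) * EM p (fun r => Bf D p0 p r) :=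
      abs_le.mpr ⟨h2, h1⟩
    refine h3.trans ?_
    have h4 := hF.bad p
    have h5 : (dK K * C / p) * EM p (fun r => Bf D p0 p r) ≤
        (dK K * C / p) * ((1 + p0 + dK K * C + (dK K * C) ^ 2) / p) :=
      mul_le_mul_of_nonneg_left h4 (by positivity)
    refine h5.trans ?_
    have h6 : (p : ℝ) ^ ((3 : ℝ) / 2) ≤ (p : ℝ) * p := by
      calc (p : ℝ) ^ ((3 : ℝ) / 2) ≤ (p : ℝ) ^ (2 : ℝ) := Real.rpow_le_rpow_of_exponent_le hp1 (by norm_num)
        _ = (p : ℝ) * p := by
          rw [Real.rpow_two]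
          ring
    rw [div_mul_div_comm]
    have h7 : 0 ≤ dK K * C * (1 + p0 + dK K * C + (dK K * C) ^ 2) := by positivity
    have h8 : dK K * C * (1 + p0 + dK K * C + (dK K * C) ^ 2) ≤ AA (dK K) C p0 := by
      unfold AA
      have h9 : 0 ≤ 1 + (p0 : ℝ) + dK K * C + (dK K * C) ^ 2 := by positivity
      nlinarith
    have h10 : 0 < (p : ℝ) ^ ((3 : ℝ) / 2) := by positivity
    calc dK K * C * (1 + p0 + dK K * C + (dK K * C) ^ 2) / ((p : ℝ) * p) ≤
        dK K * C * (1 + p0 + dK K * C + (dK K * C) ^ 2) / (p : ℝ) ^ ((3 : ℝ) / 2) := by gcongr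
      _ ≤ _ := by gcongr
  zero_one := by
    intro p hp r
    unfold Bf
    split_ifs <;> simp
  bad := by
    intro p hp
    have hp0 := p_pos (p := p)
    have hC := h.C0
    have hd := dK_nonneg (K := K)
    refine ((fam h).bad p).trans ?_
    apply div_le_div_of_nonneg_right _ hp0.le
    unfold AA
    have h9 : 0 ≤ 1 + (p0 : ℝ) + dK K * C + (dK K * C) ^ 2 := by positivity
    have h1 : 0 ≤ dK K * C := by positivity
    nlinarith [mul_nonneg h9 h1]

end

end Run7.h328.SEP
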