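import Pool.Agent.Run7.h328.SEP.DevAll
import Pool.Agent.Y722.LS.Abs

/-! # Uniformity in the complex variable -/

set_option autoImplicit false

namespace Run7.h328.SEP

open Finset Filter
open Pool.Agent.Y722.HS (box IH EM red PR mem_PR)

/-- the number of steps of the grid -/
noncomputable def LL (H : ℕ) : ℕ := ⌈Real.log H⌉₊ ^ 3

/-- the height of the grid -/
noncomputable def TT (H : ℕ) : ℕ := ⌈(H : ℝ) ^ (1 / 200 : ℝ)⌉₊

/-- the grid -/
noncomputable def GG (H : ℕ) : Finset (ℕ × ℤ) :=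
  (range (LL H + 1)) ×ˢ (Finset.Icc (-((TT H * LL H : ℕ) : ℤ)) ((TT H * LL H : ℕ) : ℤ))

/-- the points of the grid -/
noncomputable def gu (H : ℕ) (g : ℕ × ℤ) : ℂ := ((g.1 / LL H : ℝ) : ℂ) + ((g.2 / LL H : ℝ) : ℂ) * Complex.I

theorem gu_re (H : ℕ) (g : ℕ × ℤ) : (gu H g).re = g.1 / LL H := by
  unfold gu
  rw [Complex.add_re, Complex.re_ofReal_mul, Complex.ofReal_re, Complex.I_re, mul_zero, add_zero]

theorem gu_im (H : ℕ) (g : ℕ × ℤ) : (gu H g).im = g.2 / LL H := by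
  unfold gu
  rw [Complex.add_im, Complex.im_ofReal_mul, Complex.ofReal_im, Complex.I_im, mul_one, zero_add]

theorem GG_card (H : ℕ) : (GG H).card = (LL H + 1) * (2 * (TT H * LL H) + 1) := by
  unfold GG
  rw [Finset.card_product, card_range, Int.card_Icc]
  congr 1
  omega

/-- a point of the grid near a given point -/
theorem near_grid (H : ℕ) (hL : 1 ≤ LL H) (u : ℂ) (h0 : 0 ≤ u.re) (h1 : u.re ≤ 1)
    (h2 : |u.im| ≤ (H : ℝ) ^ (1 / 200 : ℝ)) : ∃ g ∈ GG H, 0 ≤ (gu H g).re ∧ ‖u - gu H g‖ ≤ 2 / LL H := by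
  have hL0 : (0 : ℝ) < LL H := by exact_mod_cast hL
  have hT : (H : ℝ) ^ (1 / 200 : ℝ) ≤ TT H := Nat.le_ceil _
  obtain ⟨h3, h4⟩ := abs_le.mp (h2.trans hT)
  set a : ℕ := ⌊u.re * LL H⌋₊ with ha
  set b : ℤ := ⌊u.im * LL H⌋ with hb
  have ha1 : (a : ℝ) ≤ u.re * LL H := Nat.floor_le (by positivity)
  have ha2 : u.re * LL H < a + 1 := Nat.lt_floor_add_one _
  have hb1 : (b : ℝ) ≤ u.im * LL H := Int.floor_le _
  have hb2 : u.im * LL H < b + 1 := Int.lt_floor_add_one _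
  refine ⟨(a, b), ?_, ?_, ?_⟩
  · unfold GG
    rw [Finset.mem_product, Finset.mem_range, Finset.mem_Icc]
    refine ⟨?_, ?_, ?_⟩
    · have : (a : ℝ) ≤ LL H := by nlinarith
      have : a ≤ LL H := by exact_mod_cast this
      omega
    · rw [hb, Int.le_floor]
      push_cast
      nlinarith
    · have h5 : (b : ℝ) ≤ (((TT H * LL H : ℕ) : ℤ) : ℝ) := by
        push_cast
        nlinarith
      exact_mod_cast h5
  · rw [gu_re]
    positivity
  · refine (Complex.norm_le_abs_re_add_abs_im _).trans ?_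
    rw [Complex.sub_re, Complex.sub_im, gu_re, gu_im]
    have e1 : |u.re - (a : ℝ) / LL H| ≤ 1 / LL H := by
      rw [abs_le]
      constructor
      · have : (a : ℝ) / LL H ≤ u.re := by rw [div_le_iff₀ hL0]; exact ha1
        have : (0 : ℝ) ≤ 1 / LL H := by positivity
        linarith
      · have h6 : u.re ≤ (a + 1) / LL H := by rw [le_div_iff₀ hL0]; exact ha2.le
        rw [add_div] at h6
        linarith
    have e2 : |u.im - (b : ℝ) / LL H| ≤ 1 / LL H := by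
      rw [abs_le]
      constructor
      · have : (b : ℝ) / LL H ≤ u.im := by rw [div_le_iff₀ hL0]; exact hb1
        have : (0 : ℝ) ≤ 1 / LL H := by positivity
        linarith
      · have h6 : u.im ≤ (b + 1) / LL H := by rw [le_div_iff₀ hL0]; exact hb2.le
        rw [add_div] at h6
        linarith
    have e3 : (2 : ℝ) / LL H = 1 / LL H + 1 / LL H := by ring
    rw [e3]
    exact add_le_add e1 e2

/-- `p^{-u}` for neighbouring points -/
theorem cpow_near (p : ℕ) (hp : 1 ≤ p) (u v : ℂ) (hv : 0 ≤ v.re) (δ : ℝ) (h : ‖u - v‖ ≤ δ)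
    (h1 : δ * Real.log p ≤ 1) : ‖(p : ℂ) ^ (-u) - (p : ℂ) ^ (-v)‖ ≤ 2 * (δ * Real.log p) := by
  have hp0 : (p : ℂ) ≠ 0 := by exact_mod_cast (by omega : p ≠ 0)
  have hp1 : (1 : ℝ) ≤ p := by exact_mod_cast hp
  have hl : 0 ≤ Real.log p := Real.log_nonneg hp1
  have e1 : (p : ℂ) ^ (-u) = (p : ℂ) ^ (-v) * Complex.exp (-(u - v) * (Real.log p : ℂ)) := by
    rw [Complex.cpow_def_of_ne_zero hp0, Complex.cpow_def_of_ne_zero hp0, ← Complex.exp_add]
    congr 1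
    rw [← Complex.natCast_log]
    ring
  have e2 : (p : ℂ) ^ (-u) - (p : ℂ) ^ (-v) =
      (p : ℂ) ^ (-v) * (Complex.exp (-(u - v) * (Real.log p : ℂ)) - 1) := by
    rw [e1]; ring
  have e3 : ‖(p : ℂ) ^ (-v)‖ ≤ 1 := by
    rw [Complex.norm_natCast_cpow_of_pos (by omega)]
    exact Real.rpow_le_one_of_one_le_of_nonpos hp1 (by simpa using hv)
  have e4 : ‖-(u - v) * (Real.log p : ℂ)‖ ≤ δ * Real.log p := by
    rw [norm_mul, norm_neg, Complex.norm_real, Real.norm_of_nonneg hl]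
    gcongr
  have e5 : ‖Complex.exp (-(u - v) * (Real.log p : ℂ)) - 1‖ ≤ 2 * ‖-(u - v) * (Real.log p : ℂ)‖ :=
    Complex.norm_exp_sub_one_le (e4.trans h1)
  rw [e2, norm_mul]
  calc ‖(p : ℂ) ^ (-v)‖ * ‖Complex.exp (-(u - v) * (Real.log p : ℂ)) - 1‖ ≤
      1 * (2 * ‖-(u - v) * (Real.log p : ℂ)‖) := mul_le_mul e3 e5 (norm_nonneg _) (by norm_num)
    _ ≤ 2 * (δ * Real.log p) := by linarith

/-- the sum of the inverses -/
theorem sum_inv_le (a b : ℕ) : ∑ p ∈ PI a b, 1 / (p : ℝ) ≤ 1 + Real.log b := by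
  have h1 : PI a b ⊆ Finset.Icc 1 b := by
    intro p hp
    rw [mem_PI] at hp
    rw [Finset.mem_Icc]
    exact ⟨hp.1.one_lt.le, hp.2.2⟩
  have h2 : ∑ p ∈ PI a b, 1 / (p : ℝ) ≤ ∑ p ∈ Finset.Icc 1 b, 1 / (p : ℝ) :=
    Finset.sum_le_sum_of_subset_of_nonneg h1 fun _ _ _ => by positivity
  refine h2.trans ?_
  have h3 := harmonic_le_one_add_log b
  rw [harmonic_eq_sum_Icc] at h3
  push_cast at h3
  simpa [one_div] using h3

/-- the change of the variable -/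
theorem lip_sum (H Y : ℕ) (hY2 : Y ≤ H) (A : ℝ) (hA : 0 ≤ A) (x : ℕ → ℝ)
    (hx : ∀ p ∈ PI (y0 H) Y, |x p| ≤ A / p) (u v : ℂ) (hv : 0 ≤ v.re) (huv : ‖u - v‖ ≤ 2 / LL H)
    (hl4 : 4 ≤ Real.log H) (hLl : Real.log H ^ 3 ≤ (LL H : ℝ)) :
    ‖(∑ p ∈ PI (y0 H) Y, (p : ℂ) ^ (-u) * (x p : ℂ)) - ∑ p ∈ PI (y0 H) Y, (p : ℂ) ^ (-v) * (x p : ℂ)‖ ≤
      8 * A / Real.log H := by
  have hl0 : 0 < Real.log H := by linarith
  have hl3 : 2 * Real.log H ≤ Real.log H ^ 3 := by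
    have h1 : Real.log H ^ 3 = Real.log H * Real.log H ^ 2 := by ring
    have h2 : (2 : ℝ) ≤ Real.log H ^ 2 := by nlinarith
    rw [h1]
    nlinarith
  have hL0 : (0 : ℝ) < LL H := by
    have : 0 < Real.log H ^ 3 := by positivity
    linarith
  rw [← Finset.sum_sub_distrib]
  refine (norm_sum_le _ _).trans ?_
  have h8 : ∀ p ∈ PI (y0 H) Y, ‖(p : ℂ) ^ (-u) * (x p : ℂ) - (p : ℂ) ^ (-v) * (x p : ℂ)‖ ≤
      (4 * Real.log H / LL H * A) * (1 / (p : ℝ)) := by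
    intro p hp
    have hpm := mem_PI.mp hp
    have hp1 := hpm.1.one_lt.le
    have hp0 : (0 : ℝ) < p := by exact_mod_cast hpm.1.pos
    have hpH : (p : ℝ) ≤ H := by exact_mod_cast hpm.2.2.trans hY2
    have hlp : Real.log p ≤ Real.log H := Real.log_le_log hp0 hpH
    have hlp0 : 0 ≤ Real.log p := Real.log_nonneg (by exact_mod_cast hp1)
    have h9 : 2 / (LL H : ℝ) * Real.log p ≤ 1 := by
      rw [div_mul_eq_mul_div, div_le_one hL0]
      linarith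
    have h10 := cpow_near p hp1 u v hv (2 / LL H) huv h9
    rw [← sub_mul, norm_mul, Complex.norm_real, Real.norm_eq_abs]
    have h11 := hx p hp
    calc ‖(p : ℂ) ^ (-u) - (p : ℂ) ^ (-v)‖ * |x p| ≤
        (2 * (2 / LL H * Real.log p)) * (A / p) := by gcongr
      _ ≤ (2 * (2 / LL H * Real.log H)) * (A / p) := by gcongr
      _ = _ := by ring
  refine (Finset.sum_le_sum h8).trans ?_
  rw [← Finset.mul_sum]
  have h12 := sum_inv_le (y0 H) Y
  have h13 : Real.log Y ≤ Real.log H := by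
    rcases Nat.eq_zero_or_pos Y with h0 | h0
    · rw [h0]
      simpa using hl0.le
    · apply Real.log_le_log (by exact_mod_cast h0)
      exact_mod_cast hY2
  have h14 : ∑ p ∈ PI (y0 H) Y, 1 / (p : ℝ) ≤ 2 * Real.log H := by linarith
  calc 4 * Real.log H / LL H * A * ∑ p ∈ PI (y0 H) Y, 1 / (p : ℝ) ≤
      4 * Real.log H / Real.log H ^ 3 * A * (2 * Real.log H) := by
        have h15 : 4 * Real.log H / (LL H : ℝ) ≤ 4 * Real.log H / Real.log H ^ 3 := by gcongr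
        gcongr
    _ = _ := by field_simp; ring

/-- **Large deviations, uniformly in the complex variable.** -/
theorem dev_unif (n : ℕ) (A : ℝ) (hA : 1 ≤ A) : ∀ᶠ H : ℕ in atTop, ∃ Y : ℕ, (H : ℝ) ^ (1 / 10 : ℝ) ≤ Y ∧ Y ≤ H ∧
    y0 H ≤ Y ∧ ∀ (ι : Type) [Fintype ι] [DecidableEq ι],
    Fintype.card ι = n → ∀ X Z : ∀ p : ℕ, (ι → ZMod p) → ℝ,
    (∀ p ∈ PI (y0 H) Y, ∀ r, |X p r| ≤ A / p) → (∀ (p : ℕ) [NeZero p], p ∈ PI (y0 H) Y → EM p (X p) = 0) →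
    (∀ p ∈ PI (y0 H) Y, ∀ r, |Z p r| ≤ A / p) → (∀ (p : ℕ) [NeZero p], p ∈ PI (y0 H) Y → EM p (Z p) = 0) →
    ∃ Ex ⊆ box ι H, (Ex.card : ℝ) ≤ (H : ℝ) ^ (-(1 / 200) : ℝ) * (box ι H).card ∧
      ∀ c ∈ box ι H \ Ex, |∑ p ∈ PI (y0 H) Y, Z p (red p c)| ≤ 2 * ((y0 H : ℕ) : ℝ) ^ (-(1 / 8) : ℝ) ∧
        ∀ u : ℂ, 0 ≤ u.re → u.re ≤ 1 → |u.im| ≤ (H : ℝ) ^ (1 / 200 : ℝ) →
          ‖∑ p ∈ PI (y0 H) Y, (p : ℂ) ^ (-u) * (X p (red p c) : ℂ)‖ ≤
            4 * ((y0 H : ℕ) : ℝ) ^ (-(1 / 8) : ℝ) + 8 * A / Real.log H := by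
  have hlo : ∀ᶠ H : ℕ in atTop, 100000 * Real.log H ^ 7 ≤ (H : ℝ) ^ (1 / 400 : ℝ) := by
    have h1 := isLittleO_log_rpow_rpow_atTop (s := 1 / 400) 7 (by norm_num)
    have h2 := h1.bound (c := 1 / 100000) (by norm_num)
    have h3 := tendsto_natCast_atTop_atTop (R := ℝ) |>.eventually h2
    filter_upwards [h3, ev_log 1, eventually_ge_atTop 1] with H hH hl hH1
    have hH0 : (0 : ℝ) < H := by exact_mod_cast hH1
    rw [Real.norm_of_nonneg (by positivity), Real.norm_of_nonneg (by positivity)] at hH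
    have e1 : Real.log H ^ (7 : ℝ) = Real.log H ^ 7 := by
      rw [← Real.rpow_natCast]
      norm_num
    rw [e1] at hH
    linarith
  filter_upwards [dev_all n A hA, hlo, ev_log 4, eventually_ge_atTop 3] with H hdev hlo hl4 hH3
  obtain ⟨Y, hY1, hY2, hY3, hdev⟩ := hdev
  refine ⟨Y, hY1, hY2, hY3, fun ι _ _ hcard X Z hX hX0 hZ hZ0 => ?_⟩
  classical
  have hHr : (3 : ℝ) ≤ H := by exact_mod_cast hH3
  have hH0 : (0 : ℝ) < H := by linarith
  have hA0 : 0 < A := by linarith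
  have hl0 : 0 < Real.log H := by linarith
  set θ : ℝ := 2 * ((y0 H : ℕ) : ℝ) ^ (-(1 / 8) : ℝ) with hθ
  set E0 : ℝ := 7 * Real.log H * (H : ℝ) ^ (-(1 / 80) : ℝ) * (box ι H).card with hE0
  -- the weights
  set XR : (ℕ × ℤ) → ∀ p : ℕ, (ι → ZMod p) → ℝ := fun g p r => ((p : ℂ) ^ (-(gu H g))).re * X p r with hXR
  set XI : (ℕ × ℤ) → ∀ p : ℕ, (ι → ZMod p) → ℝ := fun g p r => ((p : ℂ) ^ (-(gu H g))).im * X p r with hXI
  have hw : ∀ g : ℕ × ℤ, ∀ p ∈ PI (y0 H) Y, ‖(p : ℂ) ^ (-(gu H g))‖ ≤ 1 := by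
    intro g p hp
    have hp1 := (mem_PI.mp hp).1.one_lt.le
    rw [Complex.norm_natCast_cpow_of_pos (by omega)]
    refine Real.rpow_le_one_of_one_le_of_nonpos (by exact_mod_cast hp1) ?_
    rw [Complex.neg_re, gu_re]
    have : (0 : ℝ) ≤ g.1 / LL H := by positivity
    linarith
  have hbR : ∀ g : ℕ × ℤ, ∀ p ∈ PI (y0 H) Y, ∀ r, |XR g p r| ≤ A / p := by
    intro g p hp r
    have h1 := (Complex.abs_re_le_norm ((p : ℂ) ^ (-(gu H g)))).trans (hw g p hp)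
    show |((p : ℂ) ^ (-(gu H g))).re * X p r| ≤ A / p
    rw [abs_mul]
    have h2 := hX p hp r
    have h3 := abs_nonneg (X p r)
    nlinarith
  have hbI : ∀ g : ℕ × ℤ, ∀ p ∈ PI (y0 H) Y, ∀ r, |XI g p r| ≤ A / p := by
    intro g p hp r
    have h1 := (Complex.abs_im_le_norm ((p : ℂ) ^ (-(gu H g)))).trans (hw g p hp)
    show |((p : ℂ) ^ (-(gu H g))).im * X p r| ≤ A / p
    rw [abs_mul]
    have h2 := hX p hp r
    have h3 := abs_nonneg (X p r)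
    nlinarith
  have h0R : ∀ g : ℕ × ℤ, ∀ (p : ℕ) [NeZero p], p ∈ PI (y0 H) Y → EM p (XR g p) = 0 := by
    intro g p _ hp
    show EM p (fun r => ((p : ℂ) ^ (-(gu H g))).re * X p r) = 0
    rw [Pool.Agent.Y722.LS.EM_mul, hX0 p hp, mul_zero]
  have h0I : ∀ g : ℕ × ℤ, ∀ (p : ℕ) [NeZero p], p ∈ PI (y0 H) Y → EM p (XI g p) = 0 := by
    intro g p _ hp
    show EM p (fun r => ((p : ℂ) ^ (-(gu H g))).im * X p r) = 0
    rw [Pool.Agent.Y722.LS.EM_mul, hX0 p hp, mul_zero]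
  set FR : (ℕ × ℤ) → Finset (ι → ℤ) := fun g => (box ι H).filter (fun c => θ < |∑ p ∈ PI (y0 H) Y, XR g p (red p c)|)
    with hFR
  set FI : (ℕ × ℤ) → Finset (ι → ℤ) := fun g => (box ι H).filter (fun c => θ < |∑ p ∈ PI (y0 H) Y, XI g p (red p c)|)
    with hFI
  set FZ : Finset (ι → ℤ) := (box ι H).filter (fun c => θ < |∑ p ∈ PI (y0 H) Y, Z p (red p c)|) with hFZ
  have cR : ∀ g, ((FR g).card : ℝ) ≤ E0 := fun g => hdev ι hcard (XR g) (hbR g) (h0R g)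
  have cI : ∀ g, ((FI g).card : ℝ) ≤ E0 := fun g => hdev ι hcard (XI g) (hbI g) (h0I g)
  have cZ : (FZ.card : ℝ) ≤ E0 := hdev ι hcard Z hZ hZ0
  set Ex : Finset (ι → ℤ) := (GG H).biUnion (fun g => FR g ∪ FI g) ∪ FZ with hEx
  -- the size of the grid
  have hceil : ((⌈Real.log H⌉₊ : ℕ) : ℝ) ≤ 2 * Real.log H := by
    have h1 : ((⌈Real.log H⌉₊ : ℕ) : ℝ) < Real.log H + 1 := Nat.ceil_lt_add_one hl0.le
    linarith
  have hceil' : Real.log H ≤ ((⌈Real.log H⌉₊ : ℕ) : ℝ) := Nat.le_ceil _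
  have hLu : (LL H : ℝ) ≤ 8 * Real.log H ^ 3 := by
    unfold LL
    push_cast
    calc ((⌈Real.log H⌉₊ : ℕ) : ℝ) ^ 3 ≤ (2 * Real.log H) ^ 3 := pow_le_pow_left₀ (by positivity) hceil 3
      _ = _ := by ring
  have hLl : Real.log H ^ 3 ≤ (LL H : ℝ) := by
    unfold LL
    push_cast
    exact pow_le_pow_left₀ hl0.le hceil' 3
  have hL1r : (1 : ℝ) ≤ LL H := by
    have : (1 : ℝ) ≤ Real.log H ^ 3 := one_le_pow₀ (by linarith)
    linarith
  have hL1 : 1 ≤ LL H := by exact_mod_cast hL1r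
  have hK1 : (1 : ℝ) ≤ (H : ℝ) ^ (1 / 200 : ℝ) := Real.one_le_rpow (by linarith) (by norm_num)
  have hTu : (TT H : ℝ) ≤ 2 * (H : ℝ) ^ (1 / 200 : ℝ) := by
    have h1 : (TT H : ℝ) < (H : ℝ) ^ (1 / 200 : ℝ) + 1 := Nat.ceil_lt_add_one (by positivity)
    linarith
  have hT1 : (1 : ℝ) ≤ TT H := by
    have h1 : (H : ℝ) ^ (1 / 200 : ℝ) ≤ (TT H : ℝ) := Nat.le_ceil _
    linarith
  have hGc : ((GG H).card : ℝ) ≤ 768 * Real.log H ^ 6 * (H : ℝ) ^ (1 / 200 : ℝ) := by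
    rw [GG_card]
    push_cast
    have h1 : (LL H : ℝ) + 1 ≤ 2 * LL H := by linarith
    have h2 : 2 * ((TT H : ℝ) * LL H) + 1 ≤ 3 * ((TT H : ℝ) * LL H) := by
      have : (1 : ℝ) ≤ (TT H : ℝ) * LL H := one_le_mul_of_one_le_of_one_le hT1 hL1r
      linarith
    calc ((LL H : ℝ) + 1) * (2 * ((TT H : ℝ) * LL H) + 1) ≤ (2 * LL H) * (3 * ((TT H : ℝ) * LL H)) := by
          gcongr
      _ = 6 * TT H * (LL H : ℝ) ^ 2 := by ring
      _ ≤ 6 * (2 * (H : ℝ) ^ (1 / 200 : ℝ)) * (8 * Real.log H ^ 3) ^ 2 := by gcongr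
      _ = _ := by ring
  have hExc : (Ex.card : ℝ) ≤ (2 * (GG H).card + 1) * E0 := by
    have h1 : (Ex.card : ℝ) ≤ (((GG H).biUnion (fun g => FR g ∪ FI g)).card : ℝ) + (FZ.card : ℝ) := by
      exact_mod_cast Finset.card_union_le _ _
    have h2 : (((GG H).biUnion (fun g => FR g ∪ FI g)).card : ℝ) ≤ ∑ g ∈ GG H, ((FR g ∪ FI g).card : ℝ) := by
      exact_mod_cast Finset.card_biUnion_le
    have h3 : ∑ g ∈ GG H, ((FR g ∪ FI g).card : ℝ) ≤ ∑ _g ∈ GG H, 2 * E0 := by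
      refine Finset.sum_le_sum fun g _ => ?_
      have h4 : ((FR g ∪ FI g).card : ℝ) ≤ (FR g).card + (FI g).card := by
        exact_mod_cast Finset.card_union_le _ _
      linarith [cR g, cI g]
    rw [Finset.sum_const, nsmul_eq_mul] at h3
    linarith
  refine ⟨Ex, ?_, ?_, ?_⟩
  · intro c hc
    rw [hEx, Finset.mem_union, Finset.mem_biUnion] at hc
    rcases hc with ⟨g, _, hg⟩ | hc
    · rw [Finset.mem_union] at hg
      rcases hg with hg | hg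
      · exact (Finset.mem_filter.mp hg).1
      · exact (Finset.mem_filter.mp hg).1
    · exact (Finset.mem_filter.mp hc).1
  · refine hExc.trans ?_
    have hb0 : (0 : ℝ) ≤ (box ι H).card := Nat.cast_nonneg _
    have h1 : 2 * ((GG H).card : ℝ) + 1 ≤ 1537 * Real.log H ^ 6 * (H : ℝ) ^ (1 / 200 : ℝ) := by
      have h2 : (1 : ℝ) ≤ Real.log H ^ 6 * (H : ℝ) ^ (1 / 200 : ℝ) :=
        one_le_mul_of_one_le_of_one_le (one_le_pow₀ (by linarith)) hK1
      nlinarith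
    have e1 : (H : ℝ) ^ (-(1 / 200) : ℝ) = (H : ℝ) ^ (1 / 200 : ℝ) * (H : ℝ) ^ (-(1 / 80) : ℝ) * (H : ℝ) ^ (1 / 400 : ℝ) := by
      rw [← Real.rpow_add hH0, ← Real.rpow_add hH0]
      norm_num
    calc (2 * ((GG H).card : ℝ) + 1) * E0 ≤ (1537 * Real.log H ^ 6 * (H : ℝ) ^ (1 / 200 : ℝ)) * E0 := by
          apply mul_le_mul_of_nonneg_right h1
          rw [hE0]
          positivity
      _ = ((H : ℝ) ^ (1 / 200 : ℝ) * (H : ℝ) ^ (-(1 / 80) : ℝ) * (10759 * Real.log H ^ 7)) * (box ι H).card := by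
          rw [hE0]
          ring
      _ ≤ ((H : ℝ) ^ (1 / 200 : ℝ) * (H : ℝ) ^ (-(1 / 80) : ℝ) * (H : ℝ) ^ (1 / 400 : ℝ)) * (box ι H).card := by
          gcongr
          have : 0 ≤ Real.log H ^ 7 := by positivity
          linarith
      _ = _ := by rw [e1]
  · intro c hc
    rw [Finset.mem_sdiff, hEx, Finset.mem_union, Finset.mem_biUnion] at hc
    obtain ⟨hcb, hc2⟩ := hc
    push Not at hc2
    obtain ⟨hc3, hc4⟩ := hc2
    refine ⟨?_, ?_⟩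
    · rw [hFZ, Finset.mem_filter] at hc4
      push Not at hc4
      exact hc4 hcb
    · intro u hu0 hu1 hu2
      obtain ⟨g, hg, hg0, hg1⟩ := near_grid H hL1 u hu0 hu1 hu2
      have hc5 := hc3 g hg
      rw [Finset.mem_union] at hc5
      push Not at hc5
      obtain ⟨hc6, hc7⟩ := hc5
      rw [hFR] at hc6
      rw [hFI] at hc7
      simp only [Finset.mem_filter, not_and, not_lt] at hc6 hc7
      have h6 := hc6 hcb
      have h7 := hc7 hcb
      set D : ℂ := ∑ p ∈ PI (y0 H) Y, (p : ℂ) ^ (-(gu H g)) * (X p (red p c) : ℂ) with hD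
      have hDre : D.re = ∑ p ∈ PI (y0 H) Y, XR g p (red p c) := by
        rw [hD, Complex.re_sum]
        refine Finset.sum_congr rfl fun p _ => ?_
        rw [Complex.re_mul_ofReal]
      have hDim : D.im = ∑ p ∈ PI (y0 H) Y, XI g p (red p c) := by
        rw [hD, Complex.im_sum]
        refine Finset.sum_congr rfl fun p _ => ?_
        rw [Complex.im_mul_ofReal]
      have hDn : ‖D‖ ≤ 2 * θ := by
        have := Complex.norm_le_abs_re_add_abs_im D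
        rw [hDre, hDim] at this
        linarith
      have hdiff : ‖(∑ p ∈ PI (y0 H) Y, (p : ℂ) ^ (-u) * (X p (red p c) : ℂ)) - D‖ ≤ 8 * A / Real.log H :=
        lip_sum H Y hY2 A hA0.le (fun p => X p (red p c)) (fun p hp => hX p hp _) u (gu H g) hg0 hg1 hl4 hLl
      have := norm_add_le ((∑ p ∈ PI (y0 H) Y, (p : ℂ) ^ (-u) * (X p (red p c) : ℂ)) - D) D
      rw [sub_add_cancel] at this
      rw [hθ] at hDn
      linarith

end Run7.h328.SEP
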