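import Pool.Agent.N647.TS.Law
import Pool.Agent.Y722.HS.Main

/-! # Boxes of integer vectors are well distributed; local functions on residue classes -/

set_option autoImplicit false

namespace Run7.h328.SEP

open Finset
open Pool.Agent.TH894.NE (mean Per mem_box)
open Pool.Agent.Y722.HS (box IH EM red card_red cnt_one_mod prod_near pow_bd)
open Pool.Agent.N647.TS (WellN)

section
variable {ι : Type} [Fintype ι] [DecidableEq ι]

/-- the coordinates -/
noncomputable def ee (ι : Type) [Fintype ι] : Fin (Fintype.card ι) ≃ ι := (Fintype.equivFin ι).symm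

/-- enumeration of the box -/
noncomputable def pt (ι : Type) [Fintype ι] [DecidableEq ι] (H n : ℕ) : ι → ℤ :=
  if h : n < (box ι H).card then ((box ι H).equivFin.symm ⟨n, h⟩ : ι → ℤ) else 0

theorem sum_pt {M : Type*} [AddCommMonoid M] (H : ℕ) (f : (ι → ℤ) → M) :
    ∑ n ∈ range (box ι H).card, f (pt ι H n) = ∑ c ∈ box ι H, f c := by
  rw [Finset.sum_range]
  have h1 : ∀ i : Fin (box ι H).card, f (pt ι H i) = f ((box ι H).equivFin.symm i : ι → ℤ) := by
    intro i
    unfold pt
    rw [dif_pos i.2]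
  rw [Finset.sum_congr rfl fun i _ => h1 i,
    Equiv.sum_comp (box ι H).equivFin.symm (fun c : box ι H => f (c : ι → ℤ)), Finset.sum_coe_sort]

/-- the vector of natural numbers -/
noncomputable def vec (h : ℕ) (c : ι → ℤ) (i : Fin (Fintype.card ι)) : ℕ :=
  (c (ee ι i) % (((2 * h + 1).factorial : ℕ) : ℤ)).toNat

omit [DecidableEq ι] in
theorem vec_cast (h q : ℕ) (hq1 : 1 ≤ q) (hq : q ≤ 2 * h + 1) (c : ι → ℤ) (i : Fin (Fintype.card ι)) :
    ((vec h c i : ℕ) : ZMod q) = ((c (ee ι i) : ℤ) : ZMod q) := by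
  unfold vec
  have hpos : (0 : ℤ) < (((2 * h + 1).factorial : ℕ) : ℤ) := by exact_mod_cast Nat.factorial_pos _
  have h0 := Int.emod_nonneg (c (ee ι i)) hpos.ne'
  have h1 : (((c (ee ι i) % (((2 * h + 1).factorial : ℕ) : ℤ)).toNat : ℕ) : ZMod q) =
      ((c (ee ι i) % (((2 * h + 1).factorial : ℕ) : ℤ) : ℤ) : ZMod q) := by
    rw [← Int.cast_natCast, Int.toNat_of_nonneg h0]
  rw [h1, ZMod.intCast_eq_intCast_iff]
  have hd : (q : ℤ) ∣ (((2 * h + 1).factorial : ℕ) : ℤ) := by
    exact_mod_cast Nat.dvd_factorial hq1 hq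
  exact (Int.mod_modEq _ _).of_dvd hd

/-- a function of the residue class as a function of natural numbers -/
noncomputable def lf (p : ℕ) (X : (ι → ZMod p) → ℝ) (v : Fin (Fintype.card ι) → ℕ) : ℝ :=
  X (fun j => ((v ((ee ι).symm j) : ℕ) : ZMod p))

omit [DecidableEq ι] in
theorem per_lf (p : ℕ) (X : (ι → ZMod p) → ℝ) : Per p (lf p X) := by
  intro v
  unfold lf
  congr 1
  funext j
  rw [ZMod.natCast_mod]

omit [DecidableEq ι] in
theorem lf_vec (h p : ℕ) (hp1 : 1 ≤ p) (hp : p ≤ 2 * h + 1) (X : (ι → ZMod p) → ℝ) (c : ι → ℤ) :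
    lf p X (vec h c) = X (red p c) := by
  unfold lf red
  congr 1
  funext j
  rw [vec_cast h p hp1 hp, Equiv.apply_symm_apply]

theorem mean_lf (p : ℕ) [NeZero p] (X : (ι → ZMod p) → ℝ) :
    mean (Fintype.card ι) p (lf p X) = EM p X := by
  unfold mean EM
  rw [one_div, inv_mul_eq_div]
  congr 1
  refine Finset.sum_nbij' (i := fun v (j : ι) => ((v ((ee ι).symm j) : ℕ) : ZMod p))
    (j := fun r i => (r (ee ι i)).val) ?_ ?_ ?_ ?_ ?_
  · intro v _
    exact mem_univ _
  · intro r _
    rw [mem_box]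
    intro i
    exact ZMod.val_lt _
  · intro v hv
    rw [mem_box] at hv
    funext i
    simp only [Equiv.symm_apply_apply]
    rw [ZMod.val_natCast, Nat.mod_eq_of_lt (hv i)]
  · intro r _
    funext j
    simp only [Equiv.apply_symm_apply]
    rw [ZMod.natCast_val, ZMod.cast_id', id]
  · intro v _
    rfl

/-- **Boxes are well distributed.** -/
theorem wellN_box (H h : ℕ) (hh : 2 ^ Fintype.card ι * (2 * h + 1) ^ 2 ≤ 2 * H + 1) :
    WellN (range (box ι H).card) (fun n => vec h (pt ι H n)) h where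
  pos := by
    rw [card_range]
    have h1 := Pool.Agent.Y722.HS.card_box (ι := ι) H
    have h2 : (0 : ℝ) < ((box ι H).card : ℝ) := by
      rw [h1]
      positivity
    exact_mod_cast h2
  dist := by
    intro q hq1 hq r hr
    have hne : NeZero q := ⟨by omega⟩
    have hcard := Pool.Agent.Y722.HS.card_box (ι := ι) H
    have e1 : #{n ∈ range (box ι H).card | (fun i => vec h (pt ι H n) i % q) = r} =
        #{c ∈ box ι H | red q c = fun j => ((r ((ee ι).symm j) : ℕ) : ZMod q)} := by
      have key : ∀ c : ι → ℤ, ((fun i => vec h c i % q) = r) ↔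
          (red q c = fun j => ((r ((ee ι).symm j) : ℕ) : ZMod q)) := by
        intro c
        have hr' := mem_box.mp hr
        constructor
        · intro h1
          funext j
          have h2 : vec h c ((ee ι).symm j) % q = r ((ee ι).symm j) := congrFun h1 ((ee ι).symm j)
          rw [← h2, ZMod.natCast_mod, vec_cast h q hq1 hq, Equiv.apply_symm_apply]
          rfl
        · intro h1
          funext i
          have h2 := congrFun h1 (ee ι i)
          simp only [Equiv.symm_apply_apply] at h2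
          have h3 := vec_cast h q hq1 hq c i
          have h4 : ((vec h c i : ℕ) : ZMod q) = ((r i : ℕ) : ZMod q) := by
            rw [h3, ← h2]
            rfl
          rw [ZMod.natCast_eq_natCast_iff] at h4
          have h5 : vec h c i % q = r i % q := h4
          rw [h5, Nat.mod_eq_of_lt (hr' i)]
      rw [Finset.card_filter, Finset.card_filter, sum_pt H (fun c => if (fun i => vec h c i % q) = r then 1 else 0)]
      refine Finset.sum_congr rfl fun c _ => ?_
      simp only [key c]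
    rw [e1, card_red, card_range, hcard]
    have hq0 : (0 : ℝ) < q := by exact_mod_cast hq1
    set L : ℝ := (2 * H + 1) / q with hL
    have hL0 : 0 < L := by positivity
    have h2d : (1 : ℝ) ≤ 2 ^ Fintype.card ι := one_le_pow₀ (by norm_num)
    have hhr : (2 : ℝ) ^ Fintype.card ι * (2 * h + 1) ^ 2 ≤ 2 * H + 1 := by exact_mod_cast hh
    have hqr : (q : ℝ) ≤ 2 * h + 1 := by exact_mod_cast hq
    have hh1 : (1 : ℝ) ≤ 2 * h + 1 := by
      have : (0 : ℝ) ≤ h := Nat.cast_nonneg h
      linarith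
    have hqL : 2 ^ Fintype.card ι * (2 * h + 1 : ℝ) ≤ L := by
      rw [hL, le_div_iff₀ hq0]
      calc (2 : ℝ) ^ Fintype.card ι * (2 * h + 1) * q ≤ 2 ^ Fintype.card ι * (2 * h + 1) * (2 * h + 1) := by gcongr
        _ = 2 ^ Fintype.card ι * (2 * h + 1) ^ 2 := by ring
        _ ≤ _ := hhr
    have hL1 : 1 ≤ L := by nlinarith
    have h2 := (prod_near Finset.univ (fun i : ι => ((#{z ∈ IH H | ((z : ℤ) : ZMod q) =
      ((r ((ee ι).symm i) : ℕ) : ZMod q)} : ℕ) : ℝ)) L hL0.le (fun i _ => by positivity)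
      (fun i _ => cnt_one_mod H q _)).2.2
    rw [Finset.card_univ] at h2
    have h3 := pow_bd (Fintype.card ι) (1 / L) (by positivity) (by rw [div_le_one hL0]; exact hL1)
    have h4 : (L + 1) ^ Fintype.card ι = L ^ Fintype.card ι * (1 + 1 / L) ^ Fintype.card ι := by
      rw [← mul_pow]; congr 1; field_simp
    have h5 : (L + 1) ^ Fintype.card ι - L ^ Fintype.card ι ≤ L ^ Fintype.card ι * (2 ^ Fintype.card ι * (1 / L)) := by
      rw [h4]
      have h6 : L ^ Fintype.card ι * (1 + 1 / L) ^ Fintype.card ι ≤ L ^ Fintype.card ι * (1 + (2 ^ Fintype.card ι - 1) * (1 / L)) := by gcongr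
      have h7 : 0 < L ^ Fintype.card ι := by positivity
      have h8 : (0 : ℝ) < 1 / L := by positivity
      nlinarith
    have h9 : L ^ Fintype.card ι = (2 * H + 1 : ℝ) ^ Fintype.card ι * (1 / (q : ℝ) ^ Fintype.card ι) := by
      rw [hL, div_pow]
      ring
    have hT : (0 : ℝ) < (2 * H + 1 : ℝ) ^ Fintype.card ι := by positivity
    have h10 : ((∏ i, #{z ∈ IH H | ((z : ℤ) : ZMod q) = ((r ((ee ι).symm i) : ℕ) : ZMod q)} : ℕ) : ℝ) /
        (2 * H + 1 : ℝ) ^ Fintype.card ι - 1 / (q : ℝ) ^ Fintype.card ι =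
        (((∏ i, #{z ∈ IH H | ((z : ℤ) : ZMod q) = ((r ((ee ι).symm i) : ℕ) : ZMod q)} : ℕ) : ℝ) - L ^ Fintype.card ι) /
          (2 * H + 1 : ℝ) ^ Fintype.card ι := by
      rw [h9, sub_div]
      congr 1
      field_simp
    rw [h10, abs_div, abs_of_pos hT, div_le_iff₀ hT]
    push_cast at h2 ⊢
    refine (h2.trans h5).trans ?_
    rw [h9]
    have h11 : 2 ^ Fintype.card ι * (1 / L) ≤ 1 / (2 * h + 1 : ℝ) := by
      rw [mul_one_div, div_le_div_iff₀ hL0 (by linarith)]
      linarith
    calc (2 * H + 1 : ℝ) ^ Fintype.card ι * (1 / (q : ℝ) ^ Fintype.card ι) * (2 ^ Fintype.card ι * (1 / L)) ≤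
        (2 * H + 1 : ℝ) ^ Fintype.card ι * (1 / (q : ℝ) ^ Fintype.card ι) * (1 / (2 * h + 1)) := by gcongr
      _ = _ := by ring

end

end Run7.h328.SEP
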